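import Mathlib

/-!
# Top sets of a map of a compact space, and the convex geometry of the fibres of `Γ_m → M^m`
-/

set_option autoImplicit false
set_option linter.unusedSectionVars false

open scoped Topology

noncomputable section

namespace TI

variable {M : Type*} {E : Type*} [NormedAddCommGroup E] [InnerProductSpace ℝ E]

/-- The unit sphere of `E`. -/
abbrev Sph (E : Type*) [NormedAddCommGroup E] : Type _ := Metric.sphere (0 : E) 1

/-- The top set of the height function `x ↦ ⟪z, f x⟫`. -/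
def topSet (f : M → E) (z : E) : Set M := {x | ∀ y, inner ℝ z (f y) ≤ inner ℝ z (f x)}

theorem mem_topSet {f : M → E} {z : E} {x : M} :
    x ∈ topSet f z ↔ ∀ y, inner ℝ z (f y) ≤ inner ℝ z (f x) := Iff.rfl

/-- `f` is substantial: its image is in no hyperplane. -/
def Subst (f : M → E) : Prop := ∀ (z : E) (c : ℝ), z ≠ 0 → ∃ x, inner ℝ z (f x) ≠ c

theorem topSet_ne_univ {f : M → E} (hf : Subst f) {z : E} (hz : z ≠ 0) :
    topSet f z ≠ Set.univ := by
  intro h
  rcases isEmpty_or_nonempty M with hM | ⟨⟨x0⟩⟩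
  · obtain ⟨x, -⟩ := hf z 0 hz
    exact hM.false x
  · obtain ⟨x, hx⟩ := hf z (inner ℝ z (f x0)) hz
    have h1 : x ∈ topSet f z := h ▸ Set.mem_univ x
    have h2 : x0 ∈ topSet f z := h ▸ Set.mem_univ x0
    exact hx (le_antisymm (h2 x) (h1 x0))

/-! ## Convexity -/

/-- The cone of the functionals that are maximal at all the points `x i`. -/
def cone {ι : Type*} (f : M → E) (x : ι → M) : Set E := {z | ∀ i, x i ∈ topSet f z}

theorem cone_add {ι : Type*} {f : M → E} {x : ι → M} {z w : E} (hz : z ∈ cone f x)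
    (hw : w ∈ cone f x) : z + w ∈ cone f x := by
  intro i y
  rw [inner_add_left, inner_add_left]
  exact add_le_add (hz i y) (hw i y)

theorem cone_smul {ι : Type*} {f : M → E} {x : ι → M} {z : E} (hz : z ∈ cone f x) {c : ℝ}
    (hc : 0 ≤ c) : c • z ∈ cone f x := by
  intro i y
  rw [inner_smul_left, inner_smul_left]
  exact mul_le_mul_of_nonneg_left (hz i y) (by simpa using hc)

/-- If `c z ∈ cone` with `c > 0` then `z ∈ cone`. -/
theorem cone_of_smul {ι : Type*} {f : M → E} {x : ι → M} {z : E} {c : ℝ} (hc : 0 < c)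
    (hz : c • z ∈ cone f x) : z ∈ cone f x := by
  have := cone_smul hz (inv_nonneg.2 hc.le)
  rwa [smul_smul, inv_mul_cancel₀ hc.ne', one_smul] at this

/-- The cone is pointed. -/
theorem cone_pointed {ι : Type*} [Nonempty ι] {f : M → E} (hf : Subst f) {x : ι → M} {z : E}
    (hz : z ∈ cone f x) (hz' : -z ∈ cone f x) : z = 0 := by
  by_contra h0
  obtain ⟨i⟩ := ‹Nonempty ι›
  obtain ⟨y, hy⟩ := hf z (inner ℝ z (f (x i))) h0
  have h1 := hz i y
  have h2 := hz' i y
  rw [inner_neg_left, inner_neg_left] at h2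
  exact hy (le_antisymm h1 (by linarith))

/-- The segment between two unit vectors of the cone does not meet the origin. -/
theorem segment_ne_zero {ι : Type*} [Nonempty ι] {f : M → E} (hf : Subst f) {x : ι → M}
    {z w : E} (hz : z ∈ cone f x) (hw : w ∈ cone f x) (hz1 : z ≠ 0) (hw1 : w ≠ 0) {t : ℝ}
    (h0 : 0 ≤ t) (h1 : t ≤ 1) : (1 - t) • z + t • w ≠ 0 := by
  intro h
  rcases eq_or_lt_of_le h0 with rfl | ht
  · rw [sub_zero, one_smul, zero_smul, add_zero] at h
    exact hz1 h
  · have h2 : -(t • w) = (1 - t) • z := (eq_neg_of_add_eq_zero_left h).symm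
    have h3 : t • w ∈ cone f x := cone_smul hw h0
    have h4 : -(t • w) ∈ cone f x := h2 ▸ cone_smul hz (by linarith)
    have h5 := cone_pointed hf h3 h4
    exact (smul_ne_zero ht.ne' hw1) h5

/-- Normalisation. -/
def nrm (z : E) : E := ‖z‖⁻¹ • z

theorem norm_nrm {z : E} (hz : z ≠ 0) : ‖nrm z‖ = 1 := by
  rw [nrm, norm_smul, norm_inv, norm_norm, inv_mul_cancel₀ (norm_ne_zero_iff.2 hz)]

theorem nrm_of_norm {z : E} (hz : ‖z‖ = 1) : nrm z = z := by
  rw [nrm, hz, inv_one, one_smul]

theorem nrm_mem_cone {ι : Type*} {f : M → E} {x : ι → M} {z : E} (hz : z ∈ cone f x) :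
    nrm z ∈ cone f x := cone_smul hz (inv_nonneg.2 (norm_nonneg z))

theorem norm_eq_one (z : Sph E) : ‖(z : E)‖ = 1 := by
  have := z.2
  rwa [mem_sphere_zero_iff_norm] at this

theorem coe_ne_zero (z : Sph E) : (z : E) ≠ 0 := by
  intro h
  have := norm_eq_one z
  rw [h, norm_zero] at this
  exact zero_ne_one this

/-! ## The fibres of `Γ_m → M^m` -/

/-- The unit functionals that are maximal at all the points `x i`. -/
def fib {ι : Type*} (f : M → E) (x : ι → M) : Set (Sph E) := {z | ∀ i, x i ∈ topSet f (z : E)}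

theorem mem_fib {ι : Type*} {f : M → E} {x : ι → M} {z : Sph E} :
    z ∈ fib f x ↔ (z : E) ∈ cone f x := Iff.rfl

/-- The fibre `fib f x` is contractible: the normalised straight line homotopy to a point. -/
theorem fib_contract {ι : Type*} [Nonempty ι] {f : M → E} (hf : Subst f) (x : ι → M)
    (w : Sph E) (hw : w ∈ fib f x) : ∃ H : fib f x × unitInterval → fib f x, Continuous H ∧
      (∀ z, H (z, 0) = z) ∧ ∀ z, H (z, 1) = ⟨w, hw⟩ := by
  have hne : ∀ p : fib f x × unitInterval,
      (1 - (p.2 : ℝ)) • ((p.1 : Sph E) : E) + (p.2 : ℝ) • (w : E) ≠ 0 := fun p =>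
    segment_ne_zero hf p.1.2 hw (coe_ne_zero _) (coe_ne_zero _) p.2.2.1 p.2.2.2
  have hmem : ∀ p : fib f x × unitInterval,
      (1 - (p.2 : ℝ)) • ((p.1 : Sph E) : E) + (p.2 : ℝ) • (w : E) ∈ cone f x := fun p =>
    cone_add (cone_smul p.1.2 (by linarith [p.2.2.2])) (cone_smul hw p.2.2.1)
  refine ⟨fun p => ⟨⟨nrm ((1 - (p.2 : ℝ)) • ((p.1 : Sph E) : E) + (p.2 : ℝ) • (w : E)), ?_⟩, ?_⟩,
    ?_, fun z => ?_, fun z => ?_⟩
  · rw [mem_sphere_zero_iff_norm]
    exact norm_nrm (hne p)
  · exact nrm_mem_cone (hmem p)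
  · refine Continuous.subtype_mk (Continuous.subtype_mk ?_ _) _
    have hc : Continuous fun p : fib f x × unitInterval =>
        (1 - (p.2 : ℝ)) • ((p.1 : Sph E) : E) + (p.2 : ℝ) • (w : E) := by fun_prop
    exact (hc.norm.inv₀ fun p => norm_ne_zero_iff.2 (hne p)).smul hc
  · refine Subtype.ext (Subtype.ext ?_)
    simp only [Set.Icc.coe_zero, sub_zero, one_smul, zero_smul, add_zero]
    exact nrm_of_norm (norm_eq_one _)
  · refine Subtype.ext (Subtype.ext ?_)
    simp only [Set.Icc.coe_one, sub_self, one_smul, zero_smul, zero_add]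
    exact nrm_of_norm (norm_eq_one _)

/-! ## Topology -/

variable [TopologicalSpace M]

theorem isClosed_topRel {f : M → E} (hf : Continuous f) :
    IsClosed {p : M × E | p.1 ∈ topSet f p.2} := by
  have : {p : M × E | p.1 ∈ topSet f p.2} =
      ⋂ y : M, {p : M × E | inner ℝ p.2 (f y) ≤ inner ℝ p.2 (f p.1)} := by
    ext p
    simp only [Set.mem_iInter, Set.mem_ofPred_eq, mem_topSet]
  rw [this]
  refine isClosed_iInter fun y => isClosed_le ?_ ?_
  · exact continuous_snd.inner continuous_const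
  · exact continuous_snd.inner (hf.comp continuous_fst)

theorem isClosed_topSet {f : M → E} (hf : Continuous f) (z : E) : IsClosed (topSet f z) :=
  (isClosed_topRel hf).preimage (f := fun x : M => (x, z)) (by fun_prop)

theorem topSet_nonempty [CompactSpace M] [Nonempty M] {f : M → E} (hf : Continuous f) (z : E) :
    (topSet f z).Nonempty := by
  obtain ⟨x, -, hx⟩ := isCompact_univ.exists_isMaxOn Set.univ_nonempty
    (f := fun x : M => (inner ℝ z (f x) : ℝ)) (continuous_const.inner hf).continuousOn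
  exact ⟨x, fun y => hx (Set.mem_univ y)⟩

/-- Upper semicontinuity of the top sets. -/
theorem topSet_usc [CompactSpace M] {f : M → E} (hf : Continuous f) (z : E) (U : Set M)
    (hU : IsOpen U) (h : topSet f z ⊆ U) : ∀ᶠ w in 𝓝 z, topSet f w ⊆ U := by
  have hcl : IsClosed ({p : M × E | p.1 ∈ topSet f p.2} ∩ {p | p.1 ∈ Uᶜ}) :=
    (isClosed_topRel hf).inter (hU.isClosed_compl.preimage continuous_fst)
  have hpr := isClosedMap_snd_of_compactSpace (X := M) (Y := E) _ hcl
  have hz : z ∈ (Prod.snd '' ({p : M × E | p.1 ∈ topSet f p.2} ∩ {p | p.1 ∈ Uᶜ}))ᶜ := by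
    rintro ⟨⟨x, w⟩, ⟨h1, h2⟩, h3⟩
    simp only at h3
    subst h3
    exact h2 (h h1)
  filter_upwards [hpr.isOpen_compl.mem_nhds hz] with w hw x hx
  by_contra hxU
  exact hw ⟨(x, w), ⟨hx, hxU⟩, rfl⟩

/-- `Γ_m`, as a set in `M^m × S`. -/
def Gam {ι : Type*} (f : M → E) : Set ((ι → M) × Sph E) :=
  {p | ∀ i, p.1 i ∈ topSet f (p.2 : E)}

theorem isClosed_Gam {ι : Type*} {f : M → E} (hf : Continuous f) :
    IsClosed (Gam (ι := ι) f) := by
  have : Gam (ι := ι) f = ⋂ i, {p : (ι → M) × Sph E | p.1 i ∈ topSet f (p.2 : E)} := by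
    ext p
    simp only [Gam, Set.mem_iInter, Set.mem_ofPred_eq]
  rw [this]
  refine isClosed_iInter fun i => ?_
  exact (isClosed_topRel hf).preimage
    (f := fun p : (ι → M) × Sph E => (p.1 i, (p.2 : E))) (by fun_prop)

end TI

namespace TI

variable {M : Type*} {E : Type*} [NormedAddCommGroup E] [InnerProductSpace ℝ E]
  [PseudoMetricSpace M]

/-- Upper semicontinuity of the top sets, metric form. -/
theorem topSet_usc_metric [CompactSpace M] {f : M → E} (hf : Continuous f) (z : E) (ε : ℝ)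
    (hε : 0 < ε) : ∃ δ > 0, ∀ w, dist w z < δ → topSet f w ⊆ Metric.thickening ε (topSet f z) := by
  have h := topSet_usc hf z _ (Metric.isOpen_thickening (δ := ε) (E := topSet f z))
    (Metric.self_subset_thickening hε _)
  obtain ⟨δ, hδ, h⟩ := Metric.eventually_nhds_iff.1 h
  exact ⟨δ, hδ, fun w hw => h hw⟩

theorem isCompact_Gam [CompactSpace M] [FiniteDimensional ℝ E] {ι : Type*} {f : M → E}
    (hf : Continuous f) : IsCompact (Gam (ι := ι) f) :=
  (isClosed_Gam hf).isCompact

end TI
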