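import Pool.Agent.VC.Core
import Pool.Agent.TI.Geo

/-!
# The strata of the sphere of functionals are closed
-/

set_option autoImplicit false
set_option linter.unusedSectionVars false
set_option linter.unusedVariables false

open scoped Topology

noncomputable section

namespace TI

open Pool.Agent.VC

section cup

variable {X : Type*} [PseudoMetricSpace X]

/-- Multiplication by a cocycle from the left. -/
theorem Bd_cup_left {i p : ℤ} {A B : Set X} {a c : Cc X} (ha : Cyc i A ∅ a)
    (h : Bd p A B c) : Bd (i + p) A B (cup a c) := by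
  obtain ⟨b, h1, h2, h3⟩ := h
  refine ⟨cup a b, ?_, cup_Z_right a h2, ?_⟩
  · have := cup_Dg ha.deg h1
    rwa [show i + (p - 1) = i + p - 1 by ring] at this
  · rw [dd_cup ha.deg h1]
    have e : cup a c + (cup (dd a) b + cup a (dd b)) = cup a (c + dd b) + cup (dd a) b := by
      rw [cup_add_right]; abel
    rw [e]
    exact add_mem (cup_Z_right a h3) (cup_Z_left b ha.cyc)

/-- Multiplication by a cocycle from the right. -/
theorem Bd_cup_right {i p : ℤ} {A B : Set X} {a c : Cc X} (ha : Cyc i A ∅ a)
    (h : Bd p A B c) : Bd (p + i) A B (cup c a) := by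
  obtain ⟨b, h1, h2, h3⟩ := h
  refine ⟨cup b a, ?_, cup_Z_left a h2, ?_⟩
  · have := cup_Dg h1 ha.deg
    rwa [show p - 1 + i = p + i - 1 by ring] at this
  · rw [dd_cup h1 ha.deg]
    have e : cup c a + (cup (dd b) a + cup b (dd a)) = cup (c + dd b) a + cup b (dd a) := by
      rw [cup_add_left]; abel
    rw [e]
    exact add_mem (cup_Z_left a h3) (cup_Z_right b ha.cyc)

end cup

variable {M : Type*} {E : Type*} [NormedAddCommGroup E] [InnerProductSpace ℝ E]
  [PseudoMetricSpace M] [CompactSpace M]

/-- The set of the functionals `z` for which the class of `c` vanishes on the top set of `z` is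
open. -/
theorem isOpen_bdSet {f : M → E} (hf : Continuous f) (p : ℤ) (c : Cc M) :
    IsOpen {z : Sph E | Bd p (topSet f (z : E)) ∅ c} := by
  rw [Metric.isOpen_iff]
  rintro z ⟨b, hb1, hb2, hb3⟩
  obtain ⟨r, hr, h⟩ := Z_nhds hb3
  obtain ⟨δ, hδ, h'⟩ := topSet_usc_metric hf (z : E) r hr
  exact ⟨δ, hδ, fun w hw => ⟨b, hb1, hb2, h _ (h' _ hw)⟩⟩

/-- The stratum: the functionals `z` for which the class of `c` does not vanish on the top set. -/
def strat (f : M → E) (p : ℤ) (c : Cc M) : Set (Sph E) :=
  {z | ¬ Bd p (topSet f (z : E)) ∅ c}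

theorem isClosed_strat {f : M → E} (hf : Continuous f) (p : ℤ) (c : Cc M) :
    IsClosed (strat f p c) := (isOpen_bdSet hf p c).isClosed_compl

/-- The strata decrease. -/
theorem strat_anti {f : M → E} {i p : ℤ} {a c : Cc M} (ha : Cyc i Set.univ ∅ a) :
    strat f (i + p) (cup a c) ⊆ strat f p c := fun z hz h =>
  hz (Bd_cup_left (ha.mono (Set.subset_univ _) (Set.Subset.refl _)) h)

/-- If the class of `c` vanishes on all proper closed subsets, its stratum is empty. -/
theorem strat_eq_empty {f : M → E} (hf : Continuous f) (hs : Subst f) {p : ℤ} {c : Cc M}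
    (h : ∀ X : Set M, IsClosed X → X ≠ Set.univ → Bd p X ∅ c) : strat f p c = ∅ :=
  Set.eq_empty_of_forall_notMem fun z hz =>
    hz (h _ (isClosed_topSet hf _) (topSet_ne_univ hs (coe_ne_zero z)))

/-- The constant cochain `1` of degree `0`. -/
def one (X : Type*) : Cc X := fun l => if l.length = 1 then 1 else 0

theorem one_Dg {X : Type*} : one X ∈ Dg X 0 := by
  intro l hl
  have h : l.length = 1 := by
    by_contra h
    exact hl (if_neg h)
  exact ⟨fun h' => by rw [h'] at h; simp at h, by rw [h]; norm_num⟩

theorem dd_one {X : Type*} : dd (one X) = 0 := by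
  funext l
  match l with
  | [] => simp
  | [x] => simp [one]
  | [x, y] =>
    simp [one]
    exact CharTwo.add_self_eq_zero 1
  | x :: y :: z :: l =>
    by_contra h
    have := (dd_Dg (one_Dg (X := X)) _ h).2
    simp only [List.length_cons] at this
    push_cast at this
    omega

theorem one_Cyc {X : Type*} [PseudoMetricSpace X] (A : Set X) : Cyc 0 A ∅ (one X) :=
  ⟨one_Dg, Z_empty one_Dg, by rw [dd_one]; exact zero_mem _⟩

/-- The class of `1` does not vanish on a non-empty set. -/
theorem one_not_Bd {X : Type*} [PseudoMetricSpace X] {A : Set X} (hA : A.Nonempty) :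
    ¬ Bd 0 A ∅ (one X) := by
  rintro ⟨b, h1, -, ε, hε, h3⟩
  obtain ⟨x, hx⟩ := hA
  have hb : b = 0 := Dg.neg h1 (by norm_num)
  rw [hb, dd_zero, add_zero] at h3
  have := h3 [x] ⟨fun y hy => by
    rw [List.mem_singleton.1 hy]
    exact Metric.self_subset_thickening hε _ hx, fun y hy z hz => by
    rw [List.mem_singleton.1 hy, List.mem_singleton.1 hz, dist_self]
    exact hε⟩
  simp [one] at this

theorem strat_one [Nonempty M] {f : M → E} (hf : Continuous f) :
    strat f 0 (one M) = Set.univ :=
  Set.eq_univ_of_forall fun z => one_not_Bd (topSet_nonempty hf _)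

end TI
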