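import Pool.Agent.TI.Corner
import Pool.Agent.TI.Strata

/-!
# MP_9697d1_gt: the powers of the class `a` and the basis of the cohomology of a top set
-/

namespace TI

open Set Pool.Agent.VC

universe u

section Algebra

variable {X : Type u}

theorem cup_one_apply (c : Cc X) (l : List X) (hl : l ≠ []) : cup c (one X) l = c l := by
  induction l generalizing c with
  | nil => exact absurd rfl hl
  | cons x l ih =>
    rcases l with _ | ⟨y, l⟩
    · simp [one]
    · rw [cup_cons, ih (sh c x) (by simp)]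
      simp [one]

theorem cup_one {p : ℤ} {c : Cc X} (h : c ∈ Dg X p) : cup c (one X) = c := by
  funext l
  by_cases hl : l = []
  · subst hl
    rw [cup_nil, Dg.nil h]
  · exact cup_one_apply c l hl

/-- The powers of a cochain. -/
def pw (a : Cc X) : ℕ → Cc X
  | 0 => one X
  | i + 1 => cup a (pw a i)

@[simp] theorem pw_zero (a : Cc X) : pw a 0 = one X := rfl
theorem pw_succ (a : Cc X) (i : ℕ) : pw a (i + 1) = cup a (pw a i) := rfl

theorem pw_Dg {d : ℕ} {a : Cc X} (ha : a ∈ Dg X d) (i : ℕ) : pw a i ∈ Dg X ((d * i : ℕ) : ℤ) := by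
  induction i with
  | zero => simpa using one_Dg
  | succ i ih =>
    have := cup_Dg ha ih
    rwa [← pw_succ, show (d : ℤ) + ((d * i : ℕ) : ℤ) = ((d * (i + 1) : ℕ) : ℤ) by
      push_cast; ring] at this

end Algebra

variable {X : Type u} [PseudoMetricSpace X]

theorem cup_dd_left_mem {p q : ℤ} {A : Set X} {a c : Cc X} (ha : a ∈ Dg X p) (hc : c ∈ Dg X q)
    (ha' : dd a ∈ Z A) (hc' : dd c ∈ Z A) : dd (cup a c) ∈ Z A := by
  rw [dd_cup ha hc]
  exact add_mem (cup_Z_left c ha') (cup_Z_right a hc')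

theorem cyc_cup {p q : ℤ} {A : Set X} {a c : Cc X} (ha : Cyc p A ∅ a) (hc : Cyc q A ∅ c) :
    Cyc (p + q) A ∅ (cup a c) :=
  ⟨cup_Dg ha.deg hc.deg, Z_empty (cup_Dg ha.deg hc.deg),
    cup_dd_left_mem ha.deg hc.deg ha.cyc hc.cyc⟩

theorem cyc_pw {d : ℕ} {A : Set X} {a : Cc X} (ha : Cyc d A ∅ a) (i : ℕ) :
    Cyc ((d * i : ℕ) : ℤ) A ∅ (pw a i) := by
  induction i with
  | zero => simpa using one_Cyc A
  | succ i ih =>
    have := cyc_cup ha ih
    rwa [← pw_succ, show (d : ℤ) + ((d * i : ℕ) : ℤ) = ((d * (i + 1) : ℕ) : ℤ) by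
      push_cast; ring] at this

/-- Cup product of a cocycle with a coboundary. -/
theorem bd_cup {p q : ℤ} {A : Set X} {a c : Cc X} (ha : Cyc p A ∅ a) (hc : Bd q A ∅ c) :
    Bd (p + q) A ∅ (cup a c) := by
  obtain ⟨b, hb1, hb2, hb3⟩ := hc
  have h1 : cup a b ∈ Dg X (p + q - 1) := by
    have := cup_Dg ha.deg hb1
    convert this using 1
    ring
  refine ⟨cup a b, h1, Z_empty h1, ?_⟩
  rw [dd_cup ha.deg hb1]
  have h2 : cup a c + (cup (dd a) b + cup a (dd b)) = cup a (c + dd b) + cup (dd a) b := by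
    rw [cup_add_right]
    abel
  rw [h2]
  exact add_mem (cup_Z_right a hb3) (cup_Z_left b ha.cyc)

/-- The powers of `a` up to `q` are a basis of the cohomology of `A`. -/
structure PBasis (d : ℕ) (a : Cc X) (A : Set X) (q : ℕ) : Prop where
  /-- The powers `a^i`, `i ≤ q`, are not zero on `A`. -/
  indep : ∀ i, i ≤ q → ¬ Bd ((d * i : ℕ) : ℤ) A ∅ (pw a i)
  /-- The higher powers are zero on `A`. -/
  high : ∀ i, q < i → Bd ((d * i : ℕ) : ℤ) A ∅ (pw a i)
  /-- They generate. -/
  gen : ∀ (p : ℤ) (c : Cc X), Cyc p A ∅ c → ∃ (r : ZMod 2) (i : ℕ),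
    (r = 0 ∨ (i ≤ q ∧ ((d * i : ℕ) : ℤ) = p)) ∧ Bd p A ∅ (c + r • pw a i)

/-- The hypotheses on the cohomology of `M`. -/
structure MHyp (d n : ℕ) (a : Cc X) : Prop where
  cyc : Cyc d univ ∅ a
  /-- `H^0(M) = F_2`. -/
  zero : ∀ c : Cc X, Cyc 0 univ ∅ c → ∃ r : ZMod 2, Bd 0 univ ∅ (c + r • one X)
  /-- Every class of degree `0 < j < dn` is a multiple of `a`. -/
  mul : ∀ (j : ℤ) (c : Cc X), 0 < j → j < ((d * n : ℕ) : ℤ) → Cyc j univ ∅ c →
    ∃ c' : Cc X, Cyc (j - d) univ ∅ c' ∧ Bd j univ ∅ (c + cup a c')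
  /-- Proper closed subsets have no cohomology in degrees `≥ dn`. -/
  top : ∀ (A : Set X) (j : ℤ), IsClosed A → A ≠ univ → ((d * n : ℕ) : ℤ) ≤ j → Van j A ∅

/-- Below the top degree the powers of `a` generate the cohomology of `M`. -/
theorem MHyp.gen {d n : ℕ} {a : Cc X} (h : MHyp d n a) (hd : 1 ≤ d) :
    ∀ (k : ℕ) (c : Cc X), k < d * n → Cyc k univ ∅ c → ∃ (r : ZMod 2) (i : ℕ),
      (r = 0 ∨ ((d * i : ℕ) : ℤ) = k) ∧ Bd k univ ∅ (c + r • pw a i) := by
  intro k
  induction k using Nat.strong_induction_on with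
  | _ k ih =>
    intro c hk hc
    rcases Nat.eq_zero_or_pos k with rfl | hk0
    · obtain ⟨r, hr⟩ := h.zero c (by simpa using hc)
      exact ⟨r, 0, Or.inr (by simp), by simpa using hr⟩
    · obtain ⟨c', hc', hb⟩ := h.mul k c (by exact_mod_cast hk0) (by exact_mod_cast hk) hc
      rcases lt_or_ge k d with hkd | hkd
      · have h0 : c' = 0 := Dg.neg hc'.deg (by
          have : (k : ℤ) < d := by exact_mod_cast hkd
          linarith)
        rw [h0, cup_zero_right, add_zero] at hb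
        exact ⟨0, 0, Or.inl rfl, by simpa using hb⟩
      · have hcast : (k : ℤ) - d = ((k - d : ℕ) : ℤ) := by
          rw [Nat.cast_sub hkd]
        rw [hcast] at hc'
        obtain ⟨r, i, hri, hb'⟩ := ih (k - d) (by omega) c' (by omega) hc'
        refine ⟨r, i + 1, ?_, ?_⟩
        · rcases hri with h0 | h0
          · exact Or.inl h0
          · refine Or.inr ?_
            have h1 : d * i = k - d := by exact_mod_cast h0
            have h2 : d * (i + 1) = k := by rw [mul_add, mul_one, h1]; omega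
            exact_mod_cast h2
        · have h1 := bd_cup h.cyc hb'
          have h2 : (d : ℤ) + ((k - d : ℕ) : ℤ) = k := by rw [Nat.cast_sub hkd]; ring
          rw [h2] at h1
          have h3 := Bd.add hb h1
          have h4 : c + cup a c' + cup a (c' + r • pw a i) = c + r • pw a (i + 1) := by
            rw [cup_add_right, cup_smul_right, pw_succ]
            have : c + cup a c' + (cup a c' + r • cup a (pw a i)) =
              c + r • cup a (pw a i) + (cup a c' + cup a c') := by abel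
            rw [this, add_self, add_zero]
          rwa [h4] at h3

/-- The basis of the cohomology of a proper non-empty closed set onto which the cohomology of `M`
restricts surjectively. -/
theorem MHyp.basis {d n : ℕ} {a : Cc X} (h : MHyp d n a) (hd : 1 ≤ d) {A : Set X}
    (hAc : IsClosed A) (hA : A.Nonempty) (hA' : A ≠ univ)
    (hsurj : ∀ (j : ℤ) (c : Cc X), Cyc j A ∅ c → ∃ c' : Cc X, Cyc j univ ∅ c' ∧
      Bd j A ∅ (c + c')) : ∃ q, q < n ∧ PBasis d a A q := by
  classical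
  have haA : Cyc d A ∅ a := h.cyc.mono (subset_univ _) Subset.rfl
  have hup : ∀ i, Bd ((d * i : ℕ) : ℤ) A ∅ (pw a i) →
      Bd ((d * (i + 1) : ℕ) : ℤ) A ∅ (pw a (i + 1)) := by
    intro i hi
    have := bd_cup haA hi
    rwa [← pw_succ, show (d : ℤ) + ((d * i : ℕ) : ℤ) = ((d * (i + 1) : ℕ) : ℤ) by
      push_cast; ring] at this
  have hup' : ∀ i j, i ≤ j → Bd ((d * i : ℕ) : ℤ) A ∅ (pw a i) →
      Bd ((d * j : ℕ) : ℤ) A ∅ (pw a j) := by
    intro i j hij hi
    induction j, hij using Nat.le_induction with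
    | base => exact hi
    | succ j _ ih => exact hup j ih
  have hn : Bd ((d * n : ℕ) : ℤ) A ∅ (pw a n) :=
    h.top A _ hAc hA' le_rfl _ ((cyc_pw haA n))
  have h0 : ¬ Bd ((d * 0 : ℕ) : ℤ) A ∅ (pw a 0) := by
    simpa using one_not_Bd hA
  have hex : ∃ i, Bd ((d * i : ℕ) : ℤ) A ∅ (pw a i) := ⟨n, hn⟩
  obtain ⟨q, hq⟩ : ∃ q, Nat.find hex = q + 1 := by
    refine Nat.exists_eq_succ_of_ne_zero ?_
    intro h1
    have := Nat.find_spec hex
    rw [h1] at this
    exact h0 this
  have hq1 : Bd ((d * (q + 1) : ℕ) : ℤ) A ∅ (pw a (q + 1)) := by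
    have := Nat.find_spec hex
    rwa [hq] at this
  have hq2 : ∀ i, i ≤ q → ¬ Bd ((d * i : ℕ) : ℤ) A ∅ (pw a i) := by
    intro i hi
    exact Nat.find_min hex (by omega)
  have hqn : q < n := by
    have := Nat.find_le (h := hex) hn
    omega
  refine ⟨q, hqn, hq2, fun i hi => hup' _ _ hi hq1, ?_⟩
  intro p c hc
  rcases lt_or_ge p 0 with hp | hp
  · have := Dg.neg hc.deg hp
    subst this
    exact ⟨0, 0, Or.inl rfl, by simpa using Bd.zero⟩
  · obtain ⟨k, rfl⟩ : ∃ k : ℕ, p = k := ⟨p.toNat, (Int.toNat_of_nonneg hp).symm⟩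
    rcases lt_or_ge k (d * n) with hk | hk
    · obtain ⟨c', hc', hb⟩ := hsurj k c hc
      obtain ⟨r, i, hri, hb'⟩ := h.gen hd k c' hk hc'
      have hb'' := Bd.add hb (hb'.mono (subset_univ A) Subset.rfl)
      have h4 : c + c' + (c' + r • pw a i) = c + r • pw a i := by
        have : c + c' + (c' + r • pw a i) = c + r • pw a i + (c' + c') := by abel
        rw [this, add_self, add_zero]
      rw [h4] at hb''
      rcases hri with h0 | h0
      · exact ⟨r, i, Or.inl h0, hb''⟩
      · rcases le_or_gt i q with hi | hi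
        · exact ⟨r, i, Or.inr ⟨hi, h0⟩, hb''⟩
        · refine ⟨0, 0, Or.inl rfl, ?_⟩
          have h6 : (((d * i : ℕ) : ℤ)) = k := h0
          obtain ⟨b, hb1, hb2, hb3⟩ := Bd.smul r (hup' _ _ hi hq1)
          rw [h6] at hb1
          have h7 : Bd (k : ℤ) A ∅ (r • pw a i) := ⟨b, hb1, hb2, hb3⟩
          have h8 := Bd.add hb'' h7
          have h9 : c + r • pw a i + r • pw a i = c + (0 : ZMod 2) • pw a 0 := by
            rw [add_assoc, add_self, zero_smul]
          rwa [h9] at h8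
    · refine ⟨0, 0, Or.inl rfl, ?_⟩
      have := h.top A k hAc hA' (by exact_mod_cast hk) c hc
      simpa using this

end TI
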