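import Mathlib

/-!
# The numerical part of the proof

`P q j` stands for: the relative cohomology group of degree `j` of the pair `(S_q, S_(q+1))` is not
zero.
-/

set_option autoImplicit false

namespace TI

/-- The corner statement for the exponent `m`. -/
def Corner (d n : ℕ) (P : ℕ → ℕ → Prop) (m : ℕ) : Prop :=
  ∀ q j : ℕ, P q j → (∀ q' j', P q' j' → j' + m * q' * d ≤ j + m * q * d) →
    (∀ q' j', q < q' → P q' j' → j' + m * q' * d < j + m * q * d) →
    d * n * m < j + m * q * d → ∃ q' j', q < q' ∧ P q' j' ∧ j' + m * q' * d + 1 = j + m * q * d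

/-- `j + m q d` is maximal at `(q, j)` and `q` is the largest maximiser. -/
structure IsTop (d : ℕ) (P : ℕ → ℕ → Prop) (m q j : ℕ) : Prop where
  mem : P q j
  le : ∀ q' j', P q' j' → j' + m * q' * d ≤ j + m * q * d
  lt : ∀ q' j', q < q' → P q' j' → j' + m * q' * d < j + m * q * d

theorem exists_isTop (d : ℕ) (P : ℕ → ℕ → Prop) (B n : ℕ) (hB : ∀ q j, P q j → j ≤ B)
    (hn : ∀ q j, P q j → q < n) (h0 : ∃ q j, P q j) (m : ℕ) : ∃ q j, IsTop d P m q j := by
  classical
  have hb : ∀ q j, P q j → j + m * q * d ≤ B + m * n * d := by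
    intro q j h
    have h1 := hB q j h
    have h2 := (hn q j h).le
    have h3 : m * q * d ≤ m * n * d :=
      Nat.mul_le_mul_right d (Nat.mul_le_mul_left m h2)
    omega
  -- the maximal value
  have hT : ∃ T, (∃ q j, P q j ∧ j + m * q * d = T) ∧
      ∀ q j, P q j → j + m * q * d ≤ T := by
    obtain ⟨q0, j0, h00⟩ := h0
    let Q : ℕ → Prop := fun T => ∃ q j, P q j ∧ j + m * q * d = T
    have hQ : Q (Nat.findGreatest Q (B + m * n * d)) :=
      Nat.findGreatest_spec (P := Q) (hb q0 j0 h00) ⟨q0, j0, h00, rfl⟩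
    exact ⟨_, hQ, fun q j h => Nat.le_findGreatest (P := Q) (hb q j h) ⟨q, j, h, rfl⟩⟩
  obtain ⟨T, ⟨q1, j1, h1, e1⟩, hle⟩ := hT
  let R : ℕ → Prop := fun q => ∃ j, P q j ∧ j + m * q * d = T
  have hR : R (Nat.findGreatest R n) :=
    Nat.findGreatest_spec (P := R) (hn q1 j1 h1).le ⟨j1, h1, e1⟩
  obtain ⟨j, hj, ej⟩ := hR
  refine ⟨_, j, hj, fun q' j' h => ?_, fun q' j' hlt h => ?_⟩
  · rw [ej]; exact hle q' j' h
  · rw [ej]
    refine lt_of_le_of_ne (hle q' j' h) fun e => ?_
    have := Nat.le_findGreatest (P := R) (hn q' j' h).le ⟨j', h, e⟩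
    omega

/-- One step of the induction. -/
theorem step {d n : ℕ} (hd : 1 ≤ d) {P : ℕ → ℕ → Prop} {m q j q2 j2 : ℕ}
    (hc : Corner d n P m) (h : IsTop d P m q j) (h2 : IsTop d P (m + 1) q2 j2)
    (hbig : d * n * m < j + m * q * d) :
    q + 1 ≤ q2 ∧ j + m * q * d + (q + 1) * d ≤ j2 + (m + 1) * q2 * d + 1 := by
  obtain ⟨q', j', hq', hP', e'⟩ := hc q j h.mem h.le h.lt hbig
  have h3 := h2.le q' j' hP'
  have e1 : (m + 1) * q' * d = m * q' * d + q' * d := by ring
  have e2 : (m + 1) * q2 * d = m * q2 * d + q2 * d := by ring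
  have h4 : (q + 1) * d ≤ q' * d := Nat.mul_le_mul_right d hq'
  constructor
  · by_contra hlt
    have hle : q2 ≤ q := by omega
    have h5 := h2.lt q' j' (by omega) hP'
    have h6 := h.le q2 j2 h2.mem
    have h7 : q2 * d ≤ q * d := Nat.mul_le_mul_right d hle
    have h8 : (q + 1) * d = q * d + d := by ring
    omega
  · omega

/-- The numerical induction. -/
theorem count {d n N : ℕ} (hd : 1 ≤ d) (hn : 1 ≤ n) (P : ℕ → ℕ → Prop) (B : ℕ)
    (hB : ∀ q j, P q j → j ≤ B) (hq : ∀ q j, P q j → q < n) (h0 : ∃ q j, P q j ∧ N ≤ j + 1)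
    (hc : ∀ m, 1 ≤ m → m ≤ n → Corner d n P m) :
    2 * N ≤ 2 * n + d * (n * (n + 1)) := by
  by_contra hN
  push Not at hN
  have hex : ∀ m, ∃ q j, IsTop d P m q j := fun m => by
    obtain ⟨q, j, h, -⟩ := h0
    exact exists_isTop d P B n hB hq ⟨q, j, h⟩ m
  choose qq jj hT using hex
  -- lower bound
  have key : ∀ k, k + 1 ≤ n → k ≤ qq (k + 1) ∧
      2 * N + d * ((k + 1) * k) ≤ 2 * (jj (k + 1) + (k + 1) * qq (k + 1) * d) + 2 * (k + 1) := by
    intro k
    induction k with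
    | zero =>
      intro _
      obtain ⟨q, j, h, hj⟩ := h0
      have := (hT 1).le q j h
      refine ⟨Nat.zero_le _, ?_⟩
      simp only [zero_add, one_mul, mul_zero] at *
      omega
    | succ k ih =>
      intro hk
      obtain ⟨h1, h2⟩ := ih (by omega)
      have hbig : d * n * (k + 1) < jj (k + 1) + (k + 1) * qq (k + 1) * d := by
        -- `2 N > 2 n + d n (n+1) ≥ 2 (k+1) + 2 d n (k+1) - d (k+1) k`
        have h3 : 2 * (k + 1) + 2 * (d * n * (k + 1)) ≤
            2 * n + d * (n * (n + 1)) + d * ((k + 1) * k) := by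
          obtain ⟨r, rfl⟩ : ∃ r, n = k + 1 + r := ⟨n - (k + 1), by omega⟩
          nlinarith [Nat.zero_le (d * (r * r)), Nat.zero_le (d * r), Nat.zero_le r]
        omega
      obtain ⟨h4, h5⟩ := step hd (hc (k + 1) (by omega) (by omega)) (hT (k + 1)) (hT (k + 1 + 1))
        hbig
      refine ⟨by omega, ?_⟩
      have h6 : (k + 1) * d ≤ (qq (k + 1) + 1) * d := Nat.mul_le_mul_right d (by omega)
      have h7 : d * ((k + 1 + 1) * (k + 1)) = d * ((k + 1) * k) + 2 * ((k + 1) * d) := by ring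
      omega
  obtain ⟨k, rfl⟩ : ∃ k, n = k + 1 := ⟨n - 1, by omega⟩
  obtain ⟨h1, h2⟩ := key k le_rfl
  have h3 : d * ((k + 1) * (k + 1 + 1)) + d * ((k + 1) * k) = 2 * (d * (k + 1) * (k + 1)) := by
    ring
  have hbig : d * (k + 1) * (k + 1) < jj (k + 1) + (k + 1) * qq (k + 1) * d := by omega
  obtain ⟨q', j', hq', hP', -⟩ := hc (k + 1) (by omega) le_rfl _ _ (hT (k + 1)).mem
    (hT (k + 1)).le (hT (k + 1)).lt hbig
  have := hq q' j' hP'
  omega

/-- The values of `p` with `NV m q p`, from the recursion. -/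
theorem NV_iff {d : ℕ} {NV : ℕ → ℕ → ℤ → Prop}
    (hrec : ∀ m q p, NV (m + 1) q p ↔ ∃ i : ℕ, i ≤ q ∧ NV m q (p - d * i)) (q : ℕ) :
    ∀ (m : ℕ) (p : ℤ), NV m q p ↔ ∃ s : ℕ, s ≤ m * q ∧ NV 0 q (p - d * s) := by
  intro m
  induction m with
  | zero =>
    intro p
    constructor
    · intro h
      exact ⟨0, Nat.zero_le _, by simpa using h⟩
    · rintro ⟨s, hs, h⟩
      have hs' : s = 0 := by simpa using hs
      simpa [hs'] using h
  | succ m ih =>
    intro p
    rw [hrec]
    constructor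
    · rintro ⟨i, hi, h⟩
      obtain ⟨s, hs, h'⟩ := (ih _).1 h
      refine ⟨s + i, ?_, ?_⟩
      · calc s + i ≤ m * q + q := Nat.add_le_add hs hi
          _ = (m + 1) * q := by ring
      · have e : p - d * ((s + i : ℕ) : ℤ) = p - d * (i : ℤ) - d * (s : ℤ) := by
          push_cast; ring
        rw [e]; exact h'
    · rintro ⟨s, hs, h⟩
      have hs' : s ≤ m * q + q := by
        calc s ≤ (m + 1) * q := hs
          _ = m * q + q := by ring
      refine ⟨min s q, min_le_right _ _, (ih _).2 ⟨s - min s q, ?_, ?_⟩⟩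
      · rcases le_total s q with h1 | h1
        · rw [min_eq_left h1]; omega
        · rw [min_eq_right h1]; omega
      · have e : p - d * ((min s q : ℕ) : ℤ) - d * ((s - min s q : ℕ) : ℤ) = p - d * (s : ℤ) := by
          have h2 : ((s - min s q : ℕ) : ℤ) = (s : ℤ) - ((min s q : ℕ) : ℤ) :=
            Int.ofNat_sub (min_le_left s q)
          rw [h2]; ring
        rw [e]; exact h

/-- The numerical induction, for the predicates `NV m q p` of the paper proof:
`H^p(F^m_q, F^m_(q+1))` is not zero. -/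
theorem count_NV {d n N : ℕ} (hd : 1 ≤ d) (hn : 1 ≤ n) (NV : ℕ → ℕ → ℤ → Prop) (B : ℕ)
    (hrec : ∀ m q p, NV (m + 1) q p ↔ ∃ i : ℕ, i ≤ q ∧ NV m q (p - d * i))
    (hq : ∀ q p, NV 0 q p → q < n) (hB : ∀ q p, NV 0 q p → 0 ≤ p ∧ p ≤ B)
    (h0 : ∃ q p, NV 0 q p ∧ (N : ℤ) ≤ p + 1)
    (hC : ∀ m q T, 1 ≤ m → m ≤ n → NV m q T → (∀ q' p, NV m q' p → p ≤ T) →
      ((d * n * m : ℕ) : ℤ) < T → ∃ q', q < q' ∧ NV m q' (T - 1)) :
    (N : ℤ) - d * n ≤ n + d * n.choose 2 := by
  have hiff := NV_iff hrec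
  have main : 2 * N ≤ 2 * n + d * (n * (n + 1)) := by
    refine count hd hn (fun q j => NV 0 q (j : ℤ)) B (fun q j h => ?_) (fun q j h => hq q _ h) ?_
      ?_
    · have := (hB q _ h).2
      exact_mod_cast this
    · obtain ⟨q, p, h, hp⟩ := h0
      obtain ⟨j, rfl⟩ := Int.eq_ofNat_of_zero_le (hB q p h).1
      exact ⟨q, j, h, by exact_mod_cast hp⟩
    · intro m hm hmn q j hP hle hlt hbig
      have hT : NV m q ((j + m * q * d : ℕ) : ℤ) := by
        refine (hiff q m _).2 ⟨m * q, le_rfl, ?_⟩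
        have e : ((j + m * q * d : ℕ) : ℤ) - d * ((m * q : ℕ) : ℤ) = (j : ℤ) := by
          push_cast; ring
        rw [e]; exact hP
      obtain ⟨q', hq', hNV⟩ := hC m q _ hm hmn hT (fun q' p h => by
        obtain ⟨s, hs, h'⟩ := (hiff q' m p).1 h
        obtain ⟨j', hj'⟩ := Int.eq_ofNat_of_zero_le (hB q' _ h').1
        rw [hj'] at h'
        have h1 := hle q' j' h'
        have h2 : s * d ≤ m * q' * d := Nat.mul_le_mul_right d hs
        have h3 : p = (j' : ℤ) + ((s * d : ℕ) : ℤ) := by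
          push_cast
          linarith
        rw [h3]
        have h4 : j' + s * d ≤ j + m * q * d := by omega
        exact_mod_cast h4) (by exact_mod_cast hbig)
      obtain ⟨s, hs, h'⟩ := (hiff q' m _).1 hNV
      obtain ⟨j', hj'⟩ := Int.eq_ofNat_of_zero_le (hB q' _ h').1
      rw [hj'] at h'
      refine ⟨q', j', hq', h', ?_⟩
      have h1 := hlt q' j' hq' h'
      have h2 : s * d ≤ m * q' * d := Nat.mul_le_mul_right d hs
      have h3 : ((j + m * q * d : ℕ) : ℤ) = ((j' + s * d + 1 : ℕ) : ℤ) := by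
        push_cast at hj' ⊢
        linarith
      have h4 : j + m * q * d = j' + s * d + 1 := by exact_mod_cast h3
      omega
  have hch : 2 * n.choose 2 + 2 * n = n * (n + 1) := by
    have h := Nat.triangle_succ n
    have h2 : (n + 1).choose 2 = n.choose 1 + n.choose 2 := Nat.choose_succ_succ' n 1
    rw [Nat.choose_one_right] at h2
    have h3 : (n + 1).choose 2 * 2 = (n + 1) * n := by
      rw [Nat.choose_two_right]
      exact Nat.div_mul_cancel (by
        have := (Nat.even_mul_pred_self (n + 1)).two_dvd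
        exact this)
    nlinarith
  have h5 : d * (n * (n + 1)) = 2 * (d * n.choose 2) + 2 * (d * n) := by
    rw [← hch]; ring
  have h6 : N ≤ n + (d * n.choose 2 + d * n) := by omega
  have h7 : (N : ℤ) ≤ (n : ℤ) + (d * n.choose 2 + d * n) := by exact_mod_cast h6
  linarith

end TI
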