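import Pool.Agent.VC.Core

/-!
# Transport of vanishing along an isometry
-/

namespace TI

open Set Pool.Agent Pool.Agent.VC

universe u v

variable {X : Type u} {Y : Type v} [PseudoMetricSpace X] [PseudoMetricSpace Y]

theorem iso_thick (e : X ≃ᵢ Y) (A : Set Y) (ε : ℝ) (x : X) :
    x ∈ Metric.thickening ε (e ⁻¹' A) ↔ e x ∈ Metric.thickening ε A := by
  rw [Metric.mem_thickening_iff, Metric.mem_thickening_iff]
  constructor
  · rintro ⟨y, hy, h⟩
    exact ⟨e y, hy, by rwa [e.dist_eq]⟩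
  · rintro ⟨y, hy, h⟩
    refine ⟨e.symm y, by simpa using hy, ?_⟩
    rw [← e.dist_eq]
    simpa using h

theorem iso_small (e : X ≃ᵢ Y) (A : Set Y) (ε : ℝ) (l : List X) :
    l ∈ VC.Small (e ⁻¹' A) ε ↔ l.map e ∈ VC.Small A ε := by
  constructor
  · rintro ⟨h1, h2⟩
    refine ⟨fun y hy => ?_, fun y hy z hz => ?_⟩
    · obtain ⟨x, hx, rfl⟩ := List.mem_map.1 hy
      exact (iso_thick e A ε x).1 (h1 x hx)
    · obtain ⟨x, hx, rfl⟩ := List.mem_map.1 hy
      obtain ⟨w, hw, rfl⟩ := List.mem_map.1 hz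
      rw [e.dist_eq]
      exact h2 x hx w hw
  · rintro ⟨h1, h2⟩
    refine ⟨fun x hx => (iso_thick e A ε x).2 (h1 _ (List.mem_map_of_mem hx)),
      fun x hx w hw => ?_⟩
    rw [← e.dist_eq]
    exact h2 _ (List.mem_map_of_mem hx) _ (List.mem_map_of_mem hw)

theorem iso_Z (e : X ≃ᵢ Y) (A : Set Y) (c : Cc Y) : pull e c ∈ Z (e ⁻¹' A) ↔ c ∈ Z A := by
  constructor
  · rintro ⟨ε, hε, h⟩
    refine ⟨ε, hε, fun l hl => ?_⟩
    have h1 : (l.map e.symm).map e = l := by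
      rw [List.map_map]
      have : (e : X → Y) ∘ e.symm = id := by funext y; simp
      rw [this, List.map_id]
    have := h (l.map e.symm) ((iso_small e A ε _).2 (by rwa [h1]))
    rwa [pull_apply, h1] at this
  · rintro ⟨ε, hε, h⟩
    exact ⟨ε, hε, fun l hl => h _ ((iso_small e A ε l).1 hl)⟩

theorem iso_pull_symm (e : X ≃ᵢ Y) (c : Cc X) : pull e (pull e.symm c) = c := by
  rw [pull_pull]
  have : (e.symm : Y → X) ∘ e = id := by funext y; simp
  rw [this, pull_id]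

theorem iso_van {p : ℤ} (e : X ≃ᵢ Y) {A B : Set Y} (h : Van p (e ⁻¹' A) (e ⁻¹' B)) :
    Van p A B := by
  intro c hc
  obtain ⟨b, hb1, hb2, hb3⟩ := h (pull e c) ⟨pull_Dg e hc.deg, (iso_Z e B c).2 hc.rel, by
    rw [dd_pull]; exact (iso_Z e A _).2 hc.cyc⟩
  refine ⟨pull e.symm b, pull_Dg _ hb1, ?_, ?_⟩
  · rw [← iso_Z e, iso_pull_symm]
    exact hb2
  · rw [← iso_Z e, pull_add, ← dd_pull, iso_pull_symm]
    exact hb3

/-- Transport along an isometry. -/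
theorem iso_van_iff {p : ℤ} (e : X ≃ᵢ Y) {A B : Set Y} :
    Van p (e ⁻¹' A) (e ⁻¹' B) ↔ Van p A B := by
  refine ⟨iso_van e, fun h => ?_⟩
  have h1 : ∀ C : Set Y, e.symm ⁻¹' (e ⁻¹' C) = C := by
    intro C
    ext y
    simp
  refine iso_van (A := e ⁻¹' A) (B := e ⁻¹' B) e.symm ?_
  rw [h1, h1]
  exact h

end TI
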