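import Pool.Agent.TI.Defs
import Pool.Agent.TI.Count
import Pool.Agent.TI.Basis
import Pool.Agent.TI.Iso

/-!
# MP_9697d1_gt: the bound from the cohomological input
-/

namespace TI

open Set Pool.Agent Pool.Agent.VC

/-- The fibre of `R ⊆ B × M` over `b`. -/
def fibre {B M : Type} (R : Set (B × M)) (b : B) : Set M := {x | (b, x) ∈ R}

/-- Leray-Hirsch for pairs of the base, in the form needed here. -/
def Stmt_LH : Prop :=
  ∀ (B M : Type) [MetricSpace B] [CompactSpace B] [MetricSpace M] [CompactSpace M]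
    (d : ℕ) (a : Cc M) (q : ℕ) (R : Set (B × M)) (B0 B1 : Set B),
    1 ≤ d → IsClosed R → IsClosed B0 → IsClosed B1 → B1 ⊆ B0 → Cyc d univ ∅ a →
    (∀ b ∈ B0, b ∉ B1 → PBasis d a (fibre R b) q) →
    ∀ p : ℤ, (Van p (R ∩ Prod.fst ⁻¹' B0) (R ∩ Prod.fst ⁻¹' B1) ↔
      ∀ i : ℕ, i ≤ q → Van (p - d * i) B0 B1)

section

variable {M : Type} [MetricSpace M] {N : ℕ}

/-- The stratum `S_q`. -/
def St (f : M → E N) (d : ℕ) (a : Cc M) (q : ℕ) : Set (Sph (E N)) :=
  strat f ((d * q : ℕ) : ℤ) (pw a q)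

/-- `F^m_q`, the part of `Γ_m` over `S_q`. -/
def Fm (f : M → E N) (d : ℕ) (a : Cc M) (m q : ℕ) : Set ((Fin m → M) × Sph (E N)) :=
  {p | p ∈ Gam f ∧ p.2 ∈ St f d a q}

omit [MetricSpace M] in
theorem mem_Gam {ι : Type*} {f : M → E N} {p : (ι → M) × Sph (E N)} :
    p ∈ Gam f ↔ ∀ i, p.1 i ∈ topSet f (p.2 : E N) := Iff.rfl

/-- The isometry `(M^m × S) × M ≃ M^(m+1) × S`. -/
noncomputable def isoSucc (M : Type) [MetricSpace M] (S : Type) [MetricSpace S] (m : ℕ) :
    ((Fin m → M) × S) × M ≃ᵢ (Fin (m + 1) → M) × S where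
  toFun p := (Fin.cons p.2 p.1.1, p.1.2)
  invFun p := ((Fin.tail p.1, p.2), p.1 0)
  left_inv p := by simp
  right_inv p := by simp
  isometry_toFun := by
    refine Isometry.of_dist_eq fun p p' => ?_
    rw [Prod.dist_eq, Prod.dist_eq, Prod.dist_eq]
    simp only
    have h : dist (Fin.cons p.2 p.1.1 : Fin (m + 1) → M) (Fin.cons p'.2 p'.1.1) =
        max (dist p.2 p'.2) (dist p.1.1 p'.1.1) := by
      refine le_antisymm ?_ ?_
      · refine (dist_pi_le_iff (le_max_of_le_left dist_nonneg)).2 fun i => ?_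
        refine Fin.cases ?_ (fun j => ?_) i
        · simp
        · simp only [Fin.cons_succ]
          exact le_max_of_le_right (dist_le_pi_dist _ _ _)
      · refine max_le ?_ ?_
        · have := dist_le_pi_dist (Fin.cons p.2 p.1.1 : Fin (m + 1) → M)
            (Fin.cons p'.2 p'.1.1) 0
          simpa using this
        · refine (dist_pi_le_iff dist_nonneg).2 fun j => ?_
          have := dist_le_pi_dist (Fin.cons p.2 p.1.1 : Fin (m + 1) → M)
            (Fin.cons p'.2 p'.1.1) j.succ
          simpa using this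
    rw [h, max_comm (dist p.2 p'.2), max_assoc, max_comm (dist p.2 p'.2), ← max_assoc]

/-- `M^0 × S ≃ S`. -/
noncomputable def isoZero (M : Type) [MetricSpace M] (S : Type) [MetricSpace S] :
    (Fin 0 → M) × S ≃ᵢ S where
  toFun p := p.2
  invFun p := (Fin.elim0, p)
  left_inv p := by
    refine Prod.ext ?_ rfl
    funext i
    exact i.elim0
  right_inv p := rfl
  isometry_toFun := by
    refine Isometry.of_dist_eq fun p p' => ?_
    rw [Prod.dist_eq]
    have : dist p.1 p'.1 = 0 := by
      rw [dist_eq_zero]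
      funext i
      exact i.elim0
    rw [this]
    exact (max_eq_right dist_nonneg).symm

end

/-- The bound from the cohomological input. -/
theorem abstract_bound {M : Type} [MetricSpace M] [CompactSpace M] [Nonempty M] {d n N : ℕ}
    (hd : 1 ≤ d) (hn : 1 ≤ n) (f : M → E N) (hf : Continuous f) (hsub : Substantial f)
    (a : Cc M) (hM : MHyp d n a)
    (hsurj : ∀ z : E N, z ≠ 0 → ∀ (j : ℤ) (c : Cc M), Cyc j (topSet f z) ∅ c →
      ∃ c' : Cc M, Cyc j univ ∅ c' ∧ Bd j (topSet f z) ∅ (c + c'))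
    (hLH : Stmt_LH)
    (hGam : ∀ m : ℕ, 1 ≤ m → ∀ j : ℤ, ((d * n * m : ℕ) : ℤ) < j →
      Van j (Gam (ι := Fin m) f) ∅)
    (hdim : ∀ A : Set (Sph (E N)), IsClosed A → ∀ j : ℤ, (N : ℤ) ≤ j → Van j A ∅)
    (hS : 1 ≤ N → ¬ Van ((N : ℤ) - 1) (univ : Set (Sph (E N))) ∅) :
    (N : ℤ) - d * n ≤ n + d * n.choose 2 := by
  rcases Nat.eq_zero_or_pos N with hN0 | hN
  · subst hN0
    have h1 : (0 : ℤ) ≤ d * n := by positivity
    have h2 : (0 : ℤ) ≤ n + d * n.choose 2 := by positivity
    push_cast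
    linarith
  have hbasis : ∀ z : Sph (E N), ∃ q, q < n ∧ PBasis d a (topSet f (z : E N)) q := fun z =>
    hM.basis hd (isClosed_topSet hf _) (topSet_nonempty hf _)
      (topSet_ne_univ hsub (coe_ne_zero z)) (hsurj _ (coe_ne_zero z))
  have hSt : ∀ (q : ℕ) (z : Sph (E N)), z ∈ St f d a q ↔ ¬ Bd ((d * q : ℕ) : ℤ) (topSet f (z : E N)) ∅ (pw a q) :=
    fun q z => Iff.rfl
  have hSt' : ∀ (q : ℕ) (z : Sph (E N)) (k : ℕ), PBasis d a (topSet f (z : E N)) k → (z ∈ St f d a q ↔ q ≤ k) := by
    intro q z k hk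
    rw [hSt]
    constructor
    · intro h
      by_contra hc
      exact h (hk.high q (by omega))
    · intro h
      exact hk.indep q h
  have hStanti : Antitone (St f d a) := by
    intro q q' hqq z hz
    obtain ⟨k, -, hk⟩ := hbasis z
    rw [hSt' _ _ k hk] at hz ⊢
    omega
  have hSt0 : St f d a 0 = univ := by
    refine eq_univ_of_forall fun z => ?_
    obtain ⟨k, -, hk⟩ := hbasis z
    rw [hSt' _ _ k hk]
    omega
  have hStn : ∀ q, n ≤ q → St f d a q = ∅ := by
    intro q hq
    refine eq_empty_of_forall_notMem fun z hz => ?_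
    obtain ⟨k, hk1, hk⟩ := hbasis z
    rw [hSt' _ _ k hk] at hz
    omega
  have hStc : ∀ q, IsClosed (St f d a q) := fun q => isClosed_strat hf _ _
  have hFc : ∀ m q, IsClosed (Fm f d a m q) := fun m q =>
    (isClosed_Gam hf).inter ((hStc q).preimage continuous_snd)
  have hFanti : ∀ m, Antitone (Fm f d a m) := fun m q q' hqq p hp =>
    ⟨hp.1, hStanti hqq hp.2⟩
  have hFn : ∀ m, Fm f d a m n = ∅ := by
    intro m
    refine eq_empty_of_forall_notMem fun p hp => ?_
    have := hp.2
    rw [hStn n le_rfl] at this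
    exact this
  have hF0 : ∀ m, Fm f d a m 0 = Gam f := by
    intro m
    ext p
    constructor
    · exact fun h => h.1
    · exact fun h => ⟨h, by rw [hSt0]; exact mem_univ _⟩
  -- base: the sphere
  have hbase : ∀ q, (isoZero M (Sph (E N))) ⁻¹' (St f d a q) = Fm f d a 0 q := by
    intro q
    ext p
    constructor
    · intro h
      exact ⟨fun i => i.elim0, h⟩
    · intro h
      exact h.2
  have hbaseV : ∀ q p, Van p (Fm f d a 0 q) (Fm f d a 0 (q + 1)) ↔
      Van p (St f d a q) (St f d a (q + 1)) := by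
    intro q p
    rw [← hbase, ← hbase]
    exact iso_van_iff _
  -- step: Leray-Hirsch
  have hstep : ∀ m q p, Van p (Fm f d a (m + 1) q) (Fm f d a (m + 1) (q + 1)) ↔
      ∀ i : ℕ, i ≤ q → Van (p - d * i) (Fm f d a m q) (Fm f d a m (q + 1)) := by
    intro m q p
    set R : Set (((Fin m → M) × Sph (E N)) × M) :=
      {w | w.1 ∈ Gam f ∧ w.2 ∈ topSet f (w.1.2 : E N)} with hR
    have hRc : IsClosed R := by
      refine IsClosed.inter ((isClosed_Gam hf).preimage continuous_fst) ?_
      exact (isClosed_topRel hf).preimage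
        (f := fun w : ((Fin m → M) × Sph (E N)) × M => (w.2, (w.1.2 : E N))) (by fun_prop)
    have h1 := hLH ((Fin m → M) × Sph (E N)) M d a q R (Fm f d a m q) (Fm f d a m (q + 1)) hd hRc
      (hFc m q) (hFc m (q + 1)) (hFanti m (Nat.le_succ q)) hM.cyc (by
        intro b hb hb'
        have h2 : fibre R b = topSet f (b.2 : E N) := by
          ext x
          exact ⟨fun h => h.2, fun h => ⟨hb.1, h⟩⟩
        obtain ⟨k, -, hk⟩ := hbasis b.2
        have h3 : q ≤ k := (hSt' q b.2 k hk).1 hb.2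
        have h4 : ¬ (q + 1 ≤ k) := fun h => hb' ⟨hb.1, (hSt' (q + 1) b.2 k hk).2 h⟩
        have h5 : k = q := by omega
        rw [h2]
        rw [h5] at hk
        exact hk) p
    rw [← h1]
    have h6 : ∀ q', (isoSucc M (Sph (E N)) m) ⁻¹' (Fm f d a (m + 1) q') =
        R ∩ Prod.fst ⁻¹' (Fm f d a m q') := by
      intro q'
      ext w
      constructor
      · rintro ⟨h7, h8⟩
        have h9 : ∀ i : Fin m, w.1.1 i ∈ topSet f (w.1.2 : E N) := fun i => by
          have := h7 i.succ
          exact this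
        have h10 : w.2 ∈ topSet f (w.1.2 : E N) := h7 0
        exact ⟨⟨h9, h10⟩, h9, h8⟩
      · rintro ⟨⟨h7, h8⟩, h9, h10⟩
        refine ⟨fun i => ?_, h10⟩
        refine Fin.cases ?_ (fun j => ?_) i
        · exact h8
        · exact h7 j
    rw [← h6, ← h6]
    exact (iso_van_iff _).symm
  -- the count
  refine count_NV hd hn (fun m q p => ¬ Van p (Fm f d a m q) (Fm f d a m (q + 1))) N
    ?_ ?_ ?_ ?_ ?_
  · intro m q p
    rw [hstep]
    push Not
    rfl
  · intro q p h
    by_contra hc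
    apply h
    have : Fm f d a 0 q = ∅ := by
      refine eq_empty_of_forall_notMem fun w hw => ?_
      have := hw.2
      rw [hStn q (by omega)] at this
      exact this
    rw [this]
    exact van_empty p _
  · intro q p h
    rw [hbaseV] at h
    constructor
    · by_contra hc
      exact h (van_neg (by omega) _ _)
    · by_contra hc
      refine h (van_pair (hStanti (Nat.le_succ q)) (hdim _ (hStc _) p (by omega))
        (hdim _ (hStc _) (p - 1) (by omega)))
  · by_contra hcon
    push Not at hcon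
    have h1 : Van ((N : ℤ) - 1) (St f d a 0) ∅ := by
      refine van_filtration hStanti (hStn n le_rfl) fun j _ => ?_
      by_contra hc
      have := hcon j ((N : ℤ) - 1) (by rwa [hbaseV])
      omega
    rw [hSt0] at h1
    exact hS hN h1
  · intro m q T hm hmn h1 h2 hT
    refine corner_lemma (hFanti m) (hFn m) h1 ?_ ?_
    · intro i
      by_contra hc
      have := h2 i (T + 1) hc
      omega
    · rw [hF0]
      exact hGam m hm T hT

end TI
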