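import Pool.Agent.TI.Defs
import Mathlib.Topology.MetricSpace.Isometry
import Mathlib.Analysis.Complex.Basic

/-!
# MP_9697d1_gt: the Gram embedding and the metric of `FPn F n`
-/

set_option linter.unusedSectionVars false

namespace TI

/-- The property of the conjugation of `R`, `C`, `H` that is used. -/
class StarNorm (F : Type) [NormedDivisionRing F] [NormedAlgebra ℝ F] [StarRing F] : Prop where
  star_mul_self' : ∀ x : F, star x * x = algebraMap ℝ F (‖x‖ ^ 2)
  continuous_star' : Continuous (star : F → F)

instance : StarNorm ℝ where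
  star_mul_self' x := by
    simp [pow_two]
  continuous_star' := continuous_star

instance : StarNorm ℂ where
  star_mul_self' x := by
    have := Complex.conj_mul' x
    simpa using this
  continuous_star' := continuous_star

instance : StarNorm (Quaternion ℝ) where
  star_mul_self' x := by
    have h1 := Quaternion.star_mul_self x
    rw [h1, Quaternion.normSq_eq_norm_mul_self, pow_two]
    rfl
  continuous_star' := continuous_star

section

variable {F : Type} [NormedDivisionRing F] [NormedAlgebra ℝ F] [StarRing F] [StarNorm F] {n : ℕ}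

theorem norm_star_eq (x : F) : ‖star x‖ = ‖x‖ := by
  by_cases hx : x = 0
  · simp [hx]
  · have h1 := congrArg norm (StarNorm.star_mul_self' x)
    rw [norm_mul, norm_algebraMap', Real.norm_eq_abs, abs_of_nonneg (by positivity), pow_two] at h1
    exact mul_right_cancel₀ (norm_ne_zero_iff.2 hx) h1

/-- The squared Euclidean norm of a vector. -/
def sq (v : Fin (n + 1) → F) : ℝ := ∑ i, ‖v i‖ ^ 2

theorem sq_pos {v : Fin (n + 1) → F} (hv : v ≠ 0) : 0 < sq v := by
  obtain ⟨i, hi⟩ := Function.ne_iff.1 hv
  refine Finset.sum_pos' (fun j _ => by positivity) ⟨i, Finset.mem_univ i, ?_⟩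
  have : 0 < ‖v i‖ := norm_pos_iff.2 hi
  positivity

/-- The Gram matrix of a vector, normalised. -/
noncomputable def gram (v : Fin (n + 1) → F) : Fin (n + 1) → Fin (n + 1) → F :=
  fun i j => (sq v)⁻¹ • (star (v i) * v j)

theorem gram_smul {u : F} (hu : u ≠ 0) (v : Fin (n + 1) → F) : gram (u • v) = gram v := by
  have h1 : sq (u • v) = ‖u‖ ^ 2 * sq v := by
    unfold sq
    rw [Finset.mul_sum]
    refine Finset.sum_congr rfl fun i _ => ?_
    rw [Pi.smul_apply, smul_eq_mul, norm_mul, mul_pow]
  have h2 : (‖u‖ ^ 2 : ℝ) ≠ 0 := by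
    have := norm_ne_zero_iff.2 hu
    positivity
  funext i j
  have h3 : star (u * v i) * (u * v j) = (‖u‖ ^ 2 : ℝ) • (star (v i) * v j) := by
    rw [star_mul, mul_assoc, ← mul_assoc (star u) u, StarNorm.star_mul_self', Algebra.smul_def,
      ← mul_assoc, ← mul_assoc, Algebra.commutes]
  simp only [gram, Pi.smul_apply, smul_eq_mul]
  rw [h1, h3, smul_smul, mul_inv, mul_comm (‖u‖ ^ 2)⁻¹, mul_assoc, inv_mul_cancel₀ h2, mul_one]

theorem gram_inj {v w : Fin (n + 1) → F} (hv : v ≠ 0) (hw : w ≠ 0) (h : gram v = gram w) :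
    ∃ u : F, u ≠ 0 ∧ u • w = v := by
  have hv0 := sq_pos hv
  have hw0 := sq_pos hw
  obtain ⟨i, hi⟩ := Function.ne_iff.1 hv
  rw [Pi.zero_apply] at hi
  have hsi : star (v i) ≠ 0 := by
    rw [← norm_ne_zero_iff, norm_star_eq]
    exact norm_ne_zero_iff.2 hi
  have key : ∀ j, star (v i) * v j = (sq v / sq w) • (star (w i) * w j) := by
    intro j
    have h1 := congrFun (congrFun h i) j
    simp only [gram] at h1
    have h2 := congrArg (fun t => sq v • t) h1
    simp only [smul_smul] at h2
    rw [mul_inv_cancel₀ hv0.ne', one_smul] at h2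
    rw [h2, div_eq_mul_inv]
  have hwi : w i ≠ 0 := by
    intro h0
    have h1 := key i
    rw [h0, mul_zero, smul_zero] at h1
    exact (mul_ne_zero hsi hi) h1
  refine ⟨(sq v / sq w) • ((star (v i))⁻¹ * star (w i)), ?_, ?_⟩
  · refine smul_ne_zero (div_ne_zero hv0.ne' hw0.ne') (mul_ne_zero (inv_ne_zero hsi) ?_)
    rw [← norm_ne_zero_iff, norm_star_eq]
    exact norm_ne_zero_iff.2 hwi
  · funext j
    rw [Pi.smul_apply, smul_eq_mul, smul_mul_assoc, mul_assoc, ← mul_smul_comm, ← key j,
      ← mul_assoc, inv_mul_cancel₀ hsi, one_mul]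

theorem gram_continuous :
    Continuous fun v : {v : Fin (n + 1) → F // v ≠ 0} => gram (v : Fin (n + 1) → F) := by
  have hs : Continuous fun v : {v : Fin (n + 1) → F // v ≠ 0} => sq (v : Fin (n + 1) → F) := by
    unfold sq
    exact continuous_finsetSum _ fun i _ =>
      (((continuous_apply i).comp continuous_subtype_val).norm).pow 2
  refine continuous_pi fun i => continuous_pi fun j => ?_
  refine (hs.inv₀ fun v => (sq_pos v.2).ne').smul ?_
  exact (StarNorm.continuous_star'.comp ((continuous_apply i).comp continuous_subtype_val)).mul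
    ((continuous_apply j).comp continuous_subtype_val)

end

section mk

variable (F : Type) [NormedDivisionRing F] (n : ℕ)

/-- The line of a nonzero vector. -/
def mk : {v : Fin (n + 1) → F // v ≠ 0} → FPn F n :=
  Quotient.mk (projectivizationSetoid F (Fin (n + 1) → F))

variable {F n}

theorem mk_continuous : Continuous (mk F n) := continuous_quotient_mk'

theorem mk_isQuotientMap : Topology.IsQuotientMap (mk F n) := isQuotientMap_quotient_mk'

theorem mk_surjective : Function.Surjective (mk F n) := Quotient.mk_surjective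

theorem mk_eq {v w : {v : Fin (n + 1) → F // v ≠ 0}} :
    mk F n v = mk F n w ↔ ∃ u : F, u ≠ 0 ∧ u • (w : Fin (n + 1) → F) = v := by
  have h1 : mk F n v = mk F n w ↔
      (MulAction.orbitRel Fˣ (Fin (n + 1) → F)).comap (↑) v w :=
    Quotient.eq (r := projectivizationSetoid F (Fin (n + 1) → F))
  rw [h1]
  change (v : Fin (n + 1) → F) ∈ MulAction.orbit Fˣ (w : Fin (n + 1) → F) ↔ _
  rw [MulAction.mem_orbit_iff]
  constructor
  · rintro ⟨u, hu⟩
    exact ⟨u, u.ne_zero, hu⟩
  · rintro ⟨u, hu0, hu⟩
    exact ⟨Units.mk0 u hu0, hu⟩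

end mk

section metric

variable (F : Type) [NormedDivisionRing F] [NormedAlgebra ℝ F] [StarRing F] [StarNorm F]
  (n : ℕ)

/-- The Gram embedding of `FPn F n`. -/
noncomputable def gramP : FPn F n → (Fin (n + 1) → Fin (n + 1) → F) :=
  Quotient.lift (s := projectivizationSetoid F (Fin (n + 1) → F))
    (fun v => gram (v : Fin (n + 1) → F)) (by
      intro v w h
      obtain ⟨u, hu0, hu⟩ := mk_eq.1 (Quotient.sound h)
      change gram (v : Fin (n + 1) → F) = gram (w : Fin (n + 1) → F)
      rw [← hu]
      exact gram_smul hu0 _)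

theorem gramP_mk (v : {v : Fin (n + 1) → F // v ≠ 0}) :
    gramP F n (mk F n v) = gram (v : Fin (n + 1) → F) := rfl

theorem gramP_injective : Function.Injective (gramP F n) := by
  intro x y h
  obtain ⟨v, rfl⟩ := mk_surjective x
  obtain ⟨w, rfl⟩ := mk_surjective y
  rw [gramP_mk, gramP_mk] at h
  exact mk_eq.2 (gram_inj v.2 w.2 h)

theorem gramP_continuous : Continuous (gramP F n) := by
  refine mk_isQuotientMap.continuous_iff.2 ?_
  exact gram_continuous

variable [FiniteDimensional ℝ F]

instance : CompactSpace (FPn F n) := by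
  have : ProperSpace (Fin (n + 1) → F) := by
    have : FiniteDimensional ℝ (Fin (n + 1) → F) := inferInstance
    exact FiniteDimensional.proper ℝ _
  have hK : IsCompact (Metric.sphere (0 : Fin (n + 1) → F) 1) := isCompact_sphere _ _
  have : CompactSpace (Metric.sphere (0 : Fin (n + 1) → F) 1) := isCompact_iff_compactSpace.1 hK
  let g : Metric.sphere (0 : Fin (n + 1) → F) 1 → {v : Fin (n + 1) → F // v ≠ 0} :=
    fun v => ⟨v, fun h0 => by
      have := v.2
      rw [mem_sphere_zero_iff_norm, h0, norm_zero] at this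
      exact zero_ne_one this⟩
  have hg : Continuous g := Continuous.subtype_mk continuous_subtype_val _
  have hsurj : Function.Surjective (mk F n ∘ g) := by
    intro x
    obtain ⟨v, rfl⟩ := mk_surjective x
    have hv : ‖(v : Fin (n + 1) → F)‖ ≠ 0 := norm_ne_zero_iff.2 v.2
    refine ⟨⟨(algebraMap ℝ F ‖(v : Fin (n + 1) → F)‖⁻¹) • (v : Fin (n + 1) → F), ?_⟩, ?_⟩
    · rw [mem_sphere_zero_iff_norm, algebraMap_smul, norm_smul, norm_inv, norm_norm,
        inv_mul_cancel₀ hv]
    · refine mk_eq.2 ⟨algebraMap ℝ F ‖(v : Fin (n + 1) → F)‖⁻¹, ?_, rfl⟩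
      rw [← norm_ne_zero_iff, norm_algebraMap']
      simpa using hv
  have hc : Continuous (mk F n ∘ g) := mk_continuous.comp hg
  refine ⟨?_⟩
  rw [← hsurj.range_eq]
  exact isCompact_range hc

theorem gramP_isClosedEmbedding : Topology.IsClosedEmbedding (gramP F n) :=
  (gramP_continuous F n).isClosedEmbedding (gramP_injective F n)

/-- The metric of the Gram embedding. -/
noncomputable instance metricFPn : MetricSpace (FPn F n) :=
  (gramP_isClosedEmbedding F n).isEmbedding.comapMetricSpace (gramP F n)

theorem gramP_isometry : Isometry (gramP F n) := fun _ _ => rfl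

/-- The topology of the metric is the quotient topology. -/
theorem metric_topology :
    (metricFPn F n).toPseudoMetricSpace.toUniformSpace.toTopologicalSpace =
      instTopologicalSpaceFPn F n :=
  rfl

instance : Nonempty (FPn F n) := ⟨mk F n ⟨fun _ => 1, fun h => by
  have := congrFun h 0
  exact one_ne_zero this⟩⟩

example : Continuous (mk F n) := mk_continuous

end metric

noncomputable example : MetricSpace (FPn (Quaternion ℝ) 3) := inferInstance

end TI
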