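import Pool.Agent.TI.Defs
import Mathlib.LinearAlgebra.Dual.Lemmas
import Mathlib.Tactic.Ring
import Mathlib.Tactic.Abel

/-!
# MP_9697d1_gt: the elementary form of the injectivity in singular homology
-/

open CategoryTheory AlgebraicTopology Opposite Simplicial

namespace TI

noncomputable section

/-- The coefficient object. -/
abbrev Z2 : ModuleCat.{0} (ZMod 2) := ModuleCat.of (ZMod 2) (ZMod 2)

/-- The singular chain complex. -/
abbrev Chains (X : Type) [TopologicalSpace X] : ChainComplex (ModuleCat.{0} (ZMod 2)) ℕ :=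
  ((singularChainComplexFunctor (ModuleCat.{0} (ZMod 2))).obj Z2).obj (TopCat.of X)

/-- Singular simplices. -/
abbrev SX (k : ℕ) (X : Type) [TopologicalSpace X] : Type :=
  C(stdSimplex ℝ (Fin (k + 1)), X)

/-- Elementary singular chains. -/
abbrev SC (k : ℕ) (X : Type) [TopologicalSpace X] : Type := SX k X →₀ ZMod 2

variable {X Y : Type} [TopologicalSpace X] [TopologicalSpace Y] {k : ℕ}

/-- The simplex of the singular simplicial set. -/
def toSimp (σ : SX k X) : (TopCat.toSSet.obj (TopCat.of X)) _⦋k⦌ :=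
  ((TopCat.of X).toSSetObjEquiv (op ⦋k⦌)).symm σ

/-- The face inclusions of the standard simplices. -/
def face (i : Fin (k + 2)) :
    C(stdSimplex ℝ (Fin (k + 1)), stdSimplex ℝ (Fin (k + 2))) where
  toFun := stdSimplex.map i.succAbove
  continuous_toFun := stdSimplex.continuous_map _

/-- The chain of a simplex. -/
def simp1 (σ : SX k X) : Z2 ⟶ (Chains X).X k :=
  (TopCat.toSSet.obj (TopCat.of X)).ιChainComplex (toSimp σ)

/-- The boundary. -/
def bdS : SC (k + 1) X →ₗ[ZMod 2] SC k X :=
  Finsupp.linearCombination (ZMod 2) fun σ => ∑ i : Fin (k + 2), Finsupp.single (σ.comp (face i)) 1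

/-- The push forward. -/
def pushS (g : C(X, Y)) : SC k X →ₗ[ZMod 2] SC k Y :=
  Finsupp.linearCombination (ZMod 2) fun σ => Finsupp.single (g.comp σ) 1

/-- The comparison with Mathlib's chains. -/
def Phi (k : ℕ) (X : Type) [TopologicalSpace X] : SC k X →ₗ[ZMod 2] (Chains X).X k :=
  Finsupp.linearCombination (ZMod 2) fun σ => (simp1 σ).hom (1 : ZMod 2)

theorem Phi_single (σ : SX k X) : Phi k X (Finsupp.single σ 1) = (simp1 σ).hom (1 : ZMod 2) := by
  rw [Phi, Finsupp.linearCombination_single, one_smul]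

theorem simp1_d (σ : SX (k + 1) X) :
    simp1 σ ≫ (Chains X).d (k + 1) k =
      ∑ i : Fin (k + 2), (-1) ^ i.val • simp1 (σ.comp (face i)) := by
  have h := SSet.ιChainComplex_d (TopCat.toSSet.obj (TopCat.of X)) (R := Z2) (toSimp σ)
  exact h

theorem simp1_map (g : C(X, Y)) (σ : SX k X) :
    simp1 σ ≫ (((singularChainComplexFunctor (ModuleCat.{0} (ZMod 2))).obj Z2).map
          (TopCat.ofHom g)).f k = simp1 (g.comp σ) := by
  have h := SSet.ι_chainComplexMap_f _ _ (TopCat.toSSet.map (TopCat.ofHom g)) Z2 (toSimp σ)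
  exact h

theorem neg_one_pow_smul {W : Type} [AddCommGroup W] [Module (ZMod 2) W] (i : ℕ) (w : W) :
    ((-1 : ℤ) ^ i) • w = w := by
  have h2 : ∀ w : W, -w = w := fun w => by
    have h3 : (2 : ZMod 2) • w = 0 := by
      rw [show (2 : ZMod 2) = 0 from rfl, zero_smul]
    rw [two_smul] at h3
    exact neg_eq_of_add_eq_zero_left h3
  rcases neg_one_pow_eq_or ℤ i with h | h
  · rw [h, one_smul]
  · rw [h, neg_one_smul, h2]

theorem Phi_bd (z : SC (k + 1) X) :
    ((Chains X).d (k + 1) k).hom (Phi (k + 1) X z) = Phi k X (bdS z) := by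
  have h : ((Chains X).d (k + 1) k).hom ∘ₗ (Phi (k + 1) X) = (Phi k X) ∘ₗ bdS := by
    refine Finsupp.lhom_ext' fun σ => LinearMap.ext_ring ?_
    simp only [LinearMap.comp_apply, Finsupp.lsingle_apply]
    rw [Phi_single]
    have h1 := congrArg (fun φ => φ.hom (1 : ZMod 2)) (simp1_d σ)
    have h2 : (simp1 σ ≫ (Chains X).d (k + 1) k).hom (1 : ZMod 2) =
      ((Chains X).d (k + 1) k).hom ((simp1 σ).hom (1 : ZMod 2)) := rfl
    rw [← h2]
    refine h1.trans ?_
    rw [bdS, Finsupp.linearCombination_single, one_smul, map_sum]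
    simp only [Phi_single]
    rw [ModuleCat.hom_sum, LinearMap.sum_apply]
    refine Finset.sum_congr rfl fun i _ => ?_
    rw [ModuleCat.hom_zsmul, LinearMap.smul_apply, neg_one_pow_smul]
  exact LinearMap.congr_fun h z

theorem Phi_push (g : C(X, Y)) (z : SC k X) :
    ((((singularChainComplexFunctor (ModuleCat.{0} (ZMod 2))).obj Z2).map
          (TopCat.ofHom g)).f k).hom (Phi k X z) = Phi k Y (pushS g z) := by
  have h : ((((singularChainComplexFunctor (ModuleCat.{0} (ZMod 2))).obj Z2).map
          (TopCat.ofHom g)).f k).hom ∘ₗ (Phi k X) = (Phi k Y) ∘ₗ pushS g := by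
    refine Finsupp.lhom_ext' fun σ => LinearMap.ext_ring ?_
    simp only [LinearMap.comp_apply, Finsupp.lsingle_apply]
    rw [Phi_single, pushS, Finsupp.linearCombination_single, one_smul, Phi_single]
    exact congrArg (fun φ => φ.hom (1 : ZMod 2)) (simp1_map g σ)
  exact LinearMap.congr_fun h z

/-- Functionals on singular chains, defined on singular simplices. -/
theorem exists_chain_functional (φ : SX k X → ZMod 2) :
    ∃ I : (Chains X).X k ⟶ Z2, ∀ σ, (simp1 σ ≫ I).hom (1 : ZMod 2) = φ σ := by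
  let K := (TopCat.toSSet.obj (TopCat.of X))
  refine ⟨Limits.Sigma.desc (fun s : K _⦋k⦌ => ModuleCat.ofHom (LinearMap.toSpanSingleton
    (ZMod 2) (ZMod 2) (φ (((TopCat.of X).toSSetObjEquiv (op ⦋k⦌)) s)))), ?_⟩
  intro σ
  have h : simp1 σ ≫ Limits.Sigma.desc (fun s : K _⦋k⦌ =>
      ModuleCat.ofHom (LinearMap.toSpanSingleton (ZMod 2) (ZMod 2)
      (φ (((TopCat.of X).toSSetObjEquiv (op ⦋k⦌)) s)))) =
      ModuleCat.ofHom (LinearMap.toSpanSingleton (ZMod 2) (ZMod 2)
      (φ (((TopCat.of X).toSSetObjEquiv (op ⦋k⦌)) (toSimp σ)))) :=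
    Limits.Sigma.ι_desc _ _
  rw [h]
  simp [toSimp]

theorem Phi_injective : Function.Injective (Phi k X) := by
  rw [injective_iff_map_eq_zero]
  intro z hz
  ext σ
  classical
  obtain ⟨I, hI⟩ := exists_chain_functional (X := X) (fun τ : SX k X => if τ = σ then 1 else 0)
  have h1 : I.hom (Phi k X z) = z σ := by
    have h2 : I.hom ∘ₗ (Phi k X) = Finsupp.lapply σ := by
      refine Finsupp.lhom_ext' fun τ => LinearMap.ext_ring ?_
      simp only [LinearMap.comp_apply, Finsupp.lsingle_apply, Finsupp.lapply_apply]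
      rw [Phi_single, Finsupp.single_apply]
      exact hI τ
    exact LinearMap.congr_fun h2 z
  rw [hz, map_zero] at h1
  exact h1.symm

theorem Phi_surjective : Function.Surjective (Phi k X) := by
  rw [← LinearMap.range_eq_top]
  set P := LinearMap.range (Phi k X) with hP
  have h0 : (ModuleCat.ofHom P.mkQ : (Chains X).X k ⟶ ModuleCat.of (ZMod 2) _) = 0 := by
    refine SSet.chainComplex_hom_ext (X := TopCat.toSSet.obj (TopCat.of X)) (R := Z2) ?_
    intro s
    obtain ⟨σ, rfl⟩ : ∃ σ : SX k X, toSimp σ = s :=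
      ⟨((TopCat.of X).toSSetObjEquiv (op ⦋k⦌)) s, by simp [toSimp]⟩
    refine ModuleCat.hom_ext (LinearMap.ext_ring ?_)
    have h2 : (simp1 σ).hom (1 : ZMod 2) ∈ P := ⟨Finsupp.single σ 1, Phi_single σ⟩
    exact (Submodule.Quotient.mk_eq_zero P).2 h2
  have h1 : P.mkQ = 0 := congrArg ModuleCat.Hom.hom h0
  rw [← Submodule.ker_mkQ P, h1, LinearMap.ker_zero]

theorem bdS_push (g : C(X, Y)) (z : SC (k + 1) X) : bdS (pushS g z) = pushS g (bdS z) := by
  have h : bdS ∘ₗ pushS g = pushS g ∘ₗ (bdS : SC (k + 1) X →ₗ[ZMod 2] SC k X) := by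
    refine Finsupp.lhom_ext' fun σ => LinearMap.ext_ring ?_
    simp only [LinearMap.comp_apply, Finsupp.lsingle_apply]
    rw [pushS, Finsupp.linearCombination_single, one_smul, bdS,
      Finsupp.linearCombination_single, one_smul, bdS, Finsupp.linearCombination_single, one_smul,
      map_sum]
    refine Finset.sum_congr rfl fun i _ => ?_
    rw [pushS, Finsupp.linearCombination_single, one_smul]
    rfl
  exact LinearMap.congr_fun h z

theorem bdS_bdS (z : SC (k + 2) X) : bdS (bdS z) = (0 : SC k X) := by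
  apply Phi_injective
  rw [← Phi_bd, ← Phi_bd, map_zero]
  have h := (Chains X).d_comp_d (k + 2) (k + 1) k
  exact congrArg (fun φ => φ.hom (Phi (k + 2) X z)) h

theorem pushS_injective {g : C(X, Y)} (hg : Function.Injective g) :
    Function.Injective (pushS (k := k) g) := by
  have h : (pushS (k := k) g : SC k X → SC k Y) = Finsupp.mapDomain (fun σ => g.comp σ) := by
    funext z
    rw [pushS, Finsupp.linearCombination_apply, Finsupp.mapDomain]
    refine Finsupp.sum_congr fun σ _ => ?_
    rw [Finsupp.smul_single, smul_eq_mul, mul_one]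
  rw [h]
  refine Finsupp.mapDomain_injective fun σ τ hστ => ContinuousMap.ext fun t => hg ?_
  exact DFunLike.congr_fun hστ t

/-- The inclusion of a subset. -/
def inclC {M : Type} [TopologicalSpace M] (U : Set M) : C(U, M) :=
  ⟨Subtype.val, continuous_subtype_val⟩

/-- The elementary form of the injectivity of `H_i(U) → H_i(M)`. -/
theorem inj_chain {M : Type} [TopologicalSpace M] {U : Set M} {i : ℕ} (h : InjH U i)
    (z : SC i U) (w : SC (i + 1) M) (hw : bdS w = pushS (inclC U) z) :
    ∃ w' : SC (i + 1) U, bdS w' = z := by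
  -- `z` is a cycle
  have hcyc : ∀ j, ((Chains U).d i j).hom (Phi i U z) = 0 := by
    intro j
    rcases i with _ | i
    · rw [(Chains U).shape _ _ (by simp)]
      rfl
    · by_cases hj : j = i
      · subst hj
        rw [Phi_bd]
        have h1 : bdS z = 0 := by
          apply pushS_injective (g := inclC U) Subtype.val_injective
          rw [← bdS_push, ← hw, bdS_bdS, map_zero]
        rw [h1, map_zero]
      · rw [(Chains U).shape _ _ (by
          simp only [ComplexShape.down_Rel]
          omega)]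
        rfl
  set c : Z2 ⟶ (Chains U).X i :=
    ModuleCat.ofHom (LinearMap.toSpanSingleton (ZMod 2) _ (Phi i U z)) with hc
  have hc1 : c.hom (1 : ZMod 2) = Phi i U z := one_smul (ZMod 2) (Phi i U z)
  have hcd : ∀ j, c ≫ (Chains U).d i j = 0 := by
    intro j
    refine ModuleCat.hom_ext (LinearMap.ext_ring ?_)
    have : (c ≫ (Chains U).d i j).hom (1 : ZMod 2) = ((Chains U).d i j).hom (c.hom 1) := rfl
    rw [this, hc1, hcyc]
    rfl
  set F := ((singularChainComplexFunctor (ModuleCat.{0} (ZMod 2))).obj Z2).map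
          (TopCat.ofHom (inclC U)) with hF
  -- its class
  set cls : Z2 ⟶ (Chains U).homology i :=
    (Chains U).liftCycles c ((ComplexShape.down ℕ).next i) rfl (hcd _) ≫ (Chains U).homologyπ i
    with hcls
  -- the image in `M` is zero
  have hzero : cls ≫ HomologicalComplex.homologyMap F i = 0 := by
    rw [hcls, Category.assoc, HomologicalComplex.homologyπ_naturality]
    rw [← Category.assoc, HomologicalComplex.liftCycles_comp_cyclesMap]
    set b : Z2 ⟶ (Chains M).X (i + 1) :=
      ModuleCat.ofHom (LinearMap.toSpanSingleton (ZMod 2) _ (Phi (i + 1) M w)) with hb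
    have hb1 : b.hom (1 : ZMod 2) = Phi (i + 1) M w := one_smul (ZMod 2) (Phi (i + 1) M w)
    refine HomologicalComplex.liftCycles_homologyπ_eq_zero_of_boundary (K := Chains M) (i' := i + 1)
      _ _ rfl b ?_
    refine ModuleCat.hom_ext (LinearMap.ext_ring ?_)
    have e1 : (c ≫ F.f i).hom (1 : ZMod 2) = (F.f i).hom (c.hom 1) := rfl
    have e2 : (b ≫ (Chains M).d (i + 1) i).hom (1 : ZMod 2) =
      ((Chains M).d (i + 1) i).hom (b.hom 1) := rfl
    rw [e1, e2, hc1, hb1, Phi_bd, hw]
    exact Phi_push (inclC U) z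
  have hcls0 : cls.hom (1 : ZMod 2) = 0 := by
    apply h
    have e1 : ((H2 i).map (incl U)).hom (cls.hom (1 : ZMod 2)) = 0 :=
      congrArg (fun φ => φ.hom (1 : ZMod 2)) hzero
    exact e1.trans (LinearMap.map_zero ((H2 i).map (incl U)).hom).symm
  -- a functional that vanishes on the boundaries vanishes on `z`
  by_contra hcon
  push Not at hcon
  have hnot : Phi i U z ∉ LinearMap.range ((Chains U).d (i + 1) i).hom := by
    rintro ⟨y, hy⟩
    obtain ⟨w', rfl⟩ := Phi_surjective y
    rw [Phi_bd] at hy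
    exact hcon w' (Phi_injective hy)
  obtain ⟨I, hI1, hI2⟩ := Submodule.exists_le_ker_of_notMem hnot
  set I' : (Chains U).X i ⟶ Z2 := ModuleCat.ofHom I with hI'
  have hdI : (Chains U).d (i + 1) i ≫ I' = 0 := by
    refine ModuleCat.hom_ext (LinearMap.ext fun y => ?_)
    exact hI2 ⟨y, rfl⟩
  have key : cls ≫ (Chains U).homologyι i ≫ (Chains U).descOpcycles I' (i + 1) (by simp) hdI =
      c ≫ I' := by
    rw [hcls, Category.assoc, HomologicalComplex.homology_π_ι_assoc,
      HomologicalComplex.p_descOpcycles, HomologicalComplex.liftCycles_i_assoc]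
  have h3 := congrArg (fun φ => φ.hom (1 : ZMod 2)) key
  have h4 : (c ≫ I').hom (1 : ZMod 2) = I (Phi i U z) := by
    have : (c ≫ I').hom (1 : ZMod 2) = I (c.hom 1) := rfl
    rw [this, hc1]
  have h5 : (cls ≫ (Chains U).homologyι i ≫ (Chains U).descOpcycles I' (i + 1) (by simp) hdI).hom
      (1 : ZMod 2) = ((Chains U).homologyι i ≫ (Chains U).descOpcycles I' (i + 1) (by simp)
      hdI).hom (cls.hom 1) := rfl
  rw [hcls0, map_zero] at h5
  apply hI1
  rw [← h4, ← h3]
  exact h5

end

end TI
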