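import Pool.Agent.TI.BMain
import Pool.Agent.TI.Sing
import Pool.Agent.TI.Geo
import Pool.Agent.TI.Gram

/-!
# Tightness implies surjectivity in Vietoris cohomology: assembly

Block B (bridge from singular homology to Vietoris cochains), part 4.
-/

set_option autoImplicit false
set_option linter.unusedSectionVars false

noncomputable section

namespace TIB

open Finsupp Filter Topology
open Pool.Agent.VC (Cc dd Dg Z Small Cyc Bd sh)

universe u v

/-! ## The elementary form of the injectivity -/

section inj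

variable {M : Type} [TopologicalSpace M]

theorem sbd_eq_bdS {j : ℕ} (z : SCh M (j + 1)) : sbd z = TI.bdS (k := j) (X := M) z := by
  have h : sbd (X := M) (j := j) = TI.bdS (k := j) (X := M) := l_ext fun σ => by
    rw [sbd_single, TI.bdS, Finsupp.linearCombination_single, one_smul]
    rfl
  rw [h]

theorem pushS_single {X Y : Type} [TopologicalSpace X] [TopologicalSpace Y] {k : ℕ} (g : C(X, Y))
    (σ : C(Simp k, X)) : TI.pushS (k := k) g (single σ (1 : F2)) = single (g.comp σ) 1 := by
  rw [TI.pushS, Finsupp.linearCombination_single, one_smul]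

/-- Restriction of a simplex to a set which contains its image. -/
def rst (U : Set M) {j : ℕ} (σ : C(Simp j, M)) (h : SIn U σ) : C(Simp j, U) :=
  ⟨fun t => ⟨σ t, h t⟩, σ.continuous.subtype_mk _⟩

theorem exists_pushS (U : Set M) {j : ℕ} {z : SCh M j} (hz : AllL (SIn U) z) :
    ∃ y : TI.SC j U, TI.pushS (k := j) (TI.inclC U) y = z := by
  classical
  set R : SCh M j →ₗ[F2] TI.SC j U := Finsupp.linearCombination F2 (fun σ =>
    if h : SIn U σ then single (rst U σ h) 1 else 0) with hR
  refine ⟨R z, ?_⟩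
  refine AllL.ext (L := (TI.pushS (k := j) (TI.inclC U)).comp R) (L' := LinearMap.id)
    (P := SIn U) (fun σ hσ => ?_) hz
  have h1 : R (single σ 1) = single (rst U σ hσ) 1 := by
    rw [hR, Finsupp.linearCombination_single, one_smul, dif_pos hσ]
  rw [LinearMap.comp_apply, h1, pushS_single]
  rfl

theorem allL_pushS (U : Set M) {j : ℕ} (y : TI.SC j U) :
    AllL (SIn U) (TI.pushS (k := j) (TI.inclC U) y) := by
  refine AllL.map (P := fun _ => True) (fun σ _ => ?_) (fun _ _ => trivial)
  rw [pushS_single]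
  exact AllL.single (fun t => (σ t).2) 1

theorem injE_of_injH {U : Set M} {j : ℕ} (h : TI.InjH U j) : InjE U j := by
  intro w hw
  obtain ⟨z, hz⟩ := exists_pushS U hw
  obtain ⟨w', hw'⟩ := TI.inj_chain h z w (by rw [← sbd_eq_bdS, hz])
  refine ⟨TI.pushS (TI.inclC U) w', allL_pushS U w', ?_⟩
  rw [sbd_eq_bdS, TI.bdS_push, hw', hz]

end inj

/-! ## Spans from a retraction of a neighbourhood -/

section spans

variable {X : Type u} [MetricSpace X] [CompactSpace X]
  {E : Type v} [NormedAddCommGroup E] [NormedSpace ℝ E]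

theorem sum_face_apply {j : ℕ} (y : Fin (j + 2) → E) (i : Fin (j + 2)) (t : Simp j) :
    ∑ l, (face i t) l • y l = ∑ m, t m • y (i.succAbove m) := by
  classical
  have h : ∀ l, (face i t) l = ∑ m ∈ Finset.univ.filter (fun m => i.succAbove m = l), t m := by
    intro l
    show FunOnFinite.linearMap ℝ ℝ i.succAbove (t : Fin (j + 1) → ℝ) l = _
    rw [FunOnFinite.linearMap_apply_apply]
  have h2 : ∀ l, (face i t) l • y l =
      ∑ m ∈ Finset.univ.filter (fun m => i.succAbove m = l), t m • y (i.succAbove m) := by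
    intro l
    rw [h l, Finset.sum_smul]
    refine Finset.sum_congr rfl fun m hm => ?_
    rw [(Finset.mem_filter.1 hm).2]
  rw [Finset.sum_congr rfl fun l _ => h2 l]
  exact Finset.sum_fiberwise Finset.univ i.succAbove fun m => t m • y (i.succAbove m)

theorem dist_sum_lt {j : ℕ} (y : Fin (j + 1) → E) (t : Simp j) {ε : ℝ}
    (h : ∀ i, dist (y i) (y 0) < ε) : dist (∑ i, t i • y i) (y 0) < ε := by
  have hmem : ∑ i, t i • y i ∈ Metric.ball (y 0) ε := by
    refine (convex_ball (y 0) ε).sum_mem (fun i _ => stdSimplex.zero_le t i)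
      (stdSimplex.sum_eq_one t) (fun i _ => Metric.mem_ball.2 (h i))
  exact Metric.mem_ball.1 hmem

/-- Spans from a retraction of a neighbourhood of an isometrically embedded compact space. -/
def spansOf (ι : X → E) (hι : Isometry ι) (U : Set E) (r : E → X) (hU : IsOpen U)
    (hιU : Set.range ι ⊆ U) (hr : ContinuousOn r U) (hri : ∀ x, r (ι x) = x) : Spans X :=
  have hK : IsCompact (Set.range ι) := isCompact_range hι.continuous
  have hex : ∃ ε > 0, Metric.thickening ε (Set.range ι) ⊆ U := 
    hK.exists_thickening_subset_open hU hιU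
  let ε₀ : ℝ := Classical.choose hex
  have hε₀ : 0 < ε₀ := (Classical.choose_spec hex).1
  have hsub : Metric.thickening ε₀ (Set.range ι) ⊆ U := (Classical.choose_spec hex).2
  have hin : ∀ (j : ℕ) (x : Fin (j + 1) → X), (∀ a b, dist (x a) (x b) < ε₀) →
      ∀ t : Simp j, ∑ i, t i • ι (x i) ∈ U := by
    intro j x hx t
    refine hsub (Metric.mem_thickening_iff.2 ⟨ι (x 0), ⟨x 0, rfl⟩, ?_⟩)
    exact dist_sum_lt (fun i => ι (x i)) t fun i => by rw [hι.dist_eq]; exact hx i 0
  have hcont : ∀ (j : ℕ) (x : Fin (j + 1) → X) (_ : ∀ a b, dist (x a) (x b) < ε₀),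
      Continuous fun t : Simp j => r (∑ i, t i • ι (x i)) := by
    intro j x hx
    refine hr.comp_continuous ?_ (hin j x hx)
    refine continuous_finsetSum _ fun i _ => Continuous.smul ?_ continuous_const
    exact (continuous_apply i).comp continuous_subtype_val
  open Classical in
  { s := fun j x => if h : ∀ a b, dist (x a) (x b) < ε₀ then
      ⟨fun t => r (∑ i, t i • ι (x i)), hcont j x h⟩ else ContinuousMap.const _ (x 0)
    r := ε₀
    pos := hε₀
    face_eq := by
      intro j x i hx
      have hx' : ∀ a b, dist ((x ∘ i.succAbove) a) ((x ∘ i.succAbove) b) < ε₀ := 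
        fun a b => hx _ _
      rw [dif_pos hx, dif_pos hx']
      ext t
      show r (∑ l, (face i t) l • ι (x l)) = r (∑ m, t m • ι (x (i.succAbove m)))
      rw [sum_face_apply]
    vert := by
      intro j x i hx
      rw [dif_pos hx]
      show r (∑ l, (stdSimplex.vertex (S := ℝ) i) l • ι (x l)) = x i
      rw [Finset.sum_eq_single i]
      · rw [stdSimplex.vertex_coe, Pi.single_eq_same, one_smul, hri]
      · intro l _ hl
        rw [stdSimplex.vertex_coe, Pi.single_eq_of_ne hl, zero_smul]
      · intro h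
        exact absurd (Finset.mem_univ i) h
    small := by
      intro j ε hε
      have huc := hK.uniformContinuousAt_of_continuousAt r
        (fun a ha => hr.continuousAt (hU.mem_nhds (hιU ha)))
        (Metric.dist_mem_uniformity (half_pos hε))
      obtain ⟨δ, hδ, hδ'⟩ := Metric.mem_uniformity_dist.1 huc
      refine ⟨min δ ε₀, lt_min hδ hε₀, fun x hx p q => ?_⟩
      have hx' : ∀ a b, dist (x a) (x b) < ε₀ := fun a b => (hx a b).trans_le (min_le_right _ _)
      rw [dif_pos hx']
      have hd : ∀ t : Simp j, dist (x 0) (r (∑ i, t i • ι (x i))) < ε / 2 := by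
        intro t
        have h1 : dist (ι (x 0)) (∑ i, t i • ι (x i)) < δ := by
          rw [dist_comm]
          exact dist_sum_lt (fun i => ι (x i)) t fun i => by
            rw [hι.dist_eq]; exact (hx i 0).trans_le (min_le_left _ _)
        have h2 := hδ' h1
        have h3 := h2 (⟨x 0, rfl⟩ : ι (x 0) ∈ Set.range ι)
        have h4 : dist (r (ι (x 0))) (r (∑ i, t i • ι (x i))) < ε / 2 := h3
        rwa [hri] at h4
      show dist (r (∑ i, p i • ι (x i))) (r (∑ i, q i • ι (x i))) < ε
      have h5 := hd p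
      have h6 := hd q
      rw [dist_comm] at h5
      have := dist_triangle (r (∑ i, p i • ι (x i))) (x 0) (r (∑ i, q i • ι (x i)))
      linarith }

end spans

/-! ## Superlevel sets shrink to the top set -/

section top

variable {M : Type} [MetricSpace M] [CompactSpace M] [Nonempty M] {N : ℕ}

theorem exists_superlevel {f : M → TI.E N} (hf : Continuous f) (z : TI.E N) {ε : ℝ}
    (hε : 0 < ε) : ∃ (c δ : ℝ), 0 < δ ∧
      Metric.thickening δ (TI.topSet f z) ⊆ f ⁻¹' {y | c < inner ℝ z y} ∧
      f ⁻¹' {y | c < inner ℝ z y} ⊆ Metric.thickening ε (TI.topSet f z) := by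
  have hg : Continuous fun x => inner ℝ z (f x) := continuous_const.inner hf
  obtain ⟨x₀, -, hx₀⟩ := isCompact_univ.exists_isMaxOn Set.univ_nonempty hg.continuousOn
  have hmax : ∀ y, inner ℝ z (f y) ≤ inner ℝ z (f x₀) := fun y => hx₀ (Set.mem_univ y)
  -- a level
  obtain ⟨c, hc1, hc2⟩ : ∃ c, c < inner ℝ z (f x₀) ∧
      f ⁻¹' {y | c < inner ℝ z y} ⊆ Metric.thickening ε (TI.topSet f z) := by
    rcases (Metric.thickening ε (TI.topSet f z))ᶜ.eq_empty_or_nonempty with he | hne
    · refine ⟨inner ℝ z (f x₀) - 1, by linarith, fun x _ => ?_⟩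
      rw [Set.compl_empty_iff.1 he]
      trivial
    · have hcl : IsCompact (Metric.thickening ε (TI.topSet f z))ᶜ :=
        Metric.isOpen_thickening.isClosed_compl.isCompact
      obtain ⟨x₁, hx₁, hx₁'⟩ := hcl.exists_isMaxOn hne hg.continuousOn
      refine ⟨inner ℝ z (f x₁), ?_, fun x hx => ?_⟩
      · refine lt_of_le_of_ne (hmax x₁) fun heq => hx₁ ?_
        refine Metric.self_subset_thickening hε _ ?_
        intro y
        rw [heq]
        exact hmax y
      · by_contra hcon
        have h1 : inner ℝ z (f x) ≤ inner ℝ z (f x₁) := hx₁' hcon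
        have h2 : inner ℝ z (f x₁) < inner ℝ z (f x) := hx
        linarith
  have hopen : IsOpen (f ⁻¹' {y | c < inner ℝ z y}) := isOpen_lt continuous_const hg
  have hcomp : IsCompact (TI.topSet f z) := by
    refine IsClosed.isCompact ?_
    have : TI.topSet f z = ⋂ y, {x | inner ℝ z (f y) ≤ inner ℝ z (f x)} := by
      ext x
      simp [TI.topSet]
    rw [this]
    exact isClosed_iInter fun y => isClosed_le continuous_const hg
  have hsub : TI.topSet f z ⊆ f ⁻¹' {y | c < inner ℝ z y} := fun x hx => hc1.trans_le (hx x₀)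
  obtain ⟨δ, hδ, hδ'⟩ := hcomp.exists_thickening_subset_open hopen hsub
  exact ⟨c, δ, hδ, hδ', hc2⟩

/-- Tightness implies that the classes of the top sets extend. -/
theorem hsurj (S : Spans M) {f : M → TI.E N} (hf : Continuous f) (ht : TI.Tight f) :
    ∀ z : TI.E N, z ≠ 0 → ∀ (j : ℤ) (c : Cc M), Cyc j (TI.topSet f z) ∅ c →
      ∃ c' : Cc M, Cyc j Set.univ ∅ c' ∧ Bd j (TI.topSet f z) ∅ (c + c') := by
  intro z hz j c hc
  rcases lt_or_ge j 0 with hj | hj
  · have h0 : c = 0 := Pool.Agent.VC.Dg.neg hc.deg hj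
    refine ⟨0, Pool.Agent.VC.Cyc.zero, ?_⟩
    rw [h0, add_zero]
    exact Pool.Agent.VC.Bd.zero
  · obtain ⟨k, rfl⟩ := Int.eq_ofNat_of_zero_le hj
    refine bridge S (TI.topSet f z) k (fun ε hε => ?_) c hc
    obtain ⟨a, δ, hδ, h1, h2⟩ := exists_superlevel hf z hε
    exact ⟨_, δ, hδ, h1, h2, injE_of_injH (ht z a k hz)⟩

end top

end TIB

namespace TIB

/-- Tightness implies that the classes of the top sets extend, for `FPn F n`, from a retraction of
a neighbourhood in the Gram model. -/
theorem hsurj_FPn (F : Type) [NormedDivisionRing F] [NormedAlgebra ℝ F] [StarRing F]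
    [TI.StarNorm F] [FiniteDimensional ℝ F] (n N : ℕ)
    (hretr : ∃ (U : Set (Fin (n + 1) → Fin (n + 1) → F))
      (r : (Fin (n + 1) → Fin (n + 1) → F) → TI.FPn F n), IsOpen U ∧
      Set.range (TI.gramP F n) ⊆ U ∧ ContinuousOn r U ∧ ∀ x, r (TI.gramP F n x) = x)
    {f : TI.FPn F n → TI.E N} (hf : Continuous f) (ht : TI.Tight f) :
    ∀ z : TI.E N, z ≠ 0 → ∀ (j : ℤ) (c : Pool.Agent.VC.Cc (TI.FPn F n)),
      Pool.Agent.VC.Cyc j (TI.topSet f z) ∅ c →
      ∃ c' : Pool.Agent.VC.Cc (TI.FPn F n), Pool.Agent.VC.Cyc j Set.univ ∅ c' ∧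
        Pool.Agent.VC.Bd j (TI.topSet f z) ∅ (c + c') := by
  obtain ⟨U, r, hU, hsub, hr, hri⟩ := hretr
  exact hsurj (spansOf (TI.gramP F n) (TI.gramP_isometry F n) U r hU hsub hr hri) hf ht

end TIB
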