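import Mathlib.LinearAlgebra.Projectivization.Basic
import Mathlib.Analysis.Quaternion
import Mathlib.Analysis.InnerProductSpace.PiL2
import Mathlib.AlgebraicTopology.SingularHomology.Basic
import Mathlib.Algebra.Category.ModuleCat.Abelian
import Mathlib.Algebra.Category.ModuleCat.Colimits
import Mathlib.Algebra.Field.ZMod

/-!
# MP_9697d1_gt: tight immersions of projective spaces -- the final statement

`FPn F n` is the projective space of `F`-lines in `F^(n+1)` with the quotient topology
from the nonzero vectors, `H_i(X; Z/2)` is Mathlib's singular homology. The bound is proved for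
all continuous maps that are tight and substantial; they need not be locally injective.
-/

open CategoryTheory AlgebraicTopology

namespace TI

/-- The projective space of `F`-lines in `F^(n+1)`. -/
def FPn (F : Type) [NormedDivisionRing F] (n : ℕ) : Type :=
  Projectivization F (Fin (n + 1) → F)

/-- The quotient topology, from the subspace topology of the nonzero vectors of `F^(n+1)`. -/
instance (F : Type) [NormedDivisionRing F] (n : ℕ) : TopologicalSpace (FPn F n) :=
  inferInstanceAs (TopologicalSpace
    (Quotient (projectivizationSetoid F (Fin (n + 1) → F))))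

/-- Euclidean `N`-space. -/
abbrev E (N : ℕ) : Type := EuclideanSpace ℝ (Fin N)

/-- Singular homology `H_i(X; Z/2)` of Mathlib, as a functor of the space. -/
noncomputable abbrev H2 (i : ℕ) : TopCat.{0} ⥤ ModuleCat.{0} (ZMod 2) :=
  (singularHomologyFunctor (ModuleCat.{0} (ZMod 2)) i).obj (ModuleCat.of (ZMod 2) (ZMod 2))

/-- The inclusion of a subset as a morphism of topological spaces. -/
def incl {M : Type} [TopologicalSpace M] (U : Set M) : TopCat.of U ⟶ TopCat.of M :=
  TopCat.ofHom ⟨Subtype.val, continuous_subtype_val⟩

/-- The inclusion of `U` in `M` is injective on `H_i( ; Z/2)`. -/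
def InjH {M : Type} [TopologicalSpace M] (U : Set M) (i : ℕ) : Prop :=
  Function.Injective (((H2 i).map (incl U)).hom)

/-- `f : M → E^N` is tight: for every open half-space `h = {y | c < <z, y>}` (`z ≠ 0`) and every
`i` the inclusion of `f⁻¹(h)` in `M` is injective on `H_i( ; Z/2)`. -/
def Tight {M : Type} [TopologicalSpace M] {N : ℕ} (f : M → E N) : Prop :=
  ∀ (z : E N) (c : ℝ) (i : ℕ), z ≠ 0 → InjH (f ⁻¹' {y | c < inner ℝ z y}) i

/-- `f : M → E^N` is substantial: the image lies in no affine hyperplane `{y | <z, y> = c}`. -/
def Substantial {M : Type} {N : ℕ} (f : M → E N) : Prop :=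
  ∀ (z : E N) (c : ℝ), z ≠ 0 → ∃ x, inner ℝ z (f x) ≠ c

/-- The codimension bound for the space `FP^n`, with `d = dim_R F`. -/
def Bound (F : Type) [NormedDivisionRing F] (d : ℕ) : Prop :=
  ∀ (n N : ℕ) (f : FPn F n → E N), 1 ≤ n → Continuous f → Tight f → Substantial f →
    (N : ℤ) - d * n ≤ n + d * n.choose 2

/-- The final theorem. -/
def Goal : Prop := Bound ℝ 1 ∧ Bound ℂ 2 ∧ Bound (Quaternion ℝ) 4

end TI
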