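import Pool.Agent.TI.DimP
import Pool.Agent.TI.Geo
import Pool.Agent.TI.Defs

/-!
# MP_9697d1_gt: vanishing on the unit sphere
-/

set_option autoImplicit false

namespace TI

open Set Filter Topology Pool.Agent.VC

/-- Closed subsets of the unit sphere of `E^N` have no cohomology in the degrees `j ≥ N`. -/
theorem van_sph {N : ℕ} (A : Set (Sph (E N))) (hA : IsClosed A) (j : ℤ) (hj : (N : ℤ) ≤ j) :
    Van j A ∅ := by
  rcases Nat.eq_zero_or_pos N with h0 | h0
  · subst h0
    have h1 : A = ∅ := by
      refine eq_empty_of_forall_notMem fun z _ => ?_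
      have h2 : ‖(z : E 0)‖ = 1 := norm_eq_one z
      rw [Subsingleton.elim (z : E 0) 0, norm_zero] at h2
      exact zero_ne_one h2
    rw [h1]
    intro c hc
    exact Bd.of_Z (Z_empty hc.deg)
  · exact van_embed hA.isCompact continuous_subtype_val.continuousOn
      Subtype.val_injective.injOn hj (by omega)

end TI
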