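import Pool.Agent.VC.Core

/-!
# MP_9697d1_gt: vanishing above the dimension

A compact set with `k` continuous real functions that separate its points has no cohomology in
the degrees `p ≥ max k 1`; a finite union of such sets has none in the degrees `p > k`.
-/

set_option autoImplicit false
set_option linter.unusedSectionVars false

namespace TI

open Set Filter Topology Pool.Agent.VC

universe u v

namespace Dim

section

variable {X : Type u} [MetricSpace X]

/-! ## The unit cochain -/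

/-- The cochain `1` of degree zero. -/
def one (X : Type u) : Cc X := fun l => if l.length = 1 then 1 else 0

theorem one_Dg : one X ∈ Dg X 0 := by
  intro l hl
  have h1 : l.length = 1 := by
    by_contra h
    exact hl (if_neg h)
  refine ⟨?_, by rw [h1]; rfl⟩
  rintro rfl
  simp at h1

theorem dd_eq_zero_of_forall {c : Cc X} (h : ∀ l, c l = 0) (l : List X) : dd c l = 0 := by
  have : c = 0 := funext h
  rw [this, dd_zero]
  rfl

theorem dd_one : dd (one X) = 0 := by
  funext l
  rcases l with _ | ⟨x, _ | ⟨y, l⟩⟩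
  · simp
  · simp [one]
  · have h1 : ∀ l' : List X, sh (sh (one X) x) y l' = 0 := by
      intro l'
      simp [one]
    have h2 : dd (sh (sh (one X) x) y) l = 0 := dd_eq_zero_of_forall h1 l
    rw [dd_cons, dd_cons, h2, add_zero, Pi.zero_apply]
    rcases l with _ | ⟨z, l⟩
    · have e1 : one X [y] = 1 := by simp [one]
      have e2 : sh (one X) x [] = 1 := by simp [one]
      rw [e1, e2]
      exact two_zero 1
    · have e1 : one X (y :: z :: l) = 0 := by simp [one]
      have e2 : sh (one X) x (z :: l) = 0 := by simp [one]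
      rw [e1, e2, add_zero]

/-! ## Points -/

theorem small_cons {x : X} {ε : ℝ} (hε : 0 < ε) {l : List X} (hl : l ∈ Small ({x} : Set X) ε) :
    x :: l ∈ Small ({x} : Set X) ε := by
  have hx : ∀ y ∈ l, dist y x < ε := by
    intro y hy
    have := hl.1 y hy
    rwa [Metric.thickening_singleton, Metric.mem_ball] at this
  refine ⟨?_, ?_⟩
  · intro y hy
    rw [Metric.thickening_singleton, Metric.mem_ball]
    rcases List.mem_cons.1 hy with rfl | hy
    · rwa [dist_self]
    · exact hx y hy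
  · intro y hy z hz
    rcases List.mem_cons.1 hy with h1 | h1
    · rcases List.mem_cons.1 hz with h2 | h2
      · rwa [h1, h2, dist_self]
      · rw [h1, dist_comm]
        exact hx z h2
    · rcases List.mem_cons.1 hz with h2 | h2
      · rw [h2]
        exact hx y h1
      · exact hl.2 y h1 z h2

theorem van_point (x : X) {p : ℤ} (hp : 1 ≤ p) : Van p ({x} : Set X) ∅ := by
  intro c hc
  obtain ⟨ε, hε, h⟩ := hc.cyc
  have hdeg : sh c x ∈ Dg X (p - 1) := by
    intro l hl
    obtain ⟨-, h2⟩ := hc.deg (x :: l) hl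
    rw [List.length_cons] at h2
    push_cast at h2
    refine ⟨?_, by omega⟩
    rintro rfl
    rw [List.length_nil] at h2
    push_cast at h2
    omega
  refine ⟨sh c x, hdeg, Z_empty hdeg, ε, hε, fun l hl => ?_⟩
  have h1 := h _ (small_cons hε hl)
  rw [dd_cons] at h1
  exact h1

/-- Every class of degree `p` of `A` is the restriction of a cocycle of the whole space. -/
def Ext (p : ℤ) (A : Set X) : Prop :=
  ∀ e, Cyc p A ∅ e → ∃ e' ∈ Dg X p, dd e' = 0 ∧ Bd p A ∅ (e + e')

theorem Ext.of_van {p : ℤ} {A : Set X} (h : Van p A ∅) : Ext p A := by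
  intro e he
  refine ⟨0, zero_mem _, dd_zero, ?_⟩
  rw [add_zero]
  exact h e he

theorem ext_point (x : X) : Ext 0 ({x} : Set X) := by
  intro e he
  obtain ⟨ε, hε, h⟩ := he.cyc
  refine ⟨e [x] • one X, Submodule.smul_mem _ _ one_Dg, by rw [dd_smul, dd_one, smul_zero],
    Bd.of_Z ⟨ε, hε, fun l hl => ?_⟩⟩
  have hnl : l.length ≠ 1 → (e + e [x] • one X) l = 0 := by
    intro hne
    have h1 : e l = 0 := by
      by_contra h1
      have := (he.deg l h1).2
      omega
    have h2 : one X l = 0 := if_neg hne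
    rw [Pi.add_apply, Pi.smul_apply, h1, h2, smul_zero, add_zero]
  rcases l with _ | ⟨y, _ | ⟨z, l⟩⟩
  · exact hnl (by simp)
  · have h1 := h _ (small_cons hε hl)
    rw [dd_cons, dd_cons, sh_apply, dd_nil, add_zero] at h1
    have h2 : one X [y] = 1 := by simp [one]
    rw [Pi.add_apply, Pi.smul_apply, h2, smul_eq_mul, mul_one]
    exact h1
  · exact hnl (by simp)

/-! ## Gluing -/

theorem glue {p : ℤ} {A B : Set X} (hA : IsCompact A) (hB : IsClosed B)
    (hext : Ext (p - 1) (A ∩ B)) {c : Cc X} (h1 : Bd p A ∅ c) (h2 : Bd p B ∅ c) :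
    Bd p (A ∪ B) ∅ c := by
  obtain ⟨b₁, hb₁, -, h1⟩ := h1
  obtain ⟨b₂, hb₂, -, h2⟩ := h2
  have h3 : dd (b₁ + b₂) ∈ Z (A ∩ B) := by
    have h4 := add_mem (Z_anti inter_subset_left h1) (Z_anti inter_subset_right h2)
    have h5 : c + dd b₁ + (c + dd b₂) = dd (b₁ + b₂) := by
      rw [dd_add]
      calc c + dd b₁ + (c + dd b₂) = (c + c) + (dd b₁ + dd b₂) := by abel
        _ = _ := by rw [add_self, zero_add]
    rwa [h5] at h4
  obtain ⟨e, he, hde, b₃, hb₃, -, h6⟩ := hext (b₁ + b₂)
    ⟨add_mem hb₁ hb₂, Z_empty (add_mem hb₁ hb₂), h3⟩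
  have hdb₃ : dd b₃ ∈ Dg X (p - 1) := by
    have := dd_Dg hb₃
    rwa [show p - 1 - 1 + 1 = p - 1 by ring] at this
  set w : Cc X := b₁ + b₂ + e + dd b₃ with hw
  have hwD : w ∈ Dg X (p - 1) := add_mem (add_mem (add_mem hb₁ hb₂) he) hdb₃
  obtain ⟨K, hK1, hK2⟩ := Z_inter hA hB h6
  refine ⟨b₁ + ind K w, add_mem hb₁ (ind_Dg hwD), Z_empty (add_mem hb₁ (ind_Dg hwD)),
    Z_union ?_ ?_⟩
  · rw [dd_add, ← add_assoc]
    exact add_mem h1 (dd_Z hK1)
  · have h7 : b₁ + ind K w = b₂ + e + dd b₃ + ind Kᶜ w := by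
      have h8 : ind K w + ind Kᶜ w = w := ind_add_compl K w
      have h9 : b₁ + ind K w + (b₂ + e + dd b₃ + ind Kᶜ w) = 0 := by
        calc b₁ + ind K w + (b₂ + e + dd b₃ + ind Kᶜ w)
            = (b₁ + b₂ + e + dd b₃) + (ind K w + ind Kᶜ w) := by abel
          _ = w + w := by rw [h8]
          _ = 0 := add_self w
      have h10 := add_self (b₂ + e + dd b₃ + ind Kᶜ w)
      calc b₁ + ind K w = b₁ + ind K w + ((b₂ + e + dd b₃ + ind Kᶜ w) +
            (b₂ + e + dd b₃ + ind Kᶜ w)) := by rw [h10, add_zero]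
        _ = (b₁ + ind K w + (b₂ + e + dd b₃ + ind Kᶜ w)) +
            (b₂ + e + dd b₃ + ind Kᶜ w) := by abel
        _ = _ := by rw [h9, zero_add]
    rw [h7, dd_add, dd_add, dd_add, hde, dd_dd, add_zero, add_zero, ← add_assoc]
    exact add_mem h2 (dd_Z hK2)

/-! ## Slices -/

theorem bd_local {p : ℤ} {A : Set X} (hA : IsCompact A) {f : X → ℝ} (hf : ContinuousOn f A)
    {c : Cc X} (t : ℝ) (h : Bd p (A ∩ f ⁻¹' {t}) ∅ c) :
    ∃ r > 0, Bd p (A ∩ f ⁻¹' Icc (t - r) (t + r)) ∅ c := by
  obtain ⟨b, hb, hb', h⟩ := h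
  obtain ⟨r₀, hr₀, h1⟩ := Z_nhds h
  have h2 : ∃ r > 0, A ∩ f ⁻¹' Icc (t - r) (t + r) ⊆ Metric.thickening r₀ (A ∩ f ⁻¹' {t}) := by
    set C : Set X := A \ Metric.thickening r₀ (A ∩ f ⁻¹' {t}) with hC
    have hCc : IsCompact C := hA.diff Metric.isOpen_thickening
    rcases C.eq_empty_or_nonempty with hCe | hCne
    · refine ⟨1, one_pos, fun x hx => ?_⟩
      by_contra h3
      have : x ∈ C := ⟨hx.1, h3⟩
      rw [hCe] at this
      exact this
    · obtain ⟨y, hy, hmin⟩ := hCc.exists_isMinOn hCne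
        (f := fun x => |f x - t|) ((hf.mono sdiff_subset).sub continuousOn_const).abs
      have hyt : 0 < |f y - t| := by
        rw [abs_pos, sub_ne_zero]
        intro h3
        exact hy.2 (Metric.self_subset_thickening hr₀ _ ⟨hy.1, h3⟩)
      refine ⟨|f y - t| / 2, by positivity, fun x hx => ?_⟩
      by_contra h3
      have h4 : |f y - t| ≤ |f x - t| := hmin (show x ∈ C from ⟨hx.1, h3⟩)
      have h5 : |f x - t| ≤ |f y - t| / 2 := by
        obtain ⟨h6, h7⟩ := hx.2
        rw [abs_le]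
        constructor <;> linarith
      linarith
  obtain ⟨r, hr, h2⟩ := h2
  exact ⟨r, hr, b, hb, hb', h1 _ h2⟩

theorem isCompact_slice {A : Set X} (hA : IsCompact A) {f : X → ℝ} (hf : ContinuousOn f A)
    {s : Set ℝ} (hs : IsClosed s) : IsCompact (A ∩ f ⁻¹' s) :=
  hA.of_isClosed_subset (hf.preimage_isClosed_of_isClosed hA.isClosed hs) inter_subset_left

theorem slice_vanish {p : ℤ} {A : Set X} (hA : IsCompact A) {f : X → ℝ}
    (hf : ContinuousOn f A) {c : Cc X} (h1 : ∀ t, Bd p (A ∩ f ⁻¹' {t}) ∅ c)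
    (h2 : ∀ t, Ext (p - 1) (A ∩ f ⁻¹' {t})) : Bd p A ∅ c := by
  choose r hr hbd using fun t => bd_local hA hf t (h1 t)
  obtain ⟨R, hR⟩ := (hA.image_of_continuousOn hf).isBounded.subset_closedBall 0
  set a : ℝ := -(|R| + 1) with ha
  set b : ℝ := |R| + 1 with hb
  have hab : a < b := by
    have := abs_nonneg R
    rw [ha, hb]
    linarith
  have himg : ∀ x ∈ A, f x ∈ Icc a b := by
    intro x hx
    have h3 := hR (mem_image_of_mem f hx)
    rw [mem_closedBall_zero_iff, Real.norm_eq_abs] at h3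
    have h4 := le_abs_self R
    have h5 := abs_le.1 (h3.trans h4)
    exact ⟨by rw [ha]; linarith [h5.1], by rw [hb]; linarith [h5.2]⟩
  obtain ⟨δ, hδ, hleb⟩ := lebesgue_number_lemma_of_metric (isCompact_Icc (a := a) (b := b))
    (c := fun t : ℝ => Ioo (t - r t) (t + r t)) (fun t => isOpen_Ioo)
    (fun t _ => mem_iUnion.2 ⟨t, by constructor <;> linarith [hr t]⟩)
  obtain ⟨N, hN⟩ := exists_nat_gt ((b - a) / δ)
  have hN0 : (0 : ℝ) < N := lt_trans (div_pos (by linarith) hδ) hN
  set s : ℕ → ℝ := fun i => a + i * ((b - a) / N) with hs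
  have hstep : (b - a) / N < δ := by
    rw [div_lt_iff₀ hN0]
    rw [div_lt_iff₀ hδ] at hN
    linarith
  have hstep0 : 0 < (b - a) / N := div_pos (by linarith) hN0
  have hs0 : s 0 = a := by simp [hs]
  have hsN : s N = b := by
    simp only [hs]
    field_simp
    ring
  have hsucc : ∀ i, s (i + 1) = s i + (b - a) / N := by
    intro i
    simp only [hs]
    push_cast
    ring
  have hsmono : ∀ i, a ≤ s i := by
    intro i
    simp only [hs]
    have : 0 ≤ (i : ℝ) * ((b - a) / N) := by positivity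
    linarith
  have hsle : ∀ i, i ≤ N → s i ≤ b := by
    intro i hi
    rw [← hsN]
    simp only [hs]
    have : (i : ℝ) ≤ N := by exact_mod_cast hi
    have := mul_le_mul_of_nonneg_right this hstep0.le
    linarith
  have key : ∀ i, i ≤ N → Bd p (A ∩ f ⁻¹' Icc a (s i)) ∅ c := by
    intro i
    induction i with
    | zero =>
      intro _
      rw [hs0, Icc_self]
      exact h1 a
    | succ i ih =>
      intro hi
      have h3 := ih (by omega)
      have hsi : s i ∈ Icc a b := ⟨hsmono i, hsle i (by omega)⟩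
      obtain ⟨t, ht⟩ := hleb (s i) hsi
      have h4 : Bd p (A ∩ f ⁻¹' Icc (s i) (s (i + 1))) ∅ c := by
        refine (hbd t).mono (inter_subset_inter_right _ (preimage_mono ?_)) Subset.rfl
        intro y hy
        have h5 : y ∈ Metric.ball (s i) δ := by
          rw [Metric.mem_ball, Real.dist_eq, abs_of_nonneg (by linarith [hy.1])]
          have := hy.2
          rw [hsucc] at this
          linarith
        exact Ioo_subset_Icc_self (ht h5)
      have h5 : (A ∩ f ⁻¹' Icc a (s i)) ∩ (A ∩ f ⁻¹' Icc (s i) (s (i + 1))) =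
          A ∩ f ⁻¹' {s i} := by
        ext x
        simp only [mem_inter_iff, mem_preimage, mem_Icc, mem_singleton_iff]
        constructor
        · rintro ⟨⟨h6, -, h7⟩, -, h8, -⟩
          exact ⟨h6, le_antisymm h7 h8⟩
        · rintro ⟨h6, h7⟩
          rw [h7]
          exact ⟨⟨h6, hsmono i, le_rfl⟩, h6, le_rfl, by rw [hsucc]; linarith⟩
      have h6 : (A ∩ f ⁻¹' Icc a (s i)) ∪ (A ∩ f ⁻¹' Icc (s i) (s (i + 1))) =
          A ∩ f ⁻¹' Icc a (s (i + 1)) := by
        rw [← inter_union_distrib_left, ← preimage_union,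
          Icc_union_Icc_eq_Icc (hsmono i) (by rw [hsucc]; linarith)]
      rw [← h6]
      refine glue (isCompact_slice hA hf isClosed_Icc)
        (isCompact_slice hA hf isClosed_Icc).isClosed ?_ h3 h4
      rw [h5]
      exact h2 (s i)
  have h7 := key N le_rfl
  have h8 : A ∩ f ⁻¹' Icc a (s N) = A := by
    rw [hsN]
    exact inter_eq_left.2 himg
  rwa [h8] at h7

end

end Dim

section

variable {X : Type u} [MetricSpace X]

/-- `k` continuous real functions on `A` separate the points of `A`. -/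
def Sep (k : ℕ) (A : Set X) : Prop :=
  ∃ f : Fin k → X → ℝ, (∀ i, ContinuousOn (f i) A) ∧
    ∀ x ∈ A, ∀ y ∈ A, (∀ i, f i x = f i y) → x = y

theorem Sep.mono {k : ℕ} {A B : Set X} (h : Sep k B) (hAB : A ⊆ B) : Sep k A := by
  obtain ⟨f, h1, h2⟩ := h
  exact ⟨f, fun i => (h1 i).mono hAB, fun x hx y hy => h2 x (hAB hx) y (hAB hy)⟩

theorem Sep.main {k : ℕ} : ∀ {A : Set X}, IsCompact A → Sep k A → ∀ p : ℤ, (k : ℤ) ≤ p →
    (1 ≤ p → Van p A ∅) ∧ Dim.Ext p A := by
  induction k with
  | zero =>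
    intro A hA hsep p hp
    obtain ⟨f, -, h2⟩ := hsep
    have hsub : A.Subsingleton := fun x hx y hy => h2 x hx y hy (fun i => i.elim0)
    rcases hsub.eq_empty_or_singleton with h | ⟨x, h⟩
    · have hv : Van p A ∅ := by
        rw [h]
        intro c hc
        exact Bd.of_Z (Z_empty hc.deg)
      exact ⟨fun _ => hv, Dim.Ext.of_van hv⟩
    · subst h
      refine ⟨fun h1 => Dim.van_point x h1, ?_⟩
      rcases (show (0 : ℤ) ≤ p by exact_mod_cast hp).eq_or_lt with h1 | h1
      · rw [← h1]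
        exact Dim.ext_point x
      · exact Dim.Ext.of_van (Dim.van_point x (by omega))
  | succ k ih =>
    intro A hA hsep p hp
    push_cast at hp
    obtain ⟨f, h1, h2⟩ := hsep
    have hsl : ∀ t, IsCompact (A ∩ f 0 ⁻¹' {t}) ∧ Sep k (A ∩ f 0 ⁻¹' {t}) := by
      intro t
      refine ⟨Dim.isCompact_slice hA (h1 0) isClosed_singleton, fun i => f i.succ,
        fun i => (h1 i.succ).mono inter_subset_left, fun x hx y hy hxy => ?_⟩
      refine h2 x hx.1 y hy.1 (fun i => ?_)
      refine Fin.cases ?_ hxy i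
      have e1 : f 0 x = t := hx.2
      have e2 : f 0 y = t := hy.2
      rw [e1, e2]
    have hv : Van p A ∅ := by
      intro c hc
      refine Dim.slice_vanish hA (h1 0) (fun t => ?_) (fun t => ?_)
      · exact (ih (hsl t).1 (hsl t).2 p (by omega)).1 (by omega) c
          (hc.mono inter_subset_left Subset.rfl)
      · exact (ih (hsl t).1 (hsl t).2 (p - 1) (by omega)).2
    exact ⟨fun _ => hv, Dim.Ext.of_van hv⟩

/-- A compact set with `k` separating continuous real functions has no cohomology in the degrees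
`p ≥ max k 1`. -/
theorem van_of_sep {k : ℕ} {A : Set X} (hA : IsCompact A) (h : Sep k A) {p : ℤ}
    (hp : (k : ℤ) ≤ p) (hp1 : 1 ≤ p) : Van p A ∅ := (h.main hA p hp).1 hp1

/-- `A` is a finite union of compact sets with `k` separating continuous real functions. -/
def DimLe (k : ℕ) (A : Set X) : Prop :=
  ∃ (N : ℕ) (B : Fin N → Set X), (∀ i, IsCompact (B i) ∧ Sep k (B i)) ∧ A = ⋃ i, B i

theorem DimLe.of_sep {k : ℕ} {A : Set X} (hA : IsCompact A) (h : Sep k A) : DimLe k A :=
  ⟨1, fun _ => A, fun _ => ⟨hA, h⟩, (iUnion_const A).symm⟩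

theorem DimLe.isCompact {k : ℕ} {A : Set X} (h : DimLe k A) : IsCompact A := by
  obtain ⟨N, B, hB, rfl⟩ := h
  exact isCompact_iUnion fun i => (hB i).1

theorem DimLe.inter {k : ℕ} {A C : Set X} (h : DimLe k A) (hC : IsClosed C) :
    DimLe k (A ∩ C) := by
  obtain ⟨N, B, hB, rfl⟩ := h
  exact ⟨N, fun i => B i ∩ C, fun i => ⟨(hB i).1.inter_right hC, (hB i).2.mono inter_subset_left⟩,
    iUnion_inter _ _⟩

theorem DimLe.closed {k : ℕ} {A C : Set X} (h : DimLe k A) (hC : IsClosed C) (hCA : C ⊆ A) :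
    DimLe k C := by
  have := h.inter hC
  rwa [inter_eq_right.2 hCA] at this

/-- From a finite family. -/
theorem DimLe.of_finite {k : ℕ} {ι : Type v} [Finite ι] {B : ι → Set X}
    (hB : ∀ i, IsCompact (B i) ∧ Sep k (B i)) : DimLe k (⋃ i, B i) := by
  obtain ⟨N, ⟨e⟩⟩ := Finite.exists_equiv_fin ι
  refine ⟨N, fun j => B (e.symm j), fun j => hB _, ?_⟩
  exact (e.symm.surjective.iUnion_comp B).symm

/-- Vanishing above the dimension. -/
theorem DimLe.van {k : ℕ} {A : Set X} (h : DimLe k A) {p : ℤ} (hp : (k : ℤ) < p) :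
    Van p A ∅ := by
  obtain ⟨N, B, hB, rfl⟩ := h
  intro c hc
  have hk : (0 : ℤ) ≤ k := Int.natCast_nonneg k
  have key : ∀ s : Finset (Fin N), Bd p (⋃ i ∈ s, B i) ∅ c := by
    intro s
    classical
    induction s using Finset.induction_on with
    | empty =>
      have : (⋃ i ∈ (∅ : Finset (Fin N)), B i) = ∅ := by simp
      rw [this]
      exact Bd.of_Z (Z_empty hc.deg)
    | insert a s ha ih =>
      rw [Finset.set_biUnion_insert]
      have hcl : IsClosed (⋃ i ∈ s, B i) :=
        s.finite_toSet.isClosed_biUnion fun i _ => (hB i).1.isClosed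
      refine Dim.glue (hB a).1 hcl ?_ ?_ ih
      · exact (((hB a).2.mono inter_subset_left).main ((hB a).1.inter_right hcl) (p - 1)
          (by omega)).2
      · exact van_of_sep (hB a).1 (hB a).2 hp.le (by omega) c
          (hc.mono (subset_iUnion B a) Subset.rfl)
  have h1 := key Finset.univ
  have h2 : (⋃ i ∈ (Finset.univ : Finset (Fin N)), B i) = ⋃ i, B i := by simp
  rwa [h2] at h1

/-- Vanishing for pairs above the dimension. -/
theorem DimLe.van_pair {k : ℕ} {A B : Set X} (hA : DimLe k A) (hB : DimLe k B) (hBA : B ⊆ A)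
    {p : ℤ} (hp : (k : ℤ) + 1 < p) : Van p A B := by
  intro c hc
  obtain ⟨b, hb1, hb2, hb3⟩ := hA.van (show (k : ℤ) < p by omega) c
    ⟨hc.deg, Z_empty hc.deg, hc.cyc⟩
  have hdb : dd b ∈ Z B := by
    have h3 := add_mem hc.rel (Z_anti hBA hb3)
    have h4 : c + (c + dd b) = dd b := by rw [← add_assoc, add_self, zero_add]
    rwa [h4] at h3
  obtain ⟨b2, hb21, hb22, hb23⟩ := hB.van (show (k : ℤ) < p - 1 by omega) b ⟨hb1, hb2, hdb⟩
  have hdb2 : dd b2 ∈ Dg X (p - 1) := by
    have := dd_Dg hb21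
    rwa [sub_add_cancel] at this
  refine ⟨b + dd b2, add_mem hb1 hdb2, hb23, ?_⟩
  rw [dd_add, dd_dd, add_zero]
  exact hb3

end

end TI
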