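import Mathlib
import Pool.Agent.TI.Dim

/-!
# MP_9697d1_gt: the dimension of Euclidean spaces, projective spaces and their powers
-/

set_option autoImplicit false
set_option linter.unusedSectionVars false

namespace TI

open Set Filter Topology Pool.Agent.VC

universe u v w

section

variable {X : Type u} [MetricSpace X] {Y : Type v} [MetricSpace Y]

theorem Sep.of_fintype {ι : Type w} [Fintype ι] {A : Set X} (f : ι → X → ℝ)
    (h1 : ∀ i, ContinuousOn (f i) A) (h2 : ∀ x ∈ A, ∀ y ∈ A, (∀ i, f i x = f i y) → x = y) :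
    Sep (Fintype.card ι) A := by
  refine ⟨fun j => f ((Fintype.equivFin ι).symm j), fun j => h1 _, fun x hx y hy hxy => ?_⟩
  refine h2 x hx y hy (fun i => ?_)
  have h3 := hxy (Fintype.equivFin ι i)
  simp only [Equiv.symm_apply_apply] at h3
  exact h3

theorem Sep.of_le {k k' : ℕ} {A : Set X} (h : Sep k A) (hk : k ≤ k') : Sep k' A := by
  obtain ⟨f, h1, h2⟩ := h
  refine ⟨fun j => if hj : (j : ℕ) < k then f ⟨j, hj⟩ else fun _ => 0, fun j => ?_,
    fun x hx y hy hxy => h2 x hx y hy fun i => ?_⟩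
  · by_cases hj : (j : ℕ) < k
    · simp only [dif_pos hj]
      exact h1 _
    · simp only [dif_neg hj]
      exact continuousOn_const
  · have h3 := hxy ⟨i, lt_of_lt_of_le i.2 hk⟩
    simp only [dif_pos i.2] at h3
    exact h3

theorem Sep.of_injOn {k : ℕ} {A : Set X} {B : Set Y} {g : X → Y} (hg : ContinuousOn g A)
    (hinj : InjOn g A) (hm : MapsTo g A B) (h : Sep k B) : Sep k A := by
  obtain ⟨f, h1, h2⟩ := h
  exact ⟨fun i x => f i (g x), fun i => (h1 i).comp hg hm,
    fun x hx y hy hxy => hinj hx hy (h2 _ (hm hx) _ (hm hy) hxy)⟩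

theorem DimLe.of_le {k k' : ℕ} {A : Set X} (h : DimLe k A) (hk : k ≤ k') : DimLe k' A := by
  obtain ⟨N, B, hB, h⟩ := h
  exact ⟨N, B, fun i => ⟨(hB i).1, (hB i).2.of_le hk⟩, h⟩

/-! ## Euclidean space -/

theorem sep_euclid {N : ℕ} (A : Set (EuclideanSpace ℝ (Fin N))) : Sep N A := by
  refine ⟨fun i x => x i, fun i => ?_, fun x _ y _ h => ?_⟩
  · exact (EuclideanSpace.proj (𝕜 := ℝ) i).continuous.continuousOn
  · ext i
    exact h i

/-- Compact subsets of `E^N` have no cohomology in the degrees `p ≥ N`, `p ≥ 1`. -/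
theorem van_euclid {N : ℕ} {A : Set (EuclideanSpace ℝ (Fin N))} (hA : IsCompact A) {p : ℤ}
    (hp : (N : ℤ) ≤ p) (hp1 : 1 ≤ p) : Van p A ∅ := van_of_sep hA (sep_euclid A) hp hp1

/-- Compact sets that embed in `E^N`. -/
theorem van_embed {N : ℕ} {A : Set X} (hA : IsCompact A) {g : X → EuclideanSpace ℝ (Fin N)}
    (hg : ContinuousOn g A) (hinj : InjOn g A) {p : ℤ} (hp : (N : ℤ) ≤ p) (hp1 : 1 ≤ p) :
    Van p A ∅ :=
  van_of_sep hA (Sep.of_injOn hg hinj (mapsTo_univ _ _) (sep_euclid _)) hp hp1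

/-- The same for pairs. -/
theorem van_pair_embed {N : ℕ} {A B : Set X} (hA : IsCompact A) (hB : IsCompact B)
    (hBA : B ⊆ A) {g : X → EuclideanSpace ℝ (Fin N)} (hg : ContinuousOn g A)
    (hinj : InjOn g A) {p : ℤ} (hp : (N : ℤ) < p) (hp1 : 2 ≤ p) : Van p A B := by
  intro c hc
  obtain ⟨b, hb1, hb2, hb3⟩ := van_embed hA hg hinj hp.le (by omega) c
    ⟨hc.deg, Z_empty hc.deg, hc.cyc⟩
  have hdb : dd b ∈ Z B := by
    have h3 := add_mem hc.rel (Z_anti hBA hb3)
    have h4 : c + (c + dd b) = dd b := by rw [← add_assoc, add_self, zero_add]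
    rwa [h4] at h3
  obtain ⟨b2, hb21, hb22, hb23⟩ := van_embed hB (hg.mono hBA) (hinj.mono hBA)
    (show (N : ℤ) ≤ p - 1 by omega) (by omega) b ⟨hb1, hb2, hdb⟩
  have hdb2 : dd b2 ∈ Dg X (p - 1) := by
    have := dd_Dg hb21
    rwa [sub_add_cancel] at this
  refine ⟨b + dd b2, add_mem hb1 hdb2, hb23, ?_⟩
  rw [dd_add, dd_dd, add_zero]
  exact hb3

/-! ## Powers -/

/-- The dimension of a power. -/
theorem DimLe.pi {k : ℕ} (h : DimLe k (univ : Set Y)) (m : ℕ) :
    DimLe (m * k) (univ : Set (Fin m → Y)) := by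
  obtain ⟨N, B, hB, hU⟩ := h
  have hcov : (univ : Set (Fin m → Y)) =
      ⋃ g : Fin m → Fin N, Set.pi univ (fun l => B (g l)) := by
    refine (eq_univ_of_forall fun x => ?_).symm
    have h1 : ∀ l, ∃ i, x l ∈ B i := by
      intro l
      have : x l ∈ ⋃ i, B i := by
        rw [← hU]
        exact mem_univ _
      exact mem_iUnion.1 this
    choose g hg using h1
    exact mem_iUnion.2 ⟨g, fun l _ => hg l⟩
  rw [hcov]
  refine DimLe.of_finite fun g => ⟨isCompact_univ_pi fun l => (hB (g l)).1, ?_⟩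
  choose f h1 h2 using fun i => (hB i).2
  have h3 := Sep.of_fintype (ι := Fin m × Fin k) (A := Set.pi univ (fun l => B (g l)))
    (fun q x => f (g q.1) q.2 (x q.1)) (fun q => ?_) (fun x hx y hy hxy => ?_)
  · simpa using h3
  · exact (h1 (g q.1) q.2).comp (continuous_apply q.1).continuousOn
      fun x hx => hx q.1 (mem_univ _)
  · funext l
    exact h2 (g l) (x l) (hx l (mem_univ _)) (y l) (hy l (mem_univ _)) fun i => hxy (l, i)

/-! ## Projective spaces -/

/-- A function on the image of a compact set is continuous if it is so upstairs. -/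
theorem continuousOn_image {A : Type u} {M : Type v} {R : Type w} [TopologicalSpace A]
    [TopologicalSpace M] [T2Space M] [TopologicalSpace R] {K : Set A} (hK : IsCompact K)
    {π : A → M} (hπ : ContinuousOn π K) {F : M → R} (hF : ContinuousOn (fun v => F (π v)) K) :
    ContinuousOn F (π '' K) := by
  rw [continuousOn_iff_isClosed] at hF ⊢
  intro t ht
  obtain ⟨s, hs, hst⟩ := hF t ht
  have h1 : IsCompact (s ∩ K) := hK.inter_left hs
  refine ⟨π '' (s ∩ K), (h1.image_of_continuousOn (hπ.mono inter_subset_right)).isClosed, ?_⟩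
  ext x
  constructor
  · rintro ⟨hx, v, hv, rfl⟩
    have h2 : v ∈ s ∩ K := by
      rw [← hst]
      exact ⟨hx, hv⟩
    exact ⟨⟨v, h2, rfl⟩, v, hv, rfl⟩
  · rintro ⟨⟨v, hv, rfl⟩, -⟩
    have h2 : v ∈ (fun v => F (π v)) ⁻¹' t ∩ K := by
      rw [hst]
      exact hv
    exact ⟨h2.1, v, hv.2, rfl⟩

/-- The dimension of a projective space: `M` is the quotient of the unit sphere (for the maximum
norm) of `F^(n+1)` by the left scalars of norm one. -/
theorem dimLe_proj {F : Type u} [NormedDivisionRing F] [NormedAlgebra ℝ F]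
    [FiniteDimensional ℝ F] {M : Type v} [MetricSpace M] {n d : ℕ}
    (hd : Module.finrank ℝ F = d) (π : (Fin (n + 1) → F) → M)
    (hc : ContinuousOn π (Metric.sphere 0 1)) (hs : SurjOn π (Metric.sphere 0 1) univ)
    (hp : ∀ v ∈ Metric.sphere (0 : Fin (n + 1) → F) 1, ∀ w ∈ Metric.sphere 0 1,
      (π v = π w ↔ ∃ l : F, ‖l‖ = 1 ∧ w = l • v)) :
    DimLe (n * d) (univ : Set M) := by
  have : ProperSpace F := FiniteDimensional.proper ℝ F
  set K : Fin (n + 1) → Set (Fin (n + 1) → F) :=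
    fun i => Metric.sphere 0 1 ∩ {v | ‖v i‖ = 1} with hK
  have hKc : ∀ i, IsCompact (K i) := fun i =>
    (isCompact_sphere 0 1).inter_right (isClosed_eq (continuous_apply i).norm continuous_const)
  have hcov : (univ : Set M) = ⋃ i, π '' K i := by
    refine (eq_univ_of_forall fun x => ?_).symm
    obtain ⟨v, hv, rfl⟩ := hs (mem_univ x)
    have h1 : ∃ i, ‖v i‖ = 1 := by
      by_contra hcon
      push Not at hcon
      have hn : ‖v‖ = 1 := mem_sphere_zero_iff_norm.1 hv
      have h2 : ‖v‖ < 1 := by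
        rw [pi_norm_lt_iff zero_lt_one]
        intro i
        exact lt_of_le_of_ne ((norm_le_pi_norm v i).trans hn.le) (hcon i)
      linarith
    obtain ⟨i, hi⟩ := h1
    exact mem_iUnion.2 ⟨i, v, ⟨hv, hi⟩, rfl⟩
  rw [hcov]
  refine DimLe.of_finite fun i =>
    ⟨(hKc i).image_of_continuousOn (hc.mono inter_subset_left), ?_⟩
  -- a section
  have hsec : ∀ x ∈ π '' K i, ∃ v ∈ K i, π v = x := fun x hx => hx
  choose! r hr1 hr2 using hsec
  have hne : ∀ v ∈ K i, v i ≠ 0 := by
    intro v hv h0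
    have h1 : ‖v i‖ = 1 := hv.2
    rw [h0, norm_zero] at h1
    exact zero_ne_one h1
  -- the coordinates in the affine chart
  have hval : ∀ j, ∀ v ∈ K i, (r (π v) i)⁻¹ * r (π v) j = (v i)⁻¹ * v j := by
    intro j v hv
    have hx : π v ∈ π '' K i := ⟨v, hv, rfl⟩
    obtain ⟨l, hl, hlv⟩ := (hp v hv.1 (r (π v)) (hr1 _ hx).1).1 (hr2 _ hx).symm
    have hl0 : l ≠ 0 := by
      rintro rfl
      rw [norm_zero] at hl
      exact zero_ne_one hl
    rw [hlv]
    simp only [Pi.smul_apply, smul_eq_mul]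
    rw [mul_inv_rev, mul_assoc, inv_mul_cancel_left₀ hl0]
  let b : Module.Basis (Fin d) ℝ F := Module.finBasisOfFinrankEq ℝ F hd
  have hbc : ∀ a : Fin d, Continuous (fun x : F => b.repr x a) := by
    intro a
    exact (LinearMap.toContinuousLinearMap (b.coord a)).continuous
  have h3 := Sep.of_fintype (ι := Fin n × Fin d) (A := π '' K i)
    (fun q x => b.repr ((r x i)⁻¹ * r x (i.succAbove q.1)) q.2) (fun q => ?_)
    (fun x hx y hy hxy => ?_)
  · simpa using h3
  · refine continuousOn_image (hKc i) (hc.mono inter_subset_left) ?_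
    have h4 : ContinuousOn (fun v : Fin (n + 1) → F =>
        b.repr ((v i)⁻¹ * v (i.succAbove q.1)) q.2) (K i) := by
      refine (hbc q.2).comp_continuousOn ?_
      refine ContinuousOn.mul ?_ (continuous_apply _).continuousOn
      exact ContinuousOn.inv₀ (continuous_apply i).continuousOn hne
    refine h4.congr fun v hv => ?_
    show b.repr ((r (π v) i)⁻¹ * r (π v) (i.succAbove q.1)) q.2 = _
    rw [hval _ v hv]
  · have h5 : ∀ j, (r x i)⁻¹ * r x (i.succAbove j) = (r y i)⁻¹ * r y (i.succAbove j) := by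
      intro j
      apply b.repr.injective
      ext a
      exact hxy (j, a)
    have hxi := hne _ (hr1 x hx)
    have hyi := hne _ (hr1 y hy)
    rw [← hr2 x hx, ← hr2 y hy]
    refine (hp _ (hr1 x hx).1 _ (hr1 y hy).1).2 ⟨r y i * (r x i)⁻¹, ?_, ?_⟩
    · rw [norm_mul, norm_inv, show ‖r x i‖ = 1 from (hr1 x hx).2,
        show ‖r y i‖ = 1 from (hr1 y hy).2]
      norm_num
    · funext j
      rcases Fin.eq_self_or_eq_succAbove i j with rfl | ⟨j', rfl⟩
      · simp only [Pi.smul_apply, smul_eq_mul]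
        rw [mul_assoc, inv_mul_cancel₀ hxi, mul_one]
      · simp only [Pi.smul_apply, smul_eq_mul]
        rw [mul_assoc, h5 j', mul_inv_cancel_left₀ hyi]

/-- Closed subsets of the powers of a projective space have no cohomology above the dimension. -/
theorem van_proj_pow {F : Type u} [NormedDivisionRing F] [NormedAlgebra ℝ F]
    [FiniteDimensional ℝ F] {M : Type v} [MetricSpace M] {n d : ℕ}
    (hd : Module.finrank ℝ F = d) (π : (Fin (n + 1) → F) → M)
    (hc : ContinuousOn π (Metric.sphere 0 1)) (hs : SurjOn π (Metric.sphere 0 1) univ)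
    (hp : ∀ v ∈ Metric.sphere (0 : Fin (n + 1) → F) 1, ∀ w ∈ Metric.sphere 0 1,
      (π v = π w ↔ ∃ l : F, ‖l‖ = 1 ∧ w = l • v))
    {m : ℕ} {A : Set (Fin m → M)} (hA : IsClosed A) {p : ℤ} (h : (d : ℤ) * n * m < p) :
    Van p A ∅ := by
  have h1 := ((dimLe_proj hd π hc hs hp).pi m).closed hA (subset_univ A)
  refine h1.van ?_
  have e : (((m * (n * d) : ℕ)) : ℤ) = (d : ℤ) * n * m := by
    push_cast
    ring
  rw [e]
  exact h

end

end TI
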