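import Pool.Agent.VC.MapX
import Pool.Agent.TI.Strata

/-!
# The fibres of `Γ_m → M^m` are acyclic
-/

set_option autoImplicit false
set_option linter.unusedSectionVars false
set_option linter.unusedVariables false

open scoped Topology
open Set

noncomputable section

namespace TI

open Pool.Agent.VC Pool.Agent.VC.MX

/-- A contraction of the compact set `K`, given on the subtype, as a function on `X × ℝ`. -/
theorem exists_contr {X : Type*} [MetricSpace X] {K : Set X}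
    (H : K × unitInterval → K) (hH : Continuous H) : ∃ φ : X × ℝ → X,
      ContinuousOn φ (K ×ˢ Icc (0 : ℝ) 1) ∧ ∀ (a : K) (t : unitInterval), φ (a, t) = H (a, t) := by
  classical
  let φ : X × ℝ → X := fun p =>
    if h : p.1 ∈ K ∧ p.2 ∈ Icc (0 : ℝ) 1 then (H (⟨p.1, h.1⟩, ⟨p.2, h.2⟩) : X) else p.1
  have hφ : ∀ (a : K) (t : unitInterval), φ (a, t) = H (a, t) := by
    intro a t
    have h : ((a : X), (t : ℝ)).1 ∈ K ∧ ((a : X), (t : ℝ)).2 ∈ Icc (0 : ℝ) 1 := ⟨a.2, t.2⟩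
    exact dif_pos h
  refine ⟨φ, ?_, hφ⟩
  rw [continuousOn_iff_continuous_domRestrict]
  have e : (K ×ˢ Icc (0 : ℝ) 1).domRestrict φ = fun p : ↥(K ×ˢ Icc (0 : ℝ) 1) =>
      ((H (⟨p.1.1, p.2.1⟩, ⟨p.1.2, p.2.2⟩) : K) : X) := by
    funext p
    exact hφ ⟨p.1.1, p.2.1⟩ ⟨p.1.2, p.2.2⟩
  rw [e]
  refine continuous_subtype_val.comp (hH.comp ?_)
  exact ((continuous_fst.comp continuous_subtype_val).subtype_mk _).prodMk
    ((continuous_snd.comp continuous_subtype_val).subtype_mk _)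

/-- A compact set that is contractible (in itself) is acyclic. -/
theorem van_of_contr {X : Type*} [MetricSpace X] {K : Set X} (hK : IsCompact K)
    (H : K × unitInterval → K) (hH : Continuous H) (h0 : ∀ a, H (a, 0) = a) (w : K)
    (h1 : ∀ a, H (a, 1) = w) :
    (∀ p : ℤ, p ≠ 0 → Van p K ∅) ∧
      ∀ c : Cc X, Cyc 0 K ∅ c → Bd 0 K ∅ (c + c [(w : X)] • uno X) := by
  obtain ⟨φ, hφ, hφH⟩ := exists_contr H hH
  have e0 : ∀ a ∈ K, φ (a, 0) = a := fun a ha => by
    have := hφH ⟨a, ha⟩ 0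
    rw [h0] at this
    simpa using this
  have e1 : ∀ a ∈ K, φ (a, 1) = w := fun a ha => by
    have := hφH ⟨a, ha⟩ 1
    rw [h1] at this
    simpa using this
  have hm : MapsTo φ (K ×ˢ Icc (0 : ℝ) 1) K := by
    rintro ⟨a, t⟩ ⟨ha, ht⟩
    have := hφH ⟨a, ha⟩ ⟨t, ht⟩
    simp only at this
    rw [this]
    exact (H _).2
  exact ⟨fun p hp => van_of_contractible hK hφ e0 w.2 e1 hm hp,
    fun c hc => cyc_zero_of_contractible hK hφ e0 w.2 e1 hm hc⟩

variable {M : Type*} {E : Type*} [NormedAddCommGroup E] [InnerProductSpace ℝ E]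
  [MetricSpace M] [CompactSpace M] [FiniteDimensional ℝ E]

/-- The fibre of `Γ_m` over `x`, as a subset of `M^m × S`. -/
theorem Gam_fibre {ι : Type*} (f : M → E) (x : ι → M) :
    Gam (ι := ι) f ∩ Prod.fst ⁻¹' {x} = ({x} : Set (ι → M)) ×ˢ fib f x := by
  ext ⟨y, z⟩
  constructor
  · rintro ⟨h1, h2⟩
    have h2' : y = x := h2
    subst h2'
    exact ⟨rfl, h1⟩
  · rintro ⟨h1, h2⟩
    have h1' : y = x := h1
    subst h1'
    exact ⟨h2, rfl⟩

theorem isClosed_fib {ι : Type*} {f : M → E} (hf : Continuous f) (x : ι → M) :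
    IsClosed (fib f x) := by
  have : fib f x = ⋂ i, {z : Sph E | x i ∈ topSet f (z : E)} := by
    ext z
    simp only [fib, Set.mem_iInter, Set.mem_ofPred_eq]
  rw [this]
  exact isClosed_iInter fun i => (isClosed_topRel hf).preimage
    (f := fun z : Sph E => (x i, (z : E))) (by fun_prop)

/-- The non-empty fibres of `Γ_m → M^m` are acyclic. -/
theorem fibre_acyc {m : ℕ} (hm : 0 < m) {f : M → E} (hf : Continuous f) (hs : Subst f)
    (x : Fin m → M) (w : (Fin m → M) × Sph E) (hw : w ∈ Gam f ∩ Prod.fst ⁻¹' {x}) :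
    (∀ p : ℤ, p ≠ 0 → Van p (Gam f ∩ Prod.fst ⁻¹' {x}) ∅) ∧
      ∀ c : Cc ((Fin m → M) × Sph E), Cyc 0 (Gam f ∩ Prod.fst ⁻¹' {x}) ∅ c →
        Bd 0 (Gam f ∩ Prod.fst ⁻¹' {x}) ∅ (c + c [w] • uno _) := by
  have : Nonempty (Fin m) := ⟨⟨0, hm⟩⟩
  rw [Gam_fibre] at hw ⊢
  have hcomp : IsCompact (({x} : Set (Fin m → M)) ×ˢ fib f x) :=
    isCompact_singleton.prod (isClosed_fib hf x).isCompact
  obtain ⟨H, hH, h0, h1⟩ := fib_contract hs x w.2 hw.2
  refine van_of_contr hcomp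
    (fun p => ⟨(x, (H (⟨p.1.1.2, p.1.2.2⟩, p.2) : fib f x)), rfl, (H _).2⟩) ?_ ?_ ⟨w, hw⟩ ?_
  · refine Continuous.subtype_mk (continuous_const.prodMk
      (continuous_subtype_val.comp (hH.comp ?_))) _
    refine Continuous.prodMk (Continuous.subtype_mk ?_ _) continuous_snd
    exact continuous_snd.comp (continuous_subtype_val.comp continuous_fst)
  · rintro ⟨⟨y, z⟩, hy, hz⟩
    refine Subtype.ext (Prod.ext ?_ ?_)
    · exact (show y = x from hy).symm
    · exact congrArg Subtype.val (h0 ⟨z, hz⟩)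
  · rintro ⟨⟨y, z⟩, hy, hz⟩
    refine Subtype.ext (Prod.ext ?_ ?_)
    · exact (show w.1 = x from hw.1).symm
    · exact congrArg Subtype.val (h1 ⟨z, hz⟩)

end TI
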