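import Pool.Agent.TI.Sph
import Pool.Agent.TI.Fibre
import Pool.Agent.VC.Cone

/-!
# The cohomology of `Γ_m`: the Vietoris-Begle theorem
-/

set_option autoImplicit false
set_option linter.unusedSectionVars false
set_option linter.unusedVariables false

namespace TI

open Set Filter Topology Pool.Agent.VC

universe u v

section vb

variable {X : Type u} {Y : Type v} [MetricSpace X] [MetricSpace Y]

/-- Pull back as a morphism of the theories over `K`. -/
def vbMor {E : Set X} (hE : IsCompact E) {f : X → Y} (hf : CA f E) (K : Set Y) :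
    Thy.Mor (mkThy (SetMap.id K) ∅) (mkThy (SetMap.preim hE hf K) ∅) 0 where
  φ := { toFun := pull f, map_zero' := pull_zero f, map_add' := pull_add f }
  gr p w hw := by
    have h1 : pull f w ∈ Dg X p := pull_Dg f hw.1
    show pull f w ∈ Dg X (p + 0) ∧ pull f w ∈ Z ∅
    rw [add_zero]
    exact ⟨h1, Z_empty h1⟩
  d p w hw A hA hAc := by
    show dd (pull f w) + pull f (dd w) ∈ Z (E ∩ f ⁻¹' A)
    rw [dd_pull, add_self]
    exact zero_mem _
  Z p w hw A hA hAc h := by
    show pull f w ∈ Z (E ∩ f ⁻¹' A)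
    exact pull_Z (hf.mono inter_subset_left) ((SetMap.preim hE hf K).comp A hA hAc)
      (fun x hx => hx.2) h

/-- The Vietoris-Begle theorem: for a map with acyclic fibres, vanishing on the image implies
vanishing on the source. -/
theorem vietoris_begle {E : Set X} (hE : IsCompact E) {f : X → Y} (hf : CA f E)
    (hfib : ∀ y ∈ f '' E, RAc (E ∩ f ⁻¹' {y})) {p : ℤ} (h : Van p (f '' E) ∅) : Van p E ∅ := by
  have hK : IsCompact (f '' E) :=
    hE.image_of_continuousOn fun x hx => (hf x hx).continuousWithinAt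
  have hcomp : ∀ y, IsCompact (E ∩ f ⁻¹' {y}) := fun y =>
    hE.of_isClosed_subset (ContinuousOn.preimage_isClosed_of_isClosed
      (fun x hx => (hf x hx).continuousWithinAt) hE.isClosed isClosed_singleton)
      inter_subset_left
  set m := vbMor hE hf (f '' E) with hm
  have hpt : ∀ y ∈ f '' E, ∀ q, m.Surj q {y} ∧ m.Inj q {y} := by
    intro y hy q
    have hR := hfib y hy
    constructor
    · rintro w ⟨hw, -⟩ hdw
      change dd w ∈ Z (E ∩ f ⁻¹' {y}) at hdw
      obtain ⟨x, hx, hb⟩ := rbd_iff.1 (hR.2 q w ⟨hw, Z_empty hw, hdw⟩)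
      have hxu : x • uno Y ∈ Dg Y q := by
        rcases hx with hx | hx
        · rw [hx]
          exact Submodule.smul_mem _ x (uno_Dg Y)
        · rw [hx, zero_smul]
          exact zero_mem _
      refine ⟨x • uno Y, ?_, ?_, ?_⟩
      · rw [sub_zero]
        exact ⟨hxu, Z_empty hxu⟩
      · show dd (x • uno Y) ∈ Z ({y} : Set Y)
        rw [dd_smul, dd_uno, smul_zero]
        exact zero_mem _
      · rw [mkThy_IsBd]
        show Bd q (E ∩ f ⁻¹' {y}) ∅ (w + pull f (x • uno Y))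
        rw [pull_smul, pull_cst]
        exact hb
    · rintro v ⟨hv, -⟩ hdv hb
      rw [sub_zero] at hv ⊢
      change dd v ∈ Z ({y} : Set Y) at hdv
      rw [mkThy_IsBd] at hb ⊢
      change Bd q (E ∩ f ⁻¹' {y}) ∅ (pull f v) at hb
      rcases lt_trichotomy q 0 with h0 | h0 | h0
      · rw [Dg.neg hv h0]
        exact Bd.zero
      · subst h0
        obtain ⟨κ, hκ⟩ := pt_zero ⟨hv, Z_empty hv, hdv⟩
        have h1 : pull f (v + κ • uno Y) ∈ Z (E ∩ f ⁻¹' {y}) :=
          pull_Z (hf.mono inter_subset_left) (hcomp y) (fun x hx => hx.2) hκ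
        rw [pull_add, pull_smul, pull_cst] at h1
        have h2 := add_mem (Bd.deg_zero hb) h1
        rw [← add_assoc, add_self, zero_add] at h2
        have h3 : κ = 0 := by
          by_contra h
          rw [(by decide : ∀ a : ZMod 2, a ≠ 0 → a = 1) κ h, one_smul] at h2
          exact uno_notMem_Z hR.1 h2
        rw [h3, zero_smul, add_zero] at hκ
        exact Bd.of_Z hκ
      · exact van_pt h0 y v ⟨hv, Z_empty hv, hdv⟩
  obtain ⟨hs, -⟩ := Thy.compare m hpt (f '' E) Subset.rfl hK p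
  intro c hc
  have hE' : E ∩ f ⁻¹' (f '' E) = E := inter_eq_left.2 (subset_preimage_image f E)
  obtain ⟨v, ⟨hv, -⟩, hdv, hb⟩ := hs c ⟨hc.deg, hc.rel⟩ (by
    show dd c ∈ Z (E ∩ f ⁻¹' (f '' E))
    rw [hE']
    exact hc.cyc)
  rw [sub_zero] at hv
  change dd v ∈ Z (f '' E) at hdv
  rw [mkThy_IsBd] at hb
  change Bd p (E ∩ f ⁻¹' (f '' E)) ∅ (c + pull f v) at hb
  rw [hE'] at hb
  have h1 : Bd p (f '' E) ∅ v := h v ⟨hv, Z_empty hv, hdv⟩
  have h2 : Bd p E ∅ (pull f v) := by
    obtain ⟨b, hb1, -, hb3⟩ := h1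
    refine ⟨pull f b, pull_Dg f hb1, Z_empty (pull_Dg f hb1), ?_⟩
    rw [dd_pull, ← pull_add]
    exact pull_Z hf hE (mapsTo_image f E) hb3
  have h3 := hb.add h2
  rwa [add_assoc, add_self, add_zero] at h3

end vb

variable {M : Type u} {E : Type v} [NormedAddCommGroup E] [InnerProductSpace ℝ E]
  [MetricSpace M] [CompactSpace M] [FiniteDimensional ℝ E]

/-- The fibres of `Γ_m → M^m` have vanishing reduced cohomology. -/
theorem fibre_rac {m : ℕ} (hm : 0 < m) {f : M → E} (hf : Continuous f) (hs : Subst f)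
    (x : Fin m → M) (hne : (Gam (ι := Fin m) f ∩ Prod.fst ⁻¹' {x}).Nonempty) :
    RAc (Gam (ι := Fin m) f ∩ Prod.fst ⁻¹' {x}) := by
  obtain ⟨w, hw⟩ := hne
  obtain ⟨h1, h2⟩ := fibre_acyc hm hf hs x w hw
  refine ⟨⟨w, hw⟩, fun p c hc => ?_⟩
  by_cases hp : p = 0
  · subst hp
    exact rbd_iff.2 ⟨c [w], Or.inl rfl, h2 c hc⟩
  · exact Or.inl (h1 p hp c hc)

/-- `H^j(Γ_m) = 0` if `H^j` vanishes on the closed subsets of `M^m`. -/
theorem van_Gam {m : ℕ} (hm : 1 ≤ m) {f : M → E} (hf : Continuous f) (hs : Subst f) {j : ℤ}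
    (hdim : ∀ A : Set (Fin m → M), IsClosed A → Van j A ∅) : Van j (Gam (ι := Fin m) f) ∅ := by
  refine vietoris_begle (f := Prod.fst) (isCompact_Gam hf) (CA.of_continuous continuous_fst _)
    ?_ (hdim _ ?_)
  · rintro y ⟨w, hw, rfl⟩
    exact fibre_rac hm hf hs _ ⟨w, hw, rfl⟩
  · exact ((isCompact_Gam hf).image continuous_fst).isClosed

end TI
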