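import Pool.Agent.TI.Gram
import Pool.Agent.TI.DimP
import Pool.Agent.TI.Gamma

/-!
# The projection of the unit sphere (maximum norm) onto the projective space
-/

set_option autoImplicit false
set_option linter.unusedSectionVars false

namespace TI

open Set Filter Topology Pool.Agent.VC

variable (F : Type) [NormedDivisionRing F] [NormedAlgebra ℝ F] [StarRing F] [StarNorm F]
  [FiniteDimensional ℝ F] (n : ℕ)

open Classical in
/-- The class of a vector (any point of `FP^n` for the zero vector). -/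
noncomputable def pj (v : Fin (n + 1) → F) : FPn F n :=
  if h : v ≠ 0 then mk F n ⟨v, h⟩ else Classical.arbitrary _

variable {F n}

theorem pj_of_ne {v : Fin (n + 1) → F} (h : v ≠ 0) : pj F n v = mk F n ⟨v, h⟩ := dif_pos h

theorem pj_continuousOn_ne : ContinuousOn (pj F n) {v | v ≠ 0} := by
  rw [continuousOn_iff_continuous_domRestrict]
  have e : ({v : Fin (n + 1) → F | v ≠ 0} : Set _).domRestrict (pj F n) = mk F n := by
    funext v
    exact pj_of_ne v.2
  rw [e]
  exact mk_continuous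

theorem ne_zero_of_sphere {v : Fin (n + 1) → F} (h : v ∈ Metric.sphere (0 : Fin (n + 1) → F) 1) :
    v ≠ 0 := by
  rintro rfl
  rw [mem_sphere_zero_iff_norm, norm_zero] at h
  exact zero_ne_one h

theorem pj_continuousOn : ContinuousOn (pj F n) (Metric.sphere 0 1) :=
  pj_continuousOn_ne.mono fun _ h => ne_zero_of_sphere h

theorem pj_smul {u : F} (hu : u ≠ 0) {v : Fin (n + 1) → F} (hv : v ≠ 0) :
    pj F n (u • v) = pj F n v := by
  have huv : u • v ≠ 0 := smul_ne_zero hu hv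
  rw [pj_of_ne huv, pj_of_ne hv]
  exact mk_eq.2 ⟨u, hu, rfl⟩

theorem pj_surjOn : SurjOn (pj F n) (Metric.sphere 0 1) univ := by
  intro x _
  obtain ⟨⟨v, hv⟩, rfl⟩ := mk_surjective x
  have h1 : (0 : ℝ) < ‖v‖ := norm_pos_iff.2 hv
  have hu : (algebraMap ℝ F ‖v‖⁻¹) ≠ 0 := by
    rw [Ne, FaithfulSMul.algebraMap_eq_zero_iff]
    exact inv_ne_zero h1.ne'
  refine ⟨(algebraMap ℝ F ‖v‖⁻¹) • v, ?_, ?_⟩
  · rw [mem_sphere_zero_iff_norm, norm_smul, norm_algebraMap', norm_inv, norm_norm,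
      inv_mul_cancel₀ h1.ne']
  · rw [pj_smul hu hv, pj_of_ne hv]

theorem pj_eq_iff {v w : Fin (n + 1) → F} (hv : v ∈ Metric.sphere (0 : Fin (n + 1) → F) 1)
    (hw : w ∈ Metric.sphere (0 : Fin (n + 1) → F) 1) :
    pj F n v = pj F n w ↔ ∃ l : F, ‖l‖ = 1 ∧ w = l • v := by
  rw [pj_of_ne (ne_zero_of_sphere hv), pj_of_ne (ne_zero_of_sphere hw), eq_comm]
  rw [mem_sphere_zero_iff_norm] at hv hw
  constructor
  · intro h
    obtain ⟨u, hu, h1⟩ := mk_eq.1 h
    have h1' : u • v = w := h1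
    refine ⟨u, ?_, h1'.symm⟩
    have h2 := congrArg norm h1'
    rw [norm_smul, hv, hw, mul_one] at h2
    exact h2
  · rintro ⟨l, hl, h⟩
    refine mk_eq.2 ⟨l, ?_, h.symm⟩
    rintro rfl
    rw [norm_zero] at hl
    exact zero_ne_one hl

/-- Closed subsets of the powers of `FP^n` have no cohomology above the dimension. -/
theorem van_FPn_pow {d : ℕ} (hd : Module.finrank ℝ F = d) {m : ℕ} {A : Set (Fin m → FPn F n)}
    (hA : IsClosed A) {p : ℤ} (h : ((d * n * m : ℕ) : ℤ) < p) : Van p A ∅ :=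
  van_proj_pow hd (pj F n) pj_continuousOn pj_surjOn
    (fun _ hv _ hw => pj_eq_iff hv hw) hA (by exact_mod_cast h)

/-- `H^j(Γ_m) = 0` for `j > dnm`: the hypothesis `hGam` of `abstract_bound`. -/
theorem van_Gam_FPn {d N : ℕ} (hd : Module.finrank ℝ F = d) {f : FPn F n → E N}
    (hf : Continuous f) (hs : Substantial f) (m : ℕ) (hm : 1 ≤ m) (j : ℤ)
    (h : ((d * n * m : ℕ) : ℤ) < j) : Van j (Gam (ι := Fin m) f) ∅ :=
  van_Gam hm hf hs fun _ hA => van_FPn_pow hd hA h

end TI
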