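import Mathlib

/-!
# MP_9697d1_gt: idempotents in Banach algebras

Near an idempotent of a complete normed ring the iteration `a ↦ 3 a² - 2 a³` converges to an
idempotent, which depends continuously on `a`.
-/

set_option autoImplicit false
set_option linter.unusedSectionVars false

namespace TI

namespace Idem

open Filter Topology Set

universe u

section

variable {R : Type u} [NormedRing R]

/-- The step `3 a² - 2 a³`. -/
def stp (a : R) : R := a ^ 2 + a ^ 2 + a ^ 2 - (a ^ 3 + a ^ 3)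

theorem stp_sub (a : R) :
    stp a - a = (a ^ 2 - a) - (a * (a ^ 2 - a) + a * (a ^ 2 - a)) := by
  unfold stp
  noncomm_ring

theorem stp_idem (a : R) : stp a ^ 2 - stp a =
    ((a ^ 2 - a) ^ 3 + (a ^ 2 - a) ^ 3 + (a ^ 2 - a) ^ 3 + (a ^ 2 - a) ^ 3) -
      ((a ^ 2 - a) ^ 2 + (a ^ 2 - a) ^ 2 + (a ^ 2 - a) ^ 2) := by
  unfold stp
  noncomm_ring

theorem continuous_stp : Continuous (stp : R → R) := by
  unfold stp
  fun_prop

theorem stp_fix {a : R} (h : a ^ 2 = a) : stp a = a := by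
  have h1 := stp_sub a
  rw [h, sub_self, mul_zero, add_zero, sub_zero] at h1
  exact sub_eq_zero.1 h1

theorem iterate_fix {a : R} (h : a ^ 2 = a) (k : ℕ) : stp^[k] a = a :=
  Function.iterate_fixed (stp_fix h) k

theorem norm_stp_sub (a : R) : ‖stp a - a‖ ≤ (1 + 2 * ‖a‖) * ‖a ^ 2 - a‖ := by
  rw [stp_sub]
  have h1 := norm_sub_le (a ^ 2 - a) (a * (a ^ 2 - a) + a * (a ^ 2 - a))
  have h2 := norm_add_le (a * (a ^ 2 - a)) (a * (a ^ 2 - a))
  have h3 := norm_mul_le a (a ^ 2 - a)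
  nlinarith

theorem norm_stp_idem {a : R} (h : ‖a ^ 2 - a‖ ≤ 1 / 16) :
    ‖stp a ^ 2 - stp a‖ ≤ ‖a ^ 2 - a‖ / 4 := by
  rw [stp_idem]
  set e : R := a ^ 2 - a
  have he := norm_nonneg e
  have h2 : ‖e ^ 2‖ ≤ ‖e‖ ^ 2 := norm_pow_le' e two_pos
  have h3 : ‖e ^ 3‖ ≤ ‖e‖ ^ 3 := norm_pow_le' e three_pos
  have h4 : ‖e ^ 3 + e ^ 3 + e ^ 3 + e ^ 3‖ ≤ 4 * ‖e‖ ^ 3 := by
    have h5 := norm_add_le (e ^ 3 + e ^ 3 + e ^ 3) (e ^ 3)
    have h6 := norm_add_le (e ^ 3 + e ^ 3) (e ^ 3)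
    have h7 := norm_add_le (e ^ 3) (e ^ 3)
    linarith
  have h5 : ‖e ^ 2 + e ^ 2 + e ^ 2‖ ≤ 3 * ‖e‖ ^ 2 := by
    have h6 := norm_add_le (e ^ 2 + e ^ 2) (e ^ 2)
    have h7 := norm_add_le (e ^ 2) (e ^ 2)
    linarith
  have h6 := norm_sub_le (e ^ 3 + e ^ 3 + e ^ 3 + e ^ 3) (e ^ 2 + e ^ 2 + e ^ 2)
  have h7 : ‖e‖ ^ 2 ≤ ‖e‖ * (1 / 16) := by nlinarith
  have h8 : ‖e‖ ^ 3 ≤ ‖e‖ * (1 / 16) * (1 / 16) := by
    have : ‖e‖ ^ 3 = ‖e‖ ^ 2 * ‖e‖ := by ring
    rw [this]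
    exact mul_le_mul h7 h he (by positivity)
  nlinarith

/-- The domain of the iteration. -/
def Dom (R : Type u) [NormedRing R] (r : ℝ) : Set R :=
  {a | ‖a‖ < r ∧ ‖a ^ 2 - a‖ < 1 / (16 * (2 * r + 3))}

theorem isOpen_Dom (r : ℝ) : IsOpen (Dom R r) :=
  (isOpen_lt continuous_norm continuous_const).inter
    (isOpen_lt (((continuous_pow 2).sub continuous_id).norm) continuous_const)

theorem iter_bound {r : ℝ} {a : R} (ha : a ∈ Dom R r) (k : ℕ) :
    ‖(stp^[k] a) ^ 2 - stp^[k] a‖ ≤ 1 / (16 * (2 * r + 3)) * (1 / 4) ^ k ∧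
      ‖stp^[k] a‖ ≤ r + 1 / 2 * (1 - (1 / 4) ^ k) := by
  have hr : 0 < r := lt_of_le_of_lt (norm_nonneg a) ha.1
  induction k with
  | zero =>
    simp only [Function.iterate_zero, id_eq, pow_zero, mul_one, sub_self, mul_zero, add_zero]
    exact ⟨ha.2.le, ha.1.le⟩
  | succ k ih =>
    obtain ⟨h1, h2⟩ := ih
    rw [Function.iterate_succ_apply']
    set b := stp^[k] a
    have hq : (0 : ℝ) < (1 / 4) ^ k := by positivity
    have hq1 : ((1 : ℝ) / 4) ^ k ≤ 1 := pow_le_one₀ (by norm_num) (by norm_num)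
    have hC : (0 : ℝ) < 2 * r + 3 := by linarith
    have h3 : 1 / (16 * (2 * r + 3)) * (1 / 4) ^ k ≤ 1 / 16 := by
      have h4 : 1 / (16 * (2 * r + 3)) ≤ 1 / 16 := by
        apply one_div_le_one_div_of_le (by norm_num)
        linarith
      calc _ ≤ 1 / 16 * 1 := mul_le_mul h4 hq1 hq.le (by norm_num)
        _ = 1 / 16 := by norm_num
    constructor
    · refine (norm_stp_idem (h1.trans h3)).trans ?_
      have h9 : ((1 : ℝ) / 4) ^ (k + 1) = (1 / 4) ^ k * (1 / 4) := pow_succ _ _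
      rw [h9]
      linarith
    · have h4 := norm_stp_sub b
      have h5 : ‖stp b‖ ≤ ‖b‖ + ‖stp b - b‖ := by
        have := norm_add_le b (stp b - b)
        rwa [add_sub_cancel] at this
      have h6 : (1 + 2 * ‖b‖) * ‖b ^ 2 - b‖ ≤ 1 / 16 * (1 / 4) ^ k := by
        have h7 : 1 + 2 * ‖b‖ ≤ 2 * r + 3 := by nlinarith
        calc (1 + 2 * ‖b‖) * ‖b ^ 2 - b‖
            ≤ (2 * r + 3) * (1 / (16 * (2 * r + 3)) * (1 / 4) ^ k) :=
              mul_le_mul h7 h1 (norm_nonneg _) hC.le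
          _ = 1 / 16 * (1 / 4) ^ k := by field_simp
      have h9 : ((1 : ℝ) / 4) ^ (k + 1) = (1 / 4) ^ k * (1 / 4) := pow_succ _ _
      rw [h9]
      linarith

theorem iter_dist {r : ℝ} {a : R} (ha : a ∈ Dom R r) (k : ℕ) :
    dist (stp^[k] a) (stp^[k + 1] a) ≤ 1 / 16 * (1 / 4) ^ k := by
  have hr : 0 < r := lt_of_le_of_lt (norm_nonneg a) ha.1
  obtain ⟨h1, h2⟩ := iter_bound ha k
  rw [Function.iterate_succ_apply', dist_comm, dist_eq_norm]
  set b := stp^[k] a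
  have hq : (0 : ℝ) < (1 / 4) ^ k := by positivity
  have hC : (0 : ℝ) < 2 * r + 3 := by linarith
  refine (norm_stp_sub b).trans ?_
  have h7 : 1 + 2 * ‖b‖ ≤ 2 * r + 3 := by nlinarith
  calc (1 + 2 * ‖b‖) * ‖b ^ 2 - b‖
      ≤ (2 * r + 3) * (1 / (16 * (2 * r + 3)) * (1 / 4) ^ k) :=
        mul_le_mul h7 h1 (norm_nonneg _) hC.le
    _ = 1 / 16 * (1 / 4) ^ k := by field_simp

variable [CompleteSpace R]

/-- The limit of the iteration. -/
noncomputable def lm (a : R) : R := limUnder atTop fun k => stp^[k] a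

theorem tendsto_lm {r : ℝ} {a : R} (ha : a ∈ Dom R r) :
    Tendsto (fun k => stp^[k] a) atTop (𝓝 (lm a)) :=
  CauchySeq.tendsto_limUnder (cauchySeq_of_le_geometric (1 / 4) (1 / 16) (by norm_num) (iter_dist ha))

theorem dist_lm {r : ℝ} {a : R} (ha : a ∈ Dom R r) (k : ℕ) :
    dist (stp^[k] a) (lm a) ≤ 1 / 16 * (1 / 4) ^ k / (1 - 1 / 4) :=
  dist_le_of_le_geometric_of_tendsto (1 / 4) (1 / 16) (by norm_num) (iter_dist ha)
    (tendsto_lm ha) k

theorem dist_lm_zero {r : ℝ} {a : R} (ha : a ∈ Dom R r) : dist a (lm a) ≤ 1 / 12 := by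
  have h := dist_lm ha 0
  simp only [Function.iterate_zero, id_eq, pow_zero] at h
  norm_num at h ⊢
  exact h

theorem lm_idem {r : ℝ} {a : R} (ha : a ∈ Dom R r) : lm a ^ 2 = lm a := by
  have h1 : Tendsto (fun k => (stp^[k] a) ^ 2 - stp^[k] a) atTop (𝓝 (lm a ^ 2 - lm a)) :=
    ((tendsto_lm ha).pow 2).sub (tendsto_lm ha)
  have h2 : Tendsto (fun k => (stp^[k] a) ^ 2 - stp^[k] a) atTop (𝓝 0) := by
    refine squeeze_zero_norm (fun k => (iter_bound ha k).1) ?_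
    have := (tendsto_pow_atTop_nhds_zero_of_lt_one (r := (1 : ℝ) / 4) (by norm_num)
      (by norm_num)).const_mul (1 / (16 * (2 * r + 3)))
    rwa [mul_zero] at this
  exact sub_eq_zero.1 (tendsto_nhds_unique h1 h2)

theorem continuousOn_lm (r : ℝ) : ContinuousOn (lm : R → R) (Dom R r) := by
  have h1 : TendstoUniformlyOn (fun (k : ℕ) (a : R) => stp^[k] a) lm atTop (Dom R r) := by
    rw [Metric.tendstoUniformlyOn_iff]
    intro ε hε
    have h2 : Tendsto (fun k : ℕ => 1 / 16 * ((1 : ℝ) / 4) ^ k / (1 - 1 / 4)) atTop (𝓝 0) := by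
      have := ((tendsto_pow_atTop_nhds_zero_of_lt_one (r := (1 : ℝ) / 4) (by norm_num)
        (by norm_num)).const_mul (1 / 16)).div_const (1 - 1 / 4)
      rwa [mul_zero, zero_div] at this
    filter_upwards [h2.eventually (gt_mem_nhds hε)] with k hk a ha
    rw [dist_comm]
    exact lt_of_le_of_lt (dist_lm ha k) hk
  exact h1.continuousOn (Frequently.of_forall fun k => (continuous_stp.iterate k).continuousOn)

theorem lm_fix {a : R} (h : a ^ 2 = a) : lm a = a := by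
  have h1 : (fun k => stp^[k] a) = fun _ => a := funext fun k => iterate_fix h k
  unfold lm
  rw [h1]
  exact tendsto_const_nhds.limUnder_eq

/-- Closed conditions that are preserved by the step hold for the limit. -/
theorem lm_closed {r : ℝ} {a : R} (ha : a ∈ Dom R r) {S : Set R} (hS : IsClosed S)
    (haS : a ∈ S) (hst : ∀ b ∈ S, stp b ∈ S) : lm a ∈ S := by
  refine hS.mem_of_tendsto (tendsto_lm ha) (Eventually.of_forall fun k => ?_)
  induction k with
  | zero => exact haS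
  | succ k ih =>
    rw [Function.iterate_succ_apply']
    exact hst _ ih

end

end Idem

end TI
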