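import Pool.Agent.TI.Gram
import Pool.Agent.TI.Idem

/-!
# MP_9697d1_gt: `FPn F n` is a neighbourhood retract in the Gram model
-/

set_option autoImplicit false
set_option linter.unusedSectionVars false

namespace TI

namespace Retr

open Filter Topology Set

variable {F : Type} [NormedDivisionRing F] [NormedAlgebra ℝ F] [StarRing F] [StarNorm F]
  [FiniteDimensional ℝ F] {n : ℕ}

/-- Vectors. -/
abbrev W (F : Type) (n : ℕ) : Type := Fin (n + 1) → F

/-- Matrices. -/
abbrev Mt (F : Type) (n : ℕ) : Type := Fin (n + 1) → Fin (n + 1) → F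

/-- The operator `y ↦ y A` on row vectors. -/
def opL (A : Mt F n) : W F n →ₗ[ℝ] W F n where
  toFun y := fun j => ∑ i, y i * A i j
  map_add' y z := by
    funext j
    simp only [Pi.add_apply, add_mul, Finset.sum_add_distrib]
  map_smul' c y := by
    funext j
    simp only [Pi.smul_apply, RingHom.id_apply, smul_mul_assoc, Finset.smul_sum]

/-- The operator `y ↦ y A` as a linear function of the matrix. -/
noncomputable def opLL : Mt F n →ₗ[ℝ] (W F n →L[ℝ] W F n) where
  toFun A := LinearMap.toContinuousLinearMap (opL A)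
  map_add' A B := by
    ext y j
    simp [opL, mul_add, Finset.sum_add_distrib]
  map_smul' c A := by
    ext y j
    simp [opL, Finset.smul_sum]

theorem opLL_apply (A : Mt F n) (y : W F n) (j : Fin (n + 1)) :
    opLL A y j = ∑ i, y i * A i j := rfl

theorem continuous_opLL : Continuous (opLL : Mt F n → (W F n →L[ℝ] W F n)) :=
  LinearMap.continuous_of_finiteDimensional _

theorem mul_star_self' (x : F) : x * star x = algebraMap ℝ F (‖x‖ ^ 2) := by
  have h := StarNorm.star_mul_self' (star x)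
  rwa [star_star, norm_star_eq] at h

theorem op_gram (v y : W F n) :
    opLL (gram v) y = ((sq v)⁻¹ • ∑ i, y i * star (v i)) • v := by
  funext j
  rw [opLL_apply, Pi.smul_apply, smul_eq_mul, smul_mul_assoc, Finset.sum_mul, Finset.smul_sum]
  refine Finset.sum_congr rfl fun i _ => ?_
  unfold gram
  rw [mul_smul_comm, mul_assoc]

theorem op_gram_self {v : W F n} (hv : v ≠ 0) : opLL (gram v) v = v := by
  rw [op_gram]
  have h1 : ∑ i, v i * star (v i) = algebraMap ℝ F (sq v) := by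
    unfold sq
    rw [map_sum]
    exact Finset.sum_congr rfl fun i _ => mul_star_self' (v i)
  rw [h1, Algebra.smul_def, ← map_mul, inv_mul_cancel₀ (sq_pos hv).ne', map_one, one_smul]

theorem op_smul (A : Mt F n) (l : F) (y : W F n) : opLL A (l • y) = l • opLL A y := by
  funext j
  rw [opLL_apply, Pi.smul_apply, opLL_apply, smul_eq_mul, Finset.mul_sum]
  refine Finset.sum_congr rfl fun i _ => ?_
  rw [Pi.smul_apply, smul_eq_mul, mul_assoc]

theorem op_gram_idem {v : W F n} (hv : v ≠ 0) : opLL (gram v) ^ 2 = opLL (gram v) := by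
  refine ContinuousLinearMap.ext fun y => ?_
  rw [pow_two, mul_apply_eq_comp]
  rw [op_gram v y, op_smul, op_gram_self hv]

/-- The operators that commute with the left scalars. -/
def FL (F : Type) [NormedDivisionRing F] [NormedAlgebra ℝ F] (n : ℕ) :
    Set (W F n →L[ℝ] W F n) := {Q | ∀ (l : F) (y : W F n), Q (l • y) = l • Q y}

theorem isClosed_FL : IsClosed (FL F n) := by
  have : FL F n = ⋂ (l : F) (y : W F n), {Q | Q (l • y) = l • Q y} := by
    ext Q
    simp [FL]
  rw [this]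
  refine isClosed_iInter fun l => isClosed_iInter fun y => isClosed_eq ?_ ?_
  · exact (ContinuousLinearMap.apply ℝ (W F n) (l • y)).continuous
  · exact ((ContinuousLinearMap.apply ℝ (W F n) y).continuous).const_smul l

theorem stp_FL {Q : W F n →L[ℝ] W F n} (h : Q ∈ FL F n) : Idem.stp Q ∈ FL F n := by
  intro l y
  have h2 : ∀ z, (Q ^ 2) z = Q (Q z) := fun z => by rw [pow_two, mul_apply_eq_comp]
  have h3 : ∀ z, (Q ^ 3) z = Q (Q (Q z)) := fun z => by
    rw [pow_succ, mul_apply_eq_comp, h2]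
  unfold Idem.stp
  simp only [sub_apply, add_apply, h2, h3, h l y,
    h l (Q y), h l (Q (Q y)), smul_sub, smul_add]

theorem sum_single (y : W F n) : y = ∑ i, y i • (Pi.single i (1 : F) : W F n) := by
  funext j
  rw [Finset.sum_apply, Finset.sum_eq_single j]
  · simp
  · intro i _ hij
    simp [Pi.single_eq_of_ne (Ne.symm hij)]
  · intro h
    exact absurd (Finset.mem_univ j) h

section key

variable {Q Q₀ : W F n →L[ℝ] W F n} {v : W F n}

theorem inj_of_close (hc : ‖Q - Q₀‖ < 1) {z : W F n} (hz : Q z = z) (h0 : Q₀ z = 0) : z = 0 := by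
  by_contra hne
  have h1 : 0 < ‖z‖ := norm_pos_iff.2 hne
  have h2 : z = (Q - Q₀) z := by
    rw [sub_apply, hz, h0, sub_zero]
  have h3 : ‖z‖ ≤ ‖Q - Q₀‖ * ‖z‖ := by
    conv_lhs => rw [h2]
    exact (Q - Q₀).le_opNorm z
  nlinarith

theorem prop_of_close (hQ₀ : Q₀ = opLL (gram v)) (hQ : Q ^ 2 = Q)
    (hQF : Q ∈ FL F n) (hc : ‖Q - Q₀‖ < 1) {y y' : W F n} (hy : Q y ≠ 0) (hy' : Q y' ≠ 0) :
    ∃ u : F, u ≠ 0 ∧ u • Q y' = Q y := by
  have hid : ∀ z, Q (Q z) = Q z := fun z => by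
    rw [← mul_apply_eq_comp, ← pow_two, hQ]
  have hlin : ∀ z, ∃ l : F, Q₀ z = l • v := fun z => ⟨_, by rw [hQ₀]; exact op_gram v z⟩
  obtain ⟨a, ha⟩ := hlin (Q y)
  obtain ⟨b, hb⟩ := hlin (Q y')
  have ha0 : a ≠ 0 := by
    rintro rfl
    rw [zero_smul] at ha
    exact hy (inj_of_close hc (hid y) ha)
  have hb0 : b ≠ 0 := by
    rintro rfl
    rw [zero_smul] at hb
    exact hy' (inj_of_close hc (hid y') hb)
  refine ⟨a * b⁻¹, mul_ne_zero ha0 (inv_ne_zero hb0), ?_⟩
  have h1 : Q y - (a * b⁻¹) • Q y' = 0 := by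
    refine inj_of_close hc ?_ ?_
    · rw [map_sub, hid, hQF, hid]
    · rw [map_sub, ha, hQ₀, op_smul, ← hQ₀, hb, smul_smul, mul_assoc, inv_mul_cancel₀ hb0,
        mul_one, sub_self]
  exact (sub_eq_zero.1 h1).symm

theorem exists_single (hv : v ≠ 0) (hQ₀ : Q₀ = opLL (gram v)) (hQF : Q ∈ FL F n)
    (hc : ‖Q - Q₀‖ < 1) : ∃ i, Q (Pi.single i (1 : F)) ≠ 0 := by
  by_contra hcon
  push Not at hcon
  have h1 : Q v = 0 := by
    rw [sum_single v, map_sum]
    refine Finset.sum_eq_zero fun i _ => ?_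
    rw [hQF, hcon i, smul_zero]
  have h2 : Q₀ v = v := by
    rw [hQ₀]
    exact op_gram_self hv
  have h3 : ‖v‖ ≤ ‖Q - Q₀‖ * ‖v‖ := by
    have h4 : ‖(Q - Q₀) v‖ = ‖v‖ := by
      rw [sub_apply, h1, h2, zero_sub, norm_neg]
    rw [← h4]
    refine ((Q - Q₀).le_opNorm v).trans ?_
    rw [h4]
  have h4 : 0 < ‖v‖ := norm_pos_iff.2 hv
  nlinarith

end key

/-- The idempotent near `y ↦ y A`. -/
noncomputable def idm (A : Mt F n) : W F n →L[ℝ] W F n := Idem.lm (opLL A)

open Classical in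
/-- The retraction. -/
noncomputable def ret (A : Mt F n) : FPn F n :=
  if h : ∃ i, idm A (Pi.single i (1 : F)) ≠ 0 then mk F n ⟨_, h.choose_spec⟩
  else (inferInstance : Nonempty (FPn F n)).some

/-- The neighbourhood. -/
def nb (F : Type) [NormedDivisionRing F] [NormedAlgebra ℝ F] [StarRing F] [StarNorm F]
    [FiniteDimensional ℝ F] (n : ℕ) (r : ℝ) : Set (Mt F n) :=
  {A | opLL A ∈ Idem.Dom (W F n →L[ℝ] W F n) r ∧
    ∃ x : FPn F n, dist (opLL A) (opLL (gramP F n x)) < 1 / 2}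

theorem isOpen_nb (r : ℝ) : IsOpen (nb F n r) := by
  have : nb F n r = (opLL ⁻¹' Idem.Dom (W F n →L[ℝ] W F n) r) ∩
      ⋃ x : FPn F n, opLL ⁻¹' Metric.ball (opLL (gramP F n x)) (1 / 2) := by
    ext A
    simp [nb]
  rw [this]
  exact ((Idem.isOpen_Dom r).preimage continuous_opLL).inter
    (isOpen_iUnion fun x => Metric.isOpen_ball.preimage continuous_opLL)

theorem nb_spec {r : ℝ} {A : Mt F n} (hA : A ∈ nb F n r) : ∃ v : W F n, v ≠ 0 ∧
    ‖idm A - opLL (gram v)‖ < 1 ∧ idm A ^ 2 = idm A ∧ idm A ∈ FL F n := by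
  obtain ⟨h1, x, h2⟩ := hA
  obtain ⟨v, rfl⟩ := mk_surjective x
  refine ⟨v, v.2, ?_, Idem.lm_idem h1,
    Idem.lm_closed h1 isClosed_FL (fun l y => op_smul A l y) fun b hb => stp_FL hb⟩
  have h6 : dist (idm A) (opLL (gram (v : W F n))) = ‖idm A - opLL (gram (v : W F n))‖ :=
    dist_eq_norm (idm A) (opLL (gram (v : W F n)))
  rw [← h6]
  rw [gramP_mk] at h2
  have h3 := Idem.dist_lm_zero h1
  have h4 := dist_triangle (idm A) (opLL A) (opLL (gram (v : W F n)))
  rw [dist_comm] at h3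
  have h5 : dist (idm A) (opLL A) ≤ 1 / 12 := h3
  linarith

theorem ret_eq {r : ℝ} {A : Mt F n} (hA : A ∈ nb F n r) {i : Fin (n + 1)}
    (hi : idm A (Pi.single i (1 : F)) ≠ 0) : ret A = mk F n ⟨_, hi⟩ := by
  obtain ⟨v, -, hc, hid, hF⟩ := nb_spec hA
  have h : ∃ i, idm A (Pi.single i (1 : F)) ≠ 0 := ⟨i, hi⟩
  unfold ret
  rw [dif_pos h]
  exact mk_eq.2 (prop_of_close rfl hid hF hc h.choose_spec hi)

theorem continuousOn_ret (r : ℝ) : ContinuousOn (ret : Mt F n → FPn F n) (nb F n r) := by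
  have hQ : ContinuousOn (idm : Mt F n → _) (nb F n r) :=
    (Idem.continuousOn_lm r).comp continuous_opLL.continuousOn fun A hA => hA.1
  intro A₁ hA₁
  obtain ⟨v, hv, hc, hid, hF⟩ := nb_spec hA₁
  obtain ⟨i, hi⟩ := exists_single hv rfl hF hc
  have hQi : ContinuousOn (fun A : Mt F n => idm A (Pi.single i (1 : F))) (nb F n r) :=
    ((ContinuousLinearMap.apply ℝ (W F n) (Pi.single i (1 : F) : W F n)).continuous
      ).comp_continuousOn hQ
  have hN : IsOpen (nb F n r ∩ (fun A : Mt F n => idm A (Pi.single i (1 : F))) ⁻¹' {0}ᶜ) :=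
    hQi.isOpen_inter_preimage (isOpen_nb r) isOpen_compl_singleton
  have hcN : ContinuousOn (ret : Mt F n → FPn F n)
      (nb F n r ∩ (fun A : Mt F n => idm A (Pi.single i (1 : F))) ⁻¹' {0}ᶜ) := by
    rw [continuousOn_iff_continuous_domRestrict]
    have h1 : Continuous fun A : ↥(nb F n r ∩
        (fun A : Mt F n => idm A (Pi.single i (1 : F))) ⁻¹' {0}ᶜ) =>
        mk F n ⟨idm (A : Mt F n) (Pi.single i (1 : F)), A.2.2⟩ := by
      refine mk_continuous.comp (Continuous.subtype_mk ?_ _)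
      exact continuousOn_iff_continuous_domRestrict.1 (hQi.mono inter_subset_left)
    refine h1.congr fun A => ?_
    exact (ret_eq A.2.1 A.2.2).symm
  exact (hcN.continuousAt (hN.mem_nhds ⟨hA₁, hi⟩)).continuousWithinAt

theorem ret_gramP {r : ℝ} (x : FPn F n) (hx : gramP F n x ∈ nb F n r) :
    ret (gramP F n x) = x := by
  obtain ⟨v, rfl⟩ := mk_surjective x
  rw [gramP_mk] at hx ⊢
  have h1 : idm (gram (v : W F n)) = opLL (gram (v : W F n)) := Idem.lm_fix (op_gram_idem v.2)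
  obtain ⟨i, hi⟩ := Function.ne_iff.1 v.2
  rw [Pi.zero_apply] at hi
  have h2 : idm (gram (v : W F n)) (Pi.single i (1 : F)) =
      ((sq (v : W F n))⁻¹ • star ((v : W F n) i)) • (v : W F n) := by
    rw [h1, op_gram]
    congr 2
    rw [Finset.sum_eq_single i]
    · simp
    · intro j _ hj
      simp [Pi.single_eq_of_ne hj]
    · intro h
      exact absurd (Finset.mem_univ i) h
  have hu : (sq (v : W F n))⁻¹ • star ((v : W F n) i) ≠ 0 := by
    refine smul_ne_zero (inv_ne_zero (sq_pos v.2).ne') ?_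
    rw [← norm_ne_zero_iff, norm_star_eq]
    exact norm_ne_zero_iff.2 hi
  have h3 : idm (gram (v : W F n)) (Pi.single i (1 : F)) ≠ 0 := by
    rw [h2]
    exact smul_ne_zero hu v.2
  rw [ret_eq hx h3]
  exact mk_eq.2 ⟨_, hu, h2.symm⟩

end Retr

open Set in
/-- `FPn F n` is a retract of a neighbourhood in the Gram model. -/
theorem exists_retraction (F : Type) [NormedDivisionRing F] [NormedAlgebra ℝ F] [StarRing F]
    [StarNorm F] [FiniteDimensional ℝ F] (n : ℕ) :
    ∃ (U : Set (Fin (n + 1) → Fin (n + 1) → F)) (r : (Fin (n + 1) → Fin (n + 1) → F) → FPn F n),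
      IsOpen U ∧ Set.range (gramP F n) ⊆ U ∧ ContinuousOn r U ∧ ∀ x, r (gramP F n x) = x := by
  have hcn : Continuous fun x : FPn F n => ‖Retr.opLL (gramP F n x)‖ := by
    have h1 : Continuous fun x : FPn F n => Retr.opLL (gramP F n x) :=
      Retr.continuous_opLL.comp (gramP_continuous F n)
    exact (continuous_norm (E := Retr.W F n →L[ℝ] Retr.W F n)).comp h1
  have hc : BddAbove (range fun x : FPn F n => ‖Retr.opLL (gramP F n x)‖) :=
    (isCompact_range hcn).bddAbove
  obtain ⟨C, hC⟩ := hc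
  have hC' : ∀ x : FPn F n, ‖Retr.opLL (gramP F n x)‖ ≤ C := fun x => hC ⟨x, rfl⟩
  have hmem : ∀ x : FPn F n, gramP F n x ∈ Retr.nb F n (C + 1) := by
    intro x
    have h0 : 0 ≤ C := (norm_nonneg (Retr.opLL (gramP F n x))).trans (hC' x)
    refine ⟨⟨lt_of_le_of_lt (hC' x) (by linarith), ?_⟩, x, ?_⟩
    · obtain ⟨v, rfl⟩ := mk_surjective x
      have h1 : ‖(0 : Retr.W F n →L[ℝ] Retr.W F n)‖ = 0 :=
        norm_zero (E := Retr.W F n →L[ℝ] Retr.W F n)
      rw [gramP_mk, Retr.op_gram_idem v.2, sub_self, h1]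
      positivity
    · rw [dist_self]
      norm_num
  refine ⟨Retr.nb F n (C + 1), Retr.ret, Retr.isOpen_nb _, ?_, Retr.continuousOn_ret _,
    fun x => Retr.ret_gramP x (hmem x)⟩
  rintro _ ⟨x, rfl⟩
  exact hmem x

end TI
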