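import Pool.Agent.TI.Gysin
import Pool.Agent.VC.MapX
import Pool.Agent.VC.Les

/-!
# Spheres
-/

set_option autoImplicit false
set_option linter.unusedSectionVars false
set_option linter.unusedVariables false

namespace TI

open Set Filter Topology Pool.Agent.VC

universe u v

section basic

variable {X : Type u} {Y : Type v} [MetricSpace X] [MetricSpace Y]

/-- Reduced coboundaries in linear form. -/
theorem rbd_iff {p : ℤ} {A : Set X} {c : Cc X} :
    RBd p A c ↔ ∃ x : ZMod 2, (p = 0 ∨ x = 0) ∧ Bd p A ∅ (c + x • uno X) := by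
  constructor
  · rintro (h | ⟨hp, h⟩)
    · exact ⟨0, Or.inr rfl, by rwa [zero_smul, add_zero]⟩
    · exact ⟨1, Or.inl hp, by rwa [one_smul]⟩
  · rintro ⟨x, hx, h⟩
    rcases (by decide : ∀ a : ZMod 2, a = 0 ∨ a = 1) x with h1 | h1
    · rw [h1, zero_smul, add_zero] at h
      exact Or.inl h
    · rcases hx with hp | hx
      · rw [h1, one_smul] at h
        exact Or.inr ⟨hp, h⟩
      · rw [h1] at hx
        exact absurd hx one_ne_zero

theorem RBd.add {p : ℤ} {A : Set X} {c c' : Cc X} (h : RBd p A c) (h' : RBd p A c') :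
    RBd p A (c + c') := by
  rw [rbd_iff] at h h' ⊢
  obtain ⟨x, hx, h⟩ := h
  obtain ⟨y, hy, h'⟩ := h'
  refine ⟨x + y, ?_, ?_⟩
  · rcases hx with hx | hx
    · exact Or.inl hx
    · rcases hy with hy | hy
      · exact Or.inl hy
      · exact Or.inr (by rw [hx, hy, add_zero])
  · have := h.add h'
    rwa [show c + x • uno X + (c' + y • uno X) = c + c' + (x + y) • uno X by
      rw [add_smul]; abel] at this

theorem RBd.of_bd {p : ℤ} {A : Set X} {c : Cc X} (h : Bd p A ∅ c) : RBd p A c := Or.inl h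

theorem RBd.pull {p : ℤ} {f : X → Y} {A : Set X} {B : Set Y} {c : Cc Y}
    (hf : MX.PMap f A ∅ B ∅) (h : RBd p B c) : RBd p A (pull f c) := by
  rcases h with h | ⟨hp, h⟩
  · exact Or.inl (MX.bd_pull hf h)
  · refine Or.inr ⟨hp, ?_⟩
    have := MX.bd_pull hf h
    rwa [pull_add, pull_cst] at this

theorem RBd.mono {p : ℤ} {A B : Set X} {c : Cc X} (h : RBd p B c) (hA : A ⊆ B) : RBd p A c := by
  rcases h with h | ⟨hp, h⟩
  · exact Or.inl (h.mono hA Subset.rfl)
  · exact Or.inr ⟨hp, h.mono hA Subset.rfl⟩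

theorem RBd.cancel {p : ℤ} {A : Set X} {a b : Cc X} (h : RBd p A (a + b)) (h' : RBd p A b) :
    RBd p A a := by
  have h1 := h.add h'
  rwa [add_assoc, add_self, add_zero] at h1

/-- `HSph` depends only on the space. -/
theorem HSph.transport {k : ℤ} {A : Set X} {B : Set Y} {f : X → Y} {g : Y → X}
    (hf : MX.PMap f A ∅ B ∅) (hg : MX.PMap g B ∅ A ∅) (h : ∀ a ∈ A, g (f a) = a)
    (h' : ∀ b ∈ B, f (g b) = b) (hB : HSph k B) : HSph k A := by
  -- pulling back by `g` and then by `f`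
  have key : ∀ {p : ℤ} {c : Cc X}, Cyc p A ∅ c → Bd p A ∅ (c + pull f (pull g c)) := by
    intro p c hc
    have h1 := MX.bd_of_eqOn (MX.PMap.id (empty_subset A)) (MX.PMap.comp hf hg)
      (fun a ha => (h a ha).symm) hc
    rwa [pull_id, ← pull_pull] at h1
  have key' : ∀ {p : ℤ} {c : Cc Y}, Cyc p B ∅ c → Bd p B ∅ (c + pull g (pull f c)) := by
    intro p c hc
    have h1 := MX.bd_of_eqOn (MX.PMap.id (empty_subset B)) (MX.PMap.comp hg hf)
      (fun a ha => (h' a ha).symm) hc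
    rwa [pull_id, ← pull_pull] at h1
  -- reduced coboundaries correspond
  have hr : ∀ {p : ℤ} {c : Cc X}, Cyc p A ∅ c → RBd p B (pull g c) → RBd p A c := by
    intro p c hc h1
    exact (RBd.of_bd (key hc)).cancel (h1.pull hf)
  have hr' : ∀ {p : ℤ} {c : Cc Y}, Cyc p B ∅ c → RBd p A (pull f c) → RBd p B c := by
    intro p c hc h1
    exact (RBd.of_bd (key' hc)).cancel (h1.pull hg)
  refine ⟨?_, fun p hp c hc => hr hc (hB.low p hp _ (MX.cyc_pull hg hc)), ?_, ?_⟩
  · obtain ⟨b, hb⟩ := hB.ne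
    exact ⟨g b, hg.maps hb⟩
  · obtain ⟨c, hc, hn⟩ := hB.gen
    exact ⟨pull f c, MX.cyc_pull hf hc, fun h1 => hn (hr' hc h1)⟩
  · intro c c' hc hc' hn hn'
    refine hr (hc.add hc') ?_
    rw [pull_add]
    exact hB.uniq _ _ (MX.cyc_pull hg hc) (MX.cyc_pull hg hc') (fun h1 => hn (hr hc h1))
      (fun h1 => hn' (hr hc' h1))

/-- `HSph` and homeomorphisms of compact sets. -/
theorem HSph.of_homeo {k : ℤ} {A : Set X} {B : Set Y} (hA : IsCompact A) (hB : IsCompact B)
    (φ : A ≃ₜ B) (h : HSph k B) : HSph k A := by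
  classical
  obtain ⟨b₀, hb₀⟩ := h.ne
  have hAne : A.Nonempty := ⟨_, (φ.symm ⟨b₀, hb₀⟩).2⟩
  obtain ⟨a₀, ha₀⟩ := hAne
  let f₀ : X → Y := fun x => if hx : x ∈ A then (φ ⟨x, hx⟩ : Y) else b₀
  let g₀ : Y → X := fun y => if hy : y ∈ B then (φ.symm ⟨y, hy⟩ : X) else a₀
  have hf₀ : ∀ (x : X) (hx : x ∈ A), f₀ x = φ ⟨x, hx⟩ := fun x hx => dif_pos hx
  have hg₀ : ∀ (y : Y) (hy : y ∈ B), g₀ y = φ.symm ⟨y, hy⟩ := fun y hy => dif_pos hy
  have cf : ContinuousOn f₀ A := by
    rw [continuousOn_iff_continuous_domRestrict]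
    have e : A.domRestrict f₀ = fun x : A => (φ x : Y) := by
      funext x
      exact hf₀ x.1 x.2
    rw [e]
    exact continuous_subtype_val.comp φ.continuous
  have cg : ContinuousOn g₀ B := by
    rw [continuousOn_iff_continuous_domRestrict]
    have e : B.domRestrict g₀ = fun y : B => (φ.symm y : X) := by
      funext y
      exact hg₀ y.1 y.2
    rw [e]
    exact continuous_subtype_val.comp φ.symm.continuous
  obtain ⟨f, hf1, hf2, -⟩ := MX.exists_extend hA ⟨a₀, ha₀⟩ cf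
  obtain ⟨g, hg1, hg2, -⟩ := MX.exists_extend hB ⟨b₀, hb₀⟩ cg
  have mf : ∀ (x : X) (hx : x ∈ A), f x = φ ⟨x, hx⟩ := fun x hx => by rw [hf1 hx, hf₀ x hx]
  have mg : ∀ (y : Y) (hy : y ∈ B), g y = φ.symm ⟨y, hy⟩ := fun y hy => by
    rw [hg1 hy, hg₀ y hy]
  refine HSph.transport (f := f) (g := g) ⟨hf2, empty_subset _, fun x hx => ?_, fun x hx => hx.elim⟩
    ⟨hg2, empty_subset _, fun y hy => ?_, fun y hy => hy.elim⟩ (fun a ha => ?_) (fun b hb => ?_) h
  · rw [mf x hx]
    exact (φ _).2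
  · rw [mg y hy]
    exact (φ.symm _).2
  · have h1 : f a ∈ B := by
      rw [mf a ha]
      exact (φ _).2
    rw [mg _ h1]
    have h2 : (⟨f a, h1⟩ : B) = φ ⟨a, ha⟩ := Subtype.ext (mf a ha)
    rw [h2, Homeomorph.symm_apply_apply]
  · have h1 : g b ∈ A := by
      rw [mg b hb]
      exact (φ.symm _).2
    rw [mf _ h1]
    have h2 : (⟨g b, h1⟩ : A) = φ.symm ⟨b, hb⟩ := Subtype.ext (mg b hb)
    rw [h2, Homeomorph.apply_symm_apply]

/-! ## The suspension -/

/-- The reduced cohomology of `A` vanishes. -/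
def RAc (A : Set X) : Prop := A.Nonempty ∧ ∀ p c, Cyc p A ∅ c → RBd p A c

/-- Key lemma of the Mayer-Vietoris argument. -/
theorem glue_rbd {p : ℤ} {P N : Set X} (hP : IsCompact P) (hN : IsCompact N) {c b₁ b₂ : Cc X}
    (h1 : b₁ ∈ Dg X (p - 1)) (h2 : b₂ ∈ Dg X (p - 1)) (h3 : c + dd b₁ ∈ Z P)
    (h4 : c + dd b₂ ∈ Z N) (h : RBd (p - 1) (P ∩ N) (b₁ + b₂)) : Bd p (P ∪ N) ∅ c := by
  rw [rbd_iff] at h
  obtain ⟨x, hx, e, he, -, h5⟩ := h
  have hxu : x • uno X ∈ Dg X (p - 1) := by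
    rcases hx with hx | hx
    · rw [hx]
      exact Submodule.smul_mem _ x (uno_Dg X)
    · rw [hx, zero_smul]
      exact zero_mem _
  have hde : dd e ∈ Dg X (p - 1) := by
    have := dd_Dg he
    rwa [sub_add_cancel] at this
  set b₁' := b₁ + x • uno X with hb₁'
  have hb1 : b₁' ∈ Dg X (p - 1) := add_mem h1 hxu
  have hdb : dd b₁' = dd b₁ := by rw [hb₁', dd_add, dd_smul, dd_uno, smul_zero, add_zero]
  set w := b₁' + b₂ + dd e with hw
  have hwZ : w ∈ Z (P ∩ N) := by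
    have e1 : w = b₁ + b₂ + x • uno X + dd e := by rw [hw, hb₁']; abel
    rw [e1]
    exact h5
  have hwd : w ∈ Dg X (p - 1) := add_mem (add_mem hb1 h2) hde
  obtain ⟨K, h7, h8⟩ := Z_inter hP hN.isClosed hwZ
  have hsum := ind_add_compl K w
  have heq : b₁' + ind K w = b₂ + dd e + ind Kᶜ w := by
    have h9 := add_self (b₂ + dd e)
    have h10 := add_self (ind K w)
    calc b₁' + ind K w = b₁' + ind K w + ((b₂ + dd e) + (b₂ + dd e)) := by rw [h9, add_zero]
      _ = w + ind K w + (b₂ + dd e) := by rw [hw]; abel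
      _ = (ind K w + ind Kᶜ w) + ind K w + (b₂ + dd e) := by rw [hsum]
      _ = (ind K w + ind K w) + (b₂ + dd e + ind Kᶜ w) := by abel
      _ = _ := by rw [h10, zero_add]
  refine ⟨b₁' + ind K w, add_mem hb1 (ind_Dg hwd), Z_empty (add_mem hb1 (ind_Dg hwd)),
    Z_union ?_ ?_⟩
  · rw [dd_add, hdb, ← add_assoc]
    exact add_mem h3 (dd_Z h7)
  · rw [heq, dd_add, dd_add, dd_dd, add_zero, ← add_assoc]
    exact add_mem h4 (dd_Z h8)

/-- On a set with vanishing reduced cohomology the cocycles of degree `≠ 0` are coboundaries. -/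
theorem RAc.bd {A : Set X} (h : RAc A) {p : ℤ} (hp : p ≠ 0) {c : Cc X} (hc : Cyc p A ∅ c) :
    Bd p A ∅ c := by
  rcases h.2 p c hc with h | ⟨h0, -⟩
  · exact h
  · exact absurd h0 hp

theorem RAc.zero {A : Set X} (h : RAc A) {c : Cc X} (hc : Cyc 0 A ∅ c) :
    ∃ x : ZMod 2, c + x • uno X ∈ Z A := by
  obtain ⟨x, -, hx⟩ := rbd_iff.1 (h.2 0 c hc)
  exact ⟨x, Bd.deg_zero hx⟩

/-- The primitives on the two parts of a cocycle of the union. -/
theorem susp_prim {P N : Set X} (hP : RAc P) (hN : RAc N) {p : ℤ} (hp : p ≠ 0) {c : Cc X}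
    (hc : Cyc p (P ∪ N) ∅ c) : ∃ b₁ b₂, b₁ ∈ Dg X (p - 1) ∧ b₂ ∈ Dg X (p - 1) ∧
      c + dd b₁ ∈ Z P ∧ c + dd b₂ ∈ Z N ∧ Cyc (p - 1) (P ∩ N) ∅ (b₁ + b₂) := by
  obtain ⟨b₁, hb₁, -, h3⟩ := hP.bd hp (hc.mono subset_union_left Subset.rfl)
  obtain ⟨b₂, hb₂, -, h4⟩ := hN.bd hp (hc.mono subset_union_right Subset.rfl)
  refine ⟨b₁, b₂, hb₁, hb₂, h3, h4, add_mem hb₁ hb₂, Z_empty (add_mem hb₁ hb₂), ?_⟩
  have h5 := add_mem (Z_anti (inter_subset_left (t := N)) h3)
    (Z_anti (inter_subset_right (s := P)) h4)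
  have h6 : c + dd b₁ + (c + dd b₂) = dd (b₁ + b₂) := by
    have := add_self c
    rw [dd_add]
    calc c + dd b₁ + (c + dd b₂) = (c + c) + (dd b₁ + dd b₂) := by abel
      _ = _ := by rw [this, zero_add]
  rwa [h6] at h5

/-- The suspension of a set with the cohomology of a sphere. -/
theorem hsph_susp {k : ℤ} (hk : 0 ≤ k) {P N : Set X} (hPc : IsCompact P) (hNc : IsCompact N)
    (hP : RAc P) (hN : RAc N) (hB : HSph k (P ∩ N)) : HSph (k + 1) (P ∪ N) := by
  refine ⟨hP.1.mono subset_union_left, ?_, ?_, ?_⟩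
  · intro p hp c hc
    by_cases hp0 : p = 0
    · subst hp0
      obtain ⟨x, hx⟩ := hP.zero (hc.mono subset_union_left Subset.rfl)
      obtain ⟨y, hy⟩ := hN.zero (hc.mono subset_union_right Subset.rfl)
      have h1 := add_mem (Z_anti (inter_subset_left (t := N)) hx)
        (Z_anti (inter_subset_right (s := P)) hy)
      have h2 : c + x • uno X + (c + y • uno X) = (x + y) • uno X := by
        have := add_self c
        calc c + x • uno X + (c + y • uno X) = (c + c) + (x • uno X + y • uno X) := by abel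
          _ = _ := by rw [this, zero_add, add_smul]
      rw [h2] at h1
      have h3 : x + y = 0 := by
        by_contra h
        have h4 := (by decide : ∀ a : ZMod 2, a ≠ 0 → a = 1) _ h
        rw [h4, one_smul] at h1
        exact uno_notMem_Z hB.ne h1
      have h4 : y = x := by
        have := (by decide : ∀ a b : ZMod 2, a + b = 0 → b = a) x y h3
        exact this
      rw [h4] at hy
      exact rbd_iff.2 ⟨x, Or.inl rfl, Bd.of_Z (Z_union hx hy)⟩
    · obtain ⟨b₁, b₂, h1, h2, h3, h4, h5⟩ := susp_prim hP hN hp0 hc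
      exact Or.inl (glue_rbd hPc hNc h1 h2 h3 h4 (hB.low (p - 1) (by omega) _ h5))
  · obtain ⟨b, hb, hn⟩ := hB.gen
    obtain ⟨c, hc, h1, h2⟩ := mv_conn hPc hNc.isClosed hb
    refine ⟨c, hc, fun h => hn ?_⟩
    have h3 : Bd (k + 1) (P ∪ N) ∅ c := by
      rcases h with h | ⟨h0, -⟩
      · exact h
      · omega
    obtain ⟨e, he, -, h4⟩ := h3
    rw [add_sub_cancel_right] at he
    have hP' : Cyc k P ∅ (b + e) := by
      refine ⟨add_mem hb.deg he, Z_empty (add_mem hb.deg he), ?_⟩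
      have h5 := add_mem h1 (Z_anti (subset_union_left (t := N)) h4)
      have h6 : c + dd b + (c + dd e) = dd (b + e) := by
        have := add_self c
        rw [dd_add]
        calc c + dd b + (c + dd e) = (c + c) + (dd b + dd e) := by abel
          _ = _ := by rw [this, zero_add]
      rwa [h6] at h5
    have hN' : Cyc k N ∅ e := by
      refine ⟨he, Z_empty he, ?_⟩
      have h5 := add_mem h2 (Z_anti (subset_union_right (s := P)) h4)
      have h6 : c + (c + dd e) = dd e := by rw [← add_assoc, add_self, zero_add]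
      rwa [h6] at h5
    have h7 := (hP.2 k _ hP').mono (inter_subset_left (t := N))
    have h8 := (hN.2 k _ hN').mono (inter_subset_right (s := P))
    exact h7.cancel h8
  · intro c c' hc hc' hn hn'
    obtain ⟨b₁, b₂, h1, h2, h3, h4, h5⟩ := susp_prim hP hN (by omega) hc
    obtain ⟨b₁', b₂', h1', h2', h3', h4', h5'⟩ := susp_prim hP hN (by omega) hc'
    rw [add_sub_cancel_right] at h5 h5'
    have hb : ¬ RBd k (P ∩ N) (b₁ + b₂) := fun h =>
      hn (Or.inl (glue_rbd hPc hNc h1 h2 h3 h4 (by rwa [add_sub_cancel_right])))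
    have hb' : ¬ RBd k (P ∩ N) (b₁' + b₂') := fun h =>
      hn' (Or.inl (glue_rbd hPc hNc h1' h2' h3' h4' (by rwa [add_sub_cancel_right])))
    have hu := hB.uniq _ _ h5 h5' hb hb'
    refine Or.inl (glue_rbd hPc hNc (add_mem h1 h1') (add_mem h2 h2') ?_ ?_ ?_)
    · have := add_mem h3 h3'
      rw [dd_add]
      rwa [show c + dd b₁ + (c' + dd b₁') = c + c' + (dd b₁ + dd b₁') by abel] at this
    · have := add_mem h4 h4'
      rw [dd_add]
      rwa [show c + dd b₂ + (c' + dd b₂') = c + c' + (dd b₂ + dd b₂') by abel] at this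
    · rw [add_sub_cancel_right]
      rwa [show b₁ + b₁' + (b₂ + b₂') = b₁ + b₂ + (b₁' + b₂') by abel]

/-! ## Two points -/

theorem rac_singleton (x : X) : RAc ({x} : Set X) := by
  refine ⟨singleton_nonempty x, fun p c hc => ?_⟩
  rcases lt_trichotomy p 0 with h | h | h
  · rw [Dg.neg hc.deg h]
    exact Or.inl Bd.zero
  · subst h
    obtain ⟨κ, hκ⟩ := pt_zero hc
    exact rbd_iff.2 ⟨κ, Or.inl rfl, Bd.of_Z hκ⟩
  · exact Or.inl (van_pt h x c hc)

/-- Two disjoint sets with vanishing reduced cohomology. -/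
theorem hsph_zero {P N : Set X} (hPc : IsCompact P) (hNc : IsCompact N) (hP : RAc P)
    (hN : RAc N) (hPN : P ∩ N = ∅) : HSph 0 (P ∪ N) := by
  have hval : ∀ c : Cc X, Cyc 0 (P ∪ N) ∅ c → ¬ RBd 0 (P ∪ N) c →
      ∃ x : ZMod 2, c + x • uno X ∈ Z P ∧ c + (x + 1) • uno X ∈ Z N := by
    intro c hc hn
    obtain ⟨x, hx⟩ := hP.zero (hc.mono subset_union_left Subset.rfl)
    obtain ⟨y, hy⟩ := hN.zero (hc.mono subset_union_right Subset.rfl)
    rcases (by decide : ∀ a b : ZMod 2, b = a ∨ b = a + 1) x y with h | h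
    · rw [h] at hy
      exact absurd (rbd_iff.2 ⟨x, Or.inl rfl, Bd.of_Z (Z_union hx hy)⟩) hn
    · rw [h] at hy
      exact ⟨x, hx, hy⟩
  refine ⟨hP.1.mono subset_union_left, ?_, ?_, ?_⟩
  · intro p hp c hc
    refine Or.inl ?_
    obtain ⟨b₁, b₂, h1, h2, h3, h4, h5⟩ := susp_prim hP hN hp hc
    refine glue_rbd hPc hNc h1 h2 h3 h4 (Or.inl ?_)
    rw [hPN]
    exact Bd.of_Z (Z_empty (add_mem h1 h2))
  · have h0 : uno X ∈ Z (P ∩ N) := by
      rw [hPN]
      exact Z_empty (uno_Dg X)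
    obtain ⟨K, h1, h2⟩ := Z_inter hPc hNc.isClosed h0
    have hd : ind K (uno X) ∈ Dg X 0 := ind_Dg (uno_Dg X)
    have hsum := ind_add_compl K (uno X)
    refine ⟨ind K (uno X), ⟨hd, Z_empty hd, Z_union (dd_Z h1) ?_⟩, ?_⟩
    · have h3 : dd (ind K (uno X)) = dd (ind Kᶜ (uno X)) := by
        have h4 : dd (ind K (uno X)) + dd (ind Kᶜ (uno X)) = 0 := by
          rw [← dd_add, hsum, dd_uno]
        have h5 := add_self (dd (ind Kᶜ (uno X)))
        calc dd (ind K (uno X)) = dd (ind K (uno X)) + dd (ind Kᶜ (uno X)) +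
            dd (ind Kᶜ (uno X)) := by rw [add_assoc, h5, add_zero]
          _ = _ := by rw [h4, zero_add]
      rw [h3]
      exact dd_Z h2
    · rintro (h | ⟨-, h⟩)
      · have h3 := Z_anti (subset_union_right (s := P)) (Bd.deg_zero h)
        have h4 := add_mem h3 h2
        rw [hsum] at h4
        exact uno_notMem_Z hN.1 h4
      · have h3 := Z_anti (subset_union_left (t := N)) (Bd.deg_zero h)
        have h4 := add_mem h1 h3
        rw [← add_assoc, add_self, zero_add] at h4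
        exact uno_notMem_Z hP.1 h4
  · intro c c' hc hc' hn hn'
    obtain ⟨x, h1, h2⟩ := hval c hc hn
    obtain ⟨y, h3, h4⟩ := hval c' hc' hn'
    refine rbd_iff.2 ⟨x + y, Or.inl rfl, Bd.of_Z (Z_union ?_ ?_)⟩
    · have := add_mem h1 h3
      rwa [show c + x • uno X + (c' + y • uno X) = c + c' + (x + y) • uno X by
        rw [add_smul]; abel] at this
    · have := add_mem h2 h4
      have e : x + 1 + (y + 1) = x + y := by
        have := (by decide : ∀ a b : ZMod 2, a + 1 + (b + 1) = a + b) x y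
        exact this
      rwa [show c + (x + 1) • uno X + (c' + (y + 1) • uno X) =
        c + c' + (x + 1 + (y + 1)) • uno X by
        rw [add_smul (x + 1) (y + 1)]; abel, e] at this

end basic

/-- Contractible compact sets have vanishing reduced cohomology. -/
theorem rac_of_contractible {X : Type u} [MetricSpace X] {A : Set X} (hA : IsCompact A)
    {φ : X × ℝ → X} (hφ : ContinuousOn φ (A ×ˢ Icc (0 : ℝ) 1)) (h0 : ∀ a ∈ A, φ (a, 0) = a)
    {w : X} (hw : w ∈ A) (h1 : ∀ a ∈ A, φ (a, 1) = w)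
    (hB : MapsTo φ (A ×ˢ Icc (0 : ℝ) 1) A) : RAc A := by
  refine ⟨⟨w, hw⟩, fun p c hc => ?_⟩
  by_cases hp : p = 0
  · subst hp
    refine rbd_iff.2 ⟨c [w], Or.inl rfl, ?_⟩
    exact MX.cyc_zero_of_contractible hA hφ h0 hw h1 hB hc
  · exact Or.inl (MX.van_of_contractible hA hφ h0 hw h1 hB hp c hc)

/-! ## Spheres -/

section sphere

variable {V : Type u} [NormedAddCommGroup V] [NormedSpace ℝ V]

/-- The closed half spheres are contractible. -/
theorem rac_half [FiniteDimensional ℝ V] (ℓ : V →L[ℝ] ℝ) (e : V) (he : ‖e‖ = 1)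
    (hℓ : 0 < ℓ e) : RAc {v : V | v ∈ Metric.sphere (0 : V) 1 ∧ 0 ≤ ℓ v} := by
  have hcl : IsClosed {v : V | v ∈ Metric.sphere (0 : V) 1 ∧ 0 ≤ ℓ v} :=
    Metric.isClosed_sphere.inter (isClosed_le continuous_const ℓ.continuous)
  have hcomp : IsCompact {v : V | v ∈ Metric.sphere (0 : V) 1 ∧ 0 ≤ ℓ v} :=
    (isCompact_sphere (0 : V) 1).of_isClosed_subset hcl fun v hv => hv.1
  have hne : ∀ v : V, v ∈ Metric.sphere (0 : V) 1 → 0 ≤ ℓ v → ∀ t : ℝ, 0 ≤ t → t ≤ 1 →
      (1 - t) • v + t • e ≠ 0 ∧ 0 ≤ ℓ ((1 - t) • v + t • e) := by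
    intro v hv hv' t ht ht'
    have h1 : ℓ ((1 - t) • v + t • e) = (1 - t) * ℓ v + t * ℓ e := by
      rw [map_add, map_smul, map_smul, smul_eq_mul, smul_eq_mul]
    have h2 : 0 ≤ (1 - t) * ℓ v := mul_nonneg (by linarith) hv'
    have h3 : 0 ≤ t * ℓ e := mul_nonneg ht hℓ.le
    refine ⟨?_, by rw [h1]; linarith⟩
    rcases eq_or_lt_of_le ht with h | h
    · rw [← h]
      simp only [sub_zero, one_smul, zero_smul, add_zero]
      intro h4
      rw [mem_sphere_zero_iff_norm, h4, norm_zero] at hv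
      exact zero_ne_one hv
    · intro h4
      have h5 : 0 < t * ℓ e := mul_pos h hℓ
      rw [h4, map_zero] at h1
      linarith
  refine rac_of_contractible hcomp (w := e)
    (φ := fun q => ‖(1 - q.2) • q.1 + q.2 • e‖⁻¹ • ((1 - q.2) • q.1 + q.2 • e)) ?_ ?_ ?_ ?_ ?_
  · have hc : Continuous fun q : V × ℝ => (1 - q.2) • q.1 + q.2 • e := by fun_prop
    refine ContinuousOn.smul (ContinuousOn.inv₀ hc.norm.continuousOn ?_) hc.continuousOn
    rintro ⟨v, t⟩ ⟨hv, ht⟩
    exact norm_ne_zero_iff.2 (hne v hv.1 hv.2 t ht.1 ht.2).1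
  · intro a ha
    have : ‖a‖ = 1 := by
      have := ha.1
      rwa [mem_sphere_zero_iff_norm] at this
    simp [this]
  · exact ⟨by rw [mem_sphere_zero_iff_norm, he], hℓ.le⟩
  · intro a _
    simp [he]
  · rintro ⟨v, t⟩ ⟨hv, ht⟩
    obtain ⟨h1, h2⟩ := hne v hv.1 hv.2 t ht.1 ht.2
    refine ⟨?_, ?_⟩
    · rw [mem_sphere_zero_iff_norm, norm_smul, norm_inv, norm_norm,
        inv_mul_cancel₀ (norm_ne_zero_iff.2 h1)]
    · simp only [map_smul, smul_eq_mul]
      exact mul_nonneg (inv_nonneg.2 (norm_nonneg _)) h2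

theorem hsph_sphere_aux (k : ℕ) : ∀ (V : Type u) [NormedAddCommGroup V] [NormedSpace ℝ V]
    [FiniteDimensional ℝ V], Module.finrank ℝ V = k + 1 →
    HSph (k : ℤ) (Metric.sphere (0 : V) 1) := by
  induction k with
  | zero =>
    intro V _ _ _ h
    have : Nontrivial V := Module.nontrivial_of_finrank_pos (R := ℝ) (by omega)
    obtain ⟨e₀, he₀⟩ := exists_ne (0 : V)
    set e := ‖e₀‖⁻¹ • e₀ with hedef
    have he : ‖e‖ = 1 := by
      rw [hedef, norm_smul, norm_inv, norm_norm, inv_mul_cancel₀ (norm_ne_zero_iff.2 he₀)]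
    have hne : e ≠ 0 := fun h => by
      rw [h, norm_zero] at he
      exact zero_ne_one he
    have hs : Metric.sphere (0 : V) 1 = {e} ∪ {-e} := by
      ext v
      rw [mem_sphere_zero_iff_norm]
      constructor
      · intro hv
        obtain ⟨t, rfl⟩ := (finrank_eq_one_iff_of_nonzero' e hne).1 (by simpa using h) v
        rw [norm_smul, he, mul_one, Real.norm_eq_abs] at hv
        rcases eq_or_eq_neg_of_abs_eq hv with h1 | h1
        · left; rw [h1, one_smul]; rfl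
        · right; rw [h1, neg_smul, one_smul]; rfl
      · rintro (h1 | h1)
        · rw [mem_singleton_iff.1 h1, he]
        · rw [mem_singleton_iff.1 h1, norm_neg, he]
    rw [hs]
    refine hsph_zero isCompact_singleton isCompact_singleton (rac_singleton _)
      (rac_singleton _) ?_
    rw [singleton_inter_eq_empty, mem_singleton_iff]
    intro h1
    have h2 : (2 : ℝ) • e = 0 := by
      rw [two_smul]
      nth_rewrite 1 [h1]
      exact neg_add_cancel e
    rcases smul_eq_zero.1 h2 with h3 | h3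
    · norm_num at h3
    · exact hne h3
  | succ k ih =>
    intro V _ _ _ h
    have : Nontrivial V := Module.nontrivial_of_finrank_pos (R := ℝ) (by omega)
    obtain ⟨e₀, he₀⟩ := exists_ne (0 : V)
    set e := ‖e₀‖⁻¹ • e₀ with hedef
    have he : ‖e‖ = 1 := by
      rw [hedef, norm_smul, norm_inv, norm_norm, inv_mul_cancel₀ (norm_ne_zero_iff.2 he₀)]
    have hne : e ≠ 0 := fun h => by
      rw [h, norm_zero] at he
      exact zero_ne_one he
    obtain ⟨ℓ, hℓ⟩ : ∃ ℓ : V →L[ℝ] ℝ, ℓ e = 1 := by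
      obtain ⟨g, -, hg⟩ := exists_dual_vector ℝ e (norm_ne_zero_iff.2 hne)
      refine ⟨g, ?_⟩
      rw [hg, he]
      simp
    have hP : RAc {v : V | v ∈ Metric.sphere (0 : V) 1 ∧ 0 ≤ ℓ v} :=
      rac_half ℓ e he (by rw [hℓ]; exact one_pos)
    have hN : RAc {v : V | v ∈ Metric.sphere (0 : V) 1 ∧ 0 ≤ (-ℓ) v} :=
      rac_half (-ℓ) (-e) (by rw [norm_neg, he]) (by simp [hℓ])
    have hcl : ∀ ℓ : V →L[ℝ] ℝ, IsCompact {v : V | v ∈ Metric.sphere (0 : V) 1 ∧ 0 ≤ ℓ v} :=
      fun ℓ => (isCompact_sphere (0 : V) 1).of_isClosed_subset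
        (Metric.isClosed_sphere.inter (isClosed_le continuous_const ℓ.continuous))
        fun v hv => hv.1
    have hU : Metric.sphere (0 : V) 1 = {v : V | v ∈ Metric.sphere (0 : V) 1 ∧ 0 ≤ ℓ v} ∪
        {v : V | v ∈ Metric.sphere (0 : V) 1 ∧ 0 ≤ (-ℓ) v} := by
      ext v
      constructor
      · intro hv
        rcases le_total 0 (ℓ v) with h1 | h1
        · exact Or.inl ⟨hv, h1⟩
        · exact Or.inr ⟨hv, by simpa using h1⟩
      · rintro (h1 | h1)
        · exact h1.1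
        · exact h1.1
    have hker : Module.finrank ℝ (LinearMap.ker (ℓ : V →ₗ[ℝ] ℝ)) = k + 1 := by
      have h1 := LinearMap.finrank_range_add_finrank_ker (ℓ : V →ₗ[ℝ] ℝ)
      have h2 : LinearMap.range (ℓ : V →ₗ[ℝ] ℝ) = ⊤ := by
        rw [LinearMap.range_eq_top]
        intro t
        exact ⟨t • e, by simp [hℓ]⟩
      rw [h2, finrank_top, Module.finrank_self] at h1
      omega
    have hW := ih (LinearMap.ker (ℓ : V →ₗ[ℝ] ℝ)) hker
    have hI : HSph (k : ℤ) ({v : V | v ∈ Metric.sphere (0 : V) 1 ∧ 0 ≤ ℓ v} ∩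
        {v : V | v ∈ Metric.sphere (0 : V) 1 ∧ 0 ≤ (-ℓ) v}) := by
      have hz : ∀ v ∈ ({v : V | v ∈ Metric.sphere (0 : V) 1 ∧ 0 ≤ ℓ v} ∩
          {v : V | v ∈ Metric.sphere (0 : V) 1 ∧ 0 ≤ (-ℓ) v}), ‖v‖ = 1 ∧ ℓ v = 0 := by
        rintro v ⟨⟨h1, h2⟩, ⟨-, h3⟩⟩
        refine ⟨by rwa [mem_sphere_zero_iff_norm] at h1, le_antisymm ?_ h2⟩
        simpa using h3
      have hmem : ∀ v : V, v - ℓ v • e ∈ LinearMap.ker (ℓ : V →ₗ[ℝ] ℝ) := by
        intro v
        rw [LinearMap.mem_ker]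
        simp [hℓ]
      refine HSph.transport (f := fun v : V => (⟨v - ℓ v • e, hmem v⟩ :
        LinearMap.ker (ℓ : V →ₗ[ℝ] ℝ))) (g := fun w => (w : V))
        (MX.PMap.of_continuous ((hcl ℓ).inter (hcl (-ℓ))) ?_ (empty_subset _) ?_
          fun x hx => hx.elim)
        (MX.PMap.of_continuous (isCompact_sphere _ 1) continuous_subtype_val (empty_subset _) ?_
          fun x hx => hx.elim) ?_ ?_ hW
      · exact Continuous.subtype_mk (by fun_prop) _
      · intro v hv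
        obtain ⟨h1, h2⟩ := hz v hv
        rw [mem_sphere_zero_iff_norm]
        change ‖v - ℓ v • e‖ = 1
        rw [h2, zero_smul, sub_zero, h1]
      · intro w hw
        rw [mem_sphere_zero_iff_norm] at hw
        have h1 : ℓ (w : V) = 0 := w.2
        have h2 : (w : V) ∈ Metric.sphere (0 : V) 1 := by
          rw [mem_sphere_zero_iff_norm]
          exact hw
        exact ⟨⟨h2, h1.ge⟩, ⟨h2, by simp [h1]⟩⟩
      · intro v hv
        simp [(hz v hv).2]
      · intro w _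
        have h1 : ℓ (w : V) = 0 := w.2
        refine Subtype.ext ?_
        simp [h1]
    have := hsph_susp (Int.natCast_nonneg k) (hcl ℓ) (hcl (-ℓ)) hP hN hI
    rw [← hU] at this
    exact_mod_cast this

/-- (S2) The unit sphere of a normed space of dimension `k + 1`. -/
theorem hsph_sphere [FiniteDimensional ℝ V] {k : ℕ} (h : Module.finrank ℝ V = k + 1) :
    HSph (k : ℤ) (Metric.sphere (0 : V) 1) := hsph_sphere_aux k V h

theorem sphere_not_van' [FiniteDimensional ℝ V] {k : ℕ} (h : Module.finrank ℝ V = k + 1) :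
    ¬ Van (k : ℤ) (Metric.sphere (0 : V) 1) ∅ := by
  intro hv
  obtain ⟨c, hc, hn⟩ := (hsph_sphere h).gen
  exact hn (Or.inl (hv c hc))

end sphere

/-- (S3) The top class of the unit sphere of `E^N`. -/
theorem sphere_not_van {N : ℕ} (hN : 1 ≤ N) :
    ¬ Van ((N : ℤ) - 1) (Metric.sphere (0 : EuclideanSpace ℝ (Fin N)) 1) ∅ := by
  obtain ⟨k, rfl⟩ : ∃ k, N = k + 1 := ⟨N - 1, by omega⟩
  have := sphere_not_van' (V := EuclideanSpace ℝ (Fin (k + 1))) (k := k) (by simp)
  rwa [show (((k + 1 : ℕ) : ℤ) - 1) = (k : ℤ) by push_cast; ring]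

/-- The same for the sphere as a space. -/
theorem sphere_not_van_univ {N : ℕ} (hN : 1 ≤ N) :
    ¬ Van ((N : ℤ) - 1) (univ : Set (Metric.sphere (0 : EuclideanSpace ℝ (Fin N)) 1)) ∅ := by
  intro hv
  refine sphere_not_van hN ?_
  have hne : (Metric.sphere (0 : EuclideanSpace ℝ (Fin N)) 1).Nonempty := by
    obtain ⟨k, rfl⟩ : ∃ k, N = k + 1 := ⟨N - 1, by omega⟩
    exact (hsph_sphere (V := EuclideanSpace ℝ (Fin (k + 1))) (k := k) (by simp)).ne
  obtain ⟨s₀, hs₀⟩ := hne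
  classical
  let f₀ : EuclideanSpace ℝ (Fin N) → Metric.sphere (0 : EuclideanSpace ℝ (Fin N)) 1 :=
    fun x => if hx : x ∈ Metric.sphere (0 : EuclideanSpace ℝ (Fin N)) 1 then ⟨x, hx⟩ else
      ⟨s₀, hs₀⟩
  have hf₀ : ∀ x (hx : x ∈ Metric.sphere (0 : EuclideanSpace ℝ (Fin N)) 1),
      f₀ x = ⟨x, hx⟩ := fun x hx => dif_pos hx
  have cf : ContinuousOn f₀ (Metric.sphere (0 : EuclideanSpace ℝ (Fin N)) 1) := by
    rw [continuousOn_iff_continuous_domRestrict]
    have e : (Metric.sphere (0 : EuclideanSpace ℝ (Fin N)) 1).domRestrict f₀ = id := by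
      funext x
      exact hf₀ x.1 x.2
    rw [e]
    exact continuous_id
  obtain ⟨f, hf1, hf2, -⟩ := MX.exists_extend (isCompact_sphere _ 1) ⟨s₀, hs₀⟩ cf
  refine MX.van_of_comp (f := f) (g := fun x => (x : EuclideanSpace ℝ (Fin N)))
    (B := univ) (B' := ∅) ⟨hf2, empty_subset _, fun x hx => mem_univ _, fun x hx => hx.elim⟩
    (MX.PMap.of_continuous isCompact_univ continuous_subtype_val (empty_subset _)
      (fun x _ => x.2) fun x hx => hx.elim) (fun a ha => ?_) hv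
  rw [hf1 ha, hf₀ a ha]

end TI
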