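import Pool.Agent.TI.Assemble
import Pool.Agent.TI.Pj
import Pool.Agent.TI.DimS
import Pool.Agent.TI.Sph
import Pool.Agent.TI.BFin
import Pool.Agent.TI.Retr

/-!
# MP_9697d1_gt: the final assembly
-/

namespace TI

open Set Pool.Agent Pool.Agent.VC

/-- Block R: the class `a` of `FPn F n`. -/
def Stmt_R (F : Type) [NormedDivisionRing F] [NormedAlgebra ℝ F] [StarRing F] [StarNorm F]
    [FiniteDimensional ℝ F] : Prop :=
  ∀ n : ℕ, 1 ≤ n → ∃ a : Cc (FPn F n), MHyp (Module.finrank ℝ F) n a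

/-- Block B: tightness gives surjectivity onto the cohomology of the top sets. -/
def Stmt_B (F : Type) [NormedDivisionRing F] [NormedAlgebra ℝ F] [StarRing F] [StarNorm F]
    [FiniteDimensional ℝ F] : Prop :=
  ∀ (n N : ℕ) (f : FPn F n → E N), Continuous f → Tight f → ∀ z : E N, z ≠ 0 →
    ∀ (j : ℤ) (c : Cc (FPn F n)), Cyc j (topSet f z) ∅ c →
      ∃ c' : Cc (FPn F n), Cyc j univ ∅ c' ∧ Bd j (topSet f z) ∅ (c + c')

theorem stmt_B (F : Type) [NormedDivisionRing F] [NormedAlgebra ℝ F] [StarRing F] [StarNorm F]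
    [FiniteDimensional ℝ F] : Stmt_B F := fun n N _ hf ht =>
  TIB.hsurj_FPn F n N (exists_retraction F n) hf ht

theorem bound_of {F : Type} [NormedDivisionRing F] [NormedAlgebra ℝ F] [StarRing F] [StarNorm F]
    [FiniteDimensional ℝ F] {d : ℕ} (hd : Module.finrank ℝ F = d)
    (hLH : Stmt_LH) (hR : Stmt_R F) : Bound F d := by
  intro n N f hn hf ht hs
  obtain ⟨a, ha⟩ := hR n hn
  rw [hd] at ha
  have hd1 : 1 ≤ d := by
    rw [← hd]
    exact Module.finrank_pos
  exact abstract_bound hd1 hn f hf hs a ha (stmt_B F n N f hf ht) hLH (van_Gam_FPn hd hf hs)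
    (fun A hA j hj => van_sph A hA j hj) (fun hN => sphere_not_van_univ hN)

theorem goal_of (hLH : Stmt_LH) (hR1 : Stmt_R ℝ) (hR2 : Stmt_R ℂ)
    (hR4 : Stmt_R (Quaternion ℝ)) : Goal :=
  ⟨bound_of (Module.finrank_self ℝ) hLH hR1, bound_of Complex.finrank_real_complex hLH hR2,
    bound_of Quaternion.finrank_eq_four hLH hR4⟩

end TI
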