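import Pool.Agent.TI.BFin
import Pool.Agent.TI.Retr
import Pool.Agent.TI.Final

/-!
# MP_9697d1_gt: block B is complete
-/

namespace TI

/-- Tightness gives surjectivity onto the cohomology of the top sets. -/
theorem stmt_B (F : Type) [NormedDivisionRing F] [NormedAlgebra ℝ F] [StarRing F] [StarNorm F]
    [FiniteDimensional ℝ F] : Stmt_B F := fun n N _ hf ht =>
  TIB.hsurj_FPn F n N (exists_retraction F n) hf ht

end TI
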