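import Mathlib

/-!
# List chains with coefficients in `ZMod 2`, barycentric subdivision on lists

Block B (bridge from singular homology to Vietoris cochains), part 1.
-/

set_option autoImplicit false
set_option linter.unusedSectionVars false

noncomputable section

namespace TIB

open Finsupp

/-- The coefficients. -/
abbrev F2 := ZMod 2

/-- List chains: finite formal sums of lists. -/
abbrev LCh (V : Type*) := List V →₀ F2

section basic

variable {V W : Type*}

theorem f2_add_self {M : Type*} [AddCommGroup M] [Module F2 M] (z : M) : z + z = 0 := by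
  have h : (2 : F2) • z = 0 := by
    rw [show (2 : F2) = 0 by decide, zero_smul]
  rwa [two_smul] at h

theorem f2_add_add_self {M : Type*} [AddCommGroup M] [Module F2 M] (z w : M) :
    z + w + w = z := by
  rw [add_assoc, f2_add_self, add_zero]

theorem f2_eq_of_add_eq_zero {M : Type*} [AddCommGroup M] [Module F2 M] {z w : M}
    (h : z + w = 0) : z = w := by
  rw [← f2_add_add_self z w, h, zero_add]

/-- The boundary of a list (augmented: the boundary of `[x]` is the empty list). -/
def bdl : List V → LCh V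
  | [] => 0
  | x :: l => single l 1 + lmapDomain F2 F2 (List.cons x) (bdl l)

/-- The boundary of list chains. -/
def lbd : LCh V →ₗ[F2] LCh V := Finsupp.linearCombination F2 bdl

/-- Coning off with a point. -/
def cone (x : V) : LCh V →ₗ[F2] LCh V := lmapDomain F2 F2 (List.cons x)

/-- Push forward of list chains. -/
def lmap (f : V → W) : LCh V →ₗ[F2] LCh W := lmapDomain F2 F2 (List.map f)

theorem l_ext {M : Type*} [AddCommGroup M] [Module F2 M] {α : Type*}
    {L L' : (α →₀ F2) →ₗ[F2] M} (h : ∀ a, L (single a 1) = L' (single a 1)) : L = L' :=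
  Finsupp.lhom_ext' fun a => LinearMap.ext_ring (h a)

theorem l_ext_apply {M : Type*} [AddCommGroup M] [Module F2 M] {α : Type*}
    {L L' : (α →₀ F2) →ₗ[F2] M} (h : ∀ a, L (single a 1) = L' (single a 1)) (z : α →₀ F2) :
    L z = L' z := by rw [l_ext h]

@[simp] theorem lbd_single (l : List V) : lbd (single l 1) = bdl l := by
  simp [lbd]

@[simp] theorem cone_single (x : V) (l : List V) :
    cone x (single l (1 : F2)) = single (x :: l) 1 := by
  simp [cone]

@[simp] theorem lmap_single (f : V → W) (l : List V) :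
    lmap f (single l (1 : F2)) = single (l.map f) 1 := by
  simp [lmap]

theorem bdl_cons (x : V) (l : List V) : bdl (x :: l) = single l 1 + cone x (bdl l) := rfl

attribute [irreducible] lbd cone lmap

theorem bdl_nil : bdl ([] : List V) = 0 := rfl


theorem lbd_cone (x : V) (z : LCh V) : lbd (cone x z) = z + cone x (lbd z) := by
  refine l_ext_apply (L := lbd.comp (cone x)) (L' := LinearMap.id + (cone x).comp lbd)
    (fun l => ?_) z
  simp [bdl_cons]

theorem lbd_bdl (l : List V) : lbd (bdl l) = 0 := by
  induction l with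
  | nil => simp [bdl_nil]
  | cons x l ih => 
    rw [bdl_cons, map_add, lbd_single, lbd_cone, ih, map_zero, add_zero, f2_add_self]

theorem lbd_lbd (z : LCh V) : lbd (lbd z) = 0 :=
  l_ext_apply (L := lbd.comp lbd) (L' := 0) (fun l => by simp [lbd_bdl]) z

theorem lmap_cone (f : V → W) (x : V) (z : LCh V) : lmap f (cone x z) = cone (f x) (lmap f z) :=
  l_ext_apply (L := (lmap f).comp (cone x)) (L' := (cone (f x)).comp (lmap f))
    (fun l => by simp) z

theorem lmap_bdl (f : V → W) (l : List V) : lmap f (bdl l) = bdl (l.map f) := by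
  induction l with
  | nil => simp [bdl_nil]
  | cons x l ih => rw [bdl_cons, map_add, lmap_single, lmap_cone, ih, List.map_cons, bdl_cons]

theorem lmap_lbd (f : V → W) (z : LCh V) : lmap f (lbd z) = lbd (lmap f z) :=
  l_ext_apply (L := (lmap f).comp lbd) (L' := lbd.comp (lmap f))
    (fun l => by simp [lmap_bdl]) z

/-! ## Properties of the lists of a chain -/

/-- All lists occurring in `z` satisfy `P`. -/
def AllL {α : Type*} (P : α → Prop) (z : α →₀ F2) : Prop := ∀ l ∈ z.support, P l

variable {α β : Type*}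

theorem AllL.mono {P Q : α → Prop} {z : α →₀ F2} (h : AllL P z) (hPQ : ∀ l, P l → Q l) :
    AllL Q z := fun l hl => hPQ l (h l hl)

theorem AllL.zero (P : α → Prop) : AllL P (0 : α →₀ F2) := fun l h => by simp at h

theorem AllL.add {P : α → Prop} {z w : α →₀ F2} (hz : AllL P z) (hw : AllL P w) :
    AllL P (z + w) := fun l h => by
  classical
  rcases Finset.mem_union.1 (Finsupp.support_add h) with h | h
  · exact hz l h
  · exact hw l h

theorem AllL.smul {P : α → Prop} {z : α →₀ F2} (a : F2) (hz : AllL P z) : AllL P (a • z) :=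
  fun l h => hz l (Finsupp.support_smul h)

theorem AllL.sum {ι : Type*} {P : α → Prop} (s : Finset ι) (f : ι → (α →₀ F2))
    (h : ∀ i ∈ s, AllL P (f i)) : AllL P (∑ i ∈ s, f i) := by
  classical
  induction s using Finset.induction_on with
  | empty => simpa using AllL.zero P
  | insert a s ha ih =>
    rw [Finset.sum_insert ha]
    exact (h a (Finset.mem_insert_self a s)).add (ih fun i hi => h i (Finset.mem_insert_of_mem hi))

theorem AllL.single {P : α → Prop} {l : α} (h : P l) (a : F2) : AllL P (Finsupp.single l a) :=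
  fun m hm => by
    have := Finsupp.support_single_subset hm
    rw [Finset.mem_singleton] at this
    rwa [this]

theorem allL_single_one {P : α → Prop} {l : α} : AllL P (Finsupp.single l (1 : F2)) ↔ P l := by
  refine ⟨fun h => h l ?_, fun h => AllL.single h 1⟩
  rw [Finsupp.mem_support_iff, Finsupp.single_eq_same]
  decide

theorem eq_sum_support (z : α →₀ F2) :
    z = ∑ σ ∈ z.support, (z σ) • Finsupp.single σ (1 : F2) := by
  conv_lhs => rw [← Finsupp.sum_single z]
  rw [Finsupp.sum]
  exact Finset.sum_congr rfl fun σ _ => by simp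

/-- Linear maps and the lists occurring in their values. -/
theorem AllL.map {P : α → Prop} {Q : β → Prop} {L : (α →₀ F2) →ₗ[F2] (β →₀ F2)}
    (hL : ∀ l, P l → AllL Q (L (Finsupp.single l 1))) {z : α →₀ F2} (hz : AllL P z) :
    AllL Q (L z) := by
  rw [eq_sum_support z, map_sum]
  refine AllL.sum _ _ fun l hl => ?_
  rw [map_smul]
  exact (hL l (hz l hl)).smul _

/-- Two linear maps which agree on the lists with the property `P` agree on chains with this
property. -/
theorem AllL.ext {M : Type*} [AddCommGroup M] [Module F2 M] {P : α → Prop}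
    {L L' : (α →₀ F2) →ₗ[F2] M}
    (hL : ∀ l, P l → L (Finsupp.single l 1) = L' (Finsupp.single l 1)) {z : α →₀ F2}
    (hz : AllL P z) : L z = L' z := by
  rw [eq_sum_support z, map_sum, map_sum]
  refine Finset.sum_congr rfl fun l hl => ?_
  rw [map_smul, map_smul, hL l (hz l hl)]

theorem AllL.and {P Q : α → Prop} {z : α →₀ F2} (hP : AllL P z) (hQ : AllL Q z) :
    AllL (fun l => P l ∧ Q l) z := fun l hl => ⟨hP l hl, hQ l hl⟩

/-- The lists of length `n`. -/
def Len (n : ℕ) (l : List V) : Prop := l.length = n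

/-- The lists with points in `C`. -/
def InS (C : Set V) (l : List V) : Prop := ∀ x ∈ l, x ∈ C

theorem AllL.cone {P Q : List V → Prop} {x : V} (h : ∀ l, P l → Q (x :: l)) {z : LCh V}
    (hz : AllL P z) : AllL Q (cone x z) :=
  AllL.map (L := TIB.cone x) (fun l hl => by rw [cone_single]; exact AllL.single (h l hl) 1) hz

theorem bdl_len (n : ℕ) (l : List V) (h : Len (n + 1) l) : AllL (Len n) (bdl l) := by
  induction l generalizing n with
  | nil => exact AllL.zero _
  | cons x l ih =>
    rw [bdl_cons]
    have hl : l.length = n := by simpa [Len] using h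
    refine AllL.add (AllL.single (P := Len n) (l := l) hl 1) ?_
    cases n with
    | zero =>
      have : l = [] := List.length_eq_zero_iff.1 hl
      subst this
      rw [bdl_nil, map_zero]
      exact AllL.zero _
    | succ n => exact AllL.cone (fun m hm => by simpa [Len] using hm) (ih n hl)

/-- The faces of a list are sublists. -/
theorem bdl_sublist (l : List V) : AllL (fun m => m.Sublist l) (bdl l) := by
  induction l with
  | nil => exact AllL.zero _
  | cons x l ih =>
    rw [bdl_cons]
    exact AllL.add (AllL.single (P := fun m => List.Sublist m (x :: l))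
      (List.sublist_cons_self x l) 1)
      (AllL.cone (P := fun m => List.Sublist m l) (Q := fun m => List.Sublist m (x :: l))
        (fun m hm => List.Sublist.cons_cons x hm) ih)

theorem bdl_inS (C : Set V) (l : List V) (h : InS C l) : AllL (InS C) (bdl l) :=
  (bdl_sublist l).mono fun _ hm x hx => h x (hm.subset hx)

/-- The boundary of the list of values of a function. -/
theorem bdl_ofFn (n : ℕ) (f : Fin (n + 1) → V) :
    bdl (List.ofFn f) = ∑ i : Fin (n + 1), Finsupp.single (List.ofFn (f ∘ i.succAbove)) 1 := by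
  induction n with
  | zero => 
    simp [List.ofFn_succ, bdl_cons, bdl_nil]
  | succ n ih =>
    rw [List.ofFn_succ, bdl_cons, Fin.sum_univ_succ]
    congr 1
    rw [show (fun i : Fin (n + 1) => f i.succ) = f ∘ Fin.succ from rfl, ih, map_sum]
    refine Finset.sum_congr rfl fun i _ => ?_
    rw [cone_single, List.ofFn_succ (f := f ∘ i.succ.succAbove)]
    simp [Function.comp_def]

end basic

/-! ## Barycentric subdivision on lists -/

section bary

variable {V : Type*} [AddCommGroup V] [Module ℝ V] {W : Type*} [AddCommGroup W] [Module ℝ W]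

/-- The barycentre of a list. -/
def bary (l : List V) : V := (l.length : ℝ)⁻¹ • l.sum

/-- Barycentric subdivision in length `n`. -/
def Sd : ℕ → LCh V →ₗ[F2] LCh V
  | 0 => LinearMap.id
  | n + 1 => Finsupp.linearCombination F2 fun l => cone (bary l) (Sd n (bdl l))

/-- The chain homotopy between the subdivision and the identity. -/
def Ho : ℕ → LCh V →ₗ[F2] LCh V
  | 0 => 0
  | n + 1 => Finsupp.linearCombination F2 fun l => cone (bary l) (single l 1 + Ho n (bdl l))

theorem Sd_single (n : ℕ) (l : List V) :
    Sd (n + 1) (single l 1) = cone (bary l) (Sd n (bdl l)) := by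
  simp [Sd]

theorem Ho_single (n : ℕ) (l : List V) :
    Ho (n + 1) (single l 1) = cone (bary l) (single l 1 + Ho n (bdl l)) := by
  simp [Ho]

theorem Sd_zero (z : LCh V) : Sd 0 z = z := rfl

theorem Ho_zero (z : LCh V) : Ho 0 z = 0 := rfl

attribute [irreducible] Sd Ho

theorem lbd_Sd_aux (n : ℕ) (key : ∀ l : List V, lbd (Sd n (bdl l)) = 0) (z : LCh V) :
    lbd (Sd (n + 1) z) = Sd n (lbd z) := by
  refine l_ext_apply (L := lbd.comp (Sd (n + 1))) (L' := (Sd n).comp lbd) (fun l => ?_) z
  simp only [LinearMap.comp_apply]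
  rw [Sd_single, lbd_cone, lbd_single, key, map_zero, add_zero]

theorem lbd_Sd (n : ℕ) (z : LCh V) : lbd (Sd (n + 1) z) = Sd n (lbd z) := by
  induction n generalizing z with
  | zero => exact lbd_Sd_aux 0 (fun l => by rw [Sd_zero, lbd_bdl]) z
  | succ n ih => exact lbd_Sd_aux (n + 1) (fun l => by rw [ih, lbd_bdl, map_zero]) z

theorem lbd_Ho_zero (z : LCh V) : lbd (Ho 0 z) = 0 := by
  rw [Ho_zero, map_zero]

theorem lbd_Ho_aux (n : ℕ)
    (key : ∀ l : List V, lbd (Ho n (bdl l)) = bdl l + Sd n (bdl l)) (z : LCh V) :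
    lbd (Ho (n + 1) z) = z + Sd (n + 1) z + Ho n (lbd z) := by
  refine l_ext_apply (L := lbd.comp (Ho (n + 1)))
    (L' := LinearMap.id + Sd (n + 1) + (Ho n).comp lbd) (fun l => ?_) z
  simp only [LinearMap.comp_apply, LinearMap.add_apply, LinearMap.id_apply]
  rw [Ho_single, Sd_single, lbd_cone, lbd_single, map_add, map_add, lbd_single, key]
  rw [map_add (cone (bary l)) (bdl l)]
  generalize cone (bary l) (bdl l) = A
  generalize cone (bary l) (Sd n (bdl l)) = B
  generalize Ho n (bdl l) = C
  generalize (single l (1 : F2) : LCh V) = D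
  calc D + C + (A + (A + B)) = (A + A) + (D + B + C) := by abel
    _ = D + B + C := by rw [f2_add_self, zero_add]

theorem lbd_Ho (n : ℕ) (z : LCh V) :
    lbd (Ho (n + 1) z) = z + Sd (n + 1) z + Ho n (lbd z) := by
  induction n generalizing z with
  | zero => exact lbd_Ho_aux 0 (fun l => by
      rw [Ho_zero, Sd_zero, map_zero, f2_add_self]) z
  | succ n ih => exact lbd_Ho_aux (n + 1) (fun l => by
      rw [ih, lbd_bdl, map_zero, add_zero]) z
theorem bary_map (f : V →ₗ[ℝ] W) (l : List V) : bary (l.map f) = f (bary l) := by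
  simp [bary, map_list_sum]

theorem lmap_Sd (f : V →ₗ[ℝ] W) (n : ℕ) (z : LCh V) : lmap f (Sd n z) = Sd n (lmap f z) := by
  induction n generalizing z with
  | zero => rw [Sd_zero, Sd_zero]
  | succ n ih =>
    refine l_ext_apply (L := (lmap f).comp (Sd (n + 1))) (L' := (Sd (n + 1)).comp (lmap f))
      (fun l => ?_) z
    simp only [LinearMap.comp_apply, Sd_single, lmap_cone, lmap_single, bary_map, ih, lmap_bdl]

theorem lmap_Ho (f : V →ₗ[ℝ] W) (n : ℕ) (z : LCh V) : lmap f (Ho n z) = Ho n (lmap f z) := by
  induction n generalizing z with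
  | zero => rw [Ho_zero, Ho_zero, map_zero]
  | succ n ih =>
    refine l_ext_apply (L := (lmap f).comp (Ho (n + 1))) (L' := (Ho (n + 1)).comp (lmap f))
      (fun l => ?_) z
    simp only [LinearMap.comp_apply, Ho_single, lmap_cone, lmap_single, bary_map, ih, lmap_bdl,
      map_add]

/-! ## Lengths and convexity -/

theorem Sd_len (n : ℕ) (z : LCh V) (hz : AllL (Len n) z) : AllL (Len n) (Sd n z) := by
  induction n generalizing z with
  | zero => rwa [Sd_zero]
  | succ n ih =>
    refine AllL.map (fun l hl => ?_) hz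
    rw [Sd_single]
    exact AllL.cone (fun m hm => by simpa [Len] using hm) (ih _ (bdl_len n l hl))

theorem Ho_len (n : ℕ) (z : LCh V) (hz : AllL (Len n) z) : AllL (Len (n + 1)) (Ho n z) := by
  induction n generalizing z with
  | zero => rw [Ho_zero]; exact AllL.zero _
  | succ n ih =>
    refine AllL.map (fun l hl => ?_) hz
    rw [Ho_single]
    exact AllL.cone (fun m hm => by simpa [Len] using hm)
      ((AllL.single hl 1).add (ih _ (bdl_len n l hl)))

theorem bary_mem {C : Set V} (hC : Convex ℝ C) {l : List V} (hl : InS C l) (hne : l ≠ []) :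
    bary l ∈ C := by
  classical
  have hpos : 0 < l.length := List.length_pos_iff.2 hne
  have h1 : bary l = ∑ i : Fin l.length, ((l.length : ℝ)⁻¹) • l.get i := by
    rw [bary, ← Finset.smul_sum]
    congr 1
    conv_lhs => rw [← List.ofFn_get l]
    rw [List.sum_ofFn]
  rw [h1]
  refine hC.sum_mem (fun i _ => by positivity) ?_ (fun i _ => hl _ (List.get_mem l i))
  rw [Finset.sum_const, Finset.card_univ, Fintype.card_fin, nsmul_eq_mul,
    mul_inv_cancel₀ (by positivity)]

theorem Sd_inS {C : Set V} (hC : Convex ℝ C) (n : ℕ) (z : LCh V) (hz : AllL (InS C) z) :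
    AllL (InS C) (Sd n z) := by
  induction n generalizing z with
  | zero => rwa [Sd_zero]
  | succ n ih =>
    refine AllL.map (fun l hl => ?_) hz
    rw [Sd_single]
    by_cases hne : l = []
    · subst hne
      rw [bdl_nil, map_zero, map_zero]
      exact AllL.zero _
    · refine AllL.cone (fun m hm => ?_) (ih _ (bdl_inS C l hl))
      intro x hx
      rcases List.mem_cons.1 hx with rfl | hx
      · exact bary_mem hC hl hne
      · exact hm x hx

theorem Ho_inS {C : Set V} (hC : Convex ℝ C) (n : ℕ) (z : LCh V) (hz : AllL (InS C) z)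
    (hn : AllL (Len n) z) : AllL (InS C) (Ho n z) := by
  induction n generalizing z with
  | zero => rw [Ho_zero]; exact AllL.zero _
  | succ n ih =>
    refine AllL.map (P := fun l => InS C l ∧ Len (n + 1) l) (fun l hl => ?_) (hz.and hn)
    rw [Ho_single]
    have hne : l ≠ [] := by
      rintro rfl
      have := hl.2
      simp [Len] at this
    refine AllL.cone (P := InS C) (fun m hm => ?_)
      ((AllL.single hl.1 1).add (ih _ (bdl_inS C l hl.1) (bdl_len n l hl.2)))
    intro x hx
    rcases List.mem_cons.1 hx with rfl | hx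
    · exact bary_mem hC hl.1 hne
    · exact hm x hx

end bary

/-! ## The mesh -/

section mesh

variable {V : Type*} [NormedAddCommGroup V] [NormedSpace ℝ V]

/-- The lists with all distances at most `δ`. -/
def Dia {X : Type*} [PseudoMetricSpace X] (δ : ℝ) (l : List X) : Prop :=
  ∀ x ∈ l, ∀ y ∈ l, dist x y ≤ δ

theorem dist_bary_le {δ : ℝ} (n : ℕ) (l : List V) (hn : l.length = n + 1) (hl : Dia δ l)
    (x : V) (hx : x ∈ l) : dist x (bary l) ≤ (n : ℝ) / (n + 1) * δ := by
  classical
  have hpos : (0 : ℝ) < (l.length : ℝ) := by rw [hn]; positivity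
  obtain ⟨i₀, rfl⟩ := List.get_of_mem hx
  have h1 : l.get i₀ - bary l = (l.length : ℝ)⁻¹ • ∑ i : Fin l.length, (l.get i₀ - l.get i) := by
    have e : (l.sum : V) = ∑ i : Fin l.length, l.get i := by
      conv_lhs => rw [← List.ofFn_get l]
      rw [List.sum_ofFn]
    rw [bary, Finset.sum_sub_distrib, smul_sub, e]
    congr 1
    rw [Finset.sum_const, Finset.card_univ, Fintype.card_fin, ← Nat.cast_smul_eq_nsmul ℝ,
      smul_smul, inv_mul_cancel₀ hpos.ne', one_smul]
  rw [dist_eq_norm, h1, norm_smul]
  have h2 : ‖∑ i : Fin l.length, (l.get i₀ - l.get i)‖ ≤ n * δ := by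
    refine (norm_sum_le _ _).trans ?_
    rw [← Finset.sum_erase_add _ _ (Finset.mem_univ i₀), sub_self, norm_zero, add_zero]
    refine (Finset.sum_le_card_nsmul _ _ δ fun i _ => ?_).trans ?_
    · rw [← dist_eq_norm]
      exact hl _ (List.get_mem l i₀) _ (List.get_mem l i)
    · rw [Finset.card_erase_of_mem (Finset.mem_univ _), Finset.card_univ, Fintype.card_fin, hn,
        nsmul_eq_mul]
      simp
  rw [Real.norm_eq_abs, abs_of_pos (inv_pos.2 hpos)]
  have h3 : (0 : ℝ) < n + 1 := by positivity
  calc (l.length : ℝ)⁻¹ * ‖∑ i : Fin l.length, (l.get i₀ - l.get i)‖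
      ≤ (l.length : ℝ)⁻¹ * (n * δ) := by
        apply mul_le_mul_of_nonneg_left h2
        positivity
    _ = (n : ℝ) / (n + 1) * δ := by
        rw [hn]
        push_cast
        field_simp

/-- The subdivision contracts the mesh. -/
theorem Sd_mesh {δ : ℝ} (hδ : 0 ≤ δ) (n : ℕ) (z : LCh V) (hz : AllL (Dia δ) z)
    (hn : AllL (Len (n + 1)) z) :
    AllL (Dia ((n : ℝ) / (n + 1) * δ)) (Sd (n + 1) z) := by
  induction n generalizing z with
  | zero =>
    refine AllL.map (P := fun l => Dia δ l ∧ Len 1 l) (fun l hl => ?_) (hz.and hn)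
    obtain ⟨x, rfl⟩ := List.length_eq_one_iff.1 hl.2
    rw [Sd_single]
    have : Sd (V := V) 0 (bdl [x]) = single [] 1 := by
      rw [Sd_zero, bdl_cons, bdl_nil, map_zero, add_zero]
    rw [this, cone_single]
    refine AllL.single ?_ 1
    intro a ha b hb
    simp only [List.mem_singleton] at ha hb
    subst ha
    subst hb
    simp
  | succ n ih =>
    refine AllL.map (P := fun l => Dia δ l ∧ Len (n + 2) l) (fun l hl => ?_) (hz.and hn)
    rw [Sd_single]
    have hb := dist_bary_le (n + 1) l hl.2 hl.1
    have h1 : AllL (Dia δ) (bdl l) :=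
      (bdl_sublist l).mono fun m hm x hx y hy => hl.1 x (hm.subset hx) y (hm.subset hy)
    have h2 := ih _ h1 (bdl_len (n + 1) l hl.2)
    have hball : InS (Metric.closedBall (bary l) (((n + 1 : ℕ) : ℝ) / ((n + 1 : ℕ) + 1) * δ)) l :=
      fun x hx => Metric.mem_closedBall.2 (hb x hx)
    have h3 := Sd_inS (convex_closedBall (bary l) (((n + 1 : ℕ) : ℝ) / ((n + 1 : ℕ) + 1) * δ))
      (n + 1) _ (bdl_inS _ l hball)
    have hle : (n : ℝ) / (n + 1) * δ ≤ ((n + 1 : ℕ) : ℝ) / ((n + 1 : ℕ) + 1) * δ := by
      apply mul_le_mul_of_nonneg_right _ hδ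
      rw [div_le_div_iff₀ (by positivity) (by positivity)]
      push_cast
      nlinarith
    have hnn : 0 ≤ ((n + 1 : ℕ) : ℝ) / ((n + 1 : ℕ) + 1) * δ := by positivity
    refine AllL.cone (P := fun m => Dia ((n : ℝ) / (n + 1) * δ) m ∧
      InS (Metric.closedBall (bary l) (((n + 1 : ℕ) : ℝ) / ((n + 1 : ℕ) + 1) * δ)) m) 
      (fun m hm => ?_) (h2.and h3)
    intro x hx y hy
    rcases List.mem_cons.1 hx with rfl | hx
    · rcases List.mem_cons.1 hy with rfl | hy
      · rw [dist_self]; exact hnn
      · rw [dist_comm]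
        exact Metric.mem_closedBall.1 (hm.2 y hy)
    · rcases List.mem_cons.1 hy with rfl | hy
      · exact Metric.mem_closedBall.1 (hm.2 x hx)
      · exact (hm.1 x hx y hy).trans hle

/-- Iterated subdivision has small mesh. -/
theorem Sd_pow_mesh {δ : ℝ} (hδ : 0 ≤ δ) (n k : ℕ) (z : LCh V) (hz : AllL (Dia δ) z)
    (hn : AllL (Len (n + 1)) z) :
    AllL (Dia (((n : ℝ) / (n + 1)) ^ k * δ)) (((Sd (n + 1))^[k]) z) ∧
      AllL (Len (n + 1)) (((Sd (n + 1))^[k]) z) := by
  induction k with
  | zero => simpa using ⟨hz, hn⟩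
  | succ k ih =>
    rw [Function.iterate_succ_apply']
    refine ⟨?_, Sd_len _ _ ih.2⟩
    have := Sd_mesh (δ := ((n : ℝ) / (n + 1)) ^ k * δ) (by positivity) n _ ih.1 ih.2
    refine this.mono fun l hl x hx y hy => (hl x hx y hy).trans_eq ?_
    ring

end mesh

end TIB
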