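import Pool.Agent.TI.BSing

/-!
# Tightness implies surjectivity in Vietoris cohomology

Block B (bridge from singular homology to Vietoris cochains), part 3.
-/

set_option autoImplicit false
set_option linter.unusedSectionVars false

noncomputable section

namespace TIB

open Finsupp Filter Topology
open Pool.Agent.VC (Cc dd Dg Z Small Cyc Bd sh)

universe u

/-! ## Linear algebra -/

/-- Limits of sequences of functionals. -/
theorem exists_limit {W : Type*} [AddCommGroup W] [Module F2 W] (g : ℕ → W →ₗ[F2] F2) :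
    ∃ L : W →ₗ[F2] F2, ∀ w a, (∀ᶠ k in atTop, g k w = a) → L w = a := by
  classical
  have hu : (hyperfilter ℕ : Filter ℕ) ≤ atTop := by
    have h := hyperfilter_le_cofinite (α := ℕ)
    rwa [Nat.cofinite_eq_atTop] at h
  have key : ∀ w, ∃ a, ∀ᶠ k in (hyperfilter ℕ : Filter ℕ), g k w = a := by
    intro w
    by_contra hcon
    push Not at hcon
    obtain ⟨k, hk0, hk1⟩ := ((hcon 0).and (hcon 1)).exists
    have : ∀ a : F2, a = 0 ∨ a = 1 := by decide
    rcases this (g k w) with h | h
    · exact hk0 h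
    · exact hk1 h
  choose f hf using key
  have huniq : ∀ w a, (∀ᶠ k in (hyperfilter ℕ : Filter ℕ), g k w = a) → f w = a := by
    intro w a h
    obtain ⟨k, h1, h2⟩ := ((hf w).and h).exists
    rw [← h1, h2]
  refine ⟨{ toFun := f, map_add' := fun w w' => ?_, map_smul' := fun a w => ?_ },
    fun w a h => huniq w a (h.filter_mono hu)⟩
  · refine huniq _ _ (((hf w).and (hf w')).mono fun k hk => ?_)
    rw [map_add, hk.1, hk.2]
  · refine huniq _ _ ((hf w).mono fun k hk => ?_)
    rw [map_smul, hk]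
    rfl

/-- A functional vanishing on the kernel of a linear map factors through it. -/
theorem exists_factor {G W : Type*} [AddCommGroup G] [Module F2 G] [AddCommGroup W] [Module F2 W]
    (f : G →ₗ[F2] W) (φ : G →ₗ[F2] F2) (h : ∀ x, f x = 0 → φ x = 0) :
    ∃ g : W →ₗ[F2] F2, ∀ x, g (f x) = φ x := by
  have h1 : φ ∈ (LinearMap.ker f).dualAnnihilator := by
    rw [Submodule.mem_dualAnnihilator]
    intro x hx
    exact h x hx
  rw [← LinearMap.range_dualMap_eq_dualAnnihilator_ker] at h1
  obtain ⟨g, hg⟩ := h1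
  exact ⟨g, fun x => by rw [← hg]; rfl⟩

/-- Gluing of a functional on `P` with zero on `Q`. -/
theorem exists_glue {W : Type*} [AddCommGroup W] [Module F2 W] (P Q : Submodule F2 W)
    (L : W →ₗ[F2] F2) (h : ∀ x ∈ P, x ∈ Q → L x = 0) :
    ∃ L' : W →ₗ[F2] F2, (∀ x ∈ P, L' x = L x) ∧ ∀ x ∈ Q, L' x = 0 := by
  obtain ⟨g, hg⟩ := exists_factor (Q.mkQ.comp P.subtype) (L.comp P.subtype) (fun x hx => by
    rw [LinearMap.comp_apply, Submodule.mkQ_apply, Submodule.Quotient.mk_eq_zero] at hx
    exact h x.1 x.2 hx)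
  refine ⟨g.comp Q.mkQ, fun x hx => hg ⟨x, hx⟩, fun x hx => ?_⟩
  rw [LinearMap.comp_apply, Submodule.mkQ_apply, (Submodule.Quotient.mk_eq_zero Q).2 hx, map_zero]

/-! ## Subdivisions of a singular simplex are small -/

section small

variable {X : Type u} [PseudoMetricSpace X]

theorem exists_small {j : ℕ} (σ : C(Simp j, X)) {A : Set X} {ε : ℝ} (hε : 0 < ε)
    (hσ : ∀ t, σ t ∈ Metric.thickening ε A) :
    ∀ᶠ k in atTop, AllL (fun l => l ∈ Small A ε)
      (lmap (ext σ) (SdP (j + 1) k (single (top j) 1))) := by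
  have huc : UniformContinuous σ := CompactSpace.uniformContinuous_of_continuous σ.continuous
  obtain ⟨δ, hδ, hδ'⟩ := Metric.uniformContinuous_iff.1 huc ε hε
  have hdia : AllL (Dia (1 : ℝ)) (single (top j) (1 : F2)) := by
    refine AllL.single ?_ 1
    intro x hx y hy
    rw [top, List.mem_ofFn'] at hx hy
    obtain ⟨a, rfl⟩ := hx
    obtain ⟨b, rfl⟩ := hy
    refine (dist_pi_le_iff zero_le_one).2 fun i => ?_
    show dist ((Pi.single a 1 : Fin (j + 1) → ℝ) i) ((Pi.single b 1 : Fin (j + 1) → ℝ) i) ≤ 1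
    rw [Pi.single_apply, Pi.single_apply]
    split_ifs <;> simp
  have hlim : Tendsto (fun k : ℕ => ((j : ℝ) / (j + 1)) ^ k * 1) atTop (𝓝 0) := by
    have h1 : (0 : ℝ) ≤ (j : ℝ) / (j + 1) := by positivity
    have h2 : (j : ℝ) / (j + 1) < 1 := by
      rw [div_lt_one (by positivity)]
      linarith
    simpa using (tendsto_pow_atTop_nhds_zero_of_lt_one h1 h2)
  filter_upwards [hlim.eventually_lt_const hδ] with k hk
  have h1 := (Sd_pow_mesh (zero_le_one) j k _ hdia (topch_len j)).1
  have h2 := SdP_inS (convex_stdSimplex ℝ (Fin (j + 1))) (j + 1) k _ (topch_inS j)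
  rw [← SdP_eq_iterate] at h1
  refine AllL.map (P := fun l => Dia (((j : ℝ) / (j + 1)) ^ k * 1) l ∧
    InS (stdSimplex ℝ (Fin (j + 1))) l) (fun l hl => ?_) (h1.and h2)
  rw [lmap_single]
  refine AllL.single ⟨fun x hx => ?_, fun x hx y hy => ?_⟩ 1
  · obtain ⟨v, -, rfl⟩ := List.mem_map.1 hx
    obtain ⟨t, ht⟩ := ext_mem_range σ v
    rw [ht]
    exact hσ t
  · obtain ⟨v, hv, rfl⟩ := List.mem_map.1 hx
    obtain ⟨w, hw, rfl⟩ := List.mem_map.1 hy
    rw [ext_of_mem σ (hl.2 v hv), ext_of_mem σ (hl.2 w hw)]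
    refine hδ' ?_
    exact lt_of_le_of_lt (hl.1 v hv w hw) hk

/-- A functional on simplices that vanishes on all simplices of a chain vanishes on the chain. -/
theorem lc_eq_zero {α : Type*} (f : α → F2) {z : α →₀ F2} (h : AllL (fun a => f a = 0) z) :
    Finsupp.linearCombination F2 f z = 0 := by
  have := AllL.ext (L := Finsupp.linearCombination F2 f) (L' := 0) (P := fun a => f a = 0)
    (fun a ha => by rw [Finsupp.linearCombination_single, ha, smul_zero, LinearMap.zero_apply]) h
  rw [this, LinearMap.zero_apply]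

theorem LK_sbd (c : Cc X) (k j : ℕ) (w : SCh X (j + 1)) :
    LK c k j (sbd w) = Finsupp.linearCombination F2 (lk (dd c) k) w := by
  have h : (LK c k j).comp sbd = Finsupp.linearCombination F2 (lk (dd c) k) := l_ext fun σ => by
    rw [LinearMap.comp_apply, sbd_single, LK_sbs, Finsupp.linearCombination_single, one_smul]
  rw [← h, LinearMap.comp_apply]

/-- The functional vanishes in the limit on the boundaries of chains near `A`. -/
theorem LK_sbd_eventually {c : Cc X} {A : Set X} {ε : ℝ} (hε : 0 < ε)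
    (hc : ∀ l ∈ Small A ε, dd c l = 0) {j : ℕ} {w : SCh X (j + 1)}
    (hw : AllL (SIn (Metric.thickening ε A)) w) : ∀ᶠ k in atTop, LK c k j (sbd w) = 0 := by
  have h1 : ∀ σ ∈ w.support, ∀ᶠ k in atTop, lk (dd c) k σ = 0 := by
    intro σ hσ
    filter_upwards [exists_small σ hε (hw σ hσ)] with k hk
    exact ev_eq_zero (hk.mono fun l hl => hc l hl)
  have h2 : ∀ᶠ k in atTop, ∀ σ ∈ w.support, lk (dd c) k σ = 0 := by
    rw [Filter.eventually_all_finset]
    exact h1
  filter_upwards [h2] with k hk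
  rw [LK_sbd]
  exact lc_eq_zero _ hk

/-- The simplices with small image near `A`. -/
def SSm (A : Set X) (ε : ℝ) {j : ℕ} (σ : C(Simp j, X)) : Prop :=
  (∀ t, σ t ∈ Metric.thickening ε A) ∧ ∀ s t, dist (σ s) (σ t) < ε

theorem SSm.small {A : Set X} {ε : ℝ} {j : ℕ} {σ : C(Simp j, X)} (h : SSm A ε σ)
    (z : LCh (Fin (j + 1) → ℝ)) : AllL (fun l => l ∈ Small A ε) (lmap (ext σ) z) :=
  AllL.map (P := fun _ => True) (fun l _ => by
    rw [lmap_single]
    refine AllL.single ⟨fun x hx => ?_, fun x hx y hy => ?_⟩ 1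
    · obtain ⟨v, -, rfl⟩ := List.mem_map.1 hx
      obtain ⟨t, ht⟩ := ext_mem_range σ v
      rw [ht]
      exact h.1 t
    · obtain ⟨v, -, rfl⟩ := List.mem_map.1 hx
      obtain ⟨w, -, rfl⟩ := List.mem_map.1 hy
      obtain ⟨s, hs⟩ := ext_mem_range σ v
      obtain ⟨t, ht⟩ := ext_mem_range σ w
      rw [hs, ht]
      exact h.2 s t) (fun _ _ => trivial)

/-- The condition for a chain to be a cycle. -/
def IsCyc : {j : ℕ} → SCh X j → Prop
  | 0, _ => True
  | _ + 1, z => sbd z = 0

/-- The functional does not depend on `k` on small cycles. -/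
theorem LK_small {c : Cc X} {A : Set X} {ε : ℝ} 
    (hc : ∀ l ∈ Small A ε, dd c l = 0) {j : ℕ} {z : SCh X j} (hz : AllL (SSm A ε) z)
    (hcyc : IsCyc z) (k : ℕ) : LK c k j z = LK c 0 j z := by
  induction k with
  | zero => rfl
  | succ k ih =>
    rw [← ih]
    have hm : ∀ σ : C(Simp j, X), SSm A ε σ → mk (dd c) k σ = 0 := by
      intro σ hσ
      exact ev_eq_zero ((hσ.small _).mono fun l hl => hc l hl)
    cases j with
    | zero =>
      refine AllL.ext (P := SSm A ε) (fun σ hσ => ?_) hz
      rw [LK_single, LK_single, lk_succ, hm σ hσ, Ho_zero, map_zero, map_zero, add_zero, add_zero]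
    | succ j =>
      have h1 : LK c (k + 1) (j + 1) z = (LK c k (j + 1) + (MK c k j).comp sbd) z := by
        refine AllL.ext (P := SSm A ε) (fun σ hσ => ?_) hz
        rw [LinearMap.add_apply, LinearMap.comp_apply, LK_single, LK_single, sbd_single, MK_sbs,
          lk_succ, hm σ hσ, add_zero]
      have h2 : sbd z = 0 := hcyc
      rw [h1, LinearMap.add_apply, LinearMap.comp_apply, h2, map_zero, add_zero]

theorem lk_zero (c : Cc X) {j : ℕ} (σ : C(Simp j, X)) :
    lk c 0 σ = c (List.ofFn fun i => σ (stdSimplex.vertex i)) := by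
  rw [lk, SdP_zero, lmap_single, ev_single, top, List.map_ofFn]
  congr 2
  funext i
  show ext σ (Pi.single i 1) = _
  rw [ext_of_mem σ (single_mem_stdSimplex ℝ i)]

end small

/-! ## Spans -/

/-- A system of singular simplices spanned by small tuples of points. -/
structure Spans (X : Type u) [PseudoMetricSpace X] where
  /-- the simplex spanned by a tuple -/
  s : ∀ j : ℕ, (Fin (j + 1) → X) → C(Simp j, X)
  /-- the size of the tuples for which the span is meaningful -/
  r : ℝ
  pos : 0 < r
  face_eq : ∀ (j : ℕ) (x : Fin (j + 2) → X) (i : Fin (j + 2)), (∀ a b, dist (x a) (x b) < r) →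
    (s (j + 1) x).comp (face i) = s j (x ∘ i.succAbove)
  vert : ∀ (j : ℕ) (x : Fin (j + 1) → X) (i : Fin (j + 1)), (∀ a b, dist (x a) (x b) < r) →
    s j x (stdSimplex.vertex i) = x i
  small : ∀ (j : ℕ) (ε : ℝ), 0 < ε → ∃ δ > 0, ∀ x : Fin (j + 1) → X,
    (∀ a b, dist (x a) (x b) < δ) → ∀ p q, dist (s j x p) (s j x q) < ε

section main

variable {X : Type u} [PseudoMetricSpace X]

/-- The chain spanned by a list. -/
def spl (S : Spans X) (j : ℕ) (l : List X) : SCh X j :=
  if h : l.length = j + 1 then single (S.s j fun i => l.get (i.cast h.symm)) 1 else 0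

theorem spl_ofFn (S : Spans X) (j : ℕ) (x : Fin (j + 1) → X) : spl S j (List.ofFn x) = single (S.s j x) 1 := by
  have h : (List.ofFn x).length = j + 1 := List.length_ofFn
  rw [spl, dif_pos h]
  congr 2
  funext i
  rw [List.get_ofFn]
  rfl

/-- The chain spanned by a list chain. -/
def spn (S : Spans X) (j : ℕ) : LCh X →ₗ[F2] SCh X j := Finsupp.linearCombination F2 (spl S j)

theorem spn_single (S : Spans X) (j : ℕ) (l : List X) : spn S j (single l 1) = spl S j l := by simp [spn]

attribute [irreducible] spn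

theorem exists_ofFn {n : ℕ} {l : List X} (h : l.length = n) : ∃ x : Fin n → X,
    l = List.ofFn x := by
  subst h
  exact ⟨l.get, (List.ofFn_get l).symm⟩

theorem sbd_spl (S : Spans X) {j : ℕ} {l : List X} (hl : l.length = j + 2)
    (hs : ∀ x ∈ l, ∀ y ∈ l, dist x y < S.r) : sbd (spl S (j + 1) l) = spn S j (bdl l) := by
  obtain ⟨x, rfl⟩ := exists_ofFn hl
  have hs' : ∀ a b, dist (x a) (x b) < S.r := fun a b =>
    hs _ ((List.mem_ofFn' x _).2 ⟨a, rfl⟩) _ ((List.mem_ofFn' x _).2 ⟨b, rfl⟩)
  rw [spl_ofFn, sbd_single, sbs, bdl_ofFn, map_sum]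
  refine Finset.sum_congr rfl fun i _ => ?_
  rw [S.face_eq j x i hs', spn_single, spl_ofFn]

/-- **The bridge.** If `H_j(U) → H_j(X)` is injective for arbitrarily small neighbourhoods `U` of
`A`, then every Vietoris class of degree `j` on `A` extends to `X`. -/
theorem bridge (S : Spans X) (A : Set X) (j : ℕ)
    (hU : ∀ ε > 0, ∃ (U : Set X) (δ : ℝ), 0 < δ ∧ Metric.thickening δ A ⊆ U ∧
      U ⊆ Metric.thickening ε A ∧ InjE U j)
    (c : Cc X) (hc : Cyc (j : ℤ) A (∅ : Set X) c) :
    ∃ c', Cyc (j : ℤ) (Set.univ : Set X) (∅ : Set X) c' ∧ Bd (j : ℤ) A (∅ : Set X) (c + c') := by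
  classical
  obtain ⟨ε, hε, hcε⟩ := hc.cyc
  obtain ⟨U, δ, hδ, hAU, hUA, hinj⟩ := hU ε hε
  -- the limit functional
  obtain ⟨L, hL⟩ := exists_limit fun k => LK c k j
  -- tightness
  obtain ⟨L', hL'U, hL'B⟩ := exists_glue
    ({ carrier := {z : SCh X j | AllL (SIn U) z}, zero_mem' := AllL.zero _,
       add_mem' := fun ha hb => ha.add hb, smul_mem' := fun a _ h => AllL.smul a h } :
       Submodule F2 (SCh X j))
    (LinearMap.range (sbd (X := X) (j := j))) L (by
      rintro _ hz ⟨w, rfl⟩
      obtain ⟨w', hw', hw''⟩ := hinj w hz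
      rw [← hw'']
      exact hL _ _ (LK_sbd_eventually hε hcε (hw'.mono fun σ hσ t => hUA (hσ t))))
  -- the cochain
  set ψ : Cc X := fun l => L' (spl S j l) with hψ
  have hevψ : ∀ z : LCh X, ev ψ z = L' (spn S j z) := by
    intro z
    have h : ev ψ = L'.comp (spn S j) := l_ext fun l => by
      rw [LinearMap.comp_apply, ev_single, spn_single]
    rw [h, LinearMap.comp_apply]
  have hψdeg : ψ ∈ Dg X (j : ℤ) := by
    intro l hl
    have h1 : l.length = j + 1 := by
      by_contra h
      apply hl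
      show L' (spl S j l) = 0
      rw [spl, dif_neg h, map_zero]
    refine ⟨?_, by rw [h1]; push_cast; ring⟩
    rintro rfl
    simp at h1
  have hψcyc : dd ψ ∈ Z (Set.univ : Set X) := by
    refine ⟨S.r, S.pos, fun l hl => ?_⟩
    by_cases hlen : l.length = j + 2
    · rw [← ev_bdl, hevψ, ← sbd_spl S hlen hl.2]
      exact hL'B _ ⟨_, rfl⟩
    · by_contra hne
      have := Pool.Agent.VC.dd_len (c := ψ) (m := (j : ℤ) + 1) (fun l hl => (hψdeg l hl).2) l hne
      apply hlen
      omega
  refine ⟨ψ, ⟨hψdeg, Pool.Agent.VC.Z_empty hψdeg, hψcyc⟩, ?_⟩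
  -- small Vietoris cycles
  obtain ⟨δ₁, hδ₁, hsmall⟩ := S.small j (min ε δ / 2) (by positivity)
  set ρ : ℝ := min (min S.r δ₁) (min ε δ / 2) with hρ
  have hρ0 : 0 < ρ := lt_min (lt_min S.pos hδ₁) (by positivity)
  have hρr : ρ ≤ S.r := (min_le_left _ _).trans (min_le_left _ _)
  have hρδ₁ : ρ ≤ δ₁ := (min_le_left _ _).trans (min_le_right _ _)
  have hρε : ρ ≤ min ε δ / 2 := min_le_right _ _
  have hmεδ : 0 < min ε δ := lt_min hε hδ
  -- the spans of small lists
  have hsp : ∀ x : Fin (j + 1) → X, List.ofFn x ∈ Small A ρ →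
      SSm A (min ε δ) (S.s j x) ∧ lk c 0 (S.s j x) = c (List.ofFn x) := by
    intro x hx
    have hdist : ∀ a b, dist (x a) (x b) < ρ := fun a b =>
      hx.2 _ ((List.mem_ofFn' x _).2 ⟨a, rfl⟩) _ ((List.mem_ofFn' x _).2 ⟨b, rfl⟩)
    have hdr : ∀ a b, dist (x a) (x b) < S.r := fun a b => (hdist a b).trans_le hρr
    have hv : ∀ i, S.s j x (stdSimplex.vertex i) = x i := fun i => S.vert j x i hdr
    have hd1 := hsmall x (fun a b => (hdist a b).trans_le hρδ₁)
    refine ⟨⟨fun t => ?_, fun s t => (hd1 s t).trans (by linarith)⟩, ?_⟩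
    · have h0 := hx.1 _ ((List.mem_ofFn' x _).2 ⟨0, rfl⟩)
      obtain ⟨a, ha, hda⟩ := Metric.mem_thickening_iff.1 h0
      refine Metric.mem_thickening_iff.2 ⟨a, ha, ?_⟩
      have h1 := hd1 t (stdSimplex.vertex 0)
      rw [hv 0] at h1
      have h2 := dist_triangle (S.s j x t) (x 0) a
      linarith
    · rw [lk_zero]
      congr 2
      funext i
      exact hv i
  -- the small chains
  set G : Submodule F2 (LCh X) :=
    { carrier := {z : LCh X | AllL (fun l => l ∈ Small A ρ ∧ Len (j + 1) l) z}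
      zero_mem' := AllL.zero _
      add_mem' := fun ha hb => ha.add hb
      smul_mem' := fun a _ h => AllL.smul a h } with hG
  have hGmem : ∀ z, z ∈ G ↔ AllL (fun l => l ∈ Small A ρ ∧ Len (j + 1) l) z := fun z => Iff.rfl
  have ha : ∀ z ∈ G, AllL (SSm A (min ε δ)) (spn S j z) := by
    intro z hz
    refine AllL.map (fun l hl => ?_) hz
    obtain ⟨x, rfl⟩ := exists_ofFn hl.2
    rw [spn_single, spl_ofFn]
    exact AllL.single (hsp x hl.1).1 1
  have hb : ∀ z ∈ G, LK c 0 j (spn S j z) = ev c z := by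
    intro z hz
    refine AllL.ext (L := (LK c 0 j).comp (spn S j)) (L' := ev c) (fun l hl => ?_) hz
    obtain ⟨x, rfl⟩ := exists_ofFn hl.2
    rw [LinearMap.comp_apply, spn_single, spl_ofFn, LK_single, ev_single]
    exact (hsp x hl.1).2
  have hkey : ∀ z ∈ G, IsCyc (spn S j z) → ev c z + ev ψ z = 0 := by
    intro z hz hcyc
    have h1 : L' (spn S j z) = L (spn S j z) :=
      hL'U _ ((ha z hz).mono fun σ hσ t => hAU (Metric.thickening_mono (min_le_right _ _) _ 
        (hσ.1 t)))
    have h2 : L (spn S j z) = LK c 0 j (spn S j z) := by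
      refine hL _ _ (Eventually.of_forall fun k => ?_)
      refine LK_small hcε ((ha z hz).mono fun σ hσ => ?_) hcyc k
      exact ⟨fun t => Metric.thickening_mono (min_le_left _ _) _ (hσ.1 t),
        fun s t => (hσ.2 s t).trans_le (min_le_left _ _)⟩
    rw [hevψ, h1, h2, hb z hz, f2_add_self]
  -- duality
  cases j with
  | zero =>
    refine ⟨0, zero_mem _, zero_mem _, ρ, hρ0, fun l hl => ?_⟩
    rw [Pool.Agent.VC.dd_zero, add_zero, Pi.add_apply]
    by_cases hlen : l.length = 1
    · have := hkey (single l 1) (AllL.single ⟨hl, hlen⟩ 1) trivial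
      rwa [ev_single, ev_single] at this
    · have h1 : c l = 0 := by
        by_contra h
        have := (hc.deg l h).2
        apply hlen
        omega
      have h2 : ψ l = 0 := by
        by_contra h
        have := (hψdeg l h).2
        apply hlen
        omega
      rw [h1, h2, add_zero]
  | succ j =>
    have hker : ∀ z : G, (lbd.comp G.subtype) z = 0 → ((ev c + ev ψ).comp G.subtype) z = 0 := by
      rintro ⟨z, hz⟩ hz0
      have hz0' : lbd z = 0 := hz0
      refine hkey z hz ?_
      show sbd (spn S (j + 1) z) = 0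
      have h3 : sbd (spn S (j + 1) z) = spn S j (lbd z) := by
        refine AllL.ext (L := sbd.comp (spn S (j + 1))) (L' := (spn S j).comp lbd)
          (fun l hl => ?_) hz
        rw [LinearMap.comp_apply, LinearMap.comp_apply, spn_single, lbd_single]
        exact sbd_spl S hl.2 fun x hx y hy => (hl.1.2 x hx y hy).trans_le hρr
      rw [h3, hz0', map_zero]
    obtain ⟨g, hg⟩ := exists_factor (G := ↥G) (W := LCh X) (lbd.comp G.subtype)
      ((ev c + ev ψ).comp G.subtype) hker
    have hg' : ∀ l ∈ Small A ρ, l.length = j + 2 → g (bdl l) = c l + ψ l := by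
      intro l hl hlen
      have := hg ⟨single l 1, AllL.single ⟨hl, hlen⟩ 1⟩
      simpa using this
    refine ⟨fun l => if l.length = j + 1 then g (single l 1) else 0, ?_, ?_, ρ, hρ0, ?_⟩
    · intro l hl
      have hlen : l.length = j + 1 := by
        by_contra h
        exact hl (if_neg h)
      refine ⟨?_, by rw [hlen]; push_cast; ring⟩
      rintro rfl
      simp at hlen
    · refine Pool.Agent.VC.Z_empty (p := (j : ℤ)) ?_
      intro l hl
      have hlen : l.length = j + 1 := by
        by_contra h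
        exact hl (if_neg h)
      refine ⟨?_, by rw [hlen]; push_cast; ring⟩
      rintro rfl
      simp at hlen
    · intro l hl
      set η : Cc X := fun l => if l.length = j + 1 then g (single l 1) else 0 with hη
      rw [Pi.add_apply, Pi.add_apply]
      by_cases hlen : l.length = j + 2
      · have h1 : dd η l = g (bdl l) := by
          rw [← ev_bdl]
          refine AllL.ext (L := ev η) (L' := g) (P := Len (j + 1)) (fun m hm => ?_)
            (bdl_len (j + 1) l hlen)
          rw [ev_single, hη]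
          exact if_pos hm
        rw [h1, hg' l hl hlen, f2_add_self]
      · have hne : ∀ e : Cc X, e ∈ Dg X ((j + 1 : ℕ) : ℤ) → e l = 0 := by
          intro e he
          by_contra h
          have := (he l h).2
          apply hlen
          push_cast at this
          omega
        have h3 : dd η ∈ Dg X ((j : ℤ) + 1) := Pool.Agent.VC.dd_Dg (p := (j : ℤ)) (by
          intro l hl
          have hlen : l.length = j + 1 := by
            by_contra h
            exact hl (if_neg h)
          refine ⟨?_, by rw [hlen]; push_cast; ring⟩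
          rintro rfl
          simp at hlen)
        rw [hne c hc.deg, hne ψ hψdeg, hne (dd η) (by push_cast; exact h3)]
        simp

end main

end TIB
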