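import Pool.Agent.TI.BList
import Pool.Agent.VC.Core

/-!
# Singular chains and the functional of a Vietoris cocycle

Block B (bridge from singular homology to Vietoris cochains), part 2.
-/

set_option autoImplicit false
set_option linter.unusedSectionVars false

noncomputable section

namespace TIB

open Finsupp Filter Topology
open Pool.Agent.VC (Cc dd Dg Z Small Cyc Bd sh)

universe u

/-- The standard simplex. -/
abbrev Simp (j : ℕ) : Type := stdSimplex ℝ (Fin (j + 1))

/-- Singular chains mod 2. -/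
abbrev SCh (X : Type u) [TopologicalSpace X] (j : ℕ) := C(Simp j, X) →₀ F2

/-- The `i`-th face of the standard simplex. -/
def face {j : ℕ} (i : Fin (j + 2)) : C(Simp j, Simp (j + 1)) :=
  ⟨stdSimplex.map i.succAbove, stdSimplex.continuous_map _⟩

variable {X : Type u} [TopologicalSpace X]

/-- The boundary of a singular simplex. -/
def sbs {j : ℕ} (σ : C(Simp (j + 1), X)) : SCh X j :=
  ∑ i : Fin (j + 2), single (σ.comp (face i)) 1

/-- The boundary of singular chains. -/
def sbd {j : ℕ} : SCh X (j + 1) →ₗ[F2] SCh X j := Finsupp.linearCombination F2 sbs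

theorem sbd_single {j : ℕ} (σ : C(Simp (j + 1), X)) : sbd (single σ 1) = sbs σ := by
  simp [sbd]

/-- The simplices with image in `U`. -/
def SIn (U : Set X) {j : ℕ} (σ : C(Simp j, X)) : Prop := ∀ t, σ t ∈ U

/-- Injectivity of `H_j(U) → H_j(X)` in terms of chains. -/
def InjE (U : Set X) (j : ℕ) : Prop :=
  ∀ w : SCh X (j + 1), AllL (SIn U) (sbd w) → ∃ w' : SCh X (j + 1), AllL (SIn U) w' ∧
    sbd w' = sbd w

/-! ## Evaluation of cochains on list chains -/

/-- Evaluation of a cochain. -/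
def ev {V : Type*} (c : Cc V) : LCh V →ₗ[F2] F2 := Finsupp.linearCombination F2 c

@[simp] theorem ev_single {V : Type*} (c : Cc V) (l : List V) : ev c (single l 1) = c l := by
  simp [ev]

attribute [irreducible] ev sbd

theorem ev_cone {V : Type*} (c : Cc V) (x : V) (z : LCh V) : ev c (cone x z) = ev (sh c x) z := by
  have h : (ev c).comp (cone x) = ev (sh c x) := l_ext fun l => by
    rw [LinearMap.comp_apply, cone_single, ev_single, ev_single]
    rfl
  rw [← h, LinearMap.comp_apply]

theorem ev_bdl {V : Type*} (c : Cc V) (l : List V) : ev c (bdl l) = dd c l := by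
  induction l generalizing c with
  | nil => rw [bdl_nil, map_zero, Pool.Agent.VC.dd_nil]
  | cons x l ih =>
    rw [bdl_cons, map_add, ev_single, ev_cone, ih, Pool.Agent.VC.dd_cons]

theorem ev_lbd {V : Type*} (c : Cc V) (z : LCh V) : ev c (lbd z) = ev (dd c) z := by
  have h : (ev c).comp lbd = ev (dd c) := l_ext fun l => by
    rw [LinearMap.comp_apply, lbd_single, ev_single, ev_bdl]
  rw [← h, LinearMap.comp_apply]

theorem ev_eq_zero {V : Type*} {c : Cc V} {z : LCh V} (h : AllL (fun l => c l = 0) z) :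
    ev c z = 0 := by
  have := AllL.ext (L := ev c) (L' := 0) (P := fun l => c l = 0) (fun l hl => by
    rw [ev_single, hl, LinearMap.zero_apply]) h
  rw [this, LinearMap.zero_apply]

theorem ev_congr {V : Type*} {c e : Cc V} {z : LCh V} (h : AllL (fun l => c l = e l) z) :
    ev c z = ev e z := 
  AllL.ext (L := ev c) (L' := ev e) (P := fun l => c l = e l) (fun l hl => by
    rw [ev_single, ev_single, hl]) h

/-! ## The list of vertices -/

/-- The list of vertices of the standard simplex. -/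
def top (j : ℕ) : List (Fin (j + 1) → ℝ) := List.ofFn fun i : Fin (j + 1) => Pi.single i 1

/-- The linear map of the `i`-th face. -/
def faceL {j : ℕ} (i : Fin (j + 2)) : (Fin (j + 1) → ℝ) →ₗ[ℝ] (Fin (j + 2) → ℝ) :=
  FunOnFinite.linearMap ℝ ℝ i.succAbove

theorem faceL_single {j : ℕ} (i : Fin (j + 2)) (l : Fin (j + 1)) :
    faceL i (Pi.single l (1 : ℝ)) = Pi.single (i.succAbove l) 1 := by
  have := congrArg (fun s : stdSimplex ℝ (Fin (j + 2)) => (s : Fin (j + 2) → ℝ))
    (stdSimplex.map_vertex (S := ℝ) i.succAbove l)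
  exact this

theorem top_length (j : ℕ) : (top j).length = j + 1 := by simp [top]

theorem bdl_top (j : ℕ) : bdl (top (j + 1)) = ∑ i : Fin (j + 2), lmap (faceL i)
    (single (top j) 1) := by
  rw [top, bdl_ofFn]
  refine Finset.sum_congr rfl fun i _ => ?_
  rw [lmap_single, top, List.map_ofFn]
  congr 2
  funext l
  exact (faceL_single i l).symm

theorem top_inS (j : ℕ) : InS (stdSimplex ℝ (Fin (j + 1))) (top j) := by
  intro x hx
  rw [top, List.mem_ofFn'] at hx
  obtain ⟨i, rfl⟩ := hx
  exact single_mem_stdSimplex ℝ i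

/-- A singular simplex as a function on the whole vector space. -/
def ext {j : ℕ} (σ : C(Simp j, X)) (v : Fin (j + 1) → ℝ) : X :=
  open Classical in
  if h : v ∈ stdSimplex ℝ (Fin (j + 1)) then σ ⟨v, h⟩ else σ (stdSimplex.vertex 0)

theorem ext_of_mem {j : ℕ} (σ : C(Simp j, X)) {v : Fin (j + 1) → ℝ}
    (h : v ∈ stdSimplex ℝ (Fin (j + 1))) : ext σ v = σ ⟨v, h⟩ := by
  rw [ext, dif_pos h]

theorem ext_mem_range {j : ℕ} (σ : C(Simp j, X)) (v : Fin (j + 1) → ℝ) :
    ∃ t, ext σ v = σ t := by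
  rw [ext]
  split_ifs with h
  · exact ⟨_, rfl⟩
  · exact ⟨_, rfl⟩

theorem ext_face {j : ℕ} (σ : C(Simp (j + 1), X)) (i : Fin (j + 2)) {v : Fin (j + 1) → ℝ}
    (h : v ∈ stdSimplex ℝ (Fin (j + 1))) : ext σ (faceL i v) = ext (σ.comp (face i)) v := by
  have h' : faceL i v ∈ stdSimplex ℝ (Fin (j + 2)) :=
    stdSimplex.image_linearMap i.succAbove ⟨v, h, rfl⟩
  rw [ext_of_mem _ h, ext_of_mem _ h']
  rfl

/-- The basic compatibility of natural operations on list chains with faces. -/
theorem sum_face {j : ℕ} (c : Cc X) (σ : C(Simp (j + 1), X))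
    (N : LCh (Fin (j + 1) → ℝ) →ₗ[F2] LCh (Fin (j + 1) → ℝ))
    (N' : LCh (Fin (j + 2) → ℝ) →ₗ[F2] LCh (Fin (j + 2) → ℝ))
    (hN : ∀ (i : Fin (j + 2)) z, lmap (faceL i) (N z) = N' (lmap (faceL i) z))
    (hC : AllL (InS (stdSimplex ℝ (Fin (j + 1)))) (N (single (top j) 1))) :
    ∑ i : Fin (j + 2), ev c (lmap (ext (σ.comp (face i))) (N (single (top j) 1))) =
      ev c (lmap (ext σ) (N' (lbd (single (top (j + 1)) 1)))) := by
  rw [lbd_single, bdl_top, map_sum, map_sum, map_sum]
  refine Finset.sum_congr rfl fun i _ => ?_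
  rw [← hN]
  congr 1
  have h := AllL.ext (L := lmap (ext (σ.comp (face i)))) (L' := (lmap (ext σ)).comp
    (lmap (faceL i))) (P := InS (stdSimplex ℝ (Fin (j + 1)))) (fun l hl => ?_) hC
  · rw [h, LinearMap.comp_apply]
  · rw [LinearMap.comp_apply, lmap_single, lmap_single, lmap_single, List.map_map]
    congr 1
    refine List.map_congr_left fun v hv => ?_
    exact (ext_face σ i (hl v hv)).symm

/-! ## The functionals `LK` -/

/-- The `k`-fold subdivision in length `n`. -/
def SdP {V : Type*} [AddCommGroup V] [Module ℝ V] (n k : ℕ) : LCh V →ₗ[F2] LCh V :=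
  (Sd n) ^ k

section SdP

variable {V W : Type*} [AddCommGroup V] [Module ℝ V] [AddCommGroup W] [Module ℝ W]

theorem SdP_zero (n : ℕ) (z : LCh V) : SdP n 0 z = z := by simp [SdP]

theorem SdP_succ (n k : ℕ) (z : LCh V) : SdP n (k + 1) z = Sd n (SdP n k z) := by
  simp [SdP, pow_succ']

theorem SdP_eq_iterate (n k : ℕ) (z : LCh V) : SdP n k z = (Sd n)^[k] z := by
  simp [SdP, Module.End.pow_apply]

theorem lmap_SdP (f : V →ₗ[ℝ] W) (n k : ℕ) (z : LCh V) :
    lmap f (SdP n k z) = SdP n k (lmap f z) := by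
  induction k with
  | zero => rw [SdP_zero, SdP_zero]
  | succ k ih => rw [SdP_succ, SdP_succ, lmap_Sd, ih]

theorem lbd_SdP (n k : ℕ) (z : LCh V) : lbd (SdP (n + 1) k z) = SdP n k (lbd z) := by
  induction k with
  | zero => rw [SdP_zero, SdP_zero]
  | succ k ih => rw [SdP_succ, SdP_succ, lbd_Sd, ih]

theorem SdP_inS {C : Set V} (hC : Convex ℝ C) (n k : ℕ) (z : LCh V) (hz : AllL (InS C) z) :
    AllL (InS C) (SdP n k z) := by
  induction k with
  | zero => rwa [SdP_zero]
  | succ k ih => rw [SdP_succ]; exact Sd_inS hC n _ ih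

theorem SdP_len (n k : ℕ) (z : LCh V) (hz : AllL (Len n) z) : AllL (Len n) (SdP n k z) := by
  induction k with
  | zero => rwa [SdP_zero]
  | succ k ih => rw [SdP_succ]; exact Sd_len n _ ih

end SdP

/-- The value of a cochain on the `k`-fold subdivision of a singular simplex. -/
def lk (c : Cc X) (k : ℕ) {j : ℕ} (σ : C(Simp j, X)) : F2 :=
  ev c (lmap (ext σ) (SdP (j + 1) k (single (top j) 1)))

/-- The value of a cochain on the homotopy of the `k`-fold subdivision of a singular simplex. -/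
def mk (c : Cc X) (k : ℕ) {j : ℕ} (σ : C(Simp j, X)) : F2 :=
  ev c (lmap (ext σ) (Ho (j + 1) (SdP (j + 1) k (single (top j) 1))))

/-- The functional `lk` on chains. -/
def LK (c : Cc X) (k j : ℕ) : SCh X j →ₗ[F2] F2 := Finsupp.linearCombination F2 (lk c k)

/-- The functional `mk` on chains. -/
def MK (c : Cc X) (k j : ℕ) : SCh X j →ₗ[F2] F2 := Finsupp.linearCombination F2 (mk c k)

theorem LK_single (c : Cc X) (k : ℕ) {j : ℕ} (σ : C(Simp j, X)) :
    LK c k j (single σ 1) = lk c k σ := by simp [LK]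

theorem MK_single (c : Cc X) (k : ℕ) {j : ℕ} (σ : C(Simp j, X)) :
    MK c k j (single σ 1) = mk c k σ := by simp [MK]

attribute [irreducible] LK MK

theorem topch_inS (j : ℕ) :
    AllL (InS (stdSimplex ℝ (Fin (j + 1)))) (single (top j) (1 : F2)) :=
  AllL.single (top_inS j) 1

theorem topch_len (j : ℕ) : AllL (Len (j + 1)) (single (top j) (1 : F2)) :=
  AllL.single (P := Len (j + 1)) (l := top j) (top_length j) 1

theorem LK_sbs (c : Cc X) (k j : ℕ) (σ : C(Simp (j + 1), X)) :
    LK c k j (sbs σ) = lk (dd c) k σ := by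
  rw [sbs, map_sum]
  simp only [LK_single, lk]
  rw [sum_face c σ (SdP (j + 1) k) (SdP (j + 1) k) (fun i z => lmap_SdP _ _ _ _)
    (SdP_inS (convex_stdSimplex ℝ _) _ _ _ (topch_inS j)), ← lbd_SdP, lmap_lbd, ev_lbd]

theorem MK_sbs (c : Cc X) (k j : ℕ) (σ : C(Simp (j + 1), X)) :
    MK c k j (sbs σ) = ev c (lmap (ext σ) (Ho (j + 1) (lbd (SdP (j + 2) k
      (single (top (j + 1)) 1))))) := by
  rw [sbs, map_sum]
  simp only [MK_single, mk]
  rw [lbd_SdP]
  exact sum_face c σ ((Ho (j + 1)).comp (SdP (j + 1) k)) ((Ho (j + 1)).comp (SdP (j + 1) k))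
    (fun i z => by
      rw [LinearMap.comp_apply, LinearMap.comp_apply, lmap_Ho, lmap_SdP])
    (by
      rw [LinearMap.comp_apply]
      exact Ho_inS (convex_stdSimplex ℝ _) _ _ (SdP_inS (convex_stdSimplex ℝ _) _ _ _ (topch_inS j))
        (SdP_len _ _ _ (topch_len j)))

/-- One step of subdivision. -/
theorem lk_succ (c : Cc X) (k j : ℕ) (σ : C(Simp j, X)) :
    lk c (k + 1) σ = lk c k σ + mk (dd c) k σ +
      ev c (lmap (ext σ) (Ho j (lbd (SdP (j + 1) k (single (top j) 1))))) := by
  rw [lk, lk, mk, ← ev_lbd, ← lmap_lbd, lbd_Ho, SdP_succ]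
  generalize SdP (j + 1) k (single (top j) (1 : F2)) = A
  rw [map_add, map_add, map_add, map_add]
  generalize ev c (lmap (ext σ) A) = a
  generalize ev c (lmap (ext σ) (Sd (j + 1) A)) = b
  generalize ev c (lmap (ext σ) (Ho j (lbd A))) = d
  calc b = (a + a) + b + (d + d) := by rw [f2_add_self, f2_add_self]; simp
    _ = a + (a + b + d) + d := by abel

theorem lmap_inS {V W : Type*} (f : V → W) {C : Set V} {D : Set W} (h : Set.MapsTo f C D)
    {z : LCh V} (hz : AllL (InS C) z) : AllL (InS D) (lmap f z) :=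
  AllL.map (P := InS C) (fun l hl => by
    rw [lmap_single]
    refine AllL.single (fun y hy => ?_) 1
    obtain ⟨x, hx, rfl⟩ := List.mem_map.1 hy
    exact h (hl x hx)) hz

end TIB
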