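import Pool.Agent.VC.Map

/-!
# Morphisms of theories, mapping cones, and the theory of a closed set over a base
-/

set_option autoImplicit false
set_option linter.unusedSectionVars false

namespace TI

open Set Filter Topology Pool.Agent.VC

universe u v w w'

section cone

variable {Y : Type v} [MetricSpace Y] {K : Set Y} {W₁ : Type w} {W₂ : Type w'}
  [AddCommGroup W₁] [AddCommGroup W₂]

/-- A morphism of theories that shifts the degree by `s`. -/
structure Mor (T₁ : Thy K W₁) (T₂ : Thy K W₂) (s : ℤ) where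
  μ : W₁ →+ W₂
  gr : ∀ p, ∀ w ∈ T₁.gr p, μ w ∈ T₂.gr (p + s)
  Z : ∀ p, ∀ w ∈ T₁.gr p, ∀ A ⊆ K, IsCompact A → w ∈ T₁.Z A → μ w ∈ T₂.Z A
  comm : ∀ p, ∀ w ∈ T₁.gr p, ∀ A ⊆ K, IsCompact A → μ (T₁.d w) + T₂.d (μ w) ∈ T₂.Z A

/-- The mapping cone of a morphism. -/
def Mor.cone {T₁ : Thy K W₁} {T₂ : Thy K W₂} {s : ℤ} (F : Mor T₁ T₂ s) :
    Thy K (W₁ × W₂) where
  gr p := (T₁.gr (p - s + 1)).prod (T₂.gr p)
  d := (T₁.d.comp (AddMonoidHom.fst W₁ W₂)).prod
    (T₂.d.comp (AddMonoidHom.snd W₁ W₂) + F.μ.comp (AddMonoidHom.fst W₁ W₂))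
  Z A := (T₁.Z A).prod (T₂.Z A)
  low := min (T₁.low + s - 1) T₂.low
  two w := by
    ext
    · exact T₁.two _
    · exact T₂.two _
  gr_low p hp w hw := by
    obtain ⟨h1, h2⟩ := hw
    rw [lt_min_iff] at hp
    ext
    · exact T₁.gr_low _ (by omega) _ h1
    · exact T₂.gr_low _ hp.2 _ h2
  d_gr p w hw := by
    obtain ⟨h1, h2⟩ := hw
    refine ⟨?_, ?_⟩
    · have := T₁.d_gr _ _ h1
      rwa [show p - s + 1 + 1 = p + 1 - s + 1 by ring] at this
    · have h3 := F.gr _ _ h1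
      rw [show p - s + 1 + s = p + 1 by ring] at h3
      exact add_mem (T₂.d_gr _ _ h2) h3
  d_Z p w hw A hA hAc hwZ := by
    obtain ⟨h1, h2⟩ := hw
    obtain ⟨h3, h4⟩ := hwZ
    exact ⟨T₁.d_Z _ _ h1 A hA hAc h3, add_mem (T₂.d_Z _ _ h2 A hA hAc h4)
      (F.Z _ _ h1 A hA hAc h3)⟩
  dd_Z p w hw A hA hAc := by
    obtain ⟨h1, h2⟩ := hw
    refine ⟨T₁.dd_Z _ _ h1 A hA hAc, ?_⟩
    have h3 := T₂.dd_Z _ _ h2 A hA hAc
    have h4 := F.comm _ _ h1 A hA hAc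
    have h5 := add_mem h3 h4
    have h6 : T₂.d (T₂.d w.2) + (F.μ (T₁.d w.1) + T₂.d (F.μ w.1)) =
        T₂.d (T₂.d w.2 + F.μ w.1) + F.μ (T₁.d w.1) := by
      rw [map_add]; abel
    rw [h6] at h5
    exact h5
  anti A B hAB hB := by
    rintro w ⟨h1, h2⟩
    exact ⟨T₁.anti A B hAB hB h1, T₂.anti A B hAB hB h2⟩
  emp p w hw := ⟨T₁.emp _ _ hw.1, T₂.emp _ _ hw.2⟩
  union A hA hAc B hB hBc w h1 h2 :=
    ⟨T₁.union A hA hAc B hB hBc _ h1.1 h2.1, T₂.union A hA hAc B hB hBc _ h1.2 h2.2⟩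
  inter A hA hAc B hB hBc p w hw h := by
    obtain ⟨a, ha, b, hb, haA, hbB, hab⟩ := T₁.inter A hA hAc B hB hBc _ _ hw.1 h.1
    obtain ⟨a', ha', b', hb', haA', hbB', hab'⟩ := T₂.inter A hA hAc B hB hBc _ _ hw.2 h.2
    exact ⟨(a, a'), ⟨ha, ha'⟩, (b, b'), ⟨hb, hb'⟩, ⟨haA, haA'⟩, ⟨hbB, hbB'⟩, Prod.ext hab hab'⟩
  pt y hy w h := by
    obtain ⟨r, hr, h1⟩ := T₁.pt y hy _ h.1
    obtain ⟨r', hr', h2⟩ := T₂.pt y hy _ h.2
    exact ⟨min r r', lt_min hr hr', fun A hA hAc hAb => ⟨h1 A hA hAc (hAb.trans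
      (Metric.closedBall_subset_closedBall (min_le_left _ _))), h2 A hA hAc (hAb.trans
      (Metric.closedBall_subset_closedBall (min_le_right _ _)))⟩⟩

theorem Mor.cone_d {T₁ : Thy K W₁} {T₂ : Thy K W₂} {s : ℤ} (F : Mor T₁ T₂ s) (w : W₁ × W₂) :
    F.cone.d w = (T₁.d w.1, T₂.d w.2 + F.μ w.1) := rfl

theorem Mor.mem_gr {T₁ : Thy K W₁} {T₂ : Thy K W₂} {s : ℤ} (F : Mor T₁ T₂ s) {p : ℤ}
    {w : W₁ × W₂} : w ∈ F.cone.gr p ↔ w.1 ∈ T₁.gr (p - s + 1) ∧ w.2 ∈ T₂.gr p := Iff.rfl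

theorem Mor.mem_Z {T₁ : Thy K W₁} {T₂ : Thy K W₂} {s : ℤ} (F : Mor T₁ T₂ s) {A : Set Y}
    {w : W₁ × W₂} : w ∈ F.cone.Z A ↔ w.1 ∈ T₁.Z A ∧ w.2 ∈ T₂.Z A := Iff.rfl

end cone

section overS

variable {X : Type u} {Y : Type v} [MetricSpace X] [MetricSpace Y]

/-- The part of `E` over `A`. -/
def ov (f : X → Y) (E : Set X) (A : Set Y) : Set X := E ∩ f ⁻¹' A

theorem ov_sub (f : X → Y) (E : Set X) (A : Set Y) : ov f E A ⊆ E := inter_subset_left

theorem ov_maps (f : X → Y) (E : Set X) (A : Set Y) : MapsTo f (ov f E A) A := fun _ h => h.2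

theorem ov_mono (f : X → Y) (E : Set X) {A B : Set Y} (h : A ⊆ B) : ov f E A ⊆ ov f E B :=
  fun _ hx => ⟨hx.1, h hx.2⟩

theorem ov_union (f : X → Y) (E : Set X) (A B : Set Y) :
    ov f E (A ∪ B) = ov f E A ∪ ov f E B := by
  ext x
  simp only [ov, mem_inter_iff, mem_preimage, mem_union]
  tauto

theorem ov_inter (f : X → Y) (E : Set X) (A B : Set Y) :
    ov f E (A ∩ B) = ov f E A ∩ ov f E B := by
  ext x
  simp only [ov, mem_inter_iff, mem_preimage]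
  tauto

theorem ov_empty (f : X → Y) (E : Set X) : ov f E ∅ = ∅ := by
  ext x
  simp [ov]

theorem ov_compact {f : X → Y} {E : Set X} (hE : IsCompact E) (hf : CA f E) {A : Set Y}
    (hA : IsCompact A) : IsCompact (ov f E A) := by
  have h1 : ContinuousOn f E := fun x hx => (hf x hx).continuousWithinAt
  exact hE.of_isClosed_subset (h1.preimage_isClosed_of_isClosed hE.isClosed hA.isClosed)
    inter_subset_left

/-- The parts over small neighbourhoods of `y` are near the fibre of `y`. -/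
theorem ov_near {f : X → Y} {E : Set X} (hE : IsCompact E) (hf : CA f E) (y : Y) {s : ℝ}
    (hs : 0 < s) : ∃ r > 0, ∀ A ⊆ Metric.closedBall y r,
      ov f E A ⊆ Metric.thickening s (ov f E {y}) := by
  by_contra hcon
  push Not at hcon
  have h1 : ∀ n : ℕ, ∃ x ∈ E, dist (f x) y ≤ 1 / ((n : ℝ) + 1) ∧
      x ∉ Metric.thickening s (ov f E {y}) := by
    intro n
    obtain ⟨A, hA, hA'⟩ := hcon (1 / ((n : ℝ) + 1)) (by positivity)
    rw [not_subset] at hA'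
    obtain ⟨x, hx, hx'⟩ := hA'
    exact ⟨x, hx.1, hA hx.2, hx'⟩
  choose x hxE hxd hxn using h1
  obtain ⟨a, haE, φ, hφ, hlim⟩ := hE.tendsto_subseq hxE
  have h2 : Tendsto (fun n => f (x (φ n))) atTop (𝓝 (f a)) := (hf a haE).tendsto.comp hlim
  have h3 : Tendsto (fun n => f (x (φ n))) atTop (𝓝 y) := by
    rw [tendsto_iff_dist_tendsto_zero]
    have hz : Tendsto (fun n : ℕ => 1 / ((n : ℝ) + 1)) atTop (𝓝 0) :=
      tendsto_one_div_add_atTop_nhds_zero_nat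
    exact squeeze_zero (fun _ => dist_nonneg) (fun n => hxd (φ n)) (hz.comp hφ.tendsto_atTop)
  have h4 : f a = y := tendsto_nhds_unique h2 h3
  have h5 : ∀ᶠ n in atTop, dist (x (φ n)) a < s := Metric.tendsto_nhds.1 hlim s hs
  obtain ⟨n, hn⟩ := h5.exists
  exact hxn (φ n) (Metric.mem_thickening_iff.2 ⟨a, ⟨haE, h4⟩, hn⟩)

/-- The Vietoris cohomology of the parts of `E` over the compact subsets of `K`. -/
def ovT (f : X → Y) {E : Set X} (hE : IsCompact E) (hf : CA f E) (K : Set Y) : Thy K (Cc X) where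
  gr p := (Dg X p).toAddSubgroup
  d := ddL.toAddMonoidHom
  Z A := (Z (ov f E A)).toAddSubgroup
  low := 0
  two w := add_self w
  gr_low p hp w hw := Dg.neg hw hp
  d_gr p w hw := dd_Dg hw
  d_Z p w _ A _ _ h := dd_Z (c := w) h
  dd_Z p w _ A _ _ := by
    change dd (dd w) ∈ Z (ov f E A)
    rw [dd_dd]
    exact zero_mem _
  anti A B h _ := Z_anti (ov_mono f E h)
  emp p w hw := by
    change w ∈ Z (ov f E ∅)
    rw [ov_empty]
    exact Z_empty hw
  union A _ _ B _ _ w h1 h2 := by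
    change w ∈ Z (ov f E (A ∪ B))
    rw [ov_union]
    exact Z_union h1 h2
  inter A _ hAc B _ hBc p w hw h := by
    change w ∈ Z (ov f E (A ∩ B)) at h
    rw [ov_inter] at h
    obtain ⟨L, h1, h2⟩ := Z_inter (ov_compact hE hf hAc) (ov_compact hE hf hBc).isClosed h
    exact ⟨ind L w, ind_Dg hw, ind Lᶜ w, ind_Dg hw, h1, h2, (ind_add_compl L w).symm⟩
  pt y _ w h := by
    obtain ⟨s, hs, h1⟩ := Z_nhds h
    obtain ⟨r, hr, h2⟩ := ov_near hE hf y hs
    exact ⟨r, hr, fun A _ _ hA => h1 _ (h2 A hA)⟩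

theorem ov_id (K A : Set Y) (hA : A ⊆ K) : ov (fun y : Y => y) K A = A := by
  ext y
  exact ⟨fun h => h.2, fun h => ⟨hA h, h⟩⟩

/-- Pull back of cochains as a homomorphism. -/
def pullH (f : X → Y) : Cc Y →+ Cc X where
  toFun := pull f
  map_zero' := pull_zero f
  map_add' := pull_add f

/-- Pull back, as a morphism of theories over `K`. -/
def pullMor (f : X → Y) {E : Set X} (hE : IsCompact E) (hf : CA f E) {K : Set Y}
    (hK : IsCompact K) :
    Mor (ovT (fun y : Y => y) hK (CA.id K) K) (ovT f hE hf K) 0 where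
  μ := pullH f
  gr p w hw := by
    change pull f w ∈ Dg X (p + 0)
    rw [add_zero]
    exact pull_Dg f hw
  Z p w _ A hA hAc h := by
    change w ∈ Z (ov (fun y : Y => y) K A) at h
    rw [ov_id K A hA] at h
    exact pull_Z (hf.mono (ov_sub f E A)) (ov_compact hE hf hAc) (ov_maps f E A) h
  comm p w _ A _ _ := by
    change pull f (dd w) + dd (pull f w) ∈ Z (ov f E A)
    rw [dd_pull, add_self]
    exact zero_mem _

end overS

end TI
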