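import Pool.Agent.VC.Core

/-!
# MP_9697d1_gt: exact sequences and the corner lemma
-/

namespace TI

open Set Pool.Agent.VC

universe u

variable {X : Type u} [PseudoMetricSpace X]

/-- `H^p(A,B) = 0` and `H^p(B,C) = 0` give `H^p(A,C) = 0`. -/
theorem van_trans {p : ℤ} {A B C : Set X} (hCB : C ⊆ B)
    (h1 : Van p A B) (h2 : Van p B C) (hBA : B ⊆ A) : Van p A C := by
  intro c hc
  obtain ⟨b, hb1, hb2, hb3⟩ := h2 c ⟨hc.deg, hc.rel, Z_anti hBA hc.cyc⟩
  have hdb : dd b ∈ Dg X p := by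
    have := dd_Dg hb1
    rwa [sub_add_cancel] at this
  obtain ⟨b', hb1', hb2', hb3'⟩ := h1 (c + dd b) ⟨add_mem hc.deg hdb, hb3, by
    rw [dd_add, dd_dd, add_zero]; exact hc.cyc⟩
  refine ⟨b + b', add_mem hb1 hb1', add_mem hb2 (Z_anti hCB hb2'), ?_⟩
  rw [dd_add, ← add_assoc]
  exact hb3'

/-- `H^T(A) = 0` and `H^(T-1)(B) = 0` give `H^T(A,B) = 0`. -/
theorem van_pair {T : ℤ} {A B : Set X} (hBA : B ⊆ A) (h1 : Van T A ∅) (h2 : Van (T - 1) B ∅) :
    Van T A B := by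
  intro c hc
  obtain ⟨b, hb1, hb2, hb3⟩ := h1 c ⟨hc.deg, Z_empty hc.deg, hc.cyc⟩
  have hdb : dd b ∈ Z B := by
    have h3 := add_mem hc.rel (Z_anti hBA hb3)
    have h4 : c + (c + dd b) = dd b := by rw [← add_assoc, add_self, zero_add]
    rwa [h4] at h3
  obtain ⟨b2, hb21, hb22, hb23⟩ := h2 b ⟨hb1, hb2, hdb⟩
  have hdb2 : dd b2 ∈ Dg X (T - 1) := by
    have := dd_Dg hb21
    rwa [sub_add_cancel] at this
  refine ⟨b + dd b2, add_mem hb1 hdb2, hb23, ?_⟩
  rw [dd_add, dd_dd, add_zero]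
  exact hb3

/-- `H^(T+1)(A,B) = 0` and `H^T(A,C) = 0` give `H^T(B,C) = 0`. -/
theorem van_restr {T : ℤ} {A B C : Set X} (hCB : C ⊆ B) (hBA : B ⊆ A)
    (h1 : Van (T + 1) A B) (h2 : Van T A C) : Van T B C := by
  intro c hc
  obtain ⟨b, hb1, hb2, hb3⟩ := h1 (dd c) ⟨dd_Dg hc.deg, hc.cyc, by rw [dd_dd]; exact zero_mem _⟩
  rw [add_sub_cancel_right] at hb1
  obtain ⟨b', hb1', hb2', hb3'⟩ := h2 (c + b) ⟨add_mem hc.deg hb1,
    add_mem hc.rel (Z_anti hCB hb2), by rw [dd_add]; exact hb3⟩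
  refine ⟨b', hb1', hb2', ?_⟩
  have h3 := add_mem (Z_anti hBA hb3') hb2
  have h4 : c + b + dd b' + b = c + dd b' := by
    have : c + b + dd b' + b = c + dd b' + (b + b) := by abel
    rw [this, add_self, add_zero]
  rwa [h4] at h3

theorem van_empty (p : ℤ) (B : Set X) : Van p (∅ : Set X) B := by
  intro c hc
  exact Bd.of_Z (Z_empty hc.deg)

theorem van_neg {p : ℤ} (hp : p < 0) (A B : Set X) : Van p A B := by
  intro c hc
  have := Dg.neg hc.deg hp
  subst this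
  exact Bd.zero

/-- Vanishing on the pieces of a filtration. -/
theorem van_filtration {p : ℤ} {F : ℕ → Set X} (hF : Antitone F) {n : ℕ} (hn : F n = ∅)
    {i : ℕ} (h : ∀ j, i ≤ j → Van p (F j) (F (j + 1))) : Van p (F i) ∅ := by
  rcases le_or_gt n i with hi | hi
  · have : F i = ∅ := subset_eq_empty (hF hi) hn
    rw [this]
    exact van_empty p ∅
  · obtain ⟨k, rfl⟩ : ∃ k, n = i + k := ⟨n - i, by omega⟩
    clear hi
    induction k generalizing i with
    | zero => rw [add_zero] at hn; rw [hn]; exact van_empty p ∅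
    | succ k ih =>
      have h1 := ih (i := i + 1) (fun j hj => h j (by omega)) (by rw [← hn]; congr 1; omega)
      exact van_trans (empty_subset _) (h i le_rfl) h1 (hF (Nat.le_succ i))

/-- The corner lemma. -/
theorem corner_lemma {F : ℕ → Set X} (hF : Antitone F) {n : ℕ} (hn : F n = ∅) {q : ℕ} {T : ℤ}
    (h1 : ¬ Van T (F q) (F (q + 1))) (h2 : ∀ i, Van (T + 1) (F i) (F (i + 1)))
    (h3 : Van T (F 0) ∅) : ∃ q', q < q' ∧ ¬ Van (T - 1) (F q') (F (q' + 1)) := by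
  by_contra hcon
  push Not at hcon
  have hall : ∀ i, Van T (F i) ∅ := by
    intro i
    induction i with
    | zero => exact h3
    | succ i ih => exact van_restr (empty_subset _) (hF (Nat.le_succ i)) (h2 i) ih
  exact h1 (van_pair (hF (Nat.le_succ q)) (hall q)
    (van_filtration hF hn fun j hj => hcon j (by omega)))

end TI
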