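import Mathlib
import Pool.Agent.TI.DimP

/-!
# MP_9697d1_gt: proper closed subsets of spheres

A subset of the unit sphere (any norm) of a real normed space of dimension `k + 1` which misses a
point of the sphere has `k` separating continuous functions.
-/

set_option autoImplicit false

namespace TI

open Set Filter Topology Pool.Agent.VC

universe u v

theorem sep_findim {W : Type u} [NormedAddCommGroup W] [NormedSpace ℝ W]
    [FiniteDimensional ℝ W] {k : ℕ} (hd : Module.finrank ℝ W = k) (A : Set W) : Sep k A := by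
  let L : W ≃L[ℝ] EuclideanSpace ℝ (Fin k) :=
    ContinuousLinearEquiv.ofFinrankEq (by rw [hd, finrank_euclideanSpace_fin])
  exact Sep.of_injOn L.continuous.continuousOn L.injective.injOn (mapsTo_univ _ _)
    (sep_euclid _)

/-- Euclidean spheres. -/
theorem sep_sphere_euclid {V : Type u} [NormedAddCommGroup V] [InnerProductSpace ℝ V]
    [FiniteDimensional ℝ V] {k : ℕ} (hd : Module.finrank ℝ V = k + 1) {A : Set V}
    (hA : A ⊆ Metric.sphere 0 1) {u : V} (hu : ‖u‖ = 1) (huA : u ∉ A) : Sep k A := by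
  have : Fact (Module.finrank ℝ V = k + 1) := ⟨hd⟩
  have hu0 : u ≠ 0 := by
    rintro rfl
    rw [norm_zero] at hu
    exact zero_ne_one hu
  have hne : ∀ x ∈ A, inner ℝ u x ≠ (1 : ℝ) := by
    intro x hx h1
    have hx1 : ‖x‖ = 1 := mem_sphere_zero_iff_norm.1 (hA hx)
    rw [inner_eq_one_iff_of_norm_eq_one hu hx1] at h1
    exact huA (h1 ▸ hx)
  refine Sep.of_injOn (g := stereoToFun u) ?_ ?_ (mapsTo_univ _ _)
    (sep_findim (Submodule.finrank_orthogonal_span_singleton hu0) _)
  · exact continuousOn_stereoToFun.mono fun x hx => hne x hx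
  · intro x hx y hy hxy
    have hxs : x ∈ Metric.sphere (0 : V) 1 := hA hx
    have hys : y ∈ Metric.sphere (0 : V) 1 := hA hy
    have h1 := stereo_left_inv hu (x := ⟨x, hxs⟩) (fun h => huA (h ▸ hx))
    have h2 := stereo_left_inv hu (x := ⟨y, hys⟩) (fun h => huA (h ▸ hy))
    have h3 : (⟨x, hxs⟩ : Metric.sphere (0 : V) 1) = ⟨y, hys⟩ := by
      rw [← h1, ← h2]
      exact congrArg _ hxy
    exact congrArg Subtype.val h3

/-- Spheres of normed spaces. -/
theorem sep_sphere {W : Type u} [NormedAddCommGroup W] [NormedSpace ℝ W]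
    [FiniteDimensional ℝ W] {k : ℕ} (hd : Module.finrank ℝ W = k + 1) {A : Set W}
    (hA : A ⊆ Metric.sphere 0 1) {u : W} (hu : ‖u‖ = 1) (huA : u ∉ A) : Sep k A := by
  let L : W ≃L[ℝ] EuclideanSpace ℝ (Fin (k + 1)) :=
    ContinuousLinearEquiv.ofFinrankEq (by rw [hd, finrank_euclideanSpace_fin])
  have hL : ∀ v : W, ‖v‖ = 1 → 0 < ‖L v‖ := by
    intro v hv
    rw [norm_pos_iff]
    intro h
    have : v = 0 := by
      apply L.injective
      rw [h, map_zero]
    rw [this, norm_zero] at hv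
    exact zero_ne_one hv
  set g : W → EuclideanSpace ℝ (Fin (k + 1)) := fun v => ‖L v‖⁻¹ • L v with hg
  have hg1 : ∀ v : W, ‖v‖ = 1 → ‖g v‖ = 1 := by
    intro v hv
    rw [hg]
    simp only
    rw [norm_smul, norm_inv, norm_norm, inv_mul_cancel₀ (hL v hv).ne']
  have hinj : ∀ v w : W, ‖v‖ = 1 → ‖w‖ = 1 → g v = g w → v = w := by
    intro v w hv hw h
    have h1 : L v = (‖L v‖ * ‖L w‖⁻¹) • L w := by
      have h2 : ‖L v‖ • g v = L v := by
        rw [hg]
        simp only
        rw [smul_smul, mul_inv_cancel₀ (hL v hv).ne', one_smul]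
      calc L v = ‖L v‖ • g v := h2.symm
        _ = ‖L v‖ • g w := by rw [h]
        _ = ‖L v‖ • (‖L w‖⁻¹ • L w) := rfl
        _ = _ := smul_smul _ _ _
    rw [← map_smul] at h1
    have h3 := L.injective h1
    have h4 : ‖L v‖ * ‖L w‖⁻¹ = 1 := by
      have h5 := congrArg norm h3
      rw [norm_smul, hv, hw, mul_one, Real.norm_eq_abs, abs_of_pos
        (mul_pos (hL v hv) (inv_pos.2 (hL w hw)))] at h5
      exact h5.symm
    rw [h3, h4, one_smul]
  have hA1 : ∀ v ∈ A, ‖v‖ = 1 := fun v hv => mem_sphere_zero_iff_norm.1 (hA hv)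
  have hB : g '' A ⊆ Metric.sphere 0 1 := by
    rintro _ ⟨v, hv, rfl⟩
    rw [mem_sphere_zero_iff_norm]
    exact hg1 v (hA1 v hv)
  have huB : g u ∉ g '' A := by
    rintro ⟨v, hv, h⟩
    have := hinj v u (hA1 v hv) hu h
    exact huA (this ▸ hv)
  refine Sep.of_injOn (g := g) ?_ (fun v hv w hw h => hinj v w (hA1 v hv) (hA1 w hw) h)
    (mapsTo_image g A)
    (sep_sphere_euclid finrank_euclideanSpace_fin hB (hg1 u hu) huB)
  refine ContinuousOn.smul (ContinuousOn.inv₀ L.continuous.norm.continuousOn ?_)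
    L.continuous.continuousOn
  exact fun v hv => (hL v (hA1 v hv)).ne'

/-- A compact subset of the unit sphere of a space of dimension `k + 1` which misses a point of
the sphere has no cohomology in the degrees `p ≥ max k 1`. -/
theorem van_sphere_proper {W : Type u} [NormedAddCommGroup W] [NormedSpace ℝ W]
    [FiniteDimensional ℝ W] {k : ℕ} (hd : Module.finrank ℝ W = k + 1) {A : Set W}
    (hAc : IsCompact A) (hA : A ⊆ Metric.sphere 0 1) {u : W} (hu : ‖u‖ = 1) (huA : u ∉ A)
    {p : ℤ} (hp : (k : ℤ) ≤ p) (hp1 : 1 ≤ p) : Van p A ∅ :=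
  van_of_sep hAc (sep_sphere hd hA hu huA) hp hp1

/-- The same for subsets of the sphere as a space. -/
theorem van_sphere_proper' {W : Type u} [NormedAddCommGroup W] [NormedSpace ℝ W]
    [FiniteDimensional ℝ W] {k : ℕ} (hd : Module.finrank ℝ W = k + 1)
    {A : Set (Metric.sphere (0 : W) 1)} (hAc : IsClosed A) (hne : A ≠ univ)
    {p : ℤ} (hp : (k : ℤ) ≤ p) (hp1 : 1 ≤ p) : Van p A ∅ := by
  have : ProperSpace W := FiniteDimensional.proper ℝ W
  obtain ⟨u, hu⟩ := (ne_univ_iff_exists_notMem A).1 hne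
  have hs : Sep k (Subtype.val '' A) := by
    refine sep_sphere hd ?_ (u := (u : W)) (mem_sphere_zero_iff_norm.1 u.2) ?_
    · rintro _ ⟨v, -, rfl⟩
      exact v.2
    · rintro ⟨v, hv, h⟩
      exact hu (Subtype.ext h ▸ hv)
  exact van_of_sep hAc.isCompact (Sep.of_injOn continuous_subtype_val.continuousOn
    Subtype.val_injective.injOn (mapsTo_image _ _) hs) hp hp1

end TI
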