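import Pool.Agent.TI.Cone

/-!
# Points, spherical fibres, Thom classes and the Gysin sequence
-/

set_option autoImplicit false
set_option linter.unusedSectionVars false

namespace TI

open Set Filter Topology Pool.Agent.VC

universe u v w

/-! ## Constant cochains and points -/

theorem dd_len_fun {X : Type u} (g : ℕ → ZMod 2) (l : List X) :
    dd (fun l : List X => g l.length) l = l.length * g (l.length - 1) := by
  induction l generalizing g with
  | nil => simp
  | cons x l ih =>
    have h1 : sh (fun l : List X => g l.length) x = fun l : List X => g (l.length + 1) := by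
      funext l'
      simp
    rw [dd_cons, h1, ih (fun n => g (n + 1))]
    rcases Nat.eq_zero_or_pos l.length with h | h
    · simp [h]
    · have h2 : l.length - 1 + 1 = l.length := by omega
      rw [h2, List.length_cons, Nat.add_sub_cancel]
      push_cast
      ring

/-- The cochain of degree `k` with value one. -/
def cst (X : Type u) (k : ℕ) : Cc X := fun l => if l.length = k + 1 then 1 else 0

theorem cst_Dg (X : Type u) (k : ℕ) : cst X k ∈ Dg X (k : ℤ) := by
  intro l hl
  by_cases h : l.length = k + 1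
  · refine ⟨?_, by exact_mod_cast h⟩
    rintro rfl
    simp at h
  · exact absurd (if_neg h) hl

/-- The unit cochain. -/
abbrev uno (X : Type u) : Cc X := cst X 0

theorem uno_Dg (X : Type u) : uno X ∈ Dg X 0 := by
  have := cst_Dg X 0
  simpa using this

theorem dd_cst (X : Type u) (k : ℕ) : dd (cst X k) = (k : ZMod 2) • cst X (k + 1) := by
  funext l
  have h1 : dd (cst X k) l = _ := dd_len_fun (fun n => if n = k + 1 then 1 else 0) l
  rw [h1, Pi.smul_apply, smul_eq_mul]
  unfold cst
  by_cases h : l.length = k + 1 + 1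
  · have h2 : l.length - 1 = k + 1 := by omega
    rw [if_pos h2, if_pos h, h]
    push_cast
    have : (1 : ZMod 2) + 1 = 0 := by decide
    linear_combination this
  · rw [if_neg h, mul_zero]
    by_cases h2 : l.length - 1 = k + 1
    · omega
    · rw [if_neg h2, mul_zero]

theorem dd_uno (X : Type u) : dd (uno X) = 0 := by
  rw [dd_cst]
  simp

theorem pull_cst {X : Type u} {Y : Type v} (f : X → Y) (k : ℕ) :
    pull f (cst Y k) = cst X k := by
  funext l
  simp [cst]

theorem cup_uno_aux {X : Type u} (e : Cc X) : ∀ l : List X, l ≠ [] → cup e (uno X) l = e l := by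
  intro l
  induction l generalizing e with
  | nil => intro h; exact absurd rfl h
  | cons x l ih =>
    intro _
    rw [cup_cons]
    rcases l with _ | ⟨y, l⟩
    · simp [uno, cst]
    · rw [ih (sh e x) (by simp)]
      simp [uno, cst]

theorem cup_uno {X : Type u} {p : ℤ} {e : Cc X} (h : e ∈ Dg X p) : cup e (uno X) = e := by
  funext l
  rcases l with _ | ⟨x, l⟩
  · rw [cup_nil, Dg.nil h]
  · exact cup_uno_aux e _ (by simp)

section metric

variable {X : Type u} {Y : Type v} [MetricSpace X] [MetricSpace Y]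

theorem Bd.deg_zero {A B : Set X} {c : Cc X} (h : Bd 0 A B c) : c ∈ Z A := by
  obtain ⟨b, h1, -, h3⟩ := h
  have : b = 0 := Dg.neg h1 (by norm_num)
  subst this
  rwa [dd_zero, add_zero] at h3

theorem uno_notMem_Z {A : Set X} (h : A.Nonempty) : uno X ∉ Z A := by
  rintro ⟨ε, hε, h1⟩
  obtain ⟨a, ha⟩ := h
  have h2 := h1 [a] ⟨by
    intro x hx
    rw [List.mem_singleton] at hx
    subst hx
    exact Metric.mem_thickening_iff.2 ⟨x, ha, by simpa using hε⟩, by
    intro x hx y hy
    rw [List.mem_singleton] at hx hy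
    subst hx
    subst hy
    simpa using hε⟩
  simp [uno, cst] at h2

/-- Near a point every cochain is cohomologous to a constant one. -/
theorem pt_const {p : ℤ} {y : Y} {c : Cc Y} (h : Cyc p {y} ∅ c) :
    Bd p {y} ∅ (c + pull (fun _ => y) c) := by
  have h1 := agree (f := fun x : Y => x) (g := fun _ => y) h (CA.id _)
    (CA.of_continuous continuous_const _) isCompact_singleton isCompact_empty
    (by
      intro x hx
      rw [union_empty, mem_singleton_iff] at hx
      exact hx)
    (fun x hx => hx) (by intro x hx; exact hx.elim)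
  have h2 : pull (fun x : Y => x) c = c := pull_id c
  rwa [h2] at h1

theorem pull_const_eq {k : ℕ} {y : Y} {c : Cc Y} (h : c ∈ Dg Y (k : ℤ)) :
    pull (fun _ : Y => y) c = c (List.replicate (k + 1) y) • cst Y k := by
  funext l
  rw [pull_apply, Pi.smul_apply, smul_eq_mul, List.map_const']
  by_cases hl : l.length = k + 1
  · rw [hl]
    simp [cst, hl]
  · have h1 : cst Y k l = 0 := if_neg hl
    rw [h1, mul_zero]
    by_contra h2
    have := (h _ h2).2
    rw [List.length_replicate] at this
    exact hl (by exact_mod_cast this)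

theorem small_replicate {y : Y} {ε : ℝ} (hε : 0 < ε) (n : ℕ) :
    List.replicate n y ∈ Small ({y} : Set Y) ε := by
  refine ⟨fun x hx => ?_, fun x hx z hz => ?_⟩
  · rw [List.eq_of_mem_replicate hx]
    exact Metric.mem_thickening_iff.2 ⟨y, rfl, by simpa using hε⟩
  · rw [List.eq_of_mem_replicate hx, List.eq_of_mem_replicate hz]
    simpa using hε

/-- The cohomology of a point in positive degrees. -/
theorem van_pt {p : ℤ} (hp : 0 < p) (y : Y) : Van p ({y} : Set Y) ∅ := by
  intro c hc
  obtain ⟨k, rfl⟩ : ∃ k : ℕ, p = (k : ℤ) + 1 := ⟨(p - 1).toNat, by omega⟩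
  have h1 := pt_const hc
  have hd : c ∈ Dg Y ((k + 1 : ℕ) : ℤ) := by
    have := hc.deg
    exact_mod_cast this
  rw [pull_const_eq hd] at h1
  set κ := c (List.replicate (k + 1 + 1) y) with hκ
  -- the constant part is a coboundary
  have h2 : Bd ((k : ℤ) + 1) {y} ∅ (κ • cst Y (k + 1)) := by
    rcases Nat.even_or_odd k with hk | hk
    · -- then the degree is odd and the constant vanishes
      have h3 : κ = 0 := by
        obtain ⟨ε, hε, h4⟩ := hc.cyc
        have h5 := h4 _ (small_replicate hε (k + 1 + 1 + 1))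
        have h6 : dd (pull (fun _ : Y => y) c) (List.replicate (k + 1 + 1 + 1) y) = 0 := by
          rw [dd_pull, pull_apply, List.map_replicate]
          exact h5
        rw [pull_const_eq hd, dd_smul, dd_cst, ← hκ, smul_smul, Pi.smul_apply, smul_eq_mul] at h6
        have h7 : cst Y (k + 1 + 1) (List.replicate (k + 1 + 1 + 1) y) = 1 := by
          simp [cst]
        rw [h7, mul_one] at h6
        have h8 : ((k + 1 : ℕ) : ZMod 2) = 1 := by
          rw [ZMod.natCast_eq_one_iff_odd]
          exact hk.add_one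
        rwa [h8, mul_one] at h6
      rw [h3, zero_smul]
      exact Bd.zero
    · refine Bd.smul κ ?_
      have h3 : dd (cst Y k) = cst Y (k + 1) := by
        rw [dd_cst]
        have h8 : (k : ZMod 2) = 1 := by
          rw [ZMod.natCast_eq_one_iff_odd]
          exact hk
        rw [h8, one_smul]
      rw [← h3]
      refine Bd.of_dd ?_ (Z_empty (cst_Dg Y k))
      rw [add_sub_cancel_right]
      exact cst_Dg Y k
  have h3 := h1.add h2
  have h4 : c + κ • cst Y (k + 1) + κ • cst Y (k + 1) = c := by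
    rw [add_assoc, add_self, add_zero]
  rwa [h4] at h3

/-- The cohomology of a point in degree zero. -/
theorem pt_zero {y : Y} {c : Cc Y} (hc : Cyc 0 {y} ∅ c) :
    ∃ κ : ZMod 2, c + κ • uno Y ∈ Z ({y} : Set Y) := by
  have h1 := Bd.deg_zero (pt_const hc)
  have hd : c ∈ Dg Y ((0 : ℕ) : ℤ) := by
    have := hc.deg
    exact_mod_cast this
  rw [pull_const_eq hd] at h1
  exact ⟨_, h1⟩

/-- `c` is a coboundary on `A`, up to a constant if the degree is zero. -/
def RBd (p : ℤ) (A : Set X) (c : Cc X) : Prop :=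
  Bd p A ∅ c ∨ (p = 0 ∧ Bd p A ∅ (c + uno X))

/-- `A` has the reduced cohomology of the `k`-sphere. -/
structure HSph (k : ℤ) (A : Set X) : Prop where
  ne : A.Nonempty
  low : ∀ p, p ≠ k → ∀ c, Cyc p A ∅ c → RBd p A c
  gen : ∃ c, Cyc k A ∅ c ∧ ¬ RBd k A c
  uniq : ∀ c c', Cyc k A ∅ c → Cyc k A ∅ c' → ¬ RBd k A c → ¬ RBd k A c' → RBd k A (c + c')

/-! ## The relative theory of a map -/

variable {f : X → Y} {E : Set X} {K : Set Y}

/-- The relative theory of `f : E → K` (the mapping cone of the pull back): the elements of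
degree `p` are pairs of a cochain of degree `p + 1` of the base and one of degree `p` of `E`. -/
def relT (f : X → Y) {E : Set X} (hE : IsCompact E) (hf : CA f E) {K : Set Y}
    (hK : IsCompact K) : Thy K (Cc Y × Cc X) := (pullMor f hE hf hK).cone

theorem relT_gr (hE : IsCompact E) (hf : CA f E) (hK : IsCompact K) {p : ℤ}
    {w : Cc Y × Cc X} :
    w ∈ (relT f hE hf hK).gr p ↔ w.1 ∈ Dg Y (p + 1) ∧ w.2 ∈ Dg X p := by
  unfold relT
  rw [Mor.mem_gr, sub_zero]
  rfl

theorem relT_Z (hE : IsCompact E) (hf : CA f E) (hK : IsCompact K) {A : Set Y} (hA : A ⊆ K)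
    {w : Cc Y × Cc X} :
    w ∈ (relT f hE hf hK).Z A ↔ w.1 ∈ Z A ∧ w.2 ∈ Z (ov f E A) := by
  unfold relT
  rw [Mor.mem_Z]
  change w.1 ∈ Z (ov (fun y : Y => y) K A) ∧ _ ↔ _
  rw [ov_id K A hA]
  rfl

theorem relT_d (hE : IsCompact E) (hf : CA f E) (hK : IsCompact K) (w : Cc Y × Cc X) :
    (relT f hE hf hK).d w = (dd w.1, dd w.2 + pull f w.1) := rfl

/-- Normal form of the relative cocycles at a point. -/
theorem rel_norm (hE : IsCompact E) (hf : CA f E) {y : Y}
    (hne : (ov f E {y}).Nonempty) {p : ℤ} {c : Cc Y} {η : Cc X} (hc : c ∈ Dg Y (p + 1))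
    (hη : η ∈ Dg X p) (h1 : dd c ∈ Z ({y} : Set Y)) (h2 : dd η + pull f c ∈ Z (ov f E {y})) :
    ∃ b ∈ Dg Y p, c + dd b ∈ Z ({y} : Set Y) ∧ Cyc p (ov f E {y}) ∅ (η + pull f b) := by
  have hcomp : IsCompact (ov f E {y}) := ov_compact hE hf isCompact_singleton
  have hfo : CA f (ov f E {y}) := hf.mono (ov_sub f E {y})
  have hfm : MapsTo f (ov f E {y}) {y} := ov_maps f E {y}
  have main : ∃ b ∈ Dg Y p, c + dd b ∈ Z ({y} : Set Y) := by
    rcases lt_trichotomy (p + 1) 0 with h | h | h
    · have : c = 0 := Dg.neg hc h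
      subst this
      exact ⟨0, zero_mem _, by rw [dd_zero, add_zero]; exact zero_mem _⟩
    · rw [h] at hc
      obtain ⟨κ, hκ⟩ := pt_zero ⟨hc, Z_empty hc, h1⟩
      have h3 : η = 0 := Dg.neg hη (by omega)
      subst h3
      rw [dd_zero, zero_add] at h2
      have h4 : pull f (c + κ • uno Y) ∈ Z (ov f E {y}) := pull_Z hfo hcomp hfm hκ
      rw [pull_add, pull_smul, pull_cst] at h4
      have h5 := add_mem h2 h4
      rw [← add_assoc, add_self, zero_add] at h5
      have h6 : κ = 0 := by
        by_contra h7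
        have h8 : κ = 1 := by
          have : ∀ a : ZMod 2, a ≠ 0 → a = 1 := by decide
          exact this κ h7
        rw [h8, one_smul] at h5
        exact uno_notMem_Z hne h5
      rw [h6, zero_smul, add_zero] at hκ
      exact ⟨0, zero_mem _, by rw [dd_zero, add_zero]; exact hκ⟩
    · obtain ⟨b, hb, -, h3⟩ := van_pt h y c ⟨hc, Z_empty hc, h1⟩
      rw [add_sub_cancel_right] at hb
      exact ⟨b, hb, h3⟩
  obtain ⟨b, hb, h3⟩ := main
  have hd : η + pull f b ∈ Dg X p := add_mem hη (pull_Dg f hb)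
  refine ⟨b, hb, h3, hd, Z_empty hd, ?_⟩
  have h4 : pull f (c + dd b) ∈ Z (ov f E {y}) := pull_Z hfo hcomp hfm h3
  have h5 := add_mem h2 h4
  rw [pull_add, ← dd_pull] at h5
  have h6 : dd η + pull f c + (pull f c + dd (pull f b)) = dd (η + pull f b) := by
    rw [dd_add]
    have := add_self (pull f c)
    calc dd η + pull f c + (pull f c + dd (pull f b))
        = dd η + (pull f c + pull f c) + dd (pull f b) := by abel
      _ = _ := by rw [this, add_zero]
  rwa [h6] at h5

/-- Relative coboundaries at a point. -/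
theorem rel_bd_iff (hE : IsCompact E) (hf : CA f E) (hK : IsCompact K) {y : Y} (hy : y ∈ K)
    {p : ℤ} {c : Cc Y} {η : Cc X} (hη : η ∈ Dg X p) {b : Cc Y} (hb : b ∈ Dg Y p)
    (hcb : c + dd b ∈ Z ({y} : Set Y)) :
    (relT f hE hf hK).IsBd p {y} (c, η) ↔ RBd p (ov f E {y}) (η + pull f b) := by
  have hcomp : IsCompact (ov f E {y}) := ov_compact hE hf isCompact_singleton
  have hfo : CA f (ov f E {y}) := hf.mono (ov_sub f E {y})
  have hfm : MapsTo f (ov f E {y}) {y} := ov_maps f E {y}
  have hyK : ({y} : Set Y) ⊆ K := singleton_subset_iff.2 hy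
  constructor
  · rintro ⟨v, hv, hw⟩
    rw [relT_gr, sub_add_cancel] at hv
    rw [relT_Z hE hf hK hyK, relT_d] at hw
    obtain ⟨hv1, hv2⟩ := hv
    obtain ⟨hw1, hw2⟩ := hw
    simp only [Prod.fst_add, Prod.snd_add] at hw1 hw2
    -- b + v.1 is a cocycle at y
    have h1 : dd (b + v.1) ∈ Z ({y} : Set Y) := by
      have h2 := add_mem hcb hw1
      have h3 : c + dd b + (c + dd v.1) = dd (b + v.1) := by
        rw [dd_add]
        have := add_self c
        calc c + dd b + (c + dd v.1) = (c + c) + (dd b + dd v.1) := by abel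
          _ = _ := by rw [this, zero_add]
      rwa [h3] at h2
    have hbv : b + v.1 ∈ Dg Y p := add_mem hb hv1
    have key : ∀ x : Cc X, pull f (b + v.1) + x ∈ Z (ov f E {y}) →
        η + pull f b + dd v.2 + x ∈ Z (ov f E {y}) := by
      intro x hx
      have h4 := add_mem hw2 hx
      rw [pull_add] at h4
      have h5 : η + (dd v.2 + pull f v.1) + (pull f b + pull f v.1 + x) =
          η + pull f b + dd v.2 + x := by
        have := add_self (pull f v.1)
        calc η + (dd v.2 + pull f v.1) + (pull f b + pull f v.1 + x)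
            = η + pull f b + dd v.2 + x + (pull f v.1 + pull f v.1) := by abel
          _ = _ := by rw [this, add_zero]
      rwa [h5] at h4
    rcases lt_trichotomy p 0 with h | h | h
    · have h4 : η + pull f b ∈ Dg X p := add_mem hη (pull_Dg f hb)
      have h5 : η + pull f b = 0 := Dg.neg h4 h
      rw [h5]
      exact Or.inl Bd.zero
    · subst h
      obtain ⟨κ, hκ⟩ := pt_zero ⟨hbv, Z_empty hbv, h1⟩
      have h4 : pull f (b + v.1 + κ • uno Y) ∈ Z (ov f E {y}) := pull_Z hfo hcomp hfm hκ
      rw [pull_add, pull_smul, pull_cst] at h4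
      have h5 := key _ h4
      have h6 : v.2 = 0 := Dg.neg hv2 (by norm_num)
      rw [h6, dd_zero, add_zero] at h5
      rcases (by decide : ∀ a : ZMod 2, a = 0 ∨ a = 1) κ with h7 | h7
      · rw [h7, zero_smul, add_zero] at h5
        exact Or.inl (Bd.of_Z h5)
      · rw [h7, one_smul] at h5
        exact Or.inr ⟨rfl, Bd.of_Z h5⟩
    · obtain ⟨b2, hb2, -, h4⟩ := van_pt h y _ ⟨hbv, Z_empty hbv, h1⟩
      have h5 : pull f (b + v.1 + dd b2) ∈ Z (ov f E {y}) := pull_Z hfo hcomp hfm h4
      rw [pull_add, ← dd_pull] at h5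
      have h6 := key _ h5
      have h7 : v.2 + pull f b2 ∈ Dg X (p - 1) := add_mem hv2 (pull_Dg f hb2)
      refine Or.inl ⟨v.2 + pull f b2, h7, Z_empty h7, ?_⟩
      rw [dd_add, ← add_assoc]
      exact h6
  · intro h
    rcases h with ⟨ζ, hζ, -, h1⟩ | ⟨rfl, ζ, hζ, -, h1⟩
    · refine ⟨(b, ζ), ?_, ?_⟩
      · rw [relT_gr, sub_add_cancel]
        exact ⟨hb, hζ⟩
      · rw [relT_Z hE hf hK hyK, relT_d]
        refine ⟨hcb, ?_⟩
        change η + (dd ζ + pull f b) ∈ _
        have h2 : η + (dd ζ + pull f b) = η + pull f b + dd ζ := by abel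
        rw [h2]
        exact h1
    · refine ⟨(b + uno Y, ζ), ?_, ?_⟩
      · rw [relT_gr, sub_add_cancel]
        exact ⟨add_mem hb (uno_Dg Y), hζ⟩
      · rw [relT_Z hE hf hK hyK, relT_d]
        refine ⟨?_, ?_⟩
        · change c + dd (b + uno Y) ∈ _
          rw [dd_add, dd_uno, add_zero]
          exact hcb
        · change η + (dd ζ + pull f (b + uno Y)) ∈ _
          have h2 : η + (dd ζ + pull f (b + uno Y)) = η + pull f b + uno X + dd ζ := by
            rw [pull_add, pull_cst]
            abel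
          rw [h2]
          exact h1

/-- The relative theory of a map with spherical fibres vanishes at the points, except in one
degree. -/
theorem rel_acyc (hE : IsCompact E) (hf : CA f E) (hK : IsCompact K) {y : Y} (hy : y ∈ K)
    {k : ℤ} (hS : HSph k (ov f E {y})) {p : ℤ} (hp : p ≠ k) :
    (relT f hE hf hK).Acyc p {y} := by
  have hyK : ({y} : Set Y) ⊆ K := singleton_subset_iff.2 hy
  rintro ⟨c, η⟩ hw hdw
  rw [relT_gr] at hw
  rw [relT_Z hE hf hK hyK, relT_d] at hdw
  obtain ⟨b, hb, h1, h2⟩ := rel_norm hE hf hS.ne hw.1 hw.2 hdw.1 hdw.2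
  rw [rel_bd_iff hE hf hK hy hw.2 hb h1]
  exact hS.low p hp _ h2

/-- In the exceptional degree there is at most one non-zero class. -/
theorem rel_uniq (hE : IsCompact E) (hf : CA f E) (hK : IsCompact K) {y : Y} (hy : y ∈ K)
    {k : ℤ} (hS : HSph k (ov f E {y})) {w w' : Cc Y × Cc X} (hw : w ∈ (relT f hE hf hK).gr k)
    (hw' : w' ∈ (relT f hE hf hK).gr k) (hd : (relT f hE hf hK).d w ∈ (relT f hE hf hK).Z {y})
    (hd' : (relT f hE hf hK).d w' ∈ (relT f hE hf hK).Z {y})
    (h : ¬ (relT f hE hf hK).IsBd k {y} w) (h' : ¬ (relT f hE hf hK).IsBd k {y} w') :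
    (relT f hE hf hK).IsBd k {y} (w + w') := by
  have hyK : ({y} : Set Y) ⊆ K := singleton_subset_iff.2 hy
  obtain ⟨c, η⟩ := w
  obtain ⟨c', η'⟩ := w'
  rw [relT_gr] at hw hw'
  rw [relT_Z hE hf hK hyK, relT_d] at hd hd'
  obtain ⟨b, hb, h1, h2⟩ := rel_norm hE hf hS.ne hw.1 hw.2 hd.1 hd.2
  obtain ⟨b', hb', h1', h2'⟩ := rel_norm hE hf hS.ne hw'.1 hw'.2 hd'.1 hd'.2
  rw [rel_bd_iff hE hf hK hy hw.2 hb h1] at h
  rw [rel_bd_iff hE hf hK hy hw'.2 hb' h1'] at h'
  have h3 := hS.uniq _ _ h2 h2' h h'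
  have h4 : (c + c') + dd (b + b') ∈ Z ({y} : Set Y) := by
    have h5 := add_mem h1 h1'
    have h6 : c + dd b + (c' + dd b') = (c + c') + dd (b + b') := by
      rw [dd_add]
      abel
    rwa [h6] at h5
  rw [Prod.mk_add_mk, rel_bd_iff hE hf hK hy (add_mem hw.2 hw'.2) (add_mem hb hb') h4]
  have h7 : η + pull f b + (η' + pull f b') = η + η' + pull f (b + b') := by
    rw [pull_add]
    abel
  rwa [h7] at h3

end metric

end TI
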