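import Pool.Agent.TI.Assemble
import Pool.Agent.VC.LH

/-!
# MP_9697d1_gt: the Leray-Hirsch theorem in the form of `Stmt_LH`
-/

namespace TI

open Set Pool.Agent Pool.Agent.VC

set_option maxHeartbeats 400000

section

variable {B M : Type} [MetricSpace B] [CompactSpace B] [MetricSpace M] [CompactSpace M]

omit [CompactSpace B] in
theorem isCompact_fibre {R : Set (B × M)} (hR : IsClosed R) (b : B) : IsCompact (fibre R b) := by
  have h : IsClosed (fibre R b) := by
    show IsClosed ((fun x : M => (b, x)) ⁻¹' R)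
    exact hR.preimage (by fun_prop)
  exact h.isCompact

omit [MetricSpace B] [CompactSpace B] [MetricSpace M] [CompactSpace M] in
theorem pull_mk_snd (b : B) (c : Cc M) : pull (fun x : M => (b, x)) (pull Prod.snd c) = c := by
  funext l
  simp [Function.comp_def]

theorem fb_of_pbasis {d : ℕ} (hd : 1 ≤ d) {a : Cc M} {q : ℕ} {R : Set (B × M)} (hR : IsClosed R)
    {b : B} (h : PBasis d a (fibre R b) q) :
    FB (R ∩ Prod.fst ⁻¹' {b}) (fun i : Fin (q + 1) => ((d * (i : ℕ) : ℕ) : ℤ))
      (fun i => pull Prod.snd (pw a i)) := by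
  have hFc : IsCompact (fibre R b) := isCompact_fibre hR b
  have hEc : IsCompact (R ∩ Prod.fst ⁻¹' {b}) :=
    (hR.inter (isClosed_singleton.preimage continuous_fst)).isCompact
  have hm1 : MapsTo (fun x : M => (b, x)) (fibre R b) (R ∩ Prod.fst ⁻¹' {b}) :=
    fun x hx => ⟨hx, rfl⟩
  have hm2 : MapsTo (Prod.snd : B × M → M) (R ∩ Prod.fst ⁻¹' {b}) (fibre R b) := by
    rintro ⟨b', x⟩ ⟨hx, hb⟩
    have h1 : b' = b := hb
    subst h1
    exact hx
  have hemp1 : MapsTo (fun x : M => (b, x)) (∅ : Set M) (∅ : Set (B × M)) :=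
    fun x hx => absurd hx (notMem_empty x)
  have hemp2 : MapsTo (Prod.snd : B × M → M) (∅ : Set (B × M)) (∅ : Set M) :=
    fun x hx => absurd hx (notMem_empty x)
  have hca1 : ∀ S : Set M, CA (fun x : M => (b, x)) S := fun S =>
    CA.of_continuous (by fun_prop) S
  have hca2 : ∀ S : Set (B × M), CA (Prod.snd : B × M → M) S := fun S =>
    CA.of_continuous continuous_snd S
  constructor
  · intro p r hr hb
    by_contra hne
    obtain ⟨i, hi⟩ : ∃ i, r i ≠ 0 := by
      by_contra hcon
      push Not at hcon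
      exact hne (funext hcon)
    have hp : ((d * (i : ℕ) : ℕ) : ℤ) = p := hr i hi
    have hri : r i = 1 := by
      have : ∀ x : ZMod 2, x ≠ 0 → x = 1 := by decide
      exact this _ hi
    have hother : ∀ j, j ≠ i → r j = 0 := by
      intro j hj
      by_contra hrj
      have h1 := hr j hrj
      rw [← hp] at h1
      have h2 : d * (j : ℕ) = d * (i : ℕ) := by exact_mod_cast h1
      have h3 : (j : ℕ) = (i : ℕ) := Nat.eq_of_mul_eq_mul_left (by omega) h2
      exact hj (Fin.ext h3)
    have hsum : ∑ j, r j • pull (Prod.snd : B × M → M) (pw a j) = pull Prod.snd (pw a i) := by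
      rw [Finset.sum_eq_single i]
      · rw [hri, one_smul]
      · intro j _ hj
        rw [hother j hj, zero_smul]
      · intro h; exact absurd (Finset.mem_univ i) h
    rw [hsum] at hb
    have h4 := hb.pull (hca1 _) hFc isCompact_empty hm1 hemp1
    rw [pull_mk_snd] at h4
    refine h.indep i (by omega) ?_
    rw [hp]
    exact h4
  · intro p c hc
    have h1 := hc.pull (hca1 _) hFc isCompact_empty hm1 hemp1
    obtain ⟨r, i, hri, hb⟩ := h.gen p _ h1
    have h2 := hb.pull (hca2 _) hEc isCompact_empty hm2 hemp2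
    rw [pull_add, pull_smul, pull_pull] at h2
    have h3 : Bd p (R ∩ Prod.fst ⁻¹' {b}) ∅
        (pull (fun y : B × M => y) c +
          pull ((fun x : M => (b, x)) ∘ (Prod.snd : B × M → M)) c) := by
      refine agree hc (CA.id _) (CA.of_continuous ?_ _) hEc isCompact_empty ?_ (fun y hy => hy)
        (fun y hy => absurd hy (notMem_empty y))
      · exact (by fun_prop : Continuous (fun y : B × M => (b, y.2)))
      · rintro ⟨b', x⟩ hx
        rw [union_empty] at hx
        have h4 : b' = b := hx.2
        subst h4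
        rfl
    have h5 : pull (fun y : B × M => y) c = c := by
      funext l
      simp
    rw [h5] at h3
    have h6 := h3.add h2
    have h7 : c + pull ((fun x : M => (b, x)) ∘ (Prod.snd : B × M → M)) c +
        (pull ((fun x : M => (b, x)) ∘ (Prod.snd : B × M → M)) c +
          r • pull Prod.snd (pw a i)) = c + r • pull Prod.snd (pw a i) := by
      have h8 := add_self (pull ((fun x : M => (b, x)) ∘ (Prod.snd : B × M → M)) c)
      calc _ = (pull ((fun x : M => (b, x)) ∘ (Prod.snd : B × M → M)) c +
          pull ((fun x : M => (b, x)) ∘ (Prod.snd : B × M → M)) c) +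
            (c + r • pull Prod.snd (pw a i)) := by abel
        _ = _ := by rw [h8, zero_add]
    rw [h7] at h6
    by_cases hr0 : r = 0
    · refine ⟨0, fun j hj => absurd rfl hj, ?_⟩
      rw [hr0, zero_smul, add_zero] at h6
      simpa using h6
    · have hi : i ≤ q ∧ ((d * i : ℕ) : ℤ) = p := hri.resolve_left hr0
      refine ⟨Pi.single (⟨i, by omega⟩ : Fin (q + 1)) r, ?_, ?_⟩
      · intro j hj
        by_cases hji : j = ⟨i, by omega⟩
        · subst hji
          exact hi.2
        · rw [Pi.single_eq_of_ne hji] at hj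
          exact absurd rfl hj
      · have hsum : ∑ j, (Pi.single (⟨i, by omega⟩ : Fin (q + 1)) r : Fin (q + 1) → ZMod 2) j •
            pull (Prod.snd : B × M → M) (pw a j) = r • pull Prod.snd (pw a i) := by
          rw [Finset.sum_eq_single (⟨i, by omega⟩ : Fin (q + 1))]
          · rw [Pi.single_eq_same]
          · intro j _ hj
            rw [Pi.single_eq_of_ne hj, zero_smul]
          · intro h; exact absurd (Finset.mem_univ _) h
        rw [hsum]
        exact h6

end

/-- The Leray-Hirsch theorem. -/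
theorem stmt_LH : Stmt_LH := by
  intro B M _ _ _ _ d a q R B0 B1 hd hR hB0 hB1 hB10 ha hfib p
  have hE : IsCompact R := hR.isCompact
  have hf : CA (Prod.fst : B × M → B) R := CA.of_continuous continuous_fst R
  have hs : ∀ i : Fin (q + 1), (0 : ℤ) ≤ ((d * (i : ℕ) : ℕ) : ℤ) := fun i => Int.natCast_nonneg _
  have he : ∀ i : Fin (q + 1), pull (Prod.snd : B × M → M) (pw a i) ∈
      Dg (B × M) ((d * (i : ℕ) : ℕ) : ℤ) := fun i => pull_Dg _ (pw_Dg ha.deg i)
  have hde : ∀ i : Fin (q + 1), dd (pull (Prod.snd : B × M → M) (pw a i)) ∈ Z R := by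
    intro i
    rw [dd_pull]
    exact pull_Z (CA.of_continuous continuous_snd R) hE (mapsTo_univ _ _) (cyc_pw ha i).cyc
  have hfb : ∀ y ∈ B0 \ B1, FB (R ∩ Prod.fst ⁻¹' {y})
      (fun i : Fin (q + 1) => ((d * (i : ℕ) : ℕ) : ℤ))
      (fun i => pull (Prod.snd : B × M → M) (pw a i)) := fun y hy =>
    fb_of_pbasis hd hR (hfib y hy.1 hy.2)
  constructor
  · intro h i hi
    by_contra h1
    have h2 := lh_not_van hE hf hB0.isCompact hB1.isCompact hB10 hs he hde hfb
      (⟨i, by omega⟩ : Fin (q + 1)) h1
    apply h2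
    have h3 : p - (d : ℤ) * i + ((d * ((⟨i, by omega⟩ : Fin (q + 1)) : ℕ) : ℕ) : ℤ) = p := by
      push_cast
      ring
    rw [h3]
    exact h
  · intro h
    refine lh_van hE hf hB0.isCompact hB1.isCompact hB10 hs he hde hfb (fun i => ?_)
    have := h i (by omega)
    push_cast
    exact this

end TI
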