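import Pool.Agent.TI.Thom
import Pool.Agent.TI.Basis
import Pool.Agent.TI.DimT
import Pool.Agent.TI.Gram
import Pool.Agent.TI.Sph

/-!
# MP_9697d1_gt: the cohomology of the projective spaces
-/

set_option autoImplicit false
set_option linter.unusedSectionVars false

namespace TI

open Set Filter Topology Pool.Agent.VC

universe u v

theorem one_eq_uno (X : Type u) : one X = uno X := by
  funext l
  simp [one, cst]

theorem rbd_of_pull {X : Type u} {Y : Type v} [MetricSpace X] [MetricSpace Y] {p : ℤ}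
    {A : Set X} {B : Set Y} {f : X → Y} {c : Cc Y} (h : RBd p B c) (hA : IsCompact A)
    (hf : CA f A) (hm : MapsTo f A B) : RBd p A (pull f c) := by
  have hf' : CA f (A ∪ ∅) := by rw [union_empty]; exact hf
  rcases h with h | ⟨h0, h⟩
  · exact Or.inl (h.pull hf' hA isCompact_empty hm (mapsTo_empty _ _))
  · refine Or.inr ⟨h0, ?_⟩
    have h1 := h.pull hf' hA isCompact_empty hm (mapsTo_empty _ _)
    rwa [pull_add, pull_cst] at h1

section proj

variable {F : Type} [NormedDivisionRing F] [NormedAlgebra ℝ F] [FiniteDimensional ℝ F]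
  {M : Type} [MetricSpace M] {n d : ℕ}

theorem norm_fsmul (l : F) (v : Fin (n + 1) → F) : ‖l • v‖ = ‖l‖ * ‖v‖ := by
  rw [norm_smul]

/-- The projection from the unit sphere (for the maximum norm) to the projective space. -/
structure IsProj (π : (Fin (n + 1) → F) → M) : Prop where
  ca : CA π (Metric.sphere 0 1)
  surj : ∀ y, ∃ v ∈ Metric.sphere (0 : Fin (n + 1) → F) 1, π v = y
  fib : ∀ v ∈ Metric.sphere (0 : Fin (n + 1) → F) 1, ∀ w ∈ Metric.sphere (0 : Fin (n + 1) → F) 1,
    (π v = π w ↔ ∃ l : F, ‖l‖ = 1 ∧ w = l • v)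

/-- The part of the sphere where the `i`-th coordinate is the greatest. -/
def topPart (F : Type) [NormedDivisionRing F] (n : ℕ) (i : Fin (n + 1)) :
    Set (Fin (n + 1) → F) := Metric.sphere 0 1 ∩ {v | ‖v i‖ = 1}

theorem isCompact_topPart (i : Fin (n + 1)) : IsCompact (topPart F n i) := by
  have : ProperSpace (Fin (n + 1) → F) := by
    have : FiniteDimensional ℝ (Fin (n + 1) → F) := inferInstance
    exact FiniteDimensional.proper ℝ _
  exact (isCompact_sphere 0 1).inter_right
    (isClosed_eq (continuous_apply i).norm continuous_const)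

theorem exists_topPart {v : Fin (n + 1) → F} (hv : v ∈ Metric.sphere (0 : Fin (n + 1) → F) 1) :
    ∃ i, v ∈ topPart F n i := by
  by_contra hcon
  push Not at hcon
  have hn : ‖v‖ = 1 := mem_sphere_zero_iff_norm.1 hv
  have h2 : ‖v‖ < 1 := by
    rw [pi_norm_lt_iff zero_lt_one]
    intro i
    refine lt_of_le_of_ne ((norm_le_pi_norm v i).trans hn.le) ?_
    intro h
    exact hcon i ⟨hv, h⟩
  linarith

/-- Points over `y` with a coordinate equal to one. -/
theorem IsProj.norm_pt {π : (Fin (n + 1) → F) → M} (h : IsProj π) {i : Fin (n + 1)} {y : M}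
    (hy : y ∈ π '' topPart F n i) :
    ∃ v ∈ Metric.sphere (0 : Fin (n + 1) → F) 1, π v = y ∧ v i = 1 := by
  obtain ⟨w, ⟨hw, hwi⟩, rfl⟩ := hy
  have hwi' : ‖w i‖ = 1 := hwi
  have h0 : w i ≠ 0 := by
    rw [← norm_ne_zero_iff, hwi']
    exact one_ne_zero
  have h1 : ‖(w i)⁻¹‖ = 1 := by rw [norm_inv, hwi', inv_one]
  have h2 : (w i)⁻¹ • w ∈ Metric.sphere (0 : Fin (n + 1) → F) 1 := by
    rw [mem_sphere_zero_iff_norm, norm_fsmul, h1, one_mul]
    exact mem_sphere_zero_iff_norm.1 hw
  refine ⟨(w i)⁻¹ • w, h2, ?_, ?_⟩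
  · exact ((h.fib w hw _ h2).2 ⟨_, h1, rfl⟩).symm
  · rw [Pi.smul_apply, smul_eq_mul, inv_mul_cancel₀ h0]

theorem IsProj.maps_coord {π : (Fin (n + 1) → F) → M} (h : IsProj π) (i : Fin (n + 1)) :
    MapsTo (fun v : Fin (n + 1) → F => v i)
      (ov π (Metric.sphere 0 1) (π '' topPart F n i)) (Metric.sphere 0 1) := by
  rintro v ⟨hv, w, hw, hwv⟩
  obtain ⟨l, hl, rfl⟩ := (h.fib w hw.1 v hv).1 hwv
  rw [mem_sphere_zero_iff_norm]
  change ‖l * w i‖ = 1
  rw [norm_mul, hl, one_mul]
  exact hw.2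

/-- The maps between a fibre and the unit sphere of `F`. -/
theorem IsProj.maps_smul {π : (Fin (n + 1) → F) → M} (h : IsProj π) {v : Fin (n + 1) → F}
    (hv : v ∈ Metric.sphere (0 : Fin (n + 1) → F) 1) :
    MapsTo (fun l : F => l • v) (Metric.sphere 0 1) (ov π (Metric.sphere 0 1) {π v}) := by
  intro l hl
  rw [mem_sphere_zero_iff_norm] at hl
  have h2 : l • v ∈ Metric.sphere (0 : Fin (n + 1) → F) 1 := by
    rw [mem_sphere_zero_iff_norm, norm_fsmul, hl, one_mul]
    exact mem_sphere_zero_iff_norm.1 hv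
  exact ⟨h2, ((h.fib v hv _ h2).2 ⟨l, hl, rfl⟩).symm⟩

theorem isCompact_sph : IsCompact (Metric.sphere (0 : Fin (n + 1) → F) 1) := by
  have : ProperSpace (Fin (n + 1) → F) := by
    have : FiniteDimensional ℝ (Fin (n + 1) → F) := inferInstance
    exact FiniteDimensional.proper ℝ _
  exact isCompact_sphere _ _

theorem continuous_smul_vec (v : Fin (n + 1) → F) : Continuous (fun l : F => l • v) := by
  refine continuous_pi fun i => ?_
  exact continuous_id.mul continuous_const

/-- The fibres are spheres. -/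
theorem IsProj.hsph {π : (Fin (n + 1) → F) → M} (h : IsProj π) {k : ℤ}
    (hF : HSph k (Metric.sphere (0 : F) 1)) (y : M) :
    HSph k (ov π (Metric.sphere 0 1) {y}) := by
  obtain ⟨w, hw, hwy⟩ := h.surj y
  obtain ⟨i, hi⟩ := exists_topPart hw
  obtain ⟨v, hv, hvy, hvi⟩ := h.norm_pt (i := i) (y := y) ⟨w, hi, hwy⟩
  have hcov : IsCompact (ov π (Metric.sphere 0 1) {y}) :=
    ov_compact isCompact_sph h.ca isCompact_singleton
  have : ProperSpace F := FiniteDimensional.proper ℝ F
  refine HSph.transport (f := fun v : Fin (n + 1) → F => v i) (g := fun l : F => l • v)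
    (B := Metric.sphere (0 : F) 1)
    (MX.PMap.of_continuous hcov (continuous_apply i) (empty_subset _) ?_ (mapsTo_empty _ _))
    (MX.PMap.of_continuous (isCompact_sphere _ _) (continuous_smul_vec v) (empty_subset _) ?_
      (mapsTo_empty _ _)) ?_ ?_ hF
  · refine (h.maps_coord i).mono_left (ov_mono _ _ ?_)
    rw [singleton_subset_iff]
    exact ⟨w, hi, hwy⟩
  · rw [← hvy]
    exact h.maps_smul hv
  · rintro x ⟨hx, hxy⟩
    rw [mem_preimage, mem_singleton_iff, ← hvy] at hxy
    obtain ⟨l, hl, rfl⟩ := (h.fib v hv x hx).1 hxy.symm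
    rw [Pi.smul_apply, hvi, smul_eq_mul, mul_one]
  · intro l _
    rw [Pi.smul_apply, hvi, smul_eq_mul, mul_one]

variable [CompactSpace M]

/-- The Thom class of the projection. -/
theorem IsProj.exists_thom {π : (Fin (n + 1) → F) → M} (h : IsProj π) {k : ℤ}
    (hF : HSph k (Metric.sphere (0 : F) 1)) :
    ∃ (e : Cc M) (θ : Cc (Fin (n + 1) → F)),
      Thom isCompact_sph h.ca (isCompact_univ (X := M)) k e θ := by
  obtain ⟨θ₀, hθ₀, hθn⟩ := hF.gen
  have hcont : ContinuousOn π (Metric.sphere 0 1) := fun x hx => (h.ca x hx).continuousWithinAt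
  refine TI.exists_thom isCompact_sph h.ca (isCompact_univ (X := M)) (fun y _ => h.hsph hF y)
    Finset.univ (fun i => π '' topPart F n i) (fun i _ => ?_) ?_
    (fun i => pull (fun v : Fin (n + 1) → F => v i) θ₀) (fun i _ => ?_) (fun i _ y hy hb => ?_)
  · exact (isCompact_topPart i).image_of_continuousOn (hcont.mono inter_subset_left)
  · refine eq_univ_of_forall fun y => ?_
    obtain ⟨w, hw, hwy⟩ := h.surj y
    obtain ⟨i, hi⟩ := exists_topPart hw
    exact mem_iUnion₂.2 ⟨i, Finset.mem_univ i, w, hi, hwy⟩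
  · refine hθ₀.pull (CA.of_continuous (continuous_apply i) _) ?_ isCompact_empty
      (h.maps_coord i) (mapsTo_empty _ _)
    exact ov_compact isCompact_sph h.ca
      ((isCompact_topPart i).image_of_continuousOn (hcont.mono inter_subset_left))
  · obtain ⟨v, hv, hvy, hvi⟩ := h.norm_pt hy
    have : ProperSpace F := FiniteDimensional.proper ℝ F
    apply hθn
    have h1 := rbd_of_pull hb (isCompact_sphere (0 : F) 1)
      (CA.of_continuous (continuous_smul_vec v) _) (by rw [← hvy]; exact h.maps_smul hv)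
    rw [pull_pull] at h1
    have h2 : ((fun v : Fin (n + 1) → F => v i) ∘ fun l : F => l • v) = id := by
      funext l
      change (l • v) i = l
      rw [Pi.smul_apply, hvi, smul_eq_mul, mul_one]
    rwa [h2, pull_id] at h1

/-- The cohomology of a projective space. -/
theorem IsProj.mhyp {π : (Fin (n + 1) → F) → M} (h : IsProj π)
    (hd : Module.finrank ℝ F = d) (hn : 1 ≤ n)
    (hF : HSph ((d : ℤ) - 1) (Metric.sphere (0 : F) 1))
    (hV : HSph ((d : ℤ) * (n + 1) - 1) (Metric.sphere (0 : Fin (n + 1) → F) 1)) :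
    ∃ a : Cc M, MHyp d n a := by
  have hd1 : 1 ≤ d := by
    rw [← hd]
    exact Module.finrank_pos
  have hdn : (1 : ℤ) ≤ (d : ℤ) * n := by
    have : 1 ≤ d * n := Nat.mul_pos hd1 hn
    exact_mod_cast this
  have hdZ : (1 : ℤ) ≤ d := by exact_mod_cast hd1
  obtain ⟨e, θ, hT⟩ := h.exists_thom hF
  have hcont : ContinuousOn π (Metric.sphere 0 1) := fun x hx => (h.ca x hx).continuousWithinAt
  have hSy : ∀ y ∈ (univ : Set M), HSph ((d : ℤ) - 1) (ov π (Metric.sphere 0 1) {y}) :=
    fun y _ => h.hsph hF y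
  have hov : ov π (Metric.sphere (0 : Fin (n + 1) → F) 1) univ = Metric.sphere 0 1 := by
    ext v
    simp [ov]
  have hpull : ∀ (j : ℤ) (c : Cc M), Cyc j univ ∅ c →
      Cyc j (Metric.sphere (0 : Fin (n + 1) → F) 1) ∅ (pull π c) := fun j c hc =>
    hc.pull (by rw [union_empty]; exact h.ca) isCompact_sph isCompact_empty (mapsTo_univ _ _)
      (mapsTo_empty _ _)
  have hg : ∀ (j : ℤ) (c : Cc M), Cyc j univ ∅ c →
      Bd j (Metric.sphere (0 : Fin (n + 1) → F) 1) ∅ (pull π c) →
      ∃ c', Cyc (j - d) univ ∅ c' ∧ Bd j univ ∅ (c + cup e c') := by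
    intro j c hc hb
    have := gysin_one isCompact_sph h.ca isCompact_univ hT hSy Subset.rfl isCompact_univ hc
      (by rw [hov]; exact hb)
    rwa [show (d : ℤ) - 1 + 1 = d by ring] at this
  have hdim := dimLe_proj hd π hcont (fun y _ => by
    obtain ⟨v, hv, hvy⟩ := h.surj y
    exact ⟨v, hv, hvy⟩) h.fib
  refine ⟨e, ?_, ?_, ?_, ?_⟩
  · have hdeg : e ∈ Dg M (d : ℤ) := by
      have := hT.dge
      rwa [show (d : ℤ) - 1 + 1 = d by ring] at this
    exact ⟨hdeg, Z_empty hdeg, hT.cyc⟩
  · intro c hc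
    have key : ∀ c : Cc M, Cyc 0 univ ∅ c →
        Bd 0 (Metric.sphere (0 : Fin (n + 1) → F) 1) ∅ (pull π c) → Bd 0 univ ∅ c := by
      intro c hc hb
      obtain ⟨c', hc', h1⟩ := hg 0 c hc hb
      have h2 : c' = 0 := Dg.neg hc'.deg (by omega)
      rwa [h2, cup_zero_right, add_zero] at h1
    rcases hV.low 0 (by nlinarith) _ (hpull 0 c hc) with h1 | ⟨-, h1⟩
    · exact ⟨0, by rw [zero_smul, add_zero]; exact key c hc h1⟩
    · refine ⟨1, ?_⟩
      rw [one_smul]
      have h2 : Cyc 0 univ ∅ (c + one M) := hc.add (one_Cyc univ)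
      refine key _ h2 ?_
      rw [pull_add, one_eq_uno, pull_cst]
      exact h1
  · intro j c hj hj' hc
    refine hg j c hc ?_
    have hne : j ≠ (d : ℤ) * (n + 1) - 1 := by
      push_cast at hj'
      nlinarith
    rcases hV.low j hne _ (hpull j c hc) with h1 | ⟨h0, -⟩
    · exact h1
    · omega
  · intro A j hA hAne hj c hc
    obtain ⟨y, hy⟩ := (ne_univ_iff_exists_notMem A).1 hAne
    obtain ⟨v, hv, hvy⟩ := h.surj y
    push_cast at hj
    have hfr : Module.finrank ℝ (Fin (n + 1) → F) = (d * (n + 1) - 1) + 1 := by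
      rw [Module.finrank_pi_fintype, Finset.sum_const, Finset.card_univ, Fintype.card_fin,
        smul_eq_mul, hd]
      have : 1 ≤ d * (n + 1) := Nat.mul_pos hd1 (Nat.succ_pos n)
      rw [Nat.sub_add_cancel this, mul_comm]
    refine gysin_two isCompact_sph h.ca isCompact_univ hT hSy (subset_univ A) hA.isCompact hc
      ?_ ?_
    · have h1 : Van (j + ((d : ℤ) - 1 + 1)) A ∅ := by
        refine (hdim.closed hA (subset_univ A)).van ?_
        push_cast
        nlinarith
      refine h1 _ ?_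
      have h2 : Cyc ((d : ℤ) - 1 + 1) A ∅ e :=
        ⟨hT.dge, Z_empty hT.dge, Z_anti (subset_univ A) hT.cyc⟩
      have h3 := cyc_cup h2 hc
      rwa [add_comm] at h3
    · refine van_sphere_proper hfr
        (ov_compact isCompact_sph h.ca hA.isCompact) (ov_sub _ _ _)
        (mem_sphere_zero_iff_norm.1 hv) ?_ ?_ ?_
      · rintro ⟨-, hvA⟩
        rw [mem_preimage, hvy] at hvA
        exact hy hvA
      · have : 1 ≤ d * (n + 1) := Nat.mul_pos hd1 (Nat.succ_pos n)
        push_cast [Nat.cast_sub this]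
        nlinarith
      · nlinarith

end proj

section FP

variable (F : Type) [NormedDivisionRing F] [NormedAlgebra ℝ F] [StarRing F] [StarNorm F]
  [FiniteDimensional ℝ F] (n : ℕ)

open Classical in
/-- The projection, with a junk value at zero. -/
noncomputable def prj (v : Fin (n + 1) → F) : FPn F n :=
  if h : v ≠ 0 then mk F n ⟨v, h⟩ else Classical.arbitrary _

theorem prj_of_ne {v : Fin (n + 1) → F} (h : v ≠ 0) : prj F n v = mk F n ⟨v, h⟩ := dif_pos h

theorem isProj_prj : IsProj (prj F n) := by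
  have hne : ∀ v ∈ Metric.sphere (0 : Fin (n + 1) → F) 1, v ≠ 0 := by
    rintro v hv rfl
    rw [mem_sphere_zero_iff_norm, norm_zero] at hv
    exact zero_ne_one hv
  refine ⟨?_, ?_, ?_⟩
  · intro v hv
    have h0 := hne v hv
    have h1 : ContinuousOn (prj F n) {v | v ≠ 0} := by
      rw [continuousOn_iff_continuous_domRestrict]
      have : ({v | v ≠ 0} : Set (Fin (n + 1) → F)).domRestrict (prj F n) = mk F n := by
        funext v
        exact prj_of_ne F n v.2
      rw [this]
      exact mk_continuous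
    exact h1.continuousAt (isOpen_ne.mem_nhds h0)
  · intro y
    obtain ⟨v, rfl⟩ := mk_surjective y
    have hv : ‖(v : Fin (n + 1) → F)‖ ≠ 0 := norm_ne_zero_iff.2 v.2
    set w : Fin (n + 1) → F :=
      (algebraMap ℝ F ‖(v : Fin (n + 1) → F)‖⁻¹) • (v : Fin (n + 1) → F) with hw
    have hws : w ∈ Metric.sphere (0 : Fin (n + 1) → F) 1 := by
      rw [mem_sphere_zero_iff_norm, hw, algebraMap_smul, norm_smul, norm_inv, norm_norm,
        inv_mul_cancel₀ hv]
    refine ⟨w, hws, ?_⟩
    rw [prj_of_ne F n (hne w hws)]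
    refine mk_eq.2 ⟨algebraMap ℝ F ‖(v : Fin (n + 1) → F)‖⁻¹, ?_, rfl⟩
    rw [← norm_ne_zero_iff, norm_algebraMap']
    simpa using hv
  · intro v hv w hw
    rw [prj_of_ne F n (hne v hv), prj_of_ne F n (hne w hw), mk_eq]
    rw [mem_sphere_zero_iff_norm] at hv hw
    constructor
    · rintro ⟨u, hu0, hu⟩
      change u • w = v at hu
      have h1 : ‖u‖ = 1 := by
        have := congrArg norm hu
        rwa [norm_fsmul, hw, hv, mul_one] at this
      refine ⟨u⁻¹, by rw [norm_inv, h1, inv_one], ?_⟩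
      rw [← hu, smul_smul, inv_mul_cancel₀ hu0, one_smul]
    · rintro ⟨l, hl, hlw⟩
      have hl0 : l ≠ 0 := by
        rw [← norm_ne_zero_iff, hl]
        exact one_ne_zero
      refine ⟨l⁻¹, inv_ne_zero hl0, ?_⟩
      change l⁻¹ • w = v
      rw [hlw, smul_smul, inv_mul_cancel₀ hl0, one_smul]

/-- Block R: the cohomology of `FP^n`. -/
theorem mhyp_FPn {d : ℕ} (hd : Module.finrank ℝ F = d) (hn : 1 ≤ n) :
    ∃ a : Cc (FPn F n), MHyp d n a := by
  have hd1 : 1 ≤ d := by
    rw [← hd]
    exact Module.finrank_pos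
  refine (isProj_prj F n).mhyp hd hn ?_ ?_
  · have := hsph_sphere (V := F) (k := d - 1) (by rw [hd]; omega)
    rwa [Nat.cast_sub hd1, Nat.cast_one] at this
  · have h1 : 1 ≤ d * (n + 1) := Nat.mul_pos hd1 (Nat.succ_pos n)
    have := hsph_sphere (V := Fin (n + 1) → F) (k := d * (n + 1) - 1) (by
      rw [Module.finrank_pi_fintype, Finset.sum_const, Finset.card_univ, Fintype.card_fin,
        smul_eq_mul, hd, Nat.sub_add_cancel h1, mul_comm])
    rw [Nat.cast_sub h1] at this
    push_cast at this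
    exact this

end FP

end TI
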