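import Pool.Agent.TI.Final
import Pool.Agent.TI.Ring
import Pool.Agent.TI.LHfin

/-!
# MP_9697d1_gt: the theorem
-/

namespace TI

theorem goal : Goal :=
  goal_of stmt_LH (fun n hn => mhyp_FPn ℝ n rfl hn) (fun n hn => mhyp_FPn ℂ n rfl hn)
    (fun n hn => mhyp_FPn (Quaternion ℝ) n rfl hn)

end TI
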