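import Pool.Agent.TI.Gysin

/-!
# Gluing of local classes, Thom classes, the Gysin sequence
-/

set_option autoImplicit false
set_option linter.unusedSectionVars false

namespace TI

open Set Filter Topology Pool.Agent.VC

universe u v w

section thy

variable {Y : Type v} [MetricSpace Y] {K : Set Y} {W : Type w} [AddCommGroup W]

theorem isBd_add_Z {T : Thy K W} {p : ℤ} {A : Set Y} {w z : W} (h : T.IsBd p A w)
    (hz : z ∈ T.Z A) : T.IsBd p A (w + z) := by
  obtain ⟨v, hv, h1⟩ := h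
  refine ⟨v, hv, ?_⟩
  have h2 := add_mem h1 hz
  rwa [show w + T.d v + z = w + z + T.d v by abel] at h2

theorem isBd_add_d {T : Thy K W} {p : ℤ} {A : Set Y} {w v : W} (h : T.IsBd p A w)
    (hv : v ∈ T.gr (p - 1)) : T.IsBd p A (w + T.d v) := by
  obtain ⟨u, hu, h1⟩ := h
  refine ⟨u + v, add_mem hu hv, ?_⟩
  have h2 : w + T.d v + T.d (u + v) = w + T.d u := by
    rw [map_add]
    have := T.two (T.d v)
    calc w + T.d v + (T.d u + T.d v) = w + T.d u + (T.d v + T.d v) := by abel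
      _ = _ := by rw [this, add_zero]
  rw [h2]
  exact h1

/-- Local classes that are not zero at the points glue, if there is at most one non-zero class at
every point and the cohomology of one degree less vanishes. -/
theorem glue_class (T : Thy K W) {p : ℤ}
    (hprev : ∀ A ⊆ K, IsCompact A → T.Acyc (p - 1) A)
    (huniq : ∀ y ∈ K, ∀ w w', w ∈ T.gr p → w' ∈ T.gr p → T.d w ∈ T.Z {y} → T.d w' ∈ T.Z {y} →
      ¬ T.IsBd p {y} w → ¬ T.IsBd p {y} w' → T.IsBd p {y} (w + w'))
    {ι : Type*} (s : Finset ι) (U : ι → Set Y) (hU : ∀ i ∈ s, U i ⊆ K)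
    (hUc : ∀ i ∈ s, IsCompact (U i)) (σ : ι → W) (hσ : ∀ i ∈ s, σ i ∈ T.gr p)
    (hσd : ∀ i ∈ s, T.d (σ i) ∈ T.Z (U i)) (hσn : ∀ i ∈ s, ∀ y ∈ U i, ¬ T.IsBd p {y} (σ i)) :
    ∃ τ ∈ T.gr p, T.d τ ∈ T.Z (⋃ i ∈ s, U i) ∧ ∀ y ∈ ⋃ i ∈ s, U i, ¬ T.IsBd p {y} τ := by
  classical
  induction s using Finset.induction_on with
  | empty =>
    refine ⟨0, zero_mem _, by rw [map_zero]; exact zero_mem _, ?_⟩
    intro y hy
    simp at hy
  | insert a s ha ih =>
    obtain ⟨τ, hτ, hτd, hτn⟩ := ih (fun i hi => hU i (Finset.mem_insert_of_mem hi))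
      (fun i hi => hUc i (Finset.mem_insert_of_mem hi))
      (fun i hi => hσ i (Finset.mem_insert_of_mem hi))
      (fun i hi => hσd i (Finset.mem_insert_of_mem hi))
      (fun i hi => hσn i (Finset.mem_insert_of_mem hi))
    have haI : a ∈ insert a s := Finset.mem_insert_self a s
    have hA : U a ⊆ K := hU a haI
    have hAc : IsCompact (U a) := hUc a haI
    set B : Set Y := ⋃ i ∈ s, U i with hBdef
    have hB : B ⊆ K := iUnion₂_subset (fun i hi => hU i (Finset.mem_insert_of_mem hi))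
    have hBc : IsCompact B :=
      s.isCompact_biUnion (fun i hi => hUc i (Finset.mem_insert_of_mem hi))
    have hABK : U a ∩ B ⊆ K := inter_subset_left.trans hA
    have h1 : T.IsBd p (U a ∩ B) (σ a + τ) := by
      refine T.elt hprev hABK (hAc.inter hBc) (add_mem (hσ a haI) hτ) ?_
      intro y hy
      exact huniq y (hABK hy) _ _ (hσ a haI) hτ
        (T.anti _ _ (singleton_subset_iff.2 hy.1) hA (hσd a haI))
        (T.anti _ _ (singleton_subset_iff.2 hy.2) hB hτd)
        (hσn a haI y hy.1) (hτn y hy.2)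
    obtain ⟨v, hv, h2⟩ := h1
    have hdv : T.d v ∈ T.gr p := by
      have := T.d_gr _ v hv
      rwa [sub_add_cancel] at this
    obtain ⟨z₁, hz₁, z₂, hz₂, hz₁A, hz₂B, hz⟩ := T.inter (U a) hA hAc B hB hBc p _
      (add_mem (add_mem (hσ a haI) hτ) hdv) h2
    have h3 : σ a + z₁ = τ + T.d v + z₂ := by
      have h8 := T.two τ
      have h9 := T.two (T.d v)
      have h10 := T.two z₁
      calc σ a + z₁ = (σ a + τ + T.d v) + (τ + T.d v + z₁) + (-(τ + τ) - (T.d v + T.d v)) := by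
            abel
        _ = (z₁ + z₂) + (τ + T.d v + z₁) + (-(τ + τ) - (T.d v + T.d v)) := by rw [hz]
        _ = (z₁ + z₁) + (τ + T.d v + z₂) + (-(τ + τ) - (T.d v + T.d v)) := by abel
        _ = _ := by rw [h8, h9, h10]; abel
    refine ⟨σ a + z₁, add_mem (hσ a haI) hz₁, ?_, ?_⟩
    · rw [Finset.set_biUnion_insert]
      refine T.union _ hA hAc B hB hBc _ ?_ ?_
      · rw [map_add]
        exact add_mem (hσd a haI) (T.d_Z _ _ hz₁ _ hA hAc hz₁A)
      · rw [h3, map_add, map_add]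
        exact add_mem (add_mem hτd (T.dd_Z _ v hv B hB hBc)) (T.d_Z _ _ hz₂ B hB hBc hz₂B)
    · rw [Finset.set_biUnion_insert]
      rintro y (hy | hy) hbd
      · refine hσn a haI y hy ?_
        have h4 := isBd_add_Z hbd (T.anti _ _ (singleton_subset_iff.2 hy) hA hz₁A)
        rwa [add_assoc, T.two, add_zero] at h4
      · refine hτn y hy ?_
        rw [h3] at hbd
        have h4 := isBd_add_Z hbd (T.anti _ _ (singleton_subset_iff.2 hy) hB hz₂B)
        rw [add_assoc, T.two, add_zero] at h4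
        have h5 := isBd_add_d h4 hv
        rwa [add_assoc, T.two, add_zero] at h5

end thy

section gysin

variable {X : Type u} {Y : Type v} [MetricSpace X] [MetricSpace Y]
  {f : X → Y} {E : Set X} {K : Set Y}

/-- A Thom class of `f : E → K`: a relative cocycle of degree `k` that is not zero at any point. -/
structure Thom (hE : IsCompact E) (hf : CA f E) (hK : IsCompact K) (k : ℤ) (e : Cc Y)
    (θ : Cc X) : Prop where
  dge : e ∈ Dg Y (k + 1)
  dgθ : θ ∈ Dg X k
  cyc : dd e ∈ Z K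
  rel : dd θ + pull f e ∈ Z (ov f E K)
  ne : ∀ y ∈ K, ¬ (relT f hE hf hK).IsBd k {y} (e, θ)

/-- Multiplication by the Thom class. -/
def mulMor (hE : IsCompact E) (hf : CA f E) (hK : IsCompact K) {k : ℤ} {e : Cc Y} {θ : Cc X}
    (h : Thom hE hf hK k e θ) :
    Mor (ovT (fun y : Y => y) hK (CA.id K) K) (relT f hE hf hK) k where
  μ := { toFun := fun c => (cup e c, cup θ (pull f c))
         map_zero' := by simp
         map_add' := by
          intro a b
          rw [Prod.mk_add_mk, cup_add_right, pull_add, cup_add_right] }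
  gr p w hw := by
    rw [relT_gr]
    refine ⟨?_, ?_⟩
    · have := cup_Dg h.dge hw
      rwa [show k + 1 + p = p + k + 1 by ring] at this
    · have := cup_Dg h.dgθ (pull_Dg f hw)
      rwa [add_comm k p] at this
  Z p w _ A hA hAc hwA := by
    change w ∈ Z (ov (fun y : Y => y) K A) at hwA
    rw [ov_id K A hA] at hwA
    rw [relT_Z hE hf hK hA]
    exact ⟨cup_Z_right e hwA, cup_Z_right θ
      (pull_Z (hf.mono (ov_sub f E A)) (ov_compact hE hf hAc) (ov_maps f E A) hwA)⟩
  comm p w hw A hA hAc := by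
    rw [relT_Z hE hf hK hA]
    have hw' : w ∈ Dg Y p := hw
    refine ⟨?_, ?_⟩
    · change cup e (dd w) + dd (cup e w) ∈ _
      rw [dd_cup h.dge hw', add_comm, add_assoc, add_self, add_zero]
      exact cup_Z_left w (Z_anti hA h.cyc)
    · change cup θ (pull f (dd w)) + (dd (cup θ (pull f w)) + pull f (cup e w)) ∈ _
      have h1 : cup θ (pull f (dd w)) + (dd (cup θ (pull f w)) + pull f (cup e w)) =
          cup (dd θ + pull f e) (pull f w) := by
        rw [dd_cup h.dgθ (pull_Dg f hw'), cup_add_left, cup_pull, dd_pull]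
        have := add_self (cup θ (pull f (dd w)))
        calc cup θ (pull f (dd w)) + (cup (dd θ) (pull f w) + cup θ (pull f (dd w)) +
              pull f (cup e w))
            = (cup θ (pull f (dd w)) + cup θ (pull f (dd w))) + (cup (dd θ) (pull f w) +
              pull f (cup e w)) := by abel
          _ = _ := by rw [this, zero_add]
      rw [h1]
      exact cup_Z_left _ (Z_anti (ov_mono f E hA) h.rel)

theorem mulMor_μ (hE : IsCompact E) (hf : CA f E) (hK : IsCompact K) {k : ℤ} {e : Cc Y}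
    {θ : Cc X} (h : Thom hE hf hK k e θ) (c : Cc Y) :
    (mulMor hE hf hK h).μ c = (cup e c, cup θ (pull f c)) := rfl

theorem base_gr (hK : IsCompact K) {p : ℤ} {c : Cc Y} :
    c ∈ (ovT (fun y : Y => y) hK (CA.id K) K).gr p ↔ c ∈ Dg Y p := Iff.rfl

theorem base_Z (hK : IsCompact K) {A : Set Y} (hA : A ⊆ K) {c : Cc Y} :
    c ∈ (ovT (fun y : Y => y) hK (CA.id K) K).Z A ↔ c ∈ Z A := by
  change c ∈ Z (ov (fun y : Y => y) K A) ↔ _
  rw [ov_id K A hA]

theorem base_d (hK : IsCompact K) (c : Cc Y) :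
    (ovT (fun y : Y => y) hK (CA.id K) K).d c = dd c := rfl

/-- The cone of the multiplication by a Thom class is acyclic at the points. -/
theorem mul_acyc_pt (hE : IsCompact E) (hf : CA f E) (hK : IsCompact K) {k : ℤ} {e : Cc Y}
    {θ : Cc X} (h : Thom hE hf hK k e θ) {y : Y} (hy : y ∈ K) (hS : HSph k (ov f E {y}))
    (p : ℤ) : (mulMor hE hf hK h).cone.Acyc p {y} := by
  have hyK : ({y} : Set Y) ⊆ K := singleton_subset_iff.2 hy
  set R := relT f hE hf hK with hR
  set F : Mor _ R k := mulMor hE hf hK h with hF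
  rintro ⟨a, w⟩ hw hdw
  rw [Mor.mem_gr] at hw
  rw [Mor.mem_Z, Mor.cone_d] at hdw
  obtain ⟨ha, hw⟩ := hw
  obtain ⟨hda, hdw⟩ := hdw
  simp only at ha hw hda hdw
  rw [base_gr] at ha
  rw [base_Z hK hyK, base_d] at hda
  -- reduction
  have fin : ∀ a' ∈ Dg Y (p - k), a + dd a' ∈ Z ({y} : Set Y) → R.IsBd p {y} (w + F.μ a') →
      F.cone.IsBd p {y} (a, w) := by
    rintro a' ha' h1 ⟨w', hw', h2⟩
    refine ⟨(a', w'), ⟨?_, hw'⟩, ?_⟩
    · change a' ∈ Dg Y (p - 1 - k + 1)
      rwa [show p - 1 - k + 1 = p - k by ring]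
    · rw [Mor.mem_Z]
      refine ⟨?_, ?_⟩
      · rw [base_Z hK hyK]
        exact h1
      · change w + (R.d w' + F.μ a') ∈ R.Z {y}
        rw [show w + (R.d w' + F.μ a') = w + F.μ a' + R.d w' by abel]
        exact h2
  have hμgr : ∀ a' ∈ Dg Y (p - k), F.μ a' ∈ R.gr p := by
    intro a' ha'
    have := F.gr _ a' ha'
    rwa [sub_add_cancel] at this
  have hμd : ∀ a' ∈ Dg Y (p - k), a + dd a' ∈ Z ({y} : Set Y) → R.d (w + F.μ a') ∈ R.Z {y} := by
    intro a' ha' h1
    have h2 := F.comm _ a' ha' _ hyK isCompact_singleton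
    have hdeg : a + dd a' ∈ Dg Y (p - k + 1) := add_mem ha (dd_Dg ha')
    have h3 := F.Z _ (a + dd a') hdeg _ hyK isCompact_singleton ((base_Z hK hyK).2 h1)
    rw [map_add] at h3
    have h4 := add_mem (add_mem hdw h3) h2
    rw [map_add]
    have h5 : R.d w + F.μ a + (F.μ a + F.μ (dd a')) +
        (F.μ ((ovT (fun y : Y => y) hK (CA.id K) K).d a') + R.d (F.μ a')) =
        R.d w + R.d (F.μ a') := by
      rw [base_d]
      have h6 := R.two (F.μ a)
      have h7 := R.two (F.μ (dd a'))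
      calc _ = R.d w + R.d (F.μ a') + (F.μ a + F.μ a) + (F.μ (dd a') + F.μ (dd a')) := by abel
        _ = _ := by rw [h6, h7, add_zero, add_zero]
    rwa [h5] at h4
  have hzero : (0 : Cc Y) ∈ Dg Y (p - k) := zero_mem _
  have huno : F.μ (uno Y) = (e, θ) := by
    rw [hF, mulMor_μ, pull_cst, cup_uno h.dge, cup_uno h.dgθ]
  rcases lt_trichotomy (p - k + 1) 0 with hq | hq | hq
  · have h1 : a = 0 := Dg.neg ha hq
    have h2 : a + dd 0 ∈ Z ({y} : Set Y) := by rw [h1, dd_zero, add_zero]; exact zero_mem _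
    refine fin 0 hzero h2 ?_
    exact rel_acyc hE hf hK hy hS (by omega) _ (add_mem hw (hμgr 0 hzero)) (hμd 0 hzero h2)
  · rw [hq] at ha
    obtain ⟨κ, hκ⟩ := pt_zero ⟨ha, Z_empty ha, hda⟩
    rcases (by decide : ∀ a : ZMod 2, a = 0 ∨ a = 1) κ with h7 | h7
    · rw [h7, zero_smul, add_zero] at hκ
      have h2 : a + dd 0 ∈ Z ({y} : Set Y) := by rw [dd_zero, add_zero]; exact hκ
      refine fin 0 hzero h2 ?_
      exact rel_acyc hE hf hK hy hS (by omega) _ (add_mem hw (hμgr 0 hzero)) (hμd 0 hzero h2)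
    · exfalso
      rw [h7, one_smul] at hκ
      refine h.ne y hy ⟨w, ?_, ?_⟩
      · rwa [show k - 1 = p by omega]
      · have hdeg : a + uno Y ∈ Dg Y (0 : ℤ) := add_mem ha (uno_Dg Y)
        have h3 := F.Z _ (a + uno Y) hdeg _ hyK isCompact_singleton ((base_Z hK hyK).2 hκ)
        rw [map_add, huno] at h3
        have h4 := add_mem hdw h3
        have h5 : R.d w + F.μ a + (F.μ a + (e, θ)) = (e, θ) + R.d w := by
          have h6 := R.two (F.μ a)
          calc _ = (e, θ) + R.d w + (F.μ a + F.μ a) := by abel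
            _ = _ := by rw [h6, add_zero]
        rwa [h5] at h4
  · obtain ⟨b, hb, -, h1⟩ := van_pt hq y a ⟨ha, Z_empty ha, hda⟩
    rw [add_sub_cancel_right] at hb
    by_cases hp : p = k
    · by_cases h2 : R.IsBd p {y} (w + F.μ b)
      · exact fin b hb h1 h2
      · have hu : uno Y ∈ Dg Y (p - k) := by
          rw [hp, sub_self]
          exact uno_Dg Y
        refine fin (b + uno Y) (add_mem hb hu) ?_ ?_
        · rw [dd_add, dd_uno, add_zero]
          exact h1
        · rw [map_add, huno, ← add_assoc]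
          subst hp
          refine rel_uniq hE hf hK hy hS (add_mem hw (hμgr b hb)) ?_ (hμd b hb h1) ?_ h2
            (h.ne y hy)
          · rw [relT_gr]
            exact ⟨h.dge, h.dgθ⟩
          · rw [relT_Z hE hf hK hyK, relT_d]
            exact ⟨Z_anti hyK h.cyc, Z_anti (ov_mono f E hyK) h.rel⟩
    · refine fin b hb h1 ?_
      exact rel_acyc hE hf hK hy hS hp _ (add_mem hw (hμgr b hb)) (hμd b hb h1)

/-- The cone of the multiplication by a Thom class is acyclic. -/
theorem mul_acyc (hE : IsCompact E) (hf : CA f E) (hK : IsCompact K) {k : ℤ} {e : Cc Y}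
    {θ : Cc X} (h : Thom hE hf hK k e θ) (hS : ∀ y ∈ K, HSph k (ov f E {y}))
    (p : ℤ) {A : Set Y} (hA : A ⊆ K) (hAc : IsCompact A) :
    (mulMor hE hf hK h).cone.Acyc p A :=
  (mulMor hE hf hK h).cone.vanish (P := p)
    (fun y hy p _ => mul_acyc_pt hE hf hK h hy (hS y hy) p) p le_rfl A hA hAc

/-- Exactness of the Gysin sequence: a class of the base that vanishes upstairs is a multiple of
the Euler class. -/
theorem gysin_one (hE : IsCompact E) (hf : CA f E) (hK : IsCompact K) {k : ℤ} {e : Cc Y}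
    {θ : Cc X} (h : Thom hE hf hK k e θ) (hS : ∀ y ∈ K, HSph k (ov f E {y}))
    {A : Set Y} (hA : A ⊆ K) (hAc : IsCompact A) {j : ℤ} {c : Cc Y} (hc : Cyc j A ∅ c)
    (hb : Bd j (ov f E A) ∅ (pull f c)) :
    ∃ c', Cyc (j - (k + 1)) A ∅ c' ∧ Bd j A ∅ (c + cup e c') := by
  obtain ⟨η, hη, -, h1⟩ := hb
  have hac := mul_acyc hE hf hK h hS (j - 1) hA hAc
  obtain ⟨⟨a, w⟩, hv, hz⟩ := hac (0, (c, η)) (by
    rw [Mor.mem_gr]
    refine ⟨zero_mem _, ?_⟩
    rw [relT_gr]
    refine ⟨?_, hη⟩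
    rw [sub_add_cancel]
    exact hc.deg) (by
    rw [Mor.mem_Z, Mor.cone_d]
    refine ⟨?_, ?_⟩
    · simp only [map_zero]
      exact zero_mem _
    · simp only [map_zero, add_zero]
      rw [relT_Z hE hf hK hA, relT_d]
      refine ⟨hc.cyc, ?_⟩
      rw [add_comm]
      exact h1)
  rw [Mor.mem_gr] at hv
  rw [Mor.mem_Z, Mor.cone_d] at hz
  obtain ⟨ha, hw⟩ := hv
  obtain ⟨hz1, hz2⟩ := hz
  simp only [Prod.fst_add, Prod.snd_add, zero_add] at ha hw hz1 hz2
  rw [base_gr] at ha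
  rw [base_Z hK hA, base_d] at hz1
  rw [relT_gr, sub_add_cancel] at hw
  rw [relT_Z hE hf hK hA, relT_d, mulMor_μ] at hz2
  have ha' : a ∈ Dg Y (j - (k + 1)) := by
    rwa [show j - 1 - 1 - k + 1 = j - (k + 1) by ring] at ha
  refine ⟨a, ⟨ha', Z_empty ha', hz1⟩, w.1, hw.1, Z_empty hw.1, ?_⟩
  have h2 := hz2.1
  simp only [Prod.fst_add] at h2
  rw [show c + cup e a + dd w.1 = c + (dd w.1 + cup e a) by abel]
  exact h2

/-- Exactness of the Gysin sequence: a class that is killed by the Euler class comes from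
upstairs. -/
theorem gysin_two (hE : IsCompact E) (hf : CA f E) (hK : IsCompact K) {k : ℤ} {e : Cc Y}
    {θ : Cc X} (h : Thom hE hf hK k e θ) (hS : ∀ y ∈ K, HSph k (ov f E {y}))
    {A : Set Y} (hA : A ⊆ K) (hAc : IsCompact A) {i : ℤ} {c : Cc Y} (hc : Cyc i A ∅ c)
    (hb : Bd (i + (k + 1)) A ∅ (cup e c)) (hV : Van (i + k) (ov f E A) ∅) :
    Bd i A ∅ c := by
  obtain ⟨b, hbd, -, h1⟩ := hb
  have hovc : IsCompact (ov f E A) := ov_compact hE hf hAc
  have hfo : CA f (ov f E A) := hf.mono (ov_sub f E A)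
  have hfm : MapsTo f (ov f E A) A := ov_maps f E A
  have hbd' : b ∈ Dg Y (i + k) := by
    rwa [show i + (k + 1) - 1 = i + k by ring] at hbd
  have hd : pull f b + cup θ (pull f c) ∈ Dg X (i + k) := by
    refine add_mem (pull_Dg f hbd') ?_
    have := cup_Dg h.dgθ (pull_Dg f hc.deg)
    rwa [add_comm k i] at this
  have hcyc : Cyc (i + k) (ov f E A) ∅ (pull f b + cup θ (pull f c)) := by
    refine ⟨hd, Z_empty hd, ?_⟩
    have h2 : pull f (cup e c + dd b) ∈ Z (ov f E A) := pull_Z hfo hovc hfm h1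
    have h3 : cup (dd θ + pull f e) (pull f c) ∈ Z (ov f E A) :=
      cup_Z_left _ (Z_anti (ov_mono f E hA) h.rel)
    have h4 : cup θ (pull f (dd c)) ∈ Z (ov f E A) :=
      cup_Z_right _ (pull_Z hfo hovc hfm hc.cyc)
    have h5 := add_mem (add_mem h2 h3) h4
    have h6 : pull f (cup e c + dd b) + cup (dd θ + pull f e) (pull f c) +
        cup θ (pull f (dd c)) = dd (pull f b + cup θ (pull f c)) := by
      rw [dd_add, dd_cup h.dgθ (pull_Dg f hc.deg), cup_add_left, cup_pull, pull_add, dd_pull,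
        dd_pull]
      have := add_self (pull f (cup e c))
      calc _ = pull f (dd b) + (cup (dd θ) (pull f c) + cup θ (pull f (dd c))) +
            (pull f (cup e c) + pull f (cup e c)) := by abel
        _ = _ := by rw [this, add_zero]
    rwa [h6] at h5
  obtain ⟨η, hη, -, h7⟩ := hV _ hcyc
  have hac := mul_acyc hE hf hK h hS (i + k - 1) hA hAc
  obtain ⟨⟨a, w⟩, hv, hz⟩ := hac (c, (b, η)) (by
    rw [Mor.mem_gr]
    refine ⟨?_, ?_⟩
    · rw [base_gr, show i + k - 1 - k + 1 = i by ring]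
      exact hc.deg
    · rw [relT_gr, sub_add_cancel]
      exact ⟨hbd', hη⟩) (by
    rw [Mor.mem_Z, Mor.cone_d]
    refine ⟨?_, ?_⟩
    · rw [base_Z hK hA, base_d]
      exact hc.cyc
    · rw [relT_Z hE hf hK hA, relT_d, mulMor_μ]
      refine ⟨?_, ?_⟩
      · change dd b + cup e c ∈ _
        rw [add_comm]
        exact h1
      · change dd η + pull f b + cup θ (pull f c) ∈ _
        rw [show dd η + pull f b + cup θ (pull f c) = pull f b + cup θ (pull f c) + dd η by abel]
        exact h7)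
  rw [Mor.mem_gr] at hv
  rw [Mor.mem_Z, Mor.cone_d] at hz
  obtain ⟨ha, -⟩ := hv
  obtain ⟨hz1, -⟩ := hz
  simp only [Prod.fst_add] at ha hz1
  rw [base_gr] at ha
  rw [base_Z hK hA, base_d] at hz1
  have ha' : a ∈ Dg Y (i - 1) := by
    rwa [show i + k - 1 - 1 - k + 1 = i - 1 by ring] at ha
  exact ⟨a, ha', Z_empty ha', hz1⟩

/-- Existence of a Thom class, from local ones. -/
theorem exists_thom (hE : IsCompact E) (hf : CA f E) (hK : IsCompact K) {k : ℤ}
    (hS : ∀ y ∈ K, HSph k (ov f E {y})) {ι : Type*} (s : Finset ι) (U : ι → Set Y)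
    (hUc : ∀ i ∈ s, IsCompact (U i)) (hUK : ⋃ i ∈ s, U i = K) (θ : ι → Cc X)
    (hθ : ∀ i ∈ s, Cyc k (ov f E (U i)) ∅ (θ i))
    (hθn : ∀ i ∈ s, ∀ y ∈ U i, ¬ RBd k (ov f E {y}) (θ i)) :
    ∃ (e : Cc Y) (θ' : Cc X), Thom hE hf hK k e θ' := by
  have hU : ∀ i ∈ s, U i ⊆ K := fun i hi => by
    rw [← hUK]
    exact subset_biUnion_of_mem (u := fun i => U i) hi
  obtain ⟨⟨e, θ'⟩, h1, h2, h3⟩ := glue_class (relT f hE hf hK) (p := k) (fun A hA hAc =>
    (relT f hE hf hK).vanish (P := k - 1)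
      (fun y hy p hp => rel_acyc hE hf hK hy (hS y hy) (by omega)) (k - 1) le_rfl A hA hAc)
    (fun y hy w w' hw hw' hd hd' h h' => rel_uniq hE hf hK hy (hS y hy) hw hw' hd hd' h h')
    s U hU hUc (fun i => ((0 : Cc Y), θ i))
    (fun i hi => by
      rw [relT_gr]
      exact ⟨zero_mem _, (hθ i hi).deg⟩)
    (fun i hi => by
      rw [relT_Z hE hf hK (hU i hi), relT_d]
      refine ⟨?_, ?_⟩
      · change dd 0 ∈ _
        rw [dd_zero]
        exact zero_mem _
      · change dd (θ i) + pull f 0 ∈ _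
        rw [pull_zero, add_zero]
        exact (hθ i hi).cyc)
    (fun i hi y hy => by
      rw [rel_bd_iff hE hf hK (hU i hi hy) (hθ i hi).deg (b := 0) (zero_mem _) (by
        rw [dd_zero, add_zero]
        exact zero_mem _), pull_zero, add_zero]
      exact hθn i hi y hy)
  rw [hUK] at h2 h3
  rw [relT_gr] at h1
  rw [relT_Z hE hf hK Subset.rfl, relT_d] at h2
  exact ⟨e, θ', h1.1, h1.2, h2.1, h2.2, h3⟩

end gysin

end TI
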